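import Mathlib

/-!
# Smooth points (MP_1858fb): algebra (pieces SP-A, SP-B, SP-C, SP-F)

* `nak`, `nak_deg`: a family of polynomials over a local ring generates the unit ideal if its reduction does;
* `key`: `r (F - μ w) = p H` implies `p ∣ r ^ 3 det (F, D₁ F, D₂ F)`;
* `gcd_one`: `F` meets the point `w` only where it is prescribed, and transversally there;
* `exists_hom`, `adjoin_hom`: Zariski's lemma.
-/

set_option autoImplicit false

namespace Pool.Agent.VFS

open Polynomial

/-! ### SP-A: Nakayama for polynomials -/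

section Nak

variable {R κ ι : Type*} [CommRing R] [IsLocalRing R] [Field κ]

theorem nak (φ : R →+* κ) (hφ : Function.Surjective φ) (M : ι → R[X]) (l₀ : ι)
    (hl : IsUnit (M l₀).leadingCoeff)
    (hM : Ideal.span (Set.range fun l => (M l).map φ) = ⊤) : Ideal.span (Set.range M) = ⊤ := by
  set I : Ideal R[X] := Ideal.span (Set.range M) with hI
  -- a monic element of `I`
  obtain ⟨u, hu⟩ := hl
  have hmon : (C (↑u⁻¹ : R) * M l₀).Monic := by
    rw [Monic, leadingCoeff_mul' (by
      rw [leadingCoeff_C, ← hu]; simp), leadingCoeff_C, ← hu]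
    simp
  have hmem : C (↑u⁻¹ : R) * M l₀ ∈ I := Ideal.mul_mem_left _ _ (Ideal.subset_span ⟨l₀, rfl⟩)
  have hfin : Module.Finite R (R[X] ⧸ I) := by
    have h1 : Module.Finite R (R[X] ⧸ Ideal.span {C (↑u⁻¹ : R) * M l₀}) := hmon.finite_quotient
    have hle : Ideal.span {C (↑u⁻¹ : R) * M l₀} ≤ I := (Ideal.span_singleton_le_iff_mem _).2 hmem
    exact Module.Finite.of_surjective
      (Ideal.Quotient.factorₐ R hle).toLinearMap (Ideal.Quotient.factor_surjective hle)
  -- the kernel of `φ` lies in the maximal ideal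
  have hker : RingHom.ker φ ≤ IsLocalRing.maximalIdeal R :=
    IsLocalRing.le_maximalIdeal (RingHom.ker_ne_top φ)
  -- `1 ∈ I + (ker φ) R[X]`
  have h1 : (1 : R[X]) ∈ I ⊔ (RingHom.ker φ).map C := by
    have h2 : (I ⊔ (RingHom.ker φ).map C).map (mapRingHom φ) = ⊤ := by
      rw [eq_top_iff, ← hM, Ideal.span_le]
      rintro _ ⟨l, rfl⟩
      exact Ideal.mem_map_of_mem (mapRingHom φ) (Ideal.mem_sup_left (Ideal.subset_span ⟨l, rfl⟩))
    have hs : Function.Surjective (mapRingHom φ) := map_surjective φ hφ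
    have h3 : (1 : κ[X]) ∈ (I ⊔ (RingHom.ker φ).map C).map (mapRingHom φ) := h2 ▸ Submodule.mem_top
    obtain ⟨f, hf, hf1⟩ := (Ideal.mem_map_iff_of_surjective _ hs).1 h3
    have h4 : f - 1 ∈ (RingHom.ker φ).map C := by
      rw [Ideal.mem_map_C_iff]
      intro n
      have h5 := congrArg (fun q : κ[X] => q.coeff n) hf1
      simp only [coe_mapRingHom, coeff_map] at h5
      rw [RingHom.mem_ker, coeff_sub, map_sub, h5, coeff_one, coeff_one]
      split_ifs <;> simp
    have h5 : (1 : R[X]) = f - (f - 1) := by ring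
    rw [h5]
    exact Ideal.sub_mem _ hf (Ideal.mem_sup_right h4)
  have hN : (⊤ : Submodule R (R[X] ⧸ I)) = ⊥ := by
    refine Submodule.eq_bot_of_le_smul_of_le_jacobson_bot (IsLocalRing.maximalIdeal R) ⊤
      hfin.fg_top ?_ (le_of_eq (IsLocalRing.jacobson_eq_maximalIdeal ⊥ bot_ne_top).symm)
    intro x _
    obtain ⟨y, rfl⟩ := Ideal.Quotient.mk_surjective x
    obtain ⟨a, ha, b, hb, hab⟩ := Submodule.mem_sup.1 h1
    have h6 : Ideal.Quotient.mk I y = Ideal.Quotient.mk I (b * y) := by
      rw [Ideal.Quotient.eq]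
      have : y - b * y = a * y := by
        calc y - b * y = (1 - b) * y := by ring
          _ = a * y := by rw [← hab]; ring
      rw [this]
      exact Ideal.mul_mem_right _ _ ha
    rw [h6]
    have h7 : ∀ b ∈ (RingHom.ker φ).map (C : R →+* R[X]), ∀ y : R[X], Ideal.Quotient.mk I (b * y) ∈
        (IsLocalRing.maximalIdeal R) • (⊤ : Submodule R (R[X] ⧸ I)) := by
      intro b hb
      refine Submodule.span_induction ?_ ?_ ?_ ?_ hb
      · rintro _ ⟨r, hr, rfl⟩ y
        have : Ideal.Quotient.mk I (C r * y) = r • Ideal.Quotient.mk I y := by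
          rw [← smul_eq_C_mul]; rfl
        rw [this]
        exact Submodule.smul_mem_smul (hker hr) Submodule.mem_top
      · intro y; simp
      · intro u v _ _ hu hv y
        rw [add_mul, map_add]
        exact Submodule.add_mem _ (hu y) (hv y)
      · intro c u _ hu y
        rw [smul_eq_mul, mul_comm c u, mul_assoc]
        exact hu (c * y)
    exact h7 b hb y
  have h8 : (Ideal.Quotient.mk I (1 : R[X])) = 0 := by
    have : Ideal.Quotient.mk I (1 : R[X]) ∈ (⊤ : Submodule R (R[X] ⧸ I)) := Submodule.mem_top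
    rw [hN] at this
    exact (Submodule.mem_bot R).1 this
  exact (Ideal.eq_top_iff_one I).2 (Ideal.Quotient.eq_zero_iff_mem.1 h8)

theorem nak_deg [IsAlgClosed κ] (φ : R →+* κ) (hφ : Function.Surjective φ) (M : ι → R[X]) (D : ℕ)
    (hD : ∀ l, (M l).natDegree ≤ D)
    (h0 : ∀ x : κ, ∃ l, ((M l).map φ).eval x ≠ 0) (hoo : ∃ l, φ ((M l).coeff D) ≠ 0) :
    Ideal.span (Set.range M) = ⊤ := by
  obtain ⟨l₀, hl₀⟩ := hoo
  have hu : IsUnit ((M l₀).coeff D) := by
    by_contra h
    have h1 : (M l₀).coeff D ∈ IsLocalRing.maximalIdeal R := (IsLocalRing.mem_maximalIdeal _).2 h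
    have h2 : IsLocalRing.maximalIdeal R = RingHom.ker φ := by
      have := RingHom.ker_isMaximal_of_surjective φ hφ
      exact (IsLocalRing.eq_maximalIdeal this).symm
    rw [h2, RingHom.mem_ker] at h1
    exact hl₀ h1
  have hlc : (M l₀).leadingCoeff = (M l₀).coeff D := by
    have h1 : D ≤ (M l₀).natDegree := le_natDegree_of_ne_zero hu.ne_zero
    rw [leadingCoeff, le_antisymm (hD l₀) h1]
  refine nak φ hφ M l₀ (hlc ▸ hu) ?_
  by_contra hne
  obtain ⟨P, hP, hle⟩ := Ideal.exists_le_maximal _ hne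
  have hPp : P.IsPrincipal := inferInstance
  obtain ⟨g, hg⟩ := hPp
  have hgP : P = Ideal.span {g} := hg
  by_cases hg0 : g = 0
  · have h1 : ((M l₀).map φ) ∈ P := hle (Ideal.subset_span ⟨l₀, rfl⟩)
    rw [hgP, hg0, Ideal.mem_span_singleton, zero_dvd_iff] at h1
    apply hl₀
    have := congrArg (fun q : κ[X] => q.coeff D) h1
    simpa [coeff_map] using this
  · have hdeg : g.degree ≠ 0 := by
      intro hd
      apply hP.ne_top
      rw [hgP, Ideal.span_singleton_eq_top]
      rw [eq_C_of_degree_eq_zero hd] at hg0 ⊢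
      exact isUnit_C.2 (IsUnit.mk0 _ (fun h => hg0 (by rw [h, C_0])))
    obtain ⟨x, hx⟩ := IsAlgClosed.exists_root g hdeg
    obtain ⟨l, hl⟩ := h0 x
    apply hl
    have h1 : ((M l).map φ) ∈ P := hle (Ideal.subset_span ⟨l, rfl⟩)
    rw [hgP, Ideal.mem_span_singleton] at h1
    obtain ⟨q, hq⟩ := h1
    rw [hq, eval_mul, hx.eq_zero, zero_mul]

end Nak

/-! ### SP-B: the key lemma -/

section Key

variable {S : Type*} [CommRing S]

/-- the determinant of three vectors -/
def det3 (u v w : Fin 3 → S) : S :=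
  u 0 * (v 1 * w 2 - v 2 * w 1) - u 1 * (v 0 * w 2 - v 2 * w 0) + u 2 * (v 0 * w 1 - v 1 * w 0)

theorem det3_lin (w H F : Fin 3 → S) (r s : S) (h : ∀ a, r * F a = s * w a) : r * det3 w H F = 0 := by
  have h0 := h 0
  have h1 := h 1
  have h2 := h 2
  unfold det3
  linear_combination (w 1 * H 2 - w 2 * H 1) * h0 + (w 2 * H 0 - w 0 * H 2) * h1 +
    (w 0 * H 1 - w 1 * H 0) * h2

theorem key_quot (F G K w H : Fin 3 → S) (r μ α₁ β₁ ρ₁ α₂ β₂ ρ₂ : S) (hF : ∀ a, r * F a = r * μ * w a)
    (hG : ∀ a, r * G a = α₁ * w a + β₁ * H a - ρ₁ * F a) (hK : ∀ a, r * K a = α₂ * w a + β₂ * H a - ρ₂ * F a) :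
    r ^ 3 * det3 F G K = 0 := by
  have h1 : r ^ 3 * det3 F G K = det3 (fun a => r * F a) (fun a => r * G a) (fun a => r * K a) := by
    unfold det3; ring
  have h2 : det3 (fun a => r * F a) (fun a => r * G a) (fun a => r * K a) =
      det3 (fun a => r * μ * w a) (fun a => α₁ * w a + β₁ * H a - ρ₁ * F a)
        (fun a => α₂ * w a + β₂ * H a - ρ₂ * F a) := by
    congr 1
    · exact funext hF
    · exact funext hG
    · exact funext hK
  have h3 : det3 (fun a => r * μ * w a) (fun a => α₁ * w a + β₁ * H a - ρ₁ * F a)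
        (fun a => α₂ * w a + β₂ * H a - ρ₂ * F a) = μ * (ρ₁ * β₂ - β₁ * ρ₂) * (r * det3 w H F) := by
    unfold det3; ring
  rw [h1, h2, h3, det3_lin w H F r (r * μ) hF, mul_zero]

/-- `r (F - μ w) = p H` and `D₁ w = D₂ w = 0` imply `p ∣ r ^ 3 det (F, D₁ F, D₂ F)` -/
theorem key (D₁ D₂ : Derivation ℤ S S) (F w H : Fin 3 → S) (r μ p : S) (h1 : ∀ a, D₁ (w a) = 0)
    (h2 : ∀ a, D₂ (w a) = 0) (h : ∀ a, r * (F a - μ * w a) = p * H a) :
    p ∣ r ^ 3 * det3 F (fun a => D₁ (F a)) (fun a => D₂ (F a)) := by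
  let π := Ideal.Quotient.mk (Ideal.span {p})
  have hp : π p = 0 := Ideal.Quotient.eq_zero_iff_mem.2 (Ideal.mem_span_singleton_self p)
  have hF : ∀ a, π r * π (F a) = π r * π μ * π (w a) := by
    intro a
    have h3 := congrArg π (h a)
    simp only [map_mul, map_sub, hp, zero_mul] at h3
    linear_combination h3
  have hd : ∀ D : Derivation ℤ S S, (∀ a, D (w a) = 0) → ∀ a,
      π r * π (D (F a)) = (π r * π (D μ) + π (D r) * π μ) * π (w a) + π (D p) * π (H a) - π (D r) * π (F a) := by
    intro D hw a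
    have h3 := congrArg (fun x => π (D x)) (h a)
    simp only [Derivation.leibniz, map_sub, smul_eq_mul, hw a, mul_zero, zero_add, map_add, map_mul, hp,
      zero_mul] at h3
    linear_combination h3
  have h4 := key_quot (fun a => π (F a)) (fun a => π (D₁ (F a))) (fun a => π (D₂ (F a))) (fun a => π (w a))
    (fun a => π (H a)) (π r) (π μ) (π r * π (D₁ μ) + π (D₁ r) * π μ) (π (D₁ p)) (π (D₁ r))
    (π r * π (D₂ μ) + π (D₂ r) * π μ) (π (D₂ p)) (π (D₂ r)) hF (hd D₁ h1) (hd D₂ h2)
  rw [← Ideal.mem_span_singleton, ← Ideal.Quotient.eq_zero_iff_mem]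
  rw [← h4]
  simp only [map_mul, map_pow]
  congr 1

end Key

/-! ### SP-C: the curve meets the point only where it should, and transversally -/

section Gcd

variable {R K ι : Type*} [CommRing R] [IsDomain R] [Field K] [Algebra R K] [IsFractionRing R K]

/-- clearing the denominators of finitely many polynomials over the fraction field -/
theorem clear [Finite ι] (h : ι → K[X]) : ∃ (r : R) (H : ι → R[X]), r ≠ 0 ∧
    ∀ a, (H a).map (algebraMap R K) = C (algebraMap R K r) * h a := by
  classical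
  have := Fintype.ofFinite ι
  have h1 : ∀ a, ∃ b ∈ nonZeroDivisors R, (IsLocalization.integerNormalization (nonZeroDivisors R) (h a)).map
      (algebraMap R K) = b • h a := fun a => IsLocalization.integerNormalization_spec _ _
  choose b hb0 hb using h1
  refine ⟨∏ a, b a, fun a => C (∏ c ∈ Finset.univ.erase a, b c) *
    IsLocalization.integerNormalization (nonZeroDivisors R) (h a), ?_, ?_⟩
  · exact Finset.prod_ne_zero_iff.2 fun a _ => nonZeroDivisors.ne_zero (hb0 a)
  · intro a
    rw [Polynomial.map_mul, hb a, map_C, Algebra.smul_def, Polynomial.algebraMap_apply, ← mul_assoc, ← C_mul,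
      ← map_mul, Finset.prod_erase_mul _ _ (Finset.mem_univ a)]

/-- `F` meets the point `w` (with `w a₀ = 1`) only at `c i`, and transversally: the quotients `q a` of
`F a - F a₀ * w a` by `X - c i` generate the unit ideal over the fraction field -/
theorem gcd_one [Finite ι] {J T : Type*} {m : ℕ} (D : J → Derivation ℤ R[X] R[X]) (F q : ι → R[X]) (w : ι → R)
    (a₀ : ι) (hD : ∀ j a, D j (C (w a)) = 0) (c : Fin m → R) (i : Fin m)
    (M : T → R[X]) (idx : T → Fin 3 → ι) (j₁ j₂ : T → J)
    (hdet : ∀ t, det3 (fun a => F (idx t a)) (fun a => D (j₁ t) (F (idx t a))) (fun a => D (j₂ t) (F (idx t a))) =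
      (∏ l, (X - C (c l))) ^ 2 * M t)
    (hM : Ideal.span (Set.range M) = ⊤)
    (hq : ∀ a, F a - F a₀ * C (w a) = (X - C (c i)) * q a)
    (hl : ∀ l, l ≠ i → ∃ a, (F a).eval (c l) ≠ (F a₀).eval (c l) * w a)
    (hi : ∃ a, (derivative (F a)).eval (c i) ≠ (derivative (F a₀)).eval (c i) * w a) :
    Ideal.span (Set.range fun a => (q a).map (algebraMap R K)) = ⊤ := by
  by_contra hne
  obtain ⟨P, hP, hle⟩ := Ideal.exists_le_maximal _ hne
  have hPp : P.IsPrime := hP.isPrime
  have hPr : P.IsPrincipal := inferInstance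
  obtain ⟨g, hg⟩ := hPr
  have hgP : P = Ideal.span {g} := hg
  have hinj : Function.Injective (algebraMap R K) := IsFractionRing.injective R K
  have hqg : ∀ a, ∃ h : K[X], (q a).map (algebraMap R K) = g * h := by
    intro a
    have h1 : (q a).map (algebraMap R K) ∈ P := hle (Ideal.subset_span ⟨a, rfl⟩)
    rw [hgP, Ideal.mem_span_singleton] at h1
    exact h1
  choose h hh using hqg
  obtain ⟨r, H, hr, hH⟩ := clear (R := R) h
  obtain ⟨s, G, hs, hG⟩ := clear (R := R) (fun _ : Unit => g)
  set p := G () with hp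
  have hpg : p.map (algebraMap R K) = C (algebraMap R K s) * g := hG ()
  -- the equation over `R`
  have h1 : ∀ a, C (r * s) * q a = p * H a := by
    intro a
    apply map_injective _ hinj
    rw [Polynomial.map_mul, Polynomial.map_mul, map_C, hh a, hpg, hH a, map_mul, C_mul]
    ring
  have h2 : ∀ a, C (r * s) * (F a - F a₀ * C (w a)) = p * ((X - C (c i)) * H a) := by
    intro a
    rw [hq a]
    linear_combination (X - C (c i)) * h1 a
  have h3 : ∀ t, p ∣ C (r * s) ^ 3 * ((∏ l, (X - C (c l))) ^ 2 * M t) := by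
    intro t
    rw [← hdet t]
    exact key (D (j₁ t)) (D (j₂ t)) (fun a => F (idx t a)) (fun a => C (w (idx t a)))
      (fun a => (X - C (c i)) * H (idx t a)) (C (r * s)) (F a₀) p (fun a => hD _ _) (fun a => hD _ _)
      (fun a => h2 (idx t a))
  have hu : IsUnit (C (algebraMap R K (r * s)) : K[X]) := by
    refine isUnit_C.2 (IsUnit.mk0 _ ?_)
    rw [map_ne_zero_iff _ hinj]
    exact mul_ne_zero hr hs
  have hgp : g ∣ p.map (algebraMap R K) := ⟨C (algebraMap R K s), by rw [hpg, mul_comm]⟩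
  have h4 : ∀ t, ((∏ l, (X - C (c l))) ^ 2 * M t).map (algebraMap R K) ∈ P := by
    intro t
    obtain ⟨y, hy⟩ := h3 t
    have h5 := congrArg (Polynomial.map (algebraMap R K)) hy
    rw [Polynomial.map_mul, Polynomial.map_pow, map_C, Polynomial.map_mul (f := algebraMap R K) (p := p)] at h5
    have h6 : C (algebraMap R K (r * s)) ^ 3 * ((∏ l, (X - C (c l))) ^ 2 * M t).map (algebraMap R K) ∈ P := by
      rw [h5, hgP]
      exact Ideal.mem_span_singleton.2 (Dvd.dvd.mul_right hgp _)
    exact (Ideal.unit_mul_mem_iff_mem P (hu.pow 3)).1 h6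
  have h5 : ((∏ l, (X - C (c l))) ^ 2).map (algebraMap R K) ∈ P := by
    have h6 : ∀ f ∈ Ideal.span (Set.range M), ((∏ l, (X - C (c l))) ^ 2 * f).map (algebraMap R K) ∈ P := by
      intro f hf
      refine Submodule.span_induction ?_ ?_ ?_ ?_ hf
      · rintro _ ⟨t, rfl⟩
        exact h4 t
      · simp
      · intro u v _ _ hu hv
        rw [mul_add, Polynomial.map_add]
        exact P.add_mem hu hv
      · intro d u _ hu
        rw [smul_eq_mul, mul_left_comm, Polynomial.map_mul]
        exact P.mul_mem_left _ hu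
    have h7 := h6 1 (hM ▸ Submodule.mem_top)
    rwa [mul_one] at h7
  rw [Polynomial.map_pow, Polynomial.map_prod] at h5
  have h6 := hPp.mem_of_pow_mem _ h5
  obtain ⟨l, -, h7⟩ := (Ideal.IsPrime.prod_mem_iff (hp := hPp)).1 h6
  rw [Polynomial.map_sub, map_X, map_C] at h7
  have h8 : ∀ a, (q a).eval (c l) = 0 := by
    intro a
    have h9 : (q a).map (algebraMap R K) ∈ P := hle (Ideal.subset_span ⟨a, rfl⟩)
    have h10 : (X - C (algebraMap R K (c l))) ∣ (q a).map (algebraMap R K) -
        C (((q a).map (algebraMap R K)).eval (algebraMap R K (c l))) := X_sub_C_dvd_sub_C_eval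
    have h11 : C (((q a).map (algebraMap R K)).eval (algebraMap R K (c l))) ∈ P := by
      have h12 := P.sub_mem h9 (P.mem_of_dvd h10 h7)
      rwa [sub_sub_cancel] at h12
    have h13 : ((q a).map (algebraMap R K)).eval (algebraMap R K (c l)) = 0 := by
      by_contra hne'
      exact hP.ne_top (P.eq_top_of_isUnit_mem h11 (isUnit_C.2 (IsUnit.mk0 _ hne')))
    rw [eval_map_algebraMap, aeval_algebraMap_apply, map_eq_zero_iff _ hinj] at h13
    simpa using h13
  by_cases hli : l = i
  · subst hli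
    obtain ⟨a, ha⟩ := hi
    apply ha
    have h9 := congrArg (fun f : R[X] => (derivative f).eval (c l)) (hq a)
    simp only [derivative_sub, derivative_mul, derivative_C, derivative_X, eval_sub, eval_mul, eval_add, eval_C,
      eval_X, mul_zero, add_zero, sub_zero, sub_self, zero_mul, one_mul, h8 a] at h9
    exact sub_eq_zero.1 h9
  · obtain ⟨a, ha⟩ := hl l hli
    apply ha
    have h9 := congrArg (fun f : R[X] => f.eval (c l)) (hq a)
    simp only [eval_sub, eval_mul, eval_C, eval_X, h8 a, mul_zero] at h9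
    exact sub_eq_zero.1 h9

end Gcd

end Pool.Agent.VFS
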