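import Mathlib

/-!
# Coefficientwise derivations of `R[X]`, partial derivatives of power series

For the add-on 'smooth points' of MP_1858fb_ag.
-/

set_option autoImplicit false

namespace Pool.Agent.VFS

open Polynomial

section coefD

variable {k R : Type*} [CommRing k] [CommRing R] [Algebra k R]

/-- `D` applied to each coefficient of `p` -/
noncomputable def coefFun (D : Derivation k R R) (p : R[X]) : R[X] :=
  ∑ i ∈ p.support, monomial i (D (p.coeff i))

theorem coeff_coefFun (D : Derivation k R R) (p : R[X]) (n : ℕ) : (coefFun D p).coeff n = D (p.coeff n) := by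
  unfold coefFun
  rw [finsetSum_coeff]
  simp only [coeff_monomial]
  rw [Finset.sum_ite_eq']
  split_ifs with h
  · rfl
  · rw [notMem_support_iff.1 h, map_zero]

/-- the derivation of `R[X]` which applies the derivation `D` to each coefficient -/
noncomputable def coefD (D : Derivation k R R) : Derivation k R[X] R[X] where
  toFun := coefFun D
  map_add' p q := by
    ext n
    rw [coeff_add, coeff_coefFun, coeff_coefFun, coeff_coefFun, coeff_add, map_add]
  map_smul' c p := by
    ext n
    rw [RingHom.id_apply, coeff_smul, coeff_coefFun, coeff_coefFun, coeff_smul, D.map_smul]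
  map_one_eq_zero' := by
    ext n
    change (coefFun D 1).coeff n = (0 : R[X]).coeff n
    rw [coeff_coefFun, coeff_one, coeff_zero]
    split_ifs
    · exact D.map_one_eq_zero
    · exact map_zero _
  leibniz' p q := by
    ext n
    change (coefFun D (p * q)).coeff n = (p • coefFun D q + q • coefFun D p).coeff n
    rw [coeff_coefFun, coeff_mul, map_sum, coeff_add, smul_eq_mul, smul_eq_mul, coeff_mul,
      mul_comm q, coeff_mul, ← Finset.sum_add_distrib]
    refine Finset.sum_congr rfl fun x _ => ?_
    rw [D.leibniz, coeff_coefFun, coeff_coefFun, smul_eq_mul, smul_eq_mul]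
    ring

variable (D : Derivation k R R)

@[simp] theorem coeff_coefD (p : R[X]) (n : ℕ) : (coefD D p).coeff n = D (p.coeff n) :=
  coeff_coefFun D p n

theorem coefD_C (r : R) : coefD D (C r) = C (D r) := by
  ext n
  rw [coeff_coefD, coeff_C, coeff_C]
  split_ifs
  · rfl
  · exact map_zero _

theorem coefD_X : coefD D (X : R[X]) = 0 := by
  ext n
  rw [coeff_coefD, coeff_X, coeff_zero]
  split_ifs
  · exact D.map_one_eq_zero
  · exact map_zero _

/-- the polynomials with coefficients in `k` are constants -/
theorem coefD_map (p : k[X]) : coefD D (p.map (algebraMap k R)) = 0 := by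
  ext n
  rw [coeff_coefD, coeff_map, coeff_zero]
  exact D.map_algebraMap _

theorem natDegree_coefD_le (p : R[X]) : (coefD D p).natDegree ≤ p.natDegree := by
  rw [natDegree_le_iff_coeff_eq_zero]
  intro n hn
  rw [coeff_coefD, coeff_eq_zero_of_natDegree_lt hn, map_zero]

theorem coefD_map_mul (p : k[X]) (q : R[X]) :
    coefD D (p.map (algebraMap k R) * q) = p.map (algebraMap k R) * coefD D q := by
  rw [(coefD D).leibniz, coefD_map, smul_zero, add_zero, smul_eq_mul]

/-- evaluation at a constant commutes with the derivation -/
theorem eval_coefD (p : R[X]) (c : k) :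
    (coefD D p).eval (algebraMap k R c) = D (p.eval (algebraMap k R c)) := by
  induction p using Polynomial.induction_on' with
  | add p q hp hq => rw [map_add, eval_add, hp, hq, eval_add, map_add]
  | monomial n a =>
    have h1 : coefD D (monomial n a) = monomial n (D a) := by
      ext m
      rw [coeff_coefD, coeff_monomial, coeff_monomial]
      split_ifs
      · rfl
      · exact map_zero _
    rw [h1, eval_monomial, eval_monomial, ← map_pow, mul_comm, mul_comm a, ← Algebra.smul_def,
      ← Algebra.smul_def, D.map_smul]

/-- the derivation commutes with the formal derivative -/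
theorem derivative_coefD (p : R[X]) : (coefD D p).derivative = coefD D p.derivative := by
  ext n
  rw [coeff_derivative, coeff_coefD, coeff_coefD, coeff_derivative, D.leibniz]
  have : D ((n : R) + 1) = 0 := by
    rw [map_add, D.map_one_eq_zero, add_zero]
    exact D.map_natCast n
  rw [this, smul_zero, zero_add, smul_eq_mul, mul_comm]

end coefD

section chain

variable {k S : Type*} [CommRing k] [CommRing S] [Algebra k S] {ι : Type*} [Fintype ι]

/-- chain rule: a derivation and a polynomial with constant coefficients -/
theorem der_aeval (D : Derivation k S S) (F : ι → S) (E : MvPolynomial ι k) :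
    D (MvPolynomial.aeval F E) = ∑ a, MvPolynomial.aeval F (MvPolynomial.pderiv a E) * D (F a) := by
  classical
  induction E using MvPolynomial.induction_on with
  | C c =>
    rw [MvPolynomial.aeval_C, D.map_algebraMap]
    refine (Finset.sum_eq_zero fun a _ => ?_).symm
    rw [MvPolynomial.pderiv_C, map_zero, zero_mul]
  | add p q hp hq =>
    rw [map_add, map_add, hp, hq, ← Finset.sum_add_distrib]
    refine Finset.sum_congr rfl fun a _ => ?_
    rw [map_add, map_add, add_mul]
  | mul_X p b hp =>
    rw [map_mul, MvPolynomial.aeval_X, D.leibniz, hp, smul_eq_mul, smul_eq_mul, Finset.mul_sum]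
    have h1 : ∀ a, MvPolynomial.aeval F (MvPolynomial.pderiv a (p * MvPolynomial.X b)) * D (F a) =
        F b * (MvPolynomial.aeval F (MvPolynomial.pderiv a p) * D (F a)) +
          (if a = b then MvPolynomial.aeval F p * D (F b) else 0) := by
      intro a
      rw [MvPolynomial.pderiv_mul, map_add, map_mul, map_mul, MvPolynomial.aeval_X, MvPolynomial.pderiv_X]
      by_cases hab : a = b
      · subst hab
        rw [Pi.single_eq_same, map_one, if_pos rfl]
        ring
      · rw [Pi.single_eq_of_ne (fun h => hab h.symm), map_zero, if_neg hab]
        ring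
    rw [Finset.sum_congr rfl fun a _ => h1 a, Finset.sum_add_distrib, Finset.sum_ite_eq' Finset.univ b,
      if_pos (Finset.mem_univ b)]
    ring

/-- in particular a deformation `F` inside `V` satisfies `dE(F).D F = 0` -/
theorem der_aeval_eq_zero (D : Derivation k S S) (F : ι → S) (E : MvPolynomial ι k)
    (h : MvPolynomial.aeval F E = 0) :
    ∑ a, MvPolynomial.aeval F (MvPolynomial.pderiv a E) * D (F a) = 0 := by
  rw [← der_aeval, h, map_zero]

end chain

section power

variable {k σ : Type*} [CommRing k]

theorem constantCoeff_pderiv (j : σ) (f : MvPowerSeries σ k) :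
    MvPowerSeries.constantCoeff (MvPowerSeries.pderiv k j f) = MvPowerSeries.coeff (Finsupp.single j 1) f := by
  rw [← MvPowerSeries.coeff_zero_eq_constantCoeff_apply, MvPowerSeries.coeff_pderiv, zero_add]
  simp

end power

end Pool.Agent.VFS
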