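import Mathlib

/-!
# SP-F: transfer from an extension of an algebraically closed field

A finite set of elements of a field `K` over an algebraically closed field `k` lies in a
`k`-subalgebra `A` with a `k`-algebra homomorphism `A → k` that does not kill a given finite set of
nonzero elements (Zariski's lemma). All identities between tuples of polynomials survive.
-/

set_option autoImplicit false

namespace Pool.Agent.VFS

open Polynomial

/-- a nonzero finitely generated algebra over an algebraically closed field has a point -/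
theorem exists_algHom {k A : Type*} [Field k] [IsAlgClosed k] [CommRing A] [Nontrivial A]
    [Algebra k A] [Algebra.FiniteType k A] : Nonempty (A →ₐ[k] k) := by
  obtain ⟨M, hM⟩ := Ideal.exists_maximal A
  let _ : Field (A ⧸ M) := Ideal.Quotient.field M
  have hfin : Module.Finite k (A ⧸ M) := finite_of_finite_type_of_isJacobsonRing k (A ⧸ M)
  have hbij : Function.Bijective (algebraMap k (A ⧸ M)) :=
    IsAlgClosed.algebraMap_bijective_of_isIntegral
  let e : k ≃ₐ[k] (A ⧸ M) := AlgEquiv.ofBijective (Algebra.ofId k (A ⧸ M)) hbij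
  exact ⟨e.symm.toAlgHom.comp (Ideal.Quotient.mkₐ k M)⟩

/-- SPECIALISATION. `S` a finite subset of a field extension `K` of `k`, `U` a finite set of nonzero
elements: there is a subalgebra `A` containing both, and `φ : A → k` with `φ u ≠ 0` for `u ∈ U`. -/
theorem exists_spec {k K : Type*} [Field k] [IsAlgClosed k] [Field K] [Algebra k K]
    {S U : Set K} (hS : S.Finite) (hU : U.Finite) (hU0 : ∀ u ∈ U, u ≠ 0) :
    ∃ (A : Subalgebra k K) (φ : A →ₐ[k] k), S ⊆ A ∧
      ∀ u ∈ U, ∃ h : u ∈ A, φ ⟨u, h⟩ ≠ 0 := by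
  have hfin : (S ∪ U ∪ (fun x : K => x⁻¹) '' U).Finite := (hS.union hU).union (hU.image _)
  have : Algebra.FiniteType k (Algebra.adjoin k (S ∪ U ∪ (fun x : K => x⁻¹) '' U)) :=
    .adjoin_of_finite hfin
  obtain ⟨φ⟩ := exists_algHom (k := k) (A := Algebra.adjoin k (S ∪ U ∪ (fun x : K => x⁻¹) '' U))
  refine ⟨Algebra.adjoin k (S ∪ U ∪ (fun x : K => x⁻¹) '' U), φ, ?_, ?_⟩
  · intro s hs
    exact Algebra.subset_adjoin (Or.inl (Or.inl hs))
  · intro u hu
    have h1 : u ∈ Algebra.adjoin k (S ∪ U ∪ (fun x : K => x⁻¹) '' U) :=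
      Algebra.subset_adjoin (Or.inl (Or.inr hu))
    have h2 : u⁻¹ ∈ Algebra.adjoin k (S ∪ U ∪ (fun x : K => x⁻¹) '' U) :=
      Algebra.subset_adjoin (Or.inr ⟨u, hu, rfl⟩)
    refine ⟨h1, fun h0 => ?_⟩
    have h3 : (⟨u, h1⟩ : Algebra.adjoin k (S ∪ U ∪ (fun x : K => x⁻¹) '' U)) * ⟨u⁻¹, h2⟩ = 1 := by
      apply Subtype.ext
      exact mul_inv_cancel₀ (hU0 u hu)
    have h4 := congrArg φ h3
    rw [map_mul, h0, zero_mul, map_one] at h4
    exact zero_ne_one h4

/-- coefficientwise version: finitely many polynomials over `K` lift to `A[X]` -/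
theorem exists_spec_poly {k K : Type*} [Field k] [IsAlgClosed k] [Field K] [Algebra k K]
    {P : Set K[X]} {U : Set K} (hP : P.Finite) (hU : U.Finite) (hU0 : ∀ u ∈ U, u ≠ 0) :
    ∃ (A : Subalgebra k K) (φ : A →ₐ[k] k),
      (∀ p ∈ P, ∃ q : A[X], q.map (algebraMap A K) = p ∧ q.degree = p.degree) ∧
      ∀ u ∈ U, ∃ a : A, (a : K) = u ∧ φ a ≠ 0 := by
  have hfin : (⋃ p ∈ P, ((p.coeffs : Finset K) : Set K)).Finite :=
    hP.biUnion fun p _ => p.coeffs.finite_toSet
  obtain ⟨A, φ, hA, hφ⟩ := exists_spec (k := k) hfin hU hU0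
  refine ⟨A, φ, ?_, fun u hu => ?_⟩
  · intro p hp
    have h1 : p ∈ Polynomial.lifts (algebraMap A K) := by
      rw [Polynomial.lifts_iff_coeff_lifts]
      intro n
      by_cases h0 : p.coeff n = 0
      · exact ⟨0, by rw [map_zero, h0]⟩
      · have h2 : p.coeff n ∈ A := by
          apply hA
          rw [Set.mem_iUnion₂]
          refine ⟨p, hp, ?_⟩
          rw [Finset.mem_coe, Polynomial.mem_coeffs_iff]
          exact ⟨n, Polynomial.mem_support_iff.mpr h0, rfl⟩
        exact ⟨⟨p.coeff n, h2⟩, rfl⟩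
    obtain ⟨q, hq, hd⟩ := Polynomial.exists_degree_eq_of_mem_lifts h1
    exact ⟨q, hq, hd⟩
  · obtain ⟨h, h'⟩ := hφ u hu
    exact ⟨⟨u, h⟩, rfl, h'⟩

/-- family version of `exists_spec_poly` -/
theorem exists_spec_family {k K : Type*} [Field k] [IsAlgClosed k] [Field K] [Algebra k K]
    {α β : Type*} [Finite α] [Finite β] (P : α → K[X]) (u : β → K) (hu : ∀ j, u j ≠ 0) :
    ∃ (A : Subalgebra k K) (φ : A →ₐ[k] k) (Q : α → A[X]) (v : β → A),
      (∀ i, (Q i).map (algebraMap A K) = P i) ∧ (∀ i, (Q i).degree = (P i).degree) ∧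
      (∀ j, (v j : K) = u j) ∧ ∀ j, φ (v j) ≠ 0 := by
  obtain ⟨A, φ, h1, h2⟩ := exists_spec_poly (k := k) (Set.finite_range P) (Set.finite_range u)
    (by rintro _ ⟨j, rfl⟩; exact hu j)
  choose Q hQ hQd using fun i => h1 (P i) ⟨i, rfl⟩
  choose v hv hv0 using fun j => h2 (u j) ⟨j, rfl⟩
  exact ⟨A, φ, Q, v, hQ, hQd, hv, hv0⟩

section descend

variable {k K : Type*} [Field k] [Field K] [Algebra k K] {A : Subalgebra k K} (φ : A →ₐ[k] k)

theorem map_algebraMap_injective :
    Function.Injective (fun q : A[X] => q.map (algebraMap A K)) :=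
  Polynomial.map_injective _ (FaithfulSMul.algebraMap_injective A K)

/-- polynomial equations over `k` descend -/
theorem aeval_descend {ι : Type*} {F : ι → K[X]} {F' : ι → A[X]}
    (h : ∀ a, (F' a).map (algebraMap A K) = F a) {E : MvPolynomial ι k} {q : A[X]}
    (hE : MvPolynomial.aeval F E = q.map (algebraMap A K)) :
    MvPolynomial.aeval (fun a => (F' a).map (φ : A →+* k)) E = q.map (φ : A →+* k) := by
  have h1 : MvPolynomial.aeval F' E = q := by
    apply map_algebraMap_injective
    show (MvPolynomial.aeval F' E).map (algebraMap A K) = q.map (algebraMap A K)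
    rw [← hE]
    have h2 : F = fun a => Polynomial.mapAlgHom A.val (F' a) := by
      funext a
      rw [← h a]
      rfl
    rw [h2, ← MvPolynomial.comp_aeval_apply]
    rfl
  have h3 : (fun a => (F' a).map (φ : A →+* k)) = fun a => Polynomial.mapAlgHom φ (F' a) := rfl
  rw [h3, ← MvPolynomial.comp_aeval_apply, h1]
  rfl

/-- values at points of `k` descend -/
theorem eval_descend {F : K[X]} {F' : A[X]} (h : F'.map (algebraMap A K) = F) {c : k} {a : A}
    (hE : F.eval (algebraMap k K c) = a) :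
    (F'.map (φ : A →+* k)).eval c = φ a := by
  have h1 : F'.eval (algebraMap k A c) = a := by
    apply FaithfulSMul.algebraMap_injective A K
    rw [← Polynomial.eval_map_apply, h]
    exact hE
  have h2 : c = φ (algebraMap k A c) := (φ.commutes c).symm
  conv_lhs => rw [h2]
  rw [← h1]
  exact Polynomial.eval_map_apply (φ : A →+* k) (algebraMap k A c)

end descend

end Pool.Agent.VFS
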