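import Pool.Agent.Lib_MP_1858fb_s.BackA
import Pool.Agent.Lib_MP_1858fb_w.Van4
import Pool.Agent.Lib_MP_1858fb_w.Bridge
import Pool.Agent.Lib_MP_1858fb_w.ChartA

/-!
# Smooth points add-on: back to tuples of forms (BACK, the point at infinity)

A linear change of the parameter brings any four points of the projective line to the affine
line, where `BackA.exists_sec_pair` applies.
-/

set_option autoImplicit false

namespace Pool.Agent.VFS

open Polynomial

namespace BackInf

section Forms

variable {k : Type} [Field k] {κ : Type}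

theorem val_hom {d : ℕ} (F : Fin (d + 1) → κ → k) (t p q : k) :
    VF.val F (t * p) (t * q) = t ^ d • VF.val F p q := by
  funext a
  rw [Pi.smul_apply, smul_eq_mul]
  unfold VF.val
  rw [Finset.mul_sum]
  refine Finset.sum_congr rfl fun j _ => ?_
  have h3 : (d - (j : ℕ)) + j = d := Nat.sub_add_cancel (Nat.lt_succ_iff.1 j.2)
  have h4 : t ^ d = t ^ (d - (j : ℕ)) * t ^ (j : ℕ) := by rw [← pow_add, h3]
  rw [mul_pow, mul_pow, h4]
  ring

/-- the polynomial `F (a + b X, a' + b' X)` -/
noncomputable def lpol {d : ℕ} (F : Fin (d + 1) → κ → k) (a b a' b' : k) (i : κ) : k[X] :=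
  ∑ j : Fin (d + 1), C (F j i) * ((C a + C b * X) ^ (d - (j : ℕ)) * (C a' + C b' * X) ^ (j : ℕ))

theorem natDegree_lin (a b : k) : (C a + C b * X : k[X]).natDegree ≤ 1 := by
  refine (natDegree_add_le _ _).trans (max_le ?_ ((natDegree_C_mul_le _ _).trans natDegree_X_le))
  rw [natDegree_C]
  exact Nat.zero_le _

theorem natDegree_lpol {d : ℕ} (F : Fin (d + 1) → κ → k) (a b a' b' : k) (i : κ) :
    (lpol F a b a' b' i).natDegree ≤ d := by
  unfold lpol
  refine natDegree_sum_le_of_forall_le _ _ fun j _ => ?_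
  refine (natDegree_C_mul_le _ _).trans (natDegree_mul_le.trans ?_)
  have h1 : ((C a + C b * X : k[X]) ^ (d - (j : ℕ))).natDegree ≤ (d - j) * 1 :=
    natDegree_pow_le_of_le _ (natDegree_lin a b)
  have h2 : ((C a' + C b' * X : k[X]) ^ (j : ℕ)).natDegree ≤ j * 1 :=
    natDegree_pow_le_of_le _ (natDegree_lin a' b')
  have h3 := j.2
  omega

theorem eval_lpol {d : ℕ} (F : Fin (d + 1) → κ → k) (a b a' b' x : k) (i : κ) :
    (lpol F a b a' b' i).eval x = VF.val F (a + b * x) (a' + b' * x) i := by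
  unfold lpol VF.val
  rw [eval_finsetSum]
  refine Finset.sum_congr rfl fun j _ => ?_
  simp

theorem coeff_lin_pow (a b : k) (m : ℕ) : ((C a + C b * X : k[X]) ^ m).coeff m = b ^ m := by
  have h := coeff_pow_of_natDegree_le (p := (C a + C b * X : k[X])) (n := 1) (m := m)
    (natDegree_lin a b)
  rw [mul_one] at h
  rw [h]
  simp

theorem coeff_lpol {d : ℕ} (F : Fin (d + 1) → κ → k) (a b a' b' : k) (i : κ) :
    (lpol F a b a' b' i).coeff d = VF.val F b b' i := by
  unfold lpol VF.val
  rw [finsetSum_coeff]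
  refine Finset.sum_congr rfl fun j _ => ?_
  have h3 : (d - (j : ℕ)) + j = d := Nat.sub_add_cancel (Nat.lt_succ_iff.1 j.2)
  rw [coeff_C_mul]
  congr 1
  have h1 : ((C a + C b * X : k[X]) ^ (d - (j : ℕ))).natDegree ≤ (d - j) := by
    have := natDegree_pow_le_of_le (d - (j : ℕ)) (natDegree_lin a b)
    rwa [mul_one] at this
  have h2 : ((C a' + C b' * X : k[X]) ^ (j : ℕ)).natDegree ≤ j := by
    have := natDegree_pow_le_of_le (j : ℕ) (natDegree_lin a' b')
    rwa [mul_one] at this
  have h4 := coeff_mul_add_eq_of_natDegree_le h1 h2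
  rw [h3] at h4
  rw [h4, coeff_lin_pow, coeff_lin_pow]

/-- the tuple of forms of a tuple of polynomials -/
def tup (d : ℕ) (f : κ → k[X]) : Fin (d + 1) → κ → k := fun j a => (f a).coeff j

theorem val_tup_one {d : ℕ} {f : κ → k[X]} (hd : ∀ a, (f a).natDegree ≤ d) (x : k) (i : κ) :
    VF.val (tup d f) 1 x i = (f i).eval x := by
  unfold VF.val tup
  rw [eval_eq_sum_range' (Nat.lt_succ_of_le (hd i)), Finset.sum_range]
  refine Finset.sum_congr rfl fun j _ => ?_
  simp

theorem val_tup_zero_one {d : ℕ} (f : κ → k[X]) (i : κ) :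
    VF.val (tup d f) 0 1 i = (f i).coeff d := by
  rw [VF.V4.val_zero_one]
  rfl

/-- the tuple of forms `F (a p + b q, a' p + b' q)` -/
noncomputable def lin {d : ℕ} (F : Fin (d + 1) → κ → k) (a b a' b' : k) :
    Fin (d + 1) → κ → k := tup d (lpol F a b a' b')

theorem val_lin {d : ℕ} (F : Fin (d + 1) → κ → k) (a b a' b' p q : k) :
    VF.val (lin F a b a' b') p q = VF.val F (a * p + b * q) (a' * p + b' * q) := by
  by_cases hp : p = 0
  · subst hp
    have h1 := val_hom (lin F a b a' b') q 0 1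
    have h2 := val_hom F q b b'
    rw [mul_zero, mul_one] at h1
    rw [h1, show a * 0 + b * q = q * b by ring, show a' * 0 + b' * q = q * b' by ring, h2]
    congr 1
    funext i
    rw [lin, val_tup_zero_one, coeff_lpol]
  · have h1 := val_hom (lin F a b a' b') p 1 (q / p)
    have h2 := val_hom F p (a + b * (q / p)) (a' + b' * (q / p))
    rw [mul_one, mul_div_cancel₀ _ hp] at h1
    rw [h1, show a * p + b * q = p * (a + b * (q / p)) by field_simp,
      show a' * p + b' * q = p * (a' + b' * (q / p)) by field_simp, h2]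
    congr 1
    funext i
    rw [lin, val_tup_one (natDegree_lpol F a b a' b'), eval_lpol]

end Forms

section Geometry

variable {k : Type} [Field k] {N : ℕ} {V : Set (Fin (N + 1) → k)}

theorem aeval_smul_hom {E : MvPolynomial (Fin (N + 1)) k} {e : ℕ} (he : E.IsHomogeneous e)
    (c : k) (x : Fin (N + 1) → k) :
    MvPolynomial.aeval (c • x) E = c ^ e * MvPolynomial.aeval x E := by
  rw [MvPolynomial.aeval_def, MvPolynomial.aeval_def, MvPolynomial.eval₂_eq,
    MvPolynomial.eval₂_eq, Finset.mul_sum]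
  refine Finset.sum_congr rfl fun m hm => ?_
  have h1 : m.degree = e := by
    have h4 := he (MvPolynomial.mem_support_iff.1 hm)
    rw [Finsupp.degree_eq_weight_one]
    exact h4
  have h2 : ∏ i ∈ m.support, (c • x) i ^ m i = c ^ e * ∏ i ∈ m.support, x i ^ m i := by
    have h3 : ∑ i ∈ m.support, m i = e := by rw [← h1]; rfl
    rw [← h3, ← Finset.prod_pow_eq_pow_sum, ← Finset.prod_mul_distrib]
    exact Finset.prod_congr rfl fun i _ => by rw [Pi.smul_apply, smul_eq_mul, mul_pow]
  rw [h2]
  ring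

/-- the tangent space at a multiple of `y` -/
theorem tan_smul [Infinite k] (hV : VF.LocClosed V) {y w : Fin (N + 1) → k}
    (hw : w ∈ VF.Tan V y) (a : k) : w ∈ VF.Tan V (a • y) := by
  apply VF.Br.mem_tan_of_forms hV
  intro E hE e he
  have h1 := hw E hE
  unfold VF.dif at h1 ⊢
  have h2 : ∀ j, MvPolynomial.aeval (a • y) (MvPolynomial.pderiv j E) * w j =
      a ^ (e - 1) * (MvPolynomial.aeval y (MvPolynomial.pderiv j E) * w j) := by
    intro j
    rw [aeval_smul_hom he.pderiv]
    ring
  simp only [h2]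
  rw [← Finset.mul_sum, h1, mul_zero]

theorem tan_smul_iff [Infinite k] (hV : VF.LocClosed V) {y w : Fin (N + 1) → k} {a : k}
    (ha : a ≠ 0) : w ∈ VF.Tan V (a • y) ↔ w ∈ VF.Tan V y := by
  constructor
  · intro h
    have := tan_smul hV h a⁻¹
    rwa [smul_smul, inv_mul_cancel₀ ha, one_smul] at this
  · intro h
    exact tan_smul hV h a

/-- tangency of forms from tangency on the affine line -/
theorem isTangent_of_affine [Infinite k] (hV : VF.LocClosed V) {d : ℕ}
    {F G : Fin (d + 1) → Fin (N + 1) → k}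
    (h : ∀ x : k, VF.val G 1 x ∈ VF.Tan V (VF.val F 1 x)) : VF.IsTangent V F G := by
  have h1 : ∀ p q : k, p ≠ 0 → VF.val G p q ∈ VF.Tan V (VF.val F p q) := by
    intro p q hp
    have e1 := val_hom G p 1 (q / p)
    have e2 := val_hom F p 1 (q / p)
    rw [mul_one, mul_div_cancel₀ _ hp] at e1 e2
    rw [e1, e2]
    exact Submodule.smul_mem _ _ (tan_smul hV (h _) _)
  intro p q
  refine VF.V4.tan_closed p q 1 0 (-p) fun t ht => ?_
  apply h1
  intro h0
  exact ht (by linear_combination h0)

/-- sections as tuples of polynomials give tangent tuples of forms -/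
theorem isTangent_tup [Infinite k] (hV : VF.LocClosed V) {d : ℕ} {f g : Fin (N + 1) → k[X]}
    (hf : ∀ a, (f a).natDegree ≤ d) (hg : Sec (VF.van V : Set _) f d g) :
    VF.IsTangent V (tup d f) (tup d g) := by
  apply isTangent_of_affine hV
  intro x E hE
  have h1 := congrArg (Polynomial.eval x) (hg.2 E hE)
  rw [dp, eval_finsetSum, eval_zero] at h1
  rw [← h1]
  unfold VF.dif
  refine Finset.sum_congr rfl fun a _ => ?_
  rw [eval_mul, val_tup_one hg.1]
  congr 1
  have h2 : (fun a => (f a).eval x) = VF.val (tup d f) 1 x := by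
    funext a
    rw [val_tup_one hf]
  rw [← h2]
  have h : (Polynomial.aeval x).comp (MvPolynomial.aeval f) =
      MvPolynomial.aeval (fun a => (f a).eval x) := by
    apply MvPolynomial.algHom_ext
    intro j
    rw [AlgHom.comp_apply, MvPolynomial.aeval_X, MvPolynomial.aeval_X,
      Polynomial.coe_aeval_eq_eval]
  have h2 := congrArg (fun g => g (MvPolynomial.pderiv a E)) h
  simp only [AlgHom.comp_apply] at h2
  rw [← h2, Polynomial.coe_aeval_eq_eval]

/-- tangent tuples of forms give sections of the tuple of polynomials on any affine line -/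
theorem sec_lpol [Infinite k] {d : ℕ} {F G : Fin (d + 1) → Fin (N + 1) → k}
    (hG : VF.IsTangent V F G) (a b a' b' : k) :
    Sec (VF.van V : Set _) (lpol F a b a' b') d (lpol G a b a' b') := by
  refine ⟨natDegree_lpol G a b a' b', fun E hE => ?_⟩
  apply Polynomial.funext
  intro x
  rw [dp, eval_finsetSum, eval_zero]
  have h1 := hG (a + b * x) (a' + b' * x) E hE
  rw [← h1]
  unfold VF.dif
  refine Finset.sum_congr rfl fun i _ => ?_
  rw [eval_mul, eval_lpol]
  congr 1
  have h2 : (fun j => (lpol F a b a' b' j).eval x) = VF.val F (a + b * x) (a' + b' * x) := by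
    funext j
    rw [eval_lpol]
  rw [← h2]
  have h : (Polynomial.aeval x).comp (MvPolynomial.aeval (lpol F a b a' b')) =
      MvPolynomial.aeval (fun j => (lpol F a b a' b' j).eval x) := by
    apply MvPolynomial.algHom_ext
    intro j
    rw [AlgHom.comp_apply, MvPolynomial.aeval_X, MvPolynomial.aeval_X,
      Polynomial.coe_aeval_eq_eval]
  have h2 := congrArg (fun g => g (MvPolynomial.pderiv i E)) h
  simp only [AlgHom.comp_apply] at h2
  rw [← h2, Polynomial.coe_aeval_eq_eval]

/-- a point outside of four points -/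
theorem exists_s [Infinite k] (p q p' q' c₀ x : k) (h : p ≠ 0 ∨ q ≠ 0) (h' : p' ≠ 0 ∨ q' ≠ 0) :
    ∃ s : k, q - s * p ≠ 0 ∧ q' - s * p' ≠ 0 ∧ c₀ - s ≠ 0 ∧ x - s ≠ 0 := by
  classical
  obtain ⟨s, hs⟩ := Infinite.exists_notMem_finset
    ({q / p, q' / p', c₀, x} : Finset k)
  simp only [Finset.mem_insert, Finset.mem_singleton, not_or] at hs
  obtain ⟨h1, h2, h3, h4⟩ := hs
  refine ⟨s, fun e => ?_, fun e => ?_, sub_ne_zero.2 (Ne.symm h3), sub_ne_zero.2 (Ne.symm h4)⟩
  · by_cases hp : p = 0
    · subst hp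
      rw [mul_zero, sub_zero] at e
      rcases h with h | h
      · exact h rfl
      · exact h e
    · apply h1
      rw [eq_div_iff hp]
      exact (sub_eq_zero.1 e).symm
  · by_cases hp : p' = 0
    · subst hp
      rw [mul_zero, sub_zero] at e
      rcases h' with h | h
      · exact h rfl
      · exact h e
    · apply h2
      rw [eq_div_iff hp]
      exact (sub_eq_zero.1 e).symm

/-- **Very freeness from one pair of points.** -/
theorem veryFree_of_weak [IsAlgClosed k] {cc n : ℕ} (hcc : cc + n = N) (hV : VF.LocClosed V)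
    (hsm : ∀ x ∈ V, VF.SmoothAt cc V x) {d : ℕ} {F : Fin (d + 1) → Fin (N + 1) → k}
    (hF : VF.IsCurve V F) {c₀ x : k} (hx : x ≠ c₀)
    (hw : ∀ u ∈ VF.Tan V (VF.val F 1 x), ∃ G : Fin (d + 1) → Fin (N + 1) → k,
      VF.IsTangent V F G ∧ (∃ b : k, VF.val G 1 c₀ = b • VF.val F 1 c₀) ∧
      ∃ b : k, VF.val G 1 x = u + b • VF.val F 1 x) : VF.VeryFree V F := by
  have hinf : Infinite k := IsAlgClosed.instInfinite
  have hcone : ∀ x ∈ V, ∀ c : k, c ≠ 0 → c • x ∈ V := fun y hy a ha =>
    VF.smul_mem_of_locClosed hV hy ha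
  intro p q p' q' hdet w hwT w' hwT'
  have hpq : p ≠ 0 ∨ q ≠ 0 := by
    by_contra hcon
    push Not at hcon
    apply hdet
    rw [hcon.1, hcon.2]
    ring
  have hpq' : p' ≠ 0 ∨ q' ≠ 0 := by
    by_contra hcon
    push Not at hcon
    apply hdet
    rw [hcon.1, hcon.2]
    ring
  obtain ⟨s, hs1, hs2, hs3, hs4⟩ := exists_s p q p' q' c₀ x hpq hpq'
  -- the curve in the new parameter
  set f : Fin (N + 1) → k[X] := lpol F 0 1 1 s with hf
  have hfd : ∀ a, (f a).natDegree ≤ d := natDegree_lpol F 0 1 1 s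
  have hev : ∀ t : k, (fun a => (f a).eval t) = VF.val F t (1 + s * t) := by
    intro t
    funext a
    rw [hf, eval_lpol]
    congr 1
    ring
  have hne : ∀ t : k, t ≠ 0 ∨ 1 + s * t ≠ 0 := by
    intro t
    by_cases ht : t = 0
    · right
      rw [ht, mul_zero, add_zero]
      exact one_ne_zero
    · exact Or.inl ht
  have hfin : ∀ t : k, (fun a => (f a).eval t) ∈ V := by
    intro t
    rw [hev]
    exact hF _ _ (hne t)
  have hfS : Sec (VF.van V : Set _) f d f := by
    apply sec_lpol
    apply isTangent_of_affine hV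
    intro t
    exact VF.dif_self hcone (hF _ _ (Or.inl one_ne_zero))
  -- the two points in the new parameter
  have hpt : ∀ z : k, z - s ≠ 0 → ∀ H : Fin (d + 1) → Fin (N + 1) → k,
      VF.val H (z - s)⁻¹ (1 + s * (z - s)⁻¹) = ((z - s)⁻¹) ^ d • VF.val H 1 z := by
    intro z hz H
    rw [← val_hom]
    congr 1
    · ring
    · field_simp
      ring
  have hxc : (x - s)⁻¹ ≠ (c₀ - s)⁻¹ := by
    intro h
    apply hx
    have := inv_injective h
    linear_combination this
  have hval0 : ∀ y ∈ V, y ≠ 0 := by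
    obtain ⟨I, J, -, rfl⟩ := hV
    exact fun y hy => hy.1
  obtain ⟨g, hg, ⟨t1, ht1⟩, t2, ht2⟩ := BackA.exists_sec_pair hcc hsm hfd hfin hfS.2 hxc
    (hval0 _ (hfin _))
    (by
      intro u hu
      rw [hev, hpt x hs4] at hu
      have hne' : ((x - s)⁻¹) ^ d ≠ 0 := pow_ne_zero _ (inv_ne_zero hs4)
      rw [tan_smul_iff hV hne'] at hu
      obtain ⟨G, hG, ⟨b, hb⟩, b', hb'⟩ := hw ((((x - s)⁻¹) ^ d)⁻¹ • u) (Submodule.smul_mem _ _ hu)
      refine ⟨lpol G 0 1 1 s, sec_lpol hG 0 1 1 s, ⟨b, fun a => ?_⟩, b', fun a => ?_⟩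
      · have e1 := congrFun (hpt c₀ hs3 G) a
        have e2 := congrFun (hpt c₀ hs3 F) a
        rw [hf, eval_lpol, eval_lpol, zero_add, one_mul, e1, e2, hb]
        simp only [Pi.smul_apply, smul_eq_mul]
        ring
      · have e1 := congrFun (hpt x hs4 G) a
        have e2 := congrFun (hpt x hs4 F) a
        rw [hf, eval_lpol, eval_lpol, zero_add, one_mul, e1, e2, hb']
        simp only [Pi.smul_apply, Pi.add_apply, smul_eq_mul]
        field_simp)
    (y := p / (q - s * p)) (y' := p' / (q' - s * p'))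
    (by
      intro h
      apply hdet
      rw [div_eq_div_iff hs1 hs2] at h
      linear_combination h)
    (w := ((q - s * p) ^ d)⁻¹ • w) (w' := ((q' - s * p') ^ d)⁻¹ • w')
    (by
      apply Submodule.smul_mem
      rw [hev, ← tan_smul_iff hV (pow_ne_zero d hs1), ← val_hom]
      have e1 : (q - s * p) * (p / (q - s * p)) = p := mul_div_cancel₀ _ hs1
      have e2 : (q - s * p) * (1 + s * (p / (q - s * p))) = q := by
        field_simp
        ring
      rw [e1, e2]
      exact hwT)
    (by
      apply Submodule.smul_mem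
      rw [hev, ← tan_smul_iff hV (pow_ne_zero d hs2), ← val_hom]
      have e1 : (q' - s * p') * (p' / (q' - s * p')) = p' := mul_div_cancel₀ _ hs2
      have e2 : (q' - s * p') * (1 + s * (p' / (q' - s * p'))) = q' := by
        field_simp
        ring
      rw [e1, e2]
      exact hwT')
  -- back
  have hFf : ∀ p q : k, VF.val (tup d f) (q - s * p) p = VF.val F p q := by
    intro p q
    have := val_lin F 0 1 1 s (q - s * p) p
    rw [lin, ← hf] at this
    rw [this]
    congr 1 <;> ring
  have hGg : ∀ p q : k, VF.val (lin (tup d g) (-s) 1 1 0) p q =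
      VF.val (tup d g) (q - s * p) p := by
    intro p q
    rw [val_lin]
    congr 1 <;> ring
  have hev1 : ∀ p q : k, q - s * p ≠ 0 → ∀ (h : Fin (N + 1) → k[X]),
      (∀ a, (h a).natDegree ≤ d) → ∀ a, VF.val (tup d h) (q - s * p) p a =
      (q - s * p) ^ d * (h a).eval (p / (q - s * p)) := by
    intro p q hpq h hh a
    have e1 := val_hom (tup d h) (q - s * p) 1 (p / (q - s * p))
    rw [mul_one, mul_div_cancel₀ _ hpq] at e1
    rw [e1, Pi.smul_apply, smul_eq_mul, val_tup_one hh]
  refine ⟨lin (tup d g) (-s) 1 1 0, ?_, ⟨t1, ?_⟩, ⟨t2, ?_⟩⟩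
  · intro p q
    rw [hGg, ← hFf p q]
    exact isTangent_tup hV hfd hg _ _
  · funext a
    rw [hGg, hev1 p q hs1 g hg.1, ht1]
    have e1 : VF.val F p q a = (q - s * p) ^ d * (f a).eval (p / (q - s * p)) := by
      rw [← hFf p q, hev1 p q hs1 f hfd]
    simp only [Pi.add_apply, Pi.smul_apply, smul_eq_mul]
    rw [e1]
    have := pow_ne_zero d hs1
    field_simp
  · funext a
    rw [hGg, hev1 p' q' hs2 g hg.1, ht2]
    have e1 : VF.val F p' q' a = (q' - s * p') ^ d * (f a).eval (p' / (q' - s * p')) := by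
      rw [← hFf p' q', hev1 p' q' hs2 f hfd]
    simp only [Pi.add_apply, Pi.smul_apply, smul_eq_mul]
    rw [e1]
    have := pow_ne_zero d hs2
    field_simp

end Geometry

end BackInf

section

variable {k : Type} [Field k] {N : ℕ} {V : Set (Fin (N + 1) → k)}

/-- from `Good` to a very free curve in the sense of the definitions -/
theorem good_veryFree [IsAlgClosed k] {cc n : ℕ} (hcc : cc + n = N)
    (hV : VF.LocClosed V) (hsm : ∀ x ∈ V, VF.SmoothAt cc V x) {d m : ℕ} {c : Fin m → k}
    {v : Fin m → Fin (N + 1) → k} {c₀ x : k} (hx : x ≠ c₀) {f : Fin (N + 1) → k[X]}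
    (h : Good V d c v c₀ x f) :
    VF.IsCurve V (fun (j : Fin (d + 1)) a => (f a).coeff j) ∧
      VF.VeryFree V (fun (j : Fin (d + 1)) a => (f a).coeff j) := by
  have hinf : Infinite k := IsAlgClosed.instInfinite
  have h1 : ∀ t : k, VF.val (BackInf.tup d f) 1 t = fun a => (f a).eval t := by
    intro t
    funext a
    exact BackInf.val_tup_one h.deg t a
  have hC : VF.IsCurve V (BackInf.tup d f) := by
    intro p q hpq
    by_cases hp : p = 0
    · subst hp
      have hq : q ≠ 0 := by
        rcases hpq with h | h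
        · exact absurd rfl h
        · exact h
      have e1 := BackInf.val_hom (BackInf.tup d f) q 0 1
      rw [mul_zero, mul_one] at e1
      rw [e1]
      apply VF.smul_mem_of_locClosed hV _ (pow_ne_zero _ hq)
      have e2 : VF.val (BackInf.tup d f) 0 1 = fun a => (f a).coeff d := by
        funext a
        exact BackInf.val_tup_zero_one f a
      rw [e2]
      exact h.inf
    · have e1 := BackInf.val_hom (BackInf.tup d f) p 1 (q / p)
      rw [mul_one, mul_div_cancel₀ _ hp] at e1
      rw [e1, h1]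
      exact VF.smul_mem_of_locClosed hV (h.fin _) (pow_ne_zero _ hp)
  refine ⟨hC, BackInf.veryFree_of_weak hcc hV hsm hC hx fun u hu => ?_⟩
  change u ∈ VF.Tan V (VF.val (BackInf.tup d f) 1 x) at hu
  rw [h1] at hu
  obtain ⟨g, hg, ⟨b, hb⟩, b', hb'⟩ := h.secs u hu
  refine ⟨BackInf.tup d g, BackInf.isTangent_tup hV h.deg hg, ⟨b, ?_⟩, ⟨b', ?_⟩⟩
  · change _ = b • VF.val (BackInf.tup d f) 1 c₀
    funext a
    rw [Pi.smul_apply, h1, BackInf.val_tup_one hg.1, hb]
    rfl
  · change _ = u + b' • VF.val (BackInf.tup d f) 1 x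
    funext a
    rw [Pi.add_apply, Pi.smul_apply, h1, BackInf.val_tup_one hg.1, hb']
    rfl

end

end Pool.Agent.VFS
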