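import Pool.Agent.Lib_MP_1858fb_w.Defs

/-!
# Smoothness of a curve from local equations (part B of IMG)
-/

set_option autoImplicit false

namespace Pool.Agent.VFS

open MvPolynomial

/-- the determinant trick: `Q I ≤ E + l I` gives `H = Q ^ r + l g` with `H I ≤ E` -/
theorem exists_det_trick {R : Type} [CommRing R] [IsNoetherianRing R] (I E : Ideal R) (Q l : R)
    (h : ∀ G ∈ I, ∃ G' ∈ I, Q * G - l * G' ∈ E) :
    ∃ (r : ℕ) (g : R), ∀ G ∈ I, (Q ^ r + l * g) * G ∈ E := by
  classical
  set M : Submodule R (R ⧸ E) := Submodule.map (Submodule.mkQ E) I with hM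
  have hMmem : ∀ G ∈ I, (Submodule.mkQ E G) ∈ M := fun G hG => ⟨G, hG, rfl⟩
  set f : Module.End R M := algebraMap R (Module.End R M) Q with hf
  have hfx : ∀ x : M, f x = Q • x := fun x => by rw [hf, Module.algebraMap_end_apply]
  have hrange : LinearMap.range f ≤ Ideal.span {l} • (⊤ : Submodule R M) := by
    rintro _ ⟨⟨_, G, hG, rfl⟩, rfl⟩
    obtain ⟨G', hG', hE⟩ := h G hG
    rw [hfx]
    have h1 : (Q • (⟨Submodule.mkQ E G, G, hG, rfl⟩ : M)) =
        l • (⟨Submodule.mkQ E G', hMmem G' hG'⟩ : M) := by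
      apply Subtype.ext
      show Q • Submodule.mkQ E G = l • Submodule.mkQ E G'
      rw [← map_smul, ← map_smul, ← sub_eq_zero, ← map_sub, Submodule.mkQ_apply,
        Submodule.Quotient.mk_eq_zero]
      simpa [smul_eq_mul] using hE
    rw [h1]
    exact Submodule.smul_mem_smul (Ideal.mem_span_singleton_self l) Submodule.mem_top
  obtain ⟨p, hp, -, hpc, hp0⟩ :=
    LinearMap.exists_monic_and_natDegree_eq_and_coeff_mem_pow_and_aeval_eq_zero R f
      (Ideal.span {l}) hrange
  have hev : p.eval Q - Q ^ p.natDegree ∈ Ideal.span {l} := by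
    rw [Polynomial.eval_eq_sum_range, Finset.sum_range_succ]
    have h1 : p.coeff p.natDegree = 1 := hp
    rw [h1, one_mul, add_sub_cancel_right]
    refine Ideal.sum_mem _ fun i hi => ?_
    have hi' := Finset.mem_range.1 hi
    have h2 := hpc i
    have h3 : Ideal.span {l} ^ (p.natDegree - i) ≤ Ideal.span {l} :=
      Ideal.pow_le_self (by omega)
    exact Ideal.mul_mem_right _ _ (h3 h2)
  rw [Ideal.mem_span_singleton] at hev
  obtain ⟨g, hg⟩ := hev
  refine ⟨p.natDegree, g, fun G hG => ?_⟩
  rw [← hg, add_sub_cancel]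
  have h4 : Polynomial.aeval f p = algebraMap R (Module.End R M) (p.eval Q) := by
    rw [hf, Polynomial.aeval_algebraMap_apply, Polynomial.coe_aeval_eq_eval]
  rw [h4] at hp0
  have h5 := congrArg (fun φ : Module.End R M => φ (⟨Submodule.mkQ E G, hMmem G hG⟩ : M)) hp0
  simp only [Module.algebraMap_end_apply, LinearMap.zero_apply] at h5
  have h6 := congrArg Subtype.val h5
  change p.eval Q • Submodule.mkQ E G = 0 at h6
  rw [← map_smul, Submodule.mkQ_apply, Submodule.Quotient.mk_eq_zero] at h6
  simpa [smul_eq_mul] using h6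

section

variable {k : Type} [Field k] {N : ℕ}

/-- the linear form `∑ lam a X a` -/
noncomputable def Lf (lam : Fin (N + 1) → k) : MvPolynomial (Fin (N + 1)) k :=
  ∑ a, C (lam a) * X a

/-- the linear form `X j - v j L` -/
noncomputable def lf (lam v : Fin (N + 1) → k) (j : Fin (N + 1)) : MvPolynomial (Fin (N + 1)) k :=
  X j - C (v j) * Lf lam

theorem aeval_Lf (lam y : Fin (N + 1) → k) : aeval y (Lf lam) = ∑ a, lam a * y a := by
  simp [Lf]

theorem aeval_lf (lam v y : Fin (N + 1) → k) (j : Fin (N + 1)) :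
    aeval y (lf lam v j) = y j - v j * ∑ a, lam a * y a := by
  rw [lf, map_sub, map_mul, aeval_Lf]
  simp

theorem pderiv_lf (lam v : Fin (N + 1) → k) (i j : Fin (N + 1)) :
    pderiv i (lf lam v j) = C ((if j = i then 1 else 0) - v j * lam i) := by
  classical
  have h1 : pderiv i (Lf lam) = C (lam i) := by
    rw [Lf, map_sum, Finset.sum_eq_single i]
    · rw [pderiv_C_mul, pderiv_X_self, mul_one]
    · intro b _ hb
      rw [pderiv_C_mul, pderiv_X_of_ne hb, mul_zero]
    · intro h; exact absurd (Finset.mem_univ _) h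
  rw [lf, map_sub, pderiv_C_mul, h1, map_sub, map_mul]
  congr 1
  by_cases h : j = i
  · subst h; rw [pderiv_X_self, if_pos rfl, map_one]
  · rw [pderiv_X_of_ne h, if_neg h, map_zero]

/-- a polynomial which vanishes on the line through `v` is in the ideal of the `lf j`, `j ≠ b` -/
theorem mem_span_lf [Infinite k] {lam v : Fin (N + 1) → k} (h1 : ∑ a, lam a * v a = 1)
    {b : Fin (N + 1)} (hb : lam b ≠ 0) {G : MvPolynomial (Fin (N + 1)) k}
    (hG : ∀ x : k, aeval (fun a => x * v a) G = 0) :
    G ∈ Ideal.span (lf lam v '' {j | j ≠ b}) := by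
  classical
  set J : Ideal (MvPolynomial (Fin (N + 1)) k) := Ideal.span (lf lam v '' {j | j ≠ b}) with hJ
  have hmem : ∀ j, j ≠ b → lf lam v j ∈ J := fun j hj => Ideal.subset_span ⟨j, hj, rfl⟩
  have hsum : ∑ j, C (lam j) * lf lam v j = 0 := by
    simp only [lf, mul_sub, Finset.sum_sub_distrib]
    have h2 : ∑ j, C (lam j) * (C (v j) * Lf lam) = (∑ j, C (lam j * v j)) * Lf lam := by
      rw [Finset.sum_mul]
      exact Finset.sum_congr rfl fun j _ => by rw [map_mul]; ring
    rw [h2, ← map_sum, h1, map_one, one_mul]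
    rw [show (∑ j, C (lam j) * X j : MvPolynomial (Fin (N + 1)) k) = Lf lam from rfl, sub_self]
  have hbmem : lf lam v b ∈ J := by
    have h2 : C (lam b) * lf lam v b ∈ J := by
      rw [← Finset.add_sum_erase _ _ (Finset.mem_univ b)] at hsum
      have h3 : C (lam b) * lf lam v b = - ∑ j ∈ Finset.univ.erase b, C (lam j) * lf lam v j :=
        eq_neg_of_add_eq_zero_left hsum
      rw [h3]
      refine J.neg_mem (Ideal.sum_mem _ fun j hj => ?_)
      exact J.mul_mem_left _ (hmem j (Finset.ne_of_mem_erase hj))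
    have h3 : lf lam v b = C ((lam b)⁻¹) * (C (lam b) * lf lam v b) := by
      rw [← mul_assoc, ← map_mul, inv_mul_cancel₀ hb, map_one, one_mul]
    rw [h3]
    exact J.mul_mem_left _ h2
  have hall : ∀ j, lf lam v j ∈ J := by
    intro j
    by_cases hj : j = b
    · rw [hj]; exact hbmem
    · exact hmem j hj
  -- modulo `J`
  have hcong : G - aeval (fun a => C (v a) * Lf lam) G ∈ J := by
    have h2 : (Ideal.Quotient.mkₐ k J).comp (aeval X : _ →ₐ[k] MvPolynomial (Fin (N + 1)) k) =
        (Ideal.Quotient.mkₐ k J).comp (aeval fun a => C (v a) * Lf lam) := by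
      apply MvPolynomial.algHom_ext
      intro j
      rw [AlgHom.comp_apply, AlgHom.comp_apply, aeval_X, aeval_X]
      show Ideal.Quotient.mk J _ = Ideal.Quotient.mk J _
      rw [Ideal.Quotient.eq]
      exact hall j
    have h3 := DFunLike.congr_fun h2 G
    rw [AlgHom.comp_apply, AlgHom.comp_apply, aeval_X_left_apply] at h3
    rw [← Ideal.Quotient.eq]
    exact h3
  have hzero : aeval (fun a => C (v a) * Lf lam) G = 0 := by
    -- the polynomial `G (x v)` in one variable is zero
    have h2 : aeval (fun a => (Polynomial.X * Polynomial.C (v a) : Polynomial k)) G = 0 := by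
      apply Polynomial.eq_zero_of_infinite_isRoot
      refine Set.infinite_univ.mono fun x _ => ?_
      show Polynomial.eval x _ = 0
      have h := MvPolynomial.comp_aeval_apply (R := k)
        (f := fun a => (Polynomial.X * Polynomial.C (v a) : Polynomial k)) (Polynomial.aeval x) G
      simp only [Polynomial.coe_aeval_eq_eval, Polynomial.eval_mul, Polynomial.eval_X,
        Polynomial.eval_C] at h
      rw [h]
      exact hG x
    have h := MvPolynomial.comp_aeval_apply (R := k)
      (f := fun a => (Polynomial.X * Polynomial.C (v a) : Polynomial k))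
      (Polynomial.aeval (Lf lam)) G
    rw [h2, map_zero] at h
    rw [h]
    congr 2
    funext a
    rw [map_mul, Polynomial.aeval_X, Polynomial.aeval_C]
    rw [mul_comm]
    rfl
  rw [hzero, sub_zero] at hcong
  exact hcong

/-- part B of IMG, for any set `W` -/
theorem smoothAt_of_local_eqs [Infinite k] {W : Set (Fin (N + 1) → k)} {v : Fin (N + 1) → k}
    (hscale : ∀ G ∈ VF.van W, ∀ x : k, aeval (fun a => x * v a) G = 0)
    (hprime : ∀ E G, E * G ∈ VF.van W → E ∈ VF.van W ∨ G ∈ VF.van W)
    {lam : Fin (N + 1) → k} {a1 b : Fin (N + 1)} (hba : b ≠ a1) (hb : lam b ≠ 0)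
    (h1 : ∑ a, lam a * v a = 1) (hl : lf lam v a1 ∉ VF.van W)
    (hPQ : ∀ j, ∃ P Q : MvPolynomial (Fin (N + 1)) k, aeval v Q ≠ 0 ∧
      Q * lf lam v j - P * lf lam v a1 ∈ VF.van W) : VF.SmoothAt (N - 1) W v := by
  classical
  choose P Q hQ hPQ using hPQ
  set J : Finset (Fin (N + 1)) := (Finset.univ.erase a1).erase b with hJ
  have hJc : J.card = N - 1 := by
    rw [hJ, Finset.card_erase_of_mem (Finset.mem_erase.2 ⟨hba, Finset.mem_univ _⟩),
      Finset.card_erase_of_mem (Finset.mem_univ _), Finset.card_univ, Fintype.card_fin]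
    omega
  set e : Fin (N - 1) ≃ J := (J.equivFinOfCardEq hJc).symm with he
  have hlv : ∀ j, aeval v (lf lam v j) = 0 := by
    intro j
    rw [aeval_lf, h1]
    ring
  set E : Fin (N - 1) → MvPolynomial (Fin (N + 1)) k := fun i =>
    Q (e i) * lf lam v (e i) - P (e i) * lf lam v a1 with hE
  set QQ : MvPolynomial (Fin (N + 1)) k := ∏ j ∈ J, Q j with hQQ
  have hEmem : ∀ i, E i ∈ VF.van W := fun i => hPQ (e i)
  have hEspan : ∀ j ∈ J, Q j * lf lam v j - P j * lf lam v a1 ∈ Ideal.span (Set.range E) := by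
    intro j hj
    refine Ideal.subset_span ⟨e.symm ⟨j, hj⟩, ?_⟩
    rw [hE]
    simp only [Equiv.apply_symm_apply]
  -- `QQ * G` is in `span E + (lf a1)`
  have hstep : ∀ G ∈ VF.van W, ∃ G' ∈ VF.van W,
      QQ * G - lf lam v a1 * G' ∈ Ideal.span (Set.range E) := by
    intro G hG
    have h2 := mem_span_lf h1 hb (hscale G hG)
    have h3 : ∀ G ∈ Ideal.span (lf lam v '' {j | j ≠ b}),
        ∃ G', QQ * G - lf lam v a1 * G' ∈ Ideal.span (Set.range E) := by
      intro G hG
      induction hG using Submodule.span_induction with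
      | mem G hG =>
        obtain ⟨j, hj, rfl⟩ := hG
        by_cases hja : j = a1
        · subst hja
          exact ⟨QQ, by rw [mul_comm QQ, sub_self]; exact Ideal.zero_mem _⟩
        · have hjJ : j ∈ J := Finset.mem_erase.2 ⟨hj, Finset.mem_erase.2 ⟨hja, Finset.mem_univ _⟩⟩
          refine ⟨(∏ i ∈ J.erase j, Q i) * P j, ?_⟩
          have h4 : QQ * lf lam v j - lf lam v a1 * ((∏ i ∈ J.erase j, Q i) * P j) =
              (∏ i ∈ J.erase j, Q i) * (Q j * lf lam v j - P j * lf lam v a1) := by
            rw [hQQ, ← Finset.mul_prod_erase J Q hjJ]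
            ring
          rw [h4]
          exact Ideal.mul_mem_left _ _ (hEspan j hjJ)
      | zero => exact ⟨0, by simp⟩
      | add a b _ _ ha hb =>
        obtain ⟨a', ha'⟩ := ha
        obtain ⟨b', hb'⟩ := hb
        refine ⟨a' + b', ?_⟩
        have h4 : QQ * (a + b) - lf lam v a1 * (a' + b') =
            (QQ * a - lf lam v a1 * a') + (QQ * b - lf lam v a1 * b') := by ring
        rw [h4]
        exact Ideal.add_mem _ ha' hb'
      | smul a b _ hb =>
        obtain ⟨b', hb'⟩ := hb
        refine ⟨a * b', ?_⟩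
        have h4 : QQ * (a • b) - lf lam v a1 * (a * b') = a * (QQ * b - lf lam v a1 * b') := by
          rw [smul_eq_mul]; ring
        rw [h4]
        exact Ideal.mul_mem_left _ _ hb'
    obtain ⟨G', hG'⟩ := h3 G h2
    refine ⟨G', ?_, hG'⟩
    have h4 : Ideal.span (Set.range E) ≤ VF.van W := by
      rw [Ideal.span_le]
      rintro _ ⟨i, rfl⟩
      exact hEmem i
    have h5 : lf lam v a1 * G' ∈ VF.van W := by
      have h6 : lf lam v a1 * G' = QQ * G - (QQ * G - lf lam v a1 * G') := by ring
      rw [h6]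
      exact Ideal.sub_mem _ (Ideal.mul_mem_left _ _ hG) (h4 hG')
    exact (hprime _ _ h5).resolve_left hl
  obtain ⟨r, g, hH⟩ := exists_det_trick (VF.van W) (Ideal.span (Set.range E)) QQ (lf lam v a1)
    hstep
  refine ⟨E, QQ ^ r + lf lam v a1 * g, hEmem, ?_, ?_, hH⟩
  · -- independence
    rw [Fintype.linearIndependent_iff]
    intro t ht
    have hd : ∀ i m, aeval v (pderiv m (E i)) =
        aeval v (Q (e i)) * ((if (e i : Fin (N + 1)) = m then 1 else 0) - v (e i) * lam m) -
          aeval v (P (e i)) * ((if a1 = m then 1 else 0) - v a1 * lam m) := by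
      intro i m
      rw [hE]
      simp only [map_sub, pderiv_mul, map_add, map_mul, hlv, mul_zero, zero_add, pderiv_lf]
      simp
    -- coefficients
    set s : Fin (N + 1) → k := fun j => if hj : j ∈ J then
      t (e.symm ⟨j, hj⟩) * aeval v (Q j) else
        if j = a1 then - ∑ i, t i * aeval v (P (e i)) else 0 with hs
    have hsJ : ∀ i, s (e i) = t i * aeval v (Q (e i)) := by
      intro i
      rw [hs]
      simp only [(e i).2, dif_pos]
      simp
    have ha1J : a1 ∉ J := fun h => (Finset.mem_erase.1 (Finset.mem_erase.1 h).2).1 rfl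
    have hsa : s a1 = - ∑ i, t i * aeval v (P (e i)) := by
      rw [hs]
      simp only [ha1J, dif_neg, not_false_eq_true, if_true]
    have hbJ : b ∉ J := fun h => (Finset.mem_erase.1 h).1 rfl
    have hsb : s b = 0 := by
      rw [hs]
      simp only [hbJ, dif_neg, not_false_eq_true, if_neg hba]
    -- a sum over all indices
    have hsumall : ∀ f : Fin (N + 1) → k, ∑ j, s j * f j =
        (∑ i, t i * aeval v (Q (e i)) * f (e i)) + s a1 * f a1 := by
      intro f
      rw [← Finset.add_sum_erase _ _ (Finset.mem_univ a1)]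
      rw [← Finset.add_sum_erase _ _ (Finset.mem_erase.2 ⟨hba, Finset.mem_univ b⟩), hsb, zero_mul,
        zero_add, add_comm]
      congr 1
      rw [← hJ, ← Finset.sum_coe_sort J (fun j => s j * f j)]
      rw [← Equiv.sum_comp e (fun j : J => s j * f j)]
      exact Finset.sum_congr rfl fun i _ => by rw [hsJ]
    have hrel : ∀ m, ∑ j, s j * ((if j = m then 1 else 0) - v j * lam m) = 0 := by
      intro m
      rw [hsumall, hsa]
      have h2 := congrFun ht m
      simp only [Finset.sum_apply, Pi.smul_apply, smul_eq_mul, Pi.zero_apply] at h2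
      refine Eq.trans ?_ h2
      rw [neg_mul, Finset.sum_mul, ← Finset.sum_neg_distrib, ← Finset.sum_add_distrib]
      refine Finset.sum_congr rfl fun i _ => ?_
      rw [hd]
      ring
    have hrel' : ∀ m, s m = (∑ j, s j * v j) * lam m := by
      intro m
      have h2 := hrel m
      simp only [mul_sub, Finset.sum_sub_distrib, mul_ite, mul_one, mul_zero,
        Finset.sum_ite_eq', Finset.mem_univ, if_true] at h2
      rw [Finset.sum_mul]
      rw [sub_eq_zero] at h2
      rw [h2]
      exact Finset.sum_congr rfl fun j _ => by ring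
    have hS : ∑ j, s j * v j = 0 := by
      have h2 := hrel' b
      rw [hsb] at h2
      exact (mul_eq_zero.1 h2.symm).resolve_right hb
    intro i
    have h2 := hrel' (e i)
    rw [hS, zero_mul, hsJ] at h2
    exact (mul_eq_zero.1 h2).resolve_right (hQ _)
  · rw [map_add, map_mul, hlv, zero_mul, add_zero, map_pow]
    apply pow_ne_zero
    rw [hQQ, map_prod]
    exact Finset.prod_ne_zero_iff.2 fun j _ => hQ j

/-- the form with one coordinate `a0` -/
theorem smoothAt_of_local_eqs_coord [Infinite k] {W : Set (Fin (N + 1) → k)}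
    {v : Fin (N + 1) → k} (hscale : ∀ G ∈ VF.van W, ∀ x : k, aeval (fun a => x * v a) G = 0)
    (hprime : ∀ E G, E * G ∈ VF.van W → E ∈ VF.van W ∨ G ∈ VF.van W)
    {a0 a1 : Fin (N + 1)} (ha : a1 ≠ a0) (h0 : v a0 ≠ 0)
    (hl : X a1 - C (v a1 * (v a0)⁻¹) * X a0 ∉ VF.van W)
    (hPQ : ∀ j, ∃ P Q : MvPolynomial (Fin (N + 1)) k, aeval v Q ≠ 0 ∧
      Q * (X j - C (v j * (v a0)⁻¹) * X a0) - P * (X a1 - C (v a1 * (v a0)⁻¹) * X a0) ∈
        VF.van W) : VF.SmoothAt (N - 1) W v := by
  classical
  set lam : Fin (N + 1) → k := Pi.single a0 (v a0)⁻¹ with hlam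
  have hL : Lf lam = C (v a0)⁻¹ * X a0 := by
    rw [Lf, Finset.sum_eq_single a0]
    · rw [hlam, Pi.single_eq_same]
    · intro b _ hb
      rw [hlam, Pi.single_eq_of_ne hb, map_zero, zero_mul]
    · intro h; exact absurd (Finset.mem_univ _) h
  have hlf : ∀ j, lf lam v j = X j - C (v j * (v a0)⁻¹) * X a0 := by
    intro j
    rw [lf, hL, map_mul, mul_assoc]
  refine smoothAt_of_local_eqs (lam := lam) (a1 := a1) (b := a0) hscale hprime (Ne.symm ha) ?_ ?_
    (by rw [hlf]; exact hl) (fun j => ?_)
  · rw [hlam, Pi.single_eq_same]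
    exact inv_ne_zero h0
  · rw [Finset.sum_eq_single a0]
    · rw [hlam, Pi.single_eq_same, inv_mul_cancel₀ h0]
    · intro b _ hb
      rw [hlam, Pi.single_eq_of_ne hb, zero_mul]
    · intro h; exact absurd (Finset.mem_univ _) h
  · rw [hlf, hlf]
    exact hPQ j

end

end Pool.Agent.VFS
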