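import Pool.Agent.Lib_MP_1858fb_s.ImgDef

/-!
# The cone over the image of a curve
-/

set_option autoImplicit false

namespace Pool.Agent.VFS

open Polynomial

section

variable {k : Type} [Field k] {N : ℕ}

theorem val_coeff_one {d : ℕ} {f : Fin (N + 1) → k[X]} (hd : ∀ a, (f a).natDegree ≤ d) (x : k)
    (a : Fin (N + 1)) :
    VF.val (fun (j : Fin (d + 1)) a => (f a).coeff j) 1 x a = (f a).eval x := by
  rw [VF.val, Polynomial.eval_eq_sum_range' (Nat.lt_succ_of_le (hd a)),
    ← Fin.sum_univ_eq_sum_range (fun j : ℕ => (f a).coeff j * x ^ j) (d + 1)]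
  refine Finset.sum_congr rfl fun j _ => ?_
  rw [one_pow, one_mul]

theorem val_coeff_zero {d : ℕ} (f : Fin (N + 1) → k[X]) (q : k) (a : Fin (N + 1)) :
    VF.val (fun (j : Fin (d + 1)) a => (f a).coeff j) 0 q a = (f a).coeff d * q ^ d := by
  rw [VF.val, Finset.sum_eq_single (Fin.last d)]
  · simp
  · intro j _ hj
    have h1 : (j : ℕ) < d := Fin.val_lt_last hj
    have : d - (j : ℕ) ≠ 0 := by omega
    rw [zero_pow this]; ring
  · intro h; exact absurd (Finset.mem_univ _) h

theorem val_coeff_ne {d : ℕ} {f : Fin (N + 1) → k[X]} (hd : ∀ a, (f a).natDegree ≤ d) {p : k}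
    (hp : p ≠ 0) (q : k) (a : Fin (N + 1)) :
    VF.val (fun (j : Fin (d + 1)) a => (f a).coeff j) p q a = p ^ d * (f a).eval (q / p) := by
  rw [← val_coeff_one hd (q / p) a, VF.val, VF.val, Finset.mul_sum]
  refine Finset.sum_congr rfl fun j _ => ?_
  have hj : d = (d - (j : ℕ)) + j := by have := j.2; omega
  conv_rhs => rw [show p ^ d = p ^ (d - (j : ℕ)) * p ^ (j : ℕ) by rw [← pow_add, ← hj]]
  rw [one_pow, div_pow]
  field_simp

theorem eval_aeval' {σ : Type} (E : MvPolynomial σ k) (x : σ → k[X]) (s : k) :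
    (MvPolynomial.aeval x E).eval s = MvPolynomial.aeval (fun i => (x i).eval s) E := by
  have h := MvPolynomial.comp_aeval_apply (R := k) (f := x) (Polynomial.aeval s) E
  simpa [Polynomial.coe_aeval_eq_eval] using h

theorem eval_zero_of_ne [Infinite k] (φ : k[X]) (h : ∀ s, s ≠ 0 → φ.eval s = 0) (s : k) :
    φ.eval s = 0 := by
  have h0 : φ = 0 := by
    apply Polynomial.eq_zero_of_infinite_isRoot
    have h1 : ({0} : Set k)ᶜ.Infinite := (Set.finite_singleton 0).infinite_compl
    exact h1.mono fun s hs => h s (by simpa using hs)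
  rw [h0, Polynomial.eval_zero]

theorem mem_van_img_iff [Infinite k] {d : ℕ} {f : Fin (N + 1) → k[X]}
    (hd : ∀ a, (f a).natDegree ≤ d) (G : MvPolynomial (Fin (N + 1)) k) :
    G ∈ VF.van (Img (fun (j : Fin (d + 1)) a => (f a).coeff j)) ↔
      ∀ s x : k, MvPolynomial.aeval (fun a => s * (f a).eval x) G = 0 := by
  constructor
  · intro hG s x
    have h1 := eval_zero_of_ne (MvPolynomial.aeval (fun a => X * C ((f a).eval x)) G) (by
      intro s hs
      rw [eval_aeval']
      apply hG
      refine ⟨s, 1, x, hs, Or.inl one_ne_zero, ?_⟩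
      funext a
      rw [Pi.smul_apply, smul_eq_mul, val_coeff_one hd, Polynomial.eval_mul, Polynomial.eval_X,
        Polynomial.eval_C]) s
    rw [eval_aeval'] at h1
    simp only [Polynomial.eval_mul, Polynomial.eval_X, Polynomial.eval_C] at h1
    exact h1
  · intro h y hy
    obtain ⟨a, p, q, ha, hpq, rfl⟩ := hy
    have hne : ∀ p : k, p ≠ 0 → MvPolynomial.aeval (a • VF.val (fun (j : Fin (d + 1)) a =>
        (f a).coeff j) p q) G = 0 := by
      intro p hp
      have h1 : (a • VF.val (fun (j : Fin (d + 1)) a => (f a).coeff j) p q) =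
          fun b => (a * p ^ d) * (f b).eval (q / p) := by
        funext b
        rw [Pi.smul_apply, smul_eq_mul, val_coeff_ne hd hp]
        ring
      rw [h1]
      exact h _ _
    have h2 := eval_zero_of_ne (MvPolynomial.aeval (fun b => C a *
      VF.val (fun (j : Fin (d + 1)) b => (C ((f b).coeff j) : k[X])) X (C q) b) G) (by
        intro s hs
        rw [eval_aeval']
        have h3 : (fun i => (C a * VF.val (fun (j : Fin (d + 1)) b =>
            (C ((f b).coeff j) : k[X])) X (C q) i).eval s) =
            a • VF.val (fun (j : Fin (d + 1)) a => (f a).coeff j) s q := by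
          funext b
          simp [VF.val, Polynomial.eval_finsetSum]
        rw [h3]
        exact hne s hs) p
    rw [eval_aeval'] at h2
    have h3 : (fun i => (C a * VF.val (fun (j : Fin (d + 1)) b =>
        (C ((f b).coeff j) : k[X])) X (C q) i).eval p) =
        a • VF.val (fun (j : Fin (d + 1)) a => (f a).coeff j) p q := by
      funext b
      simp [VF.val, Polynomial.eval_finsetSum]
    rw [h3] at h2
    exact h2

/-- the generic point of the cone over the image, in `k[X][Y]` -/
theorem mem_van_img_iff' [Infinite k] {d : ℕ} {f : Fin (N + 1) → k[X]}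
    (hd : ∀ a, (f a).natDegree ≤ d) (G : MvPolynomial (Fin (N + 1)) k) :
    G ∈ VF.van (Img (fun (j : Fin (d + 1)) a => (f a).coeff j)) ↔
      MvPolynomial.aeval (fun a => (X * C (f a) : k[X][X])) G = 0 := by
  rw [mem_van_img_iff hd]
  have hev : ∀ s x : k, ((MvPolynomial.aeval (fun a => (X * C (f a) : k[X][X])) G).eval
      (C s)).eval x = MvPolynomial.aeval (fun a => s * (f a).eval x) G := by
    intro s x
    have h1 : (MvPolynomial.aeval (fun a => (X * C (f a) : k[X][X])) G).eval (C s) =
        MvPolynomial.aeval (fun a => (C s * f a : k[X])) G := by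
      have h := MvPolynomial.comp_aeval_apply (R := k)
        (f := fun a => (X * C (f a) : k[X][X]))
        (((Polynomial.aeval (C s : k[X])) : k[X][X] →ₐ[k[X]] k[X]).restrictScalars k) G
      simp only [AlgHom.restrictScalars_apply, Polynomial.coe_aeval_eq_eval, Polynomial.eval_mul,
        Polynomial.eval_X, Polynomial.eval_C] at h
      exact h
    rw [h1, eval_aeval']
    simp only [Polynomial.eval_mul, Polynomial.eval_C]
  constructor
  · intro h
    have h1 : ∀ s : k, (MvPolynomial.aeval (fun a => (X * C (f a) : k[X][X])) G).eval (C s) = 0 := by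
      intro s
      apply Polynomial.eq_zero_of_infinite_isRoot
      refine Set.infinite_univ.mono fun x _ => ?_
      show Polynomial.eval x _ = 0
      rw [hev]
      exact h s x
    apply Polynomial.eq_zero_of_infinite_isRoot
    refine (Set.infinite_range_of_injective (Polynomial.C_injective (R := k))).mono ?_
    rintro _ ⟨s, rfl⟩
    exact h1 s
  · intro h s x
    rw [← hev, h]
    simp

theorem van_img_prime [Infinite k] {d : ℕ} {f : Fin (N + 1) → k[X]}
    (hd : ∀ a, (f a).natDegree ≤ d) (E G : MvPolynomial (Fin (N + 1)) k)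
    (h : E * G ∈ VF.van (Img (fun (j : Fin (d + 1)) a => (f a).coeff j))) :
    E ∈ VF.van (Img (fun (j : Fin (d + 1)) a => (f a).coeff j)) ∨
      G ∈ VF.van (Img (fun (j : Fin (d + 1)) a => (f a).coeff j)) := by
  rw [mem_van_img_iff' hd, map_mul, mul_eq_zero] at h
  rw [mem_van_img_iff' hd, mem_van_img_iff' hd]
  exact h

theorem van_img_scale [Infinite k] {d : ℕ} {f : Fin (N + 1) → k[X]}
    (hd : ∀ a, (f a).natDegree ≤ d) {c : k} {v : Fin (N + 1) → k}
    (hv : ∃ t : k, t ≠ 0 ∧ ∀ a, (f a).eval c = t * v a) {G : MvPolynomial (Fin (N + 1)) k}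
    (hG : G ∈ VF.van (Img (fun (j : Fin (d + 1)) a => (f a).coeff j))) (x : k) :
    MvPolynomial.aeval (fun a => x * v a) G = 0 := by
  obtain ⟨t, ht, htv⟩ := hv
  have h := (mem_van_img_iff hd G).1 hG (x * t⁻¹) c
  have h1 : (fun a => x * t⁻¹ * (f a).eval c) = fun a => x * v a := by
    funext a
    rw [htv]
    field_simp
  rw [h1] at h
  exact h

end

end Pool.Agent.VFS
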