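import Pool.Agent.Lib_MP_1858fb_s.ImgA
import Pool.Agent.Lib_MP_1858fb_s.ImgB
import Pool.Agent.Lib_MP_1858fb_s.ImgVan

/-!
# IMG: the literal smooth point
-/

set_option autoImplicit false

namespace Pool.Agent.VFS

open Polynomial

section

variable {k : Type} [Field k] {N : ℕ}

/-- if the fibre of `f` over `v` is one reduced point, then `v` is a smooth point of the image -/
theorem img_smooth [IsAlgClosed k] {d : ℕ} {f : Fin (N + 1) → k[X]}
    (hd : ∀ a, (f a).natDegree ≤ d) (h0 : ∀ x : k, ∃ a, (f a).eval x ≠ 0)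
    (hoo : ∃ a, (f a).coeff d ≠ 0) (c : k) (v : Fin (N + 1) → k)
    (hv : ∃ t : k, t ≠ 0 ∧ ∀ a, (f a).eval c = t * v a)
    (hu : ∀ x : k, (∃ t : k, ∀ a, (f a).eval x = t * v a) → x = c)
    (hui : ¬ ∃ t : k, ∀ a, (f a).coeff d = t * v a)
    (hi : ¬ ∃ t : k, ∀ a, (derivative (f a)).eval c = t * v a) :
    VF.SmoothAt (N - 1) (Img (fun (j : Fin (d + 1)) a => (f a).coeff j)) v := by
  obtain ⟨a0, a1, ha, hva0, hns, hPQ⟩ := local_eqs_aux hd h0 c v hv hu hui hi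
  refine smoothAt_of_local_eqs_coord (fun G hG x => van_img_scale hd hv hG x)
    (fun E G => van_img_prime hd E G) ha hva0 (fun hmem => ?_) (fun j => ?_)
  · obtain ⟨s, x, hsx⟩ := hns
    exact hsx ((mem_van_img_iff hd _).1 hmem s x)
  · obtain ⟨P, Q, hQ, hPQ'⟩ := hPQ j
    exact ⟨P, Q, hQ, (mem_van_img_iff hd _).2 hPQ'⟩

end

end Pool.Agent.VFS
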