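import Mathlib

/-!
# A polynomial ring is integral over forms without common zero; the image is closed
-/

set_option autoImplicit false

namespace Pool.Agent.VFS

open MvPolynomial

section

variable {k : Type} [Field k] {ι n : Type} [Fintype n]

omit [Fintype n] in
/-- the component of degree `t` of a combination of forms of degree `d` -/
theorem hom_mul {d : ℕ} {f : MvPolynomial n k} (hf : f.IsHomogeneous d) (g : MvPolynomial n k)
    {t : ℕ} (ht : d ≤ t) :
    homogeneousComponent t (f * g) = f * homogeneousComponent (t - d) g := by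
  classical
  conv_lhs => rw [← sum_homogeneousComponent g, Finset.mul_sum, map_sum]
  have h1 : ∀ i ∈ Finset.range (g.totalDegree + 1),
      homogeneousComponent t (f * homogeneousComponent i g) =
        if i = t - d then f * homogeneousComponent (t - d) g else 0 := by
    intro i _
    have h2 : (f * homogeneousComponent i g).IsHomogeneous (d + i) :=
      hf.mul (homogeneousComponent_isHomogeneous i g)
    rw [homogeneousComponent_of_mem ((mem_homogeneousSubmodule _ _).2 h2)]
    by_cases h3 : i = t - d
    · subst h3
      rw [if_pos (by omega), if_pos rfl]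
    · rw [if_neg (by omega), if_neg h3]
  rw [Finset.sum_congr rfl h1, Finset.sum_ite_eq']
  split_ifs with h4
  · rfl
  · rw [homogeneousComponent_eq_zero (t - d) g (by
      rw [Finset.mem_range] at h4
      omega), mul_zero]

omit [Fintype n] in
theorem mem_span_of_hom {d : ℕ} (F : ι → MvPolynomial n k) (hF : ∀ a, (F a).IsHomogeneous d)
    {f : MvPolynomial n k} {t : ℕ} (ht : d ≤ t) (hf : f.IsHomogeneous t)
    (h : f ∈ Ideal.span (Set.range F)) : ∃ (s : Finset ι) (g : ι → MvPolynomial n k),
      (∀ a, (g a).IsHomogeneous (t - d)) ∧ f = ∑ a ∈ s, F a * g a := by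
  classical
  obtain ⟨c, hc⟩ := (Finsupp.mem_ideal_span_range_iff_exists_finsupp).1 h
  refine ⟨c.support, fun a => homogeneousComponent (t - d) (c a),
    fun a => homogeneousComponent_isHomogeneous _ _, ?_⟩
  have h1 : homogeneousComponent t f = f := by
    rw [homogeneousComponent_of_mem ((mem_homogeneousSubmodule _ _).2 hf), if_pos rfl]
  rw [← h1, ← hc, Finsupp.sum, map_sum]
  refine Finset.sum_congr rfl fun a _ => ?_
  rw [mul_comm, hom_mul (hF a) _ ht]

/-- the polynomial ring is a finite module over the ring of the forms `F a` of degree `d > 0`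
without common zero -/
theorem finite_forms [IsAlgClosed k] {d : ℕ} (hd : 0 < d) (F : ι → MvPolynomial n k)
    (hF : ∀ a, (F a).IsHomogeneous d) (h0 : ∀ x : n → k, (∀ a, aeval x (F a) = 0) → x = 0) :
    (aeval F : MvPolynomial ι k →ₐ[k] MvPolynomial n k).toRingHom.Finite := by
  classical
  let _ : Algebra (MvPolynomial ι k) (MvPolynomial n k) :=
    (aeval F : MvPolynomial ι k →ₐ[k] MvPolynomial n k).toRingHom.toAlgebra
  have hsm : ∀ (a : MvPolynomial ι k) (f : MvPolynomial n k), a • f = aeval F a * f :=
    fun a f => rfl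
  -- powers of the variables
  have h1 : ∀ i : n, ∃ e : ℕ, (X i : MvPolynomial n k) ^ e ∈ Ideal.span (Set.range F) := by
    intro i
    have h2 : (X i : MvPolynomial n k) ∈ (Ideal.span (Set.range F)).radical := by
      rw [← vanishingIdeal_zeroLocus_eq_radical (K := k)]
      rw [mem_vanishingIdeal_iff]
      intro x hx
      have hx0 : x = 0 := by
        apply h0
        intro a
        exact hx _ (Ideal.subset_span ⟨a, rfl⟩)
      rw [aeval_X, hx0]
      rfl
    exact h2
  choose e he using h1
  let D : ℕ := d + ∑ i, e i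
  have hmon : ∀ s : n →₀ ℕ, D < s.degree → (monomial s (1 : k)) ∈ Ideal.span (Set.range F) := by
    intro s hs
    have h3 : ∃ i, e i ≤ s i := by
      by_contra hcon
      push Not at hcon
      have h4 : s.degree = ∑ i, s i := by
        rw [Finsupp.degree_eq_sum]
      have h5 : ∑ i, s i ≤ ∑ i, e i := Finset.sum_le_sum fun i _ => (hcon i).le
      omega
    obtain ⟨i, hi⟩ := h3
    have h6 : (monomial s (1 : k)) = monomial (s - Finsupp.single i (e i)) 1 *
        (X i : MvPolynomial n k) ^ e i := by
      rw [X_pow_eq_monomial, monomial_mul, mul_one, tsub_add_cancel_of_le]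
      intro j
      by_cases hj : j = i
      · subst hj
        rw [Finsupp.single_eq_same]
        exact hi
      · rw [Finsupp.single_eq_of_ne hj]
        exact Nat.zero_le _
    rw [h6]
    exact Ideal.mul_mem_left _ _ (he i)
  let T : Set (MvPolynomial n k) := (fun s : n →₀ ℕ => monomial s (1 : k)) '' {s | s.degree ≤ D}
  have hT : T.Finite := (Finsupp.finite_of_degree_le D).image _
  have hall : ∀ (t : ℕ) (s : n →₀ ℕ), s.degree = t →
      (monomial s (1 : k)) ∈ Submodule.span (MvPolynomial ι k) T := by
    intro t
    induction t using Nat.strong_induction_on with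
    | _ t ih =>
      intro s hs
      by_cases hle : s.degree ≤ D
      · exact Submodule.subset_span ⟨s, hle, rfl⟩
      · push Not at hle
        have hdt : d ≤ t := by omega
        obtain ⟨A, g, hg, hsum⟩ := mem_span_of_hom F hF hdt
          (isHomogeneous_monomial (1 : k) hs) (hmon s hle)
        rw [hsum]
        refine Submodule.sum_mem _ fun a _ => ?_
        have h7 : F a * g a = (X a : MvPolynomial ι k) • g a := by
          rw [hsm, aeval_X]
        rw [h7]
        refine Submodule.smul_mem _ _ ?_
        rw [(g a).as_sum]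
        refine Submodule.sum_mem _ fun u hu => ?_
        have h8 : u.degree = t - d := by
          have := hg a (mem_support_iff.1 hu)
          rw [← this, Finsupp.degree_eq_weight_one]
          rfl
        have h9 : monomial u (coeff u (g a)) = (C (coeff u (g a)) : MvPolynomial ι k) •
            (monomial u (1 : k)) := by
          rw [hsm, aeval_C, algebraMap_eq, C_mul_monomial, mul_one]
        rw [h9]
        exact Submodule.smul_mem _ _ (ih (t - d) (by omega) u h8)
  refine ⟨⟨hT.toFinset, ?_⟩⟩
  rw [eq_top_iff]
  intro f _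
  rw [Set.Finite.coe_toFinset, f.as_sum]
  refine Submodule.sum_mem _ fun u _ => ?_
  have h9 : monomial u (coeff u f) = (C (coeff u f) : MvPolynomial ι k) •
      (monomial u (1 : k)) := by
    rw [hsm, aeval_C, algebraMap_eq, C_mul_monomial, mul_one]
  rw [h9]
  exact Submodule.smul_mem _ _ (hall _ u rfl)

/-- a point at which every relation between the forms `F a` vanishes is a value of `F` -/
theorem exists_point [IsAlgClosed k] {d : ℕ} (hd : 0 < d) (F : ι → MvPolynomial n k)
    (hF : ∀ a, (F a).IsHomogeneous d) (h0 : ∀ x : n → k, (∀ a, aeval x (F a) = 0) → x = 0)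
    (w : ι → k) (hw : ∀ E : MvPolynomial ι k, aeval F E = 0 → aeval w E = 0) :
    ∃ x : n → k, ∀ a, aeval x (F a) = w a := by
  classical
  let _ : Algebra (MvPolynomial ι k) (MvPolynomial n k) :=
    (aeval F : MvPolynomial ι k →ₐ[k] MvPolynomial n k).toRingHom.toAlgebra
  have hfin : (algebraMap (MvPolynomial ι k) (MvPolynomial n k)).Finite :=
    finite_forms hd F hF h0
  have : Algebra.IsIntegral (MvPolynomial ι k) (MvPolynomial n k) := ⟨hfin.to_isIntegral⟩
  have hsurj : Function.Surjective (aeval w : MvPolynomial ι k →ₐ[k] k) := fun c =>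
    ⟨C c, by simp⟩
  have hmax : (RingHom.ker (aeval w : MvPolynomial ι k →ₐ[k] k)).IsMaximal :=
    RingHom.ker_isMaximal_of_surjective (aeval w : MvPolynomial ι k →ₐ[k] k) hsurj
  obtain ⟨Q, hQ, hQw⟩ := Ideal.exists_ideal_over_maximal_of_isIntegral
    (S := MvPolynomial n k) (RingHom.ker (aeval w : MvPolynomial ι k →ₐ[k] k)) (fun E hE => hw E hE)
  obtain ⟨x, hx⟩ := (isMaximal_iff_eq_vanishingIdeal_singleton (K := k)).1 hQ
  refine ⟨x, fun a => ?_⟩
  have h1 : (X a - C (w a) : MvPolynomial ι k) ∈
      RingHom.ker (aeval w : MvPolynomial ι k →ₐ[k] k) := by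
    rw [RingHom.mem_ker]
    simp
  rw [← hQw] at h1
  have h2 : aeval F (X a - C (w a) : MvPolynomial ι k) ∈ Q := h1
  rw [hx] at h2
  have h3 := (mem_vanishingIdeal_iff.1 h2) x rfl
  rw [map_sub, aeval_X, aeval_C, map_sub, algebraMap_eq, aeval_C, sub_eq_zero] at h3
  exact h3

end

end Pool.Agent.VFS
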