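import Pool.Agent.Lib_MP_1858fb_w.Defs

/-! # The cone over the image of a curve -/

set_option autoImplicit false

namespace Pool.Agent.VFS

/-- the cone over the image of the curve `F` in projective space: all nonzero multiples of the
values of `F` at the points of the projective line -/
def Img {k : Type} [Field k] {N d : ℕ} (F : Fin (d + 1) → Fin (N + 1) → k) :
    Set (Fin (N + 1) → k) :=
  {y | ∃ a p q : k, a ≠ 0 ∧ (p ≠ 0 ∨ q ≠ 0) ∧ y = a • VF.val F p q}

end Pool.Agent.VFS
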