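import Pool.Agent.Lib_MP_1858fb_w.Van1
import Pool.Agent.Lib_MP_1858fb_w.Van2
import Pool.Agent.Lib_MP_1858fb_w.Inj2
import Pool.Agent.Lib_MP_1858fb_v.Cotangent
import Pool.Agent.Lib_MP_1858fb_s.Fin
import Pool.Agent.Lib_MP_1858fb_s.ImgDef

/-!
# Dimension one: a very free curve in a smooth irreducible one-dimensional `V` is onto `V`
-/

set_option autoImplicit false

namespace Pool.Agent.VFS

open MvPolynomial

section height

/-- a prime which is minimal over two elements has no chain of three primes below -/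
theorem no_chain {A : Type} [CommRing A] [IsDomain A] [IsNoetherianRing A] {m : Ideal A}
    (hm : m.IsPrime) (y : Fin 2 → A) (hy : ∀ l, y l ∈ m)
    (hgen : m ≤ Ideal.span (Set.range y) ⊔ m ^ 2) {P Q : Ideal A} (hP : P.IsPrime)
    (hQ : Q.IsPrime) (h1 : ⊥ < P) (h2 : P < Q) (h3 : Q < m) : False := by
  have hfg : m.FG := (isNoetherianRing_iff_ideal_fg A).1 inferInstance m
  obtain ⟨g, hg1, hg2⟩ := Submodule.exists_sub_one_mem_and_smul_le_of_fg_of_le_sup (I := m)
    (N := Ideal.span (Set.range y)) (N' := m) (P := m) hfg le_rfl (by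
      rw [smul_eq_mul, ← pow_two]; exact hgen)
  have hgm : g ∉ m := by
    intro h
    apply hm.ne_top
    rw [Ideal.eq_top_iff_one]
    have := Ideal.sub_mem _ h hg1
    rwa [sub_sub_cancel] at this
  have hmin : m ∈ (Ideal.span (Set.range y)).minimalPrimes := by
    refine ⟨⟨hm, ?_⟩, ?_⟩
    · rw [Ideal.span_le]
      rintro _ ⟨l, rfl⟩
      exact hy l
    · rintro q ⟨hq, hyq⟩ hqm a ha
      have h4 : g * a ∈ q := hyq (hg2 (Submodule.smul_mem_pointwise_smul a g m ha))
      exact (hq.mem_or_mem h4).resolve_left fun h => hgm (hqm h)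
  have hle : m.height ≤ 2 := by
    refine (Ideal.height_le_spanRank_toENat_of_mem_minimalPrimes _ _ hmin).trans ?_
    have h5 : (Ideal.span (Set.range y)).spanRank ≤ 2 := by
      refine (Submodule.spanRank_span_le_card _).trans ?_
      refine Cardinal.mk_range_le.trans ?_
      simp
    calc (Ideal.span (Set.range y)).spanRank.toENat ≤ Cardinal.toENat 2 :=
          Cardinal.toENat.monotone' h5
      _ = 2 := by simp
  have hbot : (⊥ : Ideal A).IsPrime := Ideal.isPrime_bot
  have e1 : (⊥ : Ideal A).height + 1 ≤ P.height := Ideal.height_add_one_le_of_lt_of_isPrime h1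
  have e2 : P.height + 1 ≤ Q.height := Ideal.height_add_one_le_of_lt_of_isPrime h2
  have e3 : Q.height + 1 ≤ m.height := Ideal.height_add_one_le_of_lt_of_isPrime h3
  have e4 : (3 : ℕ∞) ≤ m.height := by
    calc (3 : ℕ∞) = 0 + 1 + 1 + 1 := by norm_num
      _ ≤ (⊥ : Ideal A).height + 1 + 1 + 1 := by gcongr; exact zero_le
      _ ≤ P.height + 1 + 1 := by gcongr
      _ ≤ Q.height + 1 := by gcongr
      _ ≤ m.height := e3
  exact absurd (e4.trans hle) (by decide)

end height

section

variable {k : Type} [Field k] {N : ℕ} {V : Set (Fin (N + 1) → k)}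

/-- the tuple of forms as polynomials in two variables -/
noncomputable def form {d : ℕ} (F : Fin (d + 1) → Fin (N + 1) → k) (a : Fin (N + 1)) :
    MvPolynomial (Fin 2) k :=
  ∑ j : Fin (d + 1), C (F j a) * (X 0 ^ (d - (j : ℕ)) * X 1 ^ (j : ℕ))

theorem form_hom {d : ℕ} (F : Fin (d + 1) → Fin (N + 1) → k) (a : Fin (N + 1)) :
    (form F a).IsHomogeneous d := by
  refine IsHomogeneous.sum _ _ _ fun j _ => ?_
  have h1 : ((X 0 : MvPolynomial (Fin 2) k) ^ (d - (j : ℕ)) * X 1 ^ (j : ℕ)).IsHomogeneous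
      (d - (j : ℕ) + (j : ℕ)) :=
    (isHomogeneous_X_pow _ _).mul (isHomogeneous_X_pow _ _)
  have h2 := (isHomogeneous_C (Fin 2) (F j a)).mul h1
  have h3 : 0 + (d - (j : ℕ) + (j : ℕ)) = d := by
    have := j.2
    omega
  rwa [h3] at h2

theorem aeval_form {d : ℕ} (F : Fin (d + 1) → Fin (N + 1) → k) (a : Fin (N + 1))
    (x : Fin 2 → k) : aeval x (form F a) = VF.val F (x 0) (x 1) a := by
  simp [form, VF.val]

theorem aeval_aeval_form {d : ℕ} (F : Fin (d + 1) → Fin (N + 1) → k)
    (E : MvPolynomial (Fin (N + 1)) k) (x : Fin 2 → k) :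
    aeval x (aeval (form F) E) = aeval (VF.val F (x 0) (x 1)) E := by
  have h : (aeval x).comp (aeval (form F)) =
      (aeval (VF.val F (x 0) (x 1)) : MvPolynomial (Fin (N + 1)) k →ₐ[k] k) := by
    apply MvPolynomial.algHom_ext
    intro a
    rw [AlgHom.comp_apply, aeval_X, aeval_X, aeval_form]
  exact DFunLike.congr_fun h E

/-- the line through the vector `x0` -/
noncomputable def line (x0 : Fin (N + 1) → k) (a : Fin (N + 1)) : Polynomial k :=
  Polynomial.C (x0 a) * Polynomial.X

theorem eval_line (x0 : Fin (N + 1) → k) (E : MvPolynomial (Fin (N + 1)) k) (s : k) :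
    Polynomial.eval s (aeval (line x0) E) = aeval (s • x0) E := by
  have h : (Polynomial.aeval s).comp (aeval (line x0)) =
      (aeval (s • x0) : MvPolynomial (Fin (N + 1)) k →ₐ[k] k) := by
    apply MvPolynomial.algHom_ext
    intro a
    rw [AlgHom.comp_apply, aeval_X, aeval_X, line, map_mul, Polynomial.aeval_C,
      Polynomial.aeval_X, Pi.smul_apply, smul_eq_mul, mul_comm]
    rfl
  have h2 := DFunLike.congr_fun h E
  rw [AlgHom.comp_apply, Polynomial.aeval_def, Polynomial.eval₂_eq_eval_map] at h2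
  simpa using h2

theorem line_eq_zero_iff [Infinite k] (x0 : Fin (N + 1) → k) (E : MvPolynomial (Fin (N + 1)) k) :
    aeval (line x0) E = 0 ↔ ∀ s : k, aeval (s • x0) E = 0 := by
  constructor
  · intro h s
    rw [← eval_line, h, Polynomial.eval_zero]
  · intro h
    refine Polynomial.funext fun s => ?_
    rw [eval_line, h s, Polynomial.eval_zero]

theorem form_eq_zero_iff [Infinite k] {d : ℕ} (F : Fin (d + 1) → Fin (N + 1) → k)
    (E : MvPolynomial (Fin (N + 1)) k) :
    aeval (form F) E = 0 ↔ ∀ p q : k, (p ≠ 0 ∨ q ≠ 0) → aeval (VF.val F p q) E = 0 := by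
  constructor
  · intro h p q _
    have := aeval_aeval_form F E ![p, q]
    rw [h, map_zero] at this
    exact this.symm
  · intro h
    have h1 : X 0 * aeval (form F) E = (0 : MvPolynomial (Fin 2) k) := by
      refine MvPolynomial.funext fun x => ?_
      rw [← aeval_eq_eval, map_zero]
      change aeval x (X 0 * aeval (form F) E) = 0
      rw [map_mul, aeval_X, aeval_aeval_form]
      by_cases hx : x 0 = 0
      · rw [hx, zero_mul]
      · rw [h _ _ (Or.inl hx), mul_zero]
    exact (mul_eq_zero.1 h1).resolve_left (X_ne_zero 0)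

theorem val_smul {d : ℕ} (F : Fin (d + 1) → Fin (N + 1) → k) (t p q : k) :
    VF.val F (t * p) (t * q) = t ^ d • VF.val F p q := by
  funext a
  simp only [VF.val, Pi.smul_apply, smul_eq_mul, Finset.mul_sum]
  refine Finset.sum_congr rfl fun j _ => ?_
  have hj : t ^ d = t ^ (d - (j : ℕ)) * t ^ (j : ℕ) := by
    rw [← pow_add]
    congr 1
    have := j.2
    omega
  rw [mul_pow, mul_pow, hj]
  ring

theorem val_one_zero {d : ℕ} (F : Fin (d + 1) → Fin (N + 1) → k) (a : Fin (N + 1)) :
    VF.val F 1 0 a = F 0 a := by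
  rw [VF.val, Finset.sum_eq_single 0]
  · simp
  · intro j _ hj
    have : (j : ℕ) ≠ 0 := fun h => hj (Fin.ext h)
    rw [zero_pow this]
    ring
  · intro h
    exact absurd (Finset.mem_univ _) h

theorem val_zero_one {d : ℕ} (F : Fin (d + 1) → Fin (N + 1) → k) (a : Fin (N + 1)) :
    VF.val F 0 1 a = F (Fin.last d) a := by
  rw [VF.val, Finset.sum_eq_single (Fin.last d)]
  · simp
  · intro j _ hj
    have : d - (j : ℕ) ≠ 0 := by
      have h1 := j.2
      have h2 : (j : ℕ) ≠ d := fun h => hj (Fin.ext h)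
      omega
    rw [zero_pow this]
    ring
  · intro h
    exact absurd (Finset.mem_univ _) h

/-- a form of positive degree in two variables has a zero -/
theorem exists_zero [IsAlgClosed k] {d : ℕ} (hd : 0 < d) (F : Fin (d + 1) → Fin (N + 1) → k)
    (a : Fin (N + 1)) : ∃ p q : k, (p ≠ 0 ∨ q ≠ 0) ∧ VF.val F p q a = 0 := by
  classical
  let f : Polynomial k := ∑ j : Fin (d + 1), Polynomial.monomial (j : ℕ) (F j a)
  have hf : ∀ x : k, f.eval x = VF.val F 1 x a := by
    intro x
    simp [f, VF.val, Polynomial.eval_finsetSum]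
  by_cases h0 : f.degree = 0
  · refine ⟨0, 1, Or.inr one_ne_zero, ?_⟩
    rw [val_zero_one]
    have h1 : f.coeff d = F (Fin.last d) a := by
      simp only [f, Polynomial.finsetSum_coeff, Polynomial.coeff_monomial]
      rw [Finset.sum_eq_single (Fin.last d)]
      · simp
      · intro j _ hj
        have h2 : (j : ℕ) ≠ d := fun h => hj (Fin.ext h)
        rw [if_neg h2]
      · intro h
        exact absurd (Finset.mem_univ _) h
    rw [← h1]
    apply Polynomial.coeff_eq_zero_of_degree_lt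
    rw [h0]
    exact_mod_cast hd
  · obtain ⟨x, hx⟩ := IsAlgClosed.exists_root f h0
    exact ⟨1, x, Or.inl one_ne_zero, (hf x).symm.trans hx⟩

/-- the relations between the forms are the equations of `V` -/
theorem mem_van_of_form [IsAlgClosed k] (hV : VF.LocClosed V) (hirr : VF.Irred V) {cc : ℕ}
    (hcc : cc + 1 = N) {d : ℕ} (hd : 0 < d) {F : Fin (d + 1) → Fin (N + 1) → k}
    (hF : VF.IsCurve V F) (hs : VF.SmoothAt cc V (VF.val F 1 0))
    {E : MvPolynomial (Fin (N + 1)) k} (hE : aeval (form F) E = 0) : E ∈ VF.van V := by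
  classical
  by_contra hEV
  have hxV : VF.val F 1 0 ∈ V := hF 1 0 (Or.inl one_ne_zero)
  set x0 := VF.val F 1 0 with hx0
  have hne : ∀ p q : k, (p ≠ 0 ∨ q ≠ 0) → VF.val F p q ≠ 0 := by
    obtain ⟨I, J, _, rfl⟩ := hV
    intro p q hpq
    exact (hF p q hpq).1
  have hprime : (VF.van V).IsPrime := by
    constructor
    · intro htop
      have h1 : (1 : MvPolynomial (Fin (N + 1)) k) ∈ VF.van V := (Ideal.eq_top_iff_one _).1 htop
      have h2 := h1 x0 hxV
      rw [map_one] at h2
      exact one_ne_zero h2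
    · intro a b hab
      exact hirr.2 a b hab
  -- the three homomorphisms
  have hPV : ∀ G ∈ VF.van V, (aeval (form F) : MvPolynomial (Fin (N + 1)) k →ₐ[k] _) G = 0 := by
    intro G hG
    rw [form_eq_zero_iff]
    intro p q hpq
    exact hG _ (hF p q hpq)
  have hline : ∀ G : MvPolynomial (Fin (N + 1)) k, aeval (form F) G = 0 →
      aeval (line x0) G = 0 := by
    intro G hG
    rw [line_eq_zero_iff]
    intro s
    obtain ⟨t, ht⟩ := IsAlgClosed.exists_pow_nat_eq s hd
    have h1 := aeval_aeval_form F G ![t * 1, t * 0]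
    rw [hG, map_zero] at h1
    have h2 : VF.val F (![t * 1, t * 0] 0) (![t * 1, t * 0] 1) = s • x0 := by
      change VF.val F (t * 1) (t * 0) = s • x0
      rw [val_smul, ht]
    rw [h2] at h1
    exact h1.symm
  have hQV : ∀ G ∈ VF.van V, (aeval (line x0) : MvPolynomial (Fin (N + 1)) k →ₐ[k] _) G = 0 :=
    fun G hG => hline G (hPV G hG)
  have hmV : ∀ G ∈ VF.van V, (aeval x0 : MvPolynomial (Fin (N + 1)) k →ₐ[k] k) G = 0 :=
    fun G hG => hG x0 hxV
  let A := MvPolynomial (Fin (N + 1)) k ⧸ VF.van V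
  have hdom : IsDomain A := Ideal.Quotient.isDomain _
  let fP : A →ₐ[k] MvPolynomial (Fin 2) k := Ideal.Quotient.liftₐ (VF.van V) (aeval (form F)) hPV
  let fQ : A →ₐ[k] Polynomial k := Ideal.Quotient.liftₐ (VF.van V) (aeval (line x0)) hQV
  let fm : A →ₐ[k] k := Ideal.Quotient.liftₐ (VF.van V) (aeval x0) hmV
  have hfP : ∀ G, fP (Ideal.Quotient.mk _ G) = aeval (form F) G := fun G => rfl
  have hfQ : ∀ G, fQ (Ideal.Quotient.mk _ G) = aeval (line x0) G := fun G => rfl
  have hfm : ∀ G, fm (Ideal.Quotient.mk _ G) = aeval x0 G := fun G => rfl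
  have hPp : (RingHom.ker fP).IsPrime := RingHom.ker_isPrime fP
  have hQp : (RingHom.ker fQ).IsPrime := RingHom.ker_isPrime fQ
  have hmp : (RingHom.ker fm).IsPrime := RingHom.ker_isPrime fm
  -- the chain
  have h1 : ⊥ < RingHom.ker fP := by
    rw [bot_lt_iff_ne_bot]
    intro h
    have h2 : Ideal.Quotient.mk (VF.van V) E ∈ RingHom.ker fP := by
      rw [RingHom.mem_ker, hfP, hE]
    rw [h, Ideal.mem_bot, Ideal.Quotient.eq_zero_iff_mem] at h2
    exact hEV h2
  obtain ⟨a0, ha0⟩ : ∃ a, x0 a ≠ 0 := by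
    by_contra hcon
    push Not at hcon
    exact hne 1 0 (Or.inl one_ne_zero) (funext hcon)
  have h2 : RingHom.ker fP < RingHom.ker fQ := by
    refine lt_of_le_of_ne ?_ ?_
    · intro b hb
      obtain ⟨G, rfl⟩ := Ideal.Quotient.mk_surjective b
      rw [RingHom.mem_ker, hfP] at hb
      rw [RingHom.mem_ker, hfQ]
      exact hline G hb
    · intro heq
      obtain ⟨p, q, hpq, hz⟩ := exists_zero hd F a0
      apply hne p q hpq
      funext b
      have h3 : Ideal.Quotient.mk (VF.van V) (X a0 * C (x0 b) - X b * C (x0 a0)) ∈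
          RingHom.ker fQ := by
        rw [RingHom.mem_ker, hfQ]
        simp only [map_sub, map_mul, aeval_X, aeval_C, line, Polynomial.algebraMap_eq]
        ring
      rw [← heq, RingHom.mem_ker, hfP, form_eq_zero_iff] at h3
      have h4 := h3 p q hpq
      simp only [map_sub, map_mul, aeval_X, aeval_C] at h4
      rw [hz, zero_mul, zero_sub, neg_eq_zero] at h4
      exact (mul_eq_zero.1 h4).resolve_right ha0
  have h3 : RingHom.ker fQ < RingHom.ker fm := by
    refine lt_of_le_of_ne ?_ ?_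
    · intro b hb
      obtain ⟨G, rfl⟩ := Ideal.Quotient.mk_surjective b
      rw [RingHom.mem_ker, hfQ, line_eq_zero_iff] at hb
      rw [RingHom.mem_ker, hfm]
      have := hb 1
      rwa [one_smul] at this
    · intro heq
      have h4 : Ideal.Quotient.mk (VF.van V) (X a0 - C (x0 a0)) ∈ RingHom.ker fm := by
        rw [RingHom.mem_ker, hfm]
        simp
      rw [← heq, RingHom.mem_ker, hfQ, line_eq_zero_iff] at h4
      have h5 := h4 0
      rw [zero_smul] at h5
      simp at h5
      exact ha0 h5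
  -- generators
  have hspan : RingHom.ker fm = Ideal.span (Set.range fun i =>
      (Ideal.Quotient.mk (VF.van V) (X i - C (x0 i)) : A)) := by
    apply le_antisymm
    · intro b hb
      obtain ⟨G, rfl⟩ := Ideal.Quotient.mk_surjective b
      rw [RingHom.mem_ker, hfm] at hb
      have h4 : G ∈ VF.mAt x0 := VF.mem_mAt_iff.2 hb
      have h5 := Ideal.mem_map_of_mem (Ideal.Quotient.mk (VF.van V)) h4
      rw [VF.mAt, Ideal.map_span] at h5
      have h6 : (Ideal.Quotient.mk (VF.van V)) '' (Set.range fun l => X l - C (x0 l)) =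
          Set.range fun i => (Ideal.Quotient.mk (VF.van V) (X i - C (x0 i)) : A) := by
        rw [← Set.range_comp]
        rfl
      rwa [h6] at h5
    · rw [Ideal.span_le]
      rintro _ ⟨i, rfl⟩
      change _ ∈ RingHom.ker fm
      rw [RingHom.mem_ker, hfm]
      simp
  obtain ⟨e, H, he, hli, hH, _⟩ := hs
  have hmap : ∀ G ∈ (VF.mAt x0) ^ 2, (Ideal.Quotient.mk (VF.van V) G : A) ∈
      (RingHom.ker fm) ^ 2 := by
    intro G hG
    have h4 := Ideal.mem_map_of_mem (Ideal.Quotient.mk (VF.van V)) hG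
    rw [Ideal.map_pow] at h4
    refine Ideal.pow_right_mono ?_ 2 h4
    rw [Ideal.map_le_iff_le_comap]
    intro G' hG'
    rw [Ideal.mem_comap, RingHom.mem_ker, hfm]
    exact VF.mem_mAt_iff.1 hG'
  obtain ⟨y, hy, hgen⟩ := _root_.VF.exists_generators (k := k) (m := RingHom.ker fm)
    (fun i => (Ideal.Quotient.mk (VF.van V) (X i - C (x0 i)) : A)) hspan
    (c := cc) (n := 2) (by rw [Fintype.card_fin]; omega)
    (fun j i => aeval x0 (pderiv i (e j))) hli (by
      intro j
      have h4 := hmap _ (VF.sub_linear_mem x0 (e j))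
      have h5 : eval x0 (e j) = 0 := he j x0 hxV
      rw [h5, map_zero, sub_zero, map_sub, Ideal.Quotient.eq_zero_iff_mem.2 (he j), zero_sub] at h4
      have h6 := (RingHom.ker fm ^ 2).neg_mem h4
      rw [neg_neg, map_sum] at h6
      have h7 : (∑ i, algebraMap k A (aeval x0 (pderiv i (e j))) *
          (Ideal.Quotient.mk (VF.van V) (X i - C (x0 i)) : A)) =
          ∑ i, Ideal.Quotient.mk (VF.van V) (C (eval x0 (pderiv i (e j))) * (X i - C (x0 i))) := by
        refine Finset.sum_congr rfl fun i _ => ?_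
        rw [map_mul]
        rfl
      rw [h7]
      exact h6)
  exact no_chain hmp y hy hgen hPp hQp h1 h2 h3

/-- in dimension one the degree of a very free curve is positive -/
theorem pos_of_veryFree_one {cc : ℕ} (hcc : cc + 1 = N) (hsm : ∀ x ∈ V, VF.SmoothAt cc V x) {d : ℕ}
    {F : Fin (d + 1) → Fin (N + 1) → k} (hF : VF.IsCurve V F) (hvf : VF.VeryFree V F) :
    0 < d := by
  classical
  by_contra hd
  obtain rfl : d = 0 := by omega
  have hxV : VF.val F 1 0 ∈ V := hF 1 0 (Or.inl one_ne_zero)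
  have hconst : ∀ (G : Fin (0 + 1) → Fin (N + 1) → k) (p q : k), VF.val G p q = G 0 := by
    intro G p q
    funext a
    simp [VF.val]
  have hfin := VF.finrank_tan hxV (hsm _ hxV)
  rw [Fintype.card_fin] at hfin
  have h2 : Module.finrank k (VF.Tan V (VF.val F 1 0)) = 2 := by omega
  have h3 : ∃ w ∈ VF.Tan V (VF.val F 1 0), w ∉ Submodule.span k {VF.val F 1 0} := by
    by_contra hcon
    push Not at hcon
    have h4 : VF.Tan V (VF.val F 1 0) ≤ Submodule.span k {VF.val F 1 0} := hcon
    have h5 := Submodule.finrank_mono h4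
    have h6 := finrank_span_le_card (R := k) ({VF.val F 1 0} : Set (Fin (N + 1) → k))
    simp at h6
    omega
  obtain ⟨w, hw, hw2⟩ := h3
  obtain ⟨G, _, ⟨a, ha⟩, ⟨a', ha'⟩⟩ := hvf 1 0 0 1 (by simp) w hw 0 (Submodule.zero_mem _)
  apply hw2
  rw [hconst G, hconst F] at ha ha'
  rw [hconst F]
  have ha2 : G 0 = a' • F 0 := ha'.trans (zero_add (a' • F 0))
  rw [Submodule.mem_span_singleton]
  refine ⟨a' - a, ?_⟩
  rw [sub_smul, ← ha2, ha, add_sub_cancel_right]

/-- in dimension one every point of `V` lies on the curve -/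
theorem exists_val_eq [IsAlgClosed k] (hV : VF.LocClosed V) (hirr : VF.Irred V) {cc : ℕ}
    (hcc : cc + 1 = N) (hsm : ∀ x ∈ V, VF.SmoothAt cc V x) {d : ℕ}
    {F : Fin (d + 1) → Fin (N + 1) → k} (hF : VF.IsCurve V F) (hvf : VF.VeryFree V F)
    {w : Fin (N + 1) → k} (hw : w ∈ V) :
    ∃ p q : k, (p ≠ 0 ∨ q ≠ 0) ∧ VF.val F p q = w := by
  have hd := pos_of_veryFree_one hcc hsm hF hvf
  have hV0 : ∀ y ∈ V, y ≠ 0 := by
    obtain ⟨I, J, _, rfl⟩ := hV
    intro y hy
    exact hy.1
  have h0 : ∀ x : Fin 2 → k, ¬ (x 0 ≠ 0 ∨ x 1 ≠ 0) → x = 0 := by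
    intro x hx
    push Not at hx
    funext i
    refine Fin.cases ?_ (fun j => ?_) i
    · exact hx.1
    · have : j = 0 := Subsingleton.elim _ _
      subst this
      exact hx.2
  have hz : ∀ x : Fin 2 → k, (∀ a, aeval x (form F a) = 0) → x = 0 := by
    intro x hx
    by_contra hne
    have h1 : x 0 ≠ 0 ∨ x 1 ≠ 0 := by
      by_contra h2
      exact hne (h0 x h2)
    apply hV0 _ (hF _ _ h1)
    funext a
    rw [← aeval_form]
    exact hx a
  have hrel : ∀ E : MvPolynomial (Fin (N + 1)) k, aeval (form F) E = 0 → aeval w E = 0 := by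
    intro E hE
    have h1 := mem_van_of_form hV hirr hcc hd hF (hsm _ (hF 1 0 (Or.inl one_ne_zero))) hE
    exact h1 w hw
  obtain ⟨x, hx⟩ := exists_point hd (form F) (form_hom F) hz w hrel
  have hval : VF.val F (x 0) (x 1) = w := by
    funext a
    rw [← aeval_form]
    exact hx a
  have hne : x 0 ≠ 0 ∨ x 1 ≠ 0 := by
    by_contra h2
    push Not at h2
    have h4 := val_smul F 0 0 0
    rw [zero_mul, zero_pow hd.ne', zero_smul] at h4
    rw [h2.1, h2.2, h4] at hval
    exact hV0 w hw hval.symm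
  exact ⟨x 0, x 1, hne, hval⟩

/-- in dimension one the image of a very free curve is `V` -/
theorem img_eq_of_dim_one [IsAlgClosed k] (hV : VF.LocClosed V) (hirr : VF.Irred V) {cc : ℕ}
    (hcc : cc + 1 = N) (hsm : ∀ x ∈ V, VF.SmoothAt cc V x) {d : ℕ}
    {F : Fin (d + 1) → Fin (N + 1) → k} (hF : VF.IsCurve V F) (hvf : VF.VeryFree V F) :
    Img F = V := by
  ext y
  constructor
  · rintro ⟨a, p, q, ha, hpq, rfl⟩
    exact VF.smul_mem_of_locClosed hV (hF p q hpq) ha
  · intro hy
    obtain ⟨p, q, hpq, h⟩ := exists_val_eq hV hirr hcc hsm hF hvf hy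
    exact ⟨1, p, q, one_ne_zero, hpq, by rw [one_smul, h]⟩

end

end Pool.Agent.VFS
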