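import Pool.Agent.Lib_MP_1858fb_s.Start0
import Pool.Agent.Lib_MP_1858fb_w.Van2

/-! # Smooth points add-on, D2: the cover gives the structure `Start` -/

set_option autoImplicit false

namespace Pool.Agent.VFS

open Polynomial

section

variable {k : Type} [Field k] {N : ℕ} {V : Set (Fin (N + 1) → k)}

/-- a very free curve is not constant -/
theorem pos_of_veryFree {c d : ℕ} (hc : c < N) (hsm : ∀ x ∈ V, VF.SmoothAt c V x)
    {F : Fin (d + 1) → Fin (N + 1) → k} (hF : VF.IsCurve V F) (hvf : VF.VeryFree V F) : 0 < d := by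
  rcases Nat.eq_zero_or_pos d with rfl | hd
  · exfalso
    have hval : ∀ (G : Fin (0 + 1) → Fin (N + 1) → k) (p q : k), VF.val G p q = G 0 := by
      intro G p q
      funext i
      unfold VF.val
      rw [Fin.sum_univ_one]
      simp
    have h1 : F 0 ∈ V := by
      have := hF 1 0 (Or.inl one_ne_zero)
      rwa [hval] at this
    have h2 := VF.finrank_tan h1 (hsm _ h1)
    rw [Fintype.card_fin] at h2
    have h3 : VF.Tan V (F 0) ≤ Submodule.span k {F 0} := by
      intro w hw
      obtain ⟨G, -, ⟨a, ha⟩, a', ha'⟩ := hvf 1 0 0 1 (by simp) 0 (Submodule.zero_mem _) w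
        (by rwa [hval])
      simp only [hval, zero_add] at ha ha'
      rw [Submodule.mem_span_singleton]
      refine ⟨a - a', ?_⟩
      rw [sub_smul, ← ha, ha']
      exact add_sub_cancel_right _ _
    have h4 := Submodule.finrank_mono h3
    have h5 : Module.finrank k (Submodule.span k {F 0}) ≤ 1 := by
      refine (finrank_span_le_card ({F 0} : Set (Fin (N + 1) → k))).trans ?_
      simp
    omega
  · exact hd

theorem dv_eq_dif (E : MvPolynomial (Fin (N + 1)) k) (x u : Fin (N + 1) → k) :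
    dv E x u = VF.dif E x u := by
  unfold dv VF.dif
  simp only [MvPolynomial.aeval_eq_eval]

theorem mem_tan {x u : Fin (N + 1) → k} (hu : u ∈ VF.Tan V x) :
    ∀ E ∈ (VF.van V : Set (MvPolynomial (Fin (N + 1)) k)), dv E x u = 0 := by
  intro E hE
  rw [dv_eq_dif]
  exact hu E hE

/-- the cover -/
theorem start_of_input [IsAlgClosed k] {d m : ℕ} (hd : 0 < d) {f : Fin (N + 1) → k[X]}
    (hfd : ∀ a, (f a).natDegree ≤ d) (hfin : ∀ x : k, (fun a => (f a).eval x) ∈ V)
    (hinf : (fun a => (f a).coeff d) ∈ V)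
    (hff : ∀ E ∈ (VF.van V : Set (MvPolynomial (Fin (N + 1)) k)), dp E f f = 0)
    (hvf : ∀ p q : k, p ≠ q → ∀ u : Fin (N + 1) → k,
      (∀ E ∈ (VF.van V : Set (MvPolynomial (Fin (N + 1)) k)), dv E (fun a => (f a).eval q) u = 0) →
      ∃ G, Sec (VF.van V : Set _) f d G ∧ (∃ c : k, ∀ a, (G a).eval p = c * (f a).eval p) ∧
        ∃ c : k, ∀ a, (G a).eval q = u a + c * (f a).eval q)
    (hvi : ∀ p : k, ∀ u : Fin (N + 1) → k,
      (∀ E ∈ (VF.van V : Set (MvPolynomial (Fin (N + 1)) k)), dv E (fun a => (f a).coeff d) u = 0) →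
      ∃ G, Sec (VF.van V : Set _) f d G ∧ (∃ c : k, ∀ a, (G a).eval p = c * (f a).eval p) ∧
        ∃ c : k, ∀ a, (G a).coeff d = u a + c * (f a).coeff d) :
    Start V ((m + 1) * d) m (fun a => expand k (m + 1) (f a)) where
  hm := by nlinarith
  deg a := by
    rw [natDegree_expand, mul_comm]
    exact Nat.mul_le_mul_left _ (hfd a)
  fin x := by
    have := hfin (x ^ (m + 1))
    simpa only [expand_eval] using this
  inf := by
    have h1 : ∀ g : k[X], (expand k (m + 1) g).coeff ((m + 1) * d) = g.coeff d :=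
      fun g => coeff_expand_mul' (Nat.succ_pos m) g d
    simpa only [h1] using hinf
  sfin x u hu := cover_fin (Nat.lt_succ_self m) hfd hff hvf x u (mem_tan hu)
  sinf u hu := cover_inf (Nat.lt_succ_self m) hfd hff hvi u (mem_tan hu)

/-- `V` is a cone, `F` very free (modulo the radial direction), `m` distinct points `P i` of the
projective line: after a linear change of the parameter and the cover `X ↦ X ^ (m + 1)`. -/
theorem exists_start [IsAlgClosed k] (hV : VF.LocClosed V) {c d : ℕ} (hc : c < N)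
    (hsm : ∀ x ∈ V, VF.SmoothAt c V x) {F : Fin (d + 1) → Fin (N + 1) → k}
    (hF : VF.IsCurve V F) (hvf : VF.VeryFree V F) {m : ℕ} (P : Fin m → k × k)
    (hP : ∀ i, P i ≠ 0) (hPP : ∀ i j, i ≠ j → (P i).1 * (P j).2 - (P j).1 * (P i).2 ≠ 0) :
    ∃ (D : ℕ) (c' : Fin m → k) (F0 : Fin (N + 1) → k[X]), Function.Injective c' ∧
      Start V D m F0 ∧
      ∀ i, ∃ t : k, t ≠ 0 ∧ (fun a => (F0 a).eval (c' i)) = t • VF.val F (P i).1 (P i).2 := by
  obtain ⟨f, c0, hc0, hfd, hfin, hinf, hpts, hff, h1, h2⟩ :=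
    start_input hV hc hsm hF hvf P hP hPP
  obtain ⟨c', hc', hcc⟩ := cover_points (Nat.succ_pos m) c0 hc0
  refine ⟨(m + 1) * d, c', fun a => expand k (m + 1) (f a), hc',
    start_of_input (pos_of_veryFree hc hsm hF hvf) hfd hfin hinf hff h1 h2, fun i => ?_⟩
  obtain ⟨t, ht, h⟩ := hpts i
  refine ⟨t, ht, ?_⟩
  rw [← h]
  funext a
  have h3 : (expand k (m + 1) (f a)).eval (c' i) = (f a).eval (c' i ^ (m + 1)) := expand_eval _ _ _
  rw [h3, hcc i]

end

end Pool.Agent.VFS
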