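import Pool.Agent.Lib_MP_1858fb_s.AsmA
import Pool.Agent.Lib_MP_1858fb_s.Start
import Pool.Agent.Lib_MP_1858fb_s.Img
import Pool.Agent.Lib_MP_1858fb_s.Back
import Pool.Agent.Lib_MP_1858fb_s.One

/-!
# Smooth points add-on: the final theorem
-/

set_option autoImplicit false

namespace Pool.Agent.VFS

open Polynomial

variable {k : Type} [Field k] {N : ℕ} {V : Set (Fin (N + 1) → k)}

theorem val_form_one {d : ℕ} (f : Fin (N + 1) → k[X]) (hd : ∀ a, (f a).natDegree ≤ d) (x : k) :
    VF.val (fun (j : Fin (d + 1)) a => (f a).coeff j) 1 x = fun a => (f a).eval x := by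
  funext a
  unfold VF.val
  simp only [one_pow, one_mul]
  rw [eval_eq_sum_range' (Nat.lt_succ_of_le (hd a)),
    ← Fin.sum_univ_eq_sum_range (fun i => (f a).coeff i * x ^ i)]

theorem val_smul_arg {d : ℕ} (F : Fin (d + 1) → Fin (N + 1) → k) (t p q : k) :
    VF.val F (t * p) (t * q) = t ^ d • VF.val F p q := by
  funext a
  rw [Pi.smul_apply, smul_eq_mul]
  unfold VF.val
  rw [Finset.mul_sum]
  refine Finset.sum_congr rfl fun j _ => ?_
  have h : d = (d - (j : ℕ)) + j := by have := j.2; omega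
  have h1 : t ^ d = t ^ (d - (j : ℕ)) * t ^ (j : ℕ) := by rw [← pow_add, ← h]
  rw [mul_pow, mul_pow, h1]
  ring

/-- smooth points, dimension at least two -/
theorem exists_smooth_ge_two [IsAlgClosed k] (hV : VF.LocClosed V) {cc n : ℕ} (hn : 2 ≤ n)
    (hcc : cc + n = N) (hsm : ∀ x ∈ V, VF.SmoothAt cc V x) {d : ℕ}
    {F : Fin (d + 1) → Fin (N + 1) → k} (hF : VF.IsCurve V F) (hvf : VF.VeryFree V F) {m : ℕ}
    (hm : 0 < m) (v : Fin m → Fin (N + 1) → k) (hv : ∀ i, v i ∈ Img F)
    (hvv : ∀ i j, i ≠ j → ∀ t : k, v i ≠ t • v j) :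
    ∃ (d' : ℕ) (F' : Fin (d' + 1) → Fin (N + 1) → k), VF.IsCurve V F' ∧ VF.VeryFree V F' ∧
      ∀ i, v i ∈ Img F' ∧ VF.SmoothAt (N - 1) (Img F') (v i) := by
  classical
  choose a p q ha hpq hvi using hv
  have h00 : ∀ x ∈ V, x ≠ 0 := by
    intro x hx
    obtain ⟨I, J, _, rfl⟩ := hV
    exact hx.1
  obtain ⟨D, c, F0, hc, h0, hF0⟩ := exists_start hV (by omega) hsm hF hvf (fun i => (p i, q i))
    (by
      intro i h
      have h1 := congrArg Prod.fst h
      have h2 := congrArg Prod.snd h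
      rcases hpq i with h3 | h3
      · exact h3 h1
      · exact h3 h2)
    (by
      intro i j hij h
      simp only at h
      -- the two points of the line are equal
      obtain ⟨t, ht⟩ : ∃ t : k, p i = t * p j ∧ q i = t * q j := by
        rcases hpq j with h3 | h3
        · refine ⟨p i / p j, ?_, ?_⟩
          · field_simp
          · field_simp
            linear_combination -h
        · refine ⟨q i / q j, ?_, ?_⟩
          · field_simp
            linear_combination h
          · field_simp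
      apply hvv i j hij (a i * t ^ d * (a j)⁻¹)
      rw [hvi i, hvi j, ht.1, ht.2, val_smul_arg, smul_smul, smul_smul]
      congr 1
      have := ha j
      field_simp)
  obtain ⟨c₀, x, f, hx, hG⟩ := smooth_core hV hn hcc hsm h0 hm c hc v (by
    intro i
    obtain ⟨t, ht, h1⟩ := hF0 i
    refine ⟨t * (a i)⁻¹, mul_ne_zero ht (inv_ne_zero (ha i)), fun b => ?_⟩
    have h2 := congrFun h1 b
    simp only [Pi.smul_apply, smul_eq_mul] at h2
    rw [h2, hvi i, Pi.smul_apply, smul_eq_mul]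
    have := ha i
    field_simp) hvv
  obtain ⟨hC, hVF⟩ := good_veryFree hcc hV hsm hx hG
  refine ⟨D, _, hC, hVF, fun i => ?_⟩
  obtain ⟨t, ht, h1⟩ := hG.mark i
  refine ⟨⟨t⁻¹, 1, c i, inv_ne_zero ht, Or.inl one_ne_zero, ?_⟩, ?_⟩
  · rw [val_form_one f hG.deg]
    funext b
    rw [Pi.smul_apply, smul_eq_mul, h1 b]
    field_simp
  · refine img_smooth hG.deg ?_ ?_ (c i) (v i) (hG.mark i) (hG.uniq i) (hG.uniq_inf i) (hG.imm i)
    · intro y
      by_contra h
      push Not at h
      exact h00 _ (hG.fin y) (funext h)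
    · by_contra h
      push Not at h
      exact h00 _ hG.inf (funext h)

/-- **smooth points**: if the points `v i` lie on a very free curve in `V`, then they lie on a very
free curve in `V` as smooth points of it -/
theorem exists_smooth [IsAlgClosed k] (hV : VF.LocClosed V) (hirr : VF.Irred V) {cc : ℕ}
    (hcc : cc < N) (hsm : ∀ x ∈ V, VF.SmoothAt cc V x) {d : ℕ}
    {F : Fin (d + 1) → Fin (N + 1) → k} (hF : VF.IsCurve V F) (hvf : VF.VeryFree V F) {m : ℕ}
    (hm : 0 < m) (v : Fin m → Fin (N + 1) → k) (hv : ∀ i, v i ∈ Img F)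
    (hvv : ∀ i j, i ≠ j → ∀ t : k, v i ≠ t • v j) :
    ∃ (d' : ℕ) (F' : Fin (d' + 1) → Fin (N + 1) → k), VF.IsCurve V F' ∧ VF.VeryFree V F' ∧
      ∀ i, v i ∈ Img F' ∧ VF.SmoothAt (N - 1) (Img F') (v i) := by
  rcases Nat.lt_or_ge (cc + 1) N with h | h
  · exact exists_smooth_ge_two hV (n := N - cc) (by omega) (by omega) hsm hF hvf hm v hv hvv
  · have h1 : cc + 1 = N := by omega
    have h2 := img_eq_of_dim_one hV hirr h1 hsm hF hvf
    refine ⟨d, F, hF, hvf, fun i => ⟨hv i, ?_⟩⟩
    have h3 : N - 1 = cc := by omega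
    rw [h2, h3]
    exact hsm _ (h2 ▸ hv i)

/-- The property which defines the open subset `V₀` of the problem: any finite number of pairwise
different points of `V` (homogeneous coordinate vectors `v i`) lie on one very free curve in `V`,
and each of them is a smooth point of the image curve. -/
def HasProp (V : Set (Fin (N + 1) → k)) : Prop :=
  ∀ m : ℕ, 0 < m → ∀ v : Fin m → Fin (N + 1) → k, (∀ i, v i ∈ V) →
    (∀ i j, i ≠ j → ∀ t : k, v i ≠ t • v j) →
    ∃ (d : ℕ) (F : Fin (d + 1) → Fin (N + 1) → k), VF.IsCurve V F ∧ VF.VeryFree V F ∧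
      ∀ i, v i ∈ Img F ∧ VF.SmoothAt (N - 1) (Img F) (v i)

/-- from the main theorem (very free curves through given points) to the property of `V₀` -/
theorem hasProp_of_main [IsAlgClosed k] (hV : VF.LocClosed V) (hirr : VF.Irred V) {cc : ℕ}
    (hcc : cc < N) (hsm : ∀ x ∈ V, VF.SmoothAt cc V x)
    (hmain : ∀ (m : ℕ) (v : Fin m → Fin (N + 1) → k), (∀ i, v i ∈ V) →
      (∀ i j, i ≠ j → ∀ t : k, v i ≠ t • v j) →
      ∃ (d : ℕ) (F : Fin (d + 1) → Fin (N + 1) → k), VF.IsCurve V F ∧ VF.VeryFree V F ∧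
        ∀ i, v i ∈ Img F) : HasProp V := by
  intro m hm v hv hvv
  obtain ⟨d, F, hF, hvf, hvF⟩ := hmain m v hv hvv
  exact exists_smooth hV hirr hcc hsm hF hvf hm v hvF hvv

end Pool.Agent.VFS
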