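import Pool.Agent.Lib_MP_1858fb_s.Iface
import Pool.Agent.Lib_MP_1858fb_w.Bridge

/-!
# Smooth points add-on: from sections in polynomial form to tangent tuples of forms
-/

set_option autoImplicit false

namespace Pool.Agent.VFS

open Polynomial

section

variable {k : Type} [Field k] {N : ℕ} {V : Set (Fin (N + 1) → k)}

/-- the tuple of binary forms with the coefficients of the polynomials `f a` -/
def form (d : ℕ) (f : Fin (N + 1) → k[X]) : Fin (d + 1) → Fin (N + 1) → k :=
  fun j a => (f a).coeff j

theorem poly_form {d : ℕ} {f : Fin (N + 1) → k[X]} (hf : ∀ a, (f a).natDegree ≤ d) :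
    VF.Br.poly (form d f) = f := by
  funext a
  ext n
  by_cases hn : n < d + 1
  · exact VF.Br.poly_coeff (form d f) a ⟨n, hn⟩
  · have h1 := hf a
    have h2 := VF.Br.poly_natDegree (form d f) a
    rw [coeff_eq_zero_of_natDegree_lt (lt_of_le_of_lt h2 (by omega)),
      coeff_eq_zero_of_natDegree_lt (lt_of_le_of_lt h1 (by omega))]

theorem val_form {d : ℕ} {f : Fin (N + 1) → k[X]} (hf : ∀ a, (f a).natDegree ≤ d) (p q : k)
    (a : Fin (N + 1)) : VF.val (form d f) p q a = VF.Br.hv d (f a) p q := by
  rw [← VF.Br.hv_poly, poly_form hf]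

theorem val_form_one' {d : ℕ} {f : Fin (N + 1) → k[X]} (hf : ∀ a, (f a).natDegree ≤ d) (x : k) :
    VF.val (form d f) 1 x = fun a => (f a).eval x := by
  funext a
  rw [← VF.Br.poly_eval, poly_form hf]

theorem val_form_inf {d : ℕ} {f : Fin (N + 1) → k[X]} :
    VF.val (form d f) 0 1 = fun a => (f a).coeff d := by
  funext a
  rw [VF.Br.val_zero_one]
  rfl

/-- degree of a form along a tuple of polynomials -/
theorem natDegree_aeval_form {R κ : Type} [CommRing R] [Algebra k R] {d e : ℕ}
    {f : κ → Polynomial R} (hf : ∀ i, (f i).natDegree ≤ d) {G : MvPolynomial κ k}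
    (hG : G.IsHomogeneous e) : (MvPolynomial.aeval f G).natDegree ≤ d * e := by
  rw [MvPolynomial.aeval_def, MvPolynomial.eval₂_eq]
  refine natDegree_sum_le_of_forall_le _ _ fun m hm => ?_
  have h1 : ∑ i ∈ m.support, m i = e := by
    have := hG (MvPolynomial.mem_support_iff.mp hm)
    rw [← this, Finsupp.weight_apply]
    simp [Finsupp.sum]
  rw [Polynomial.algebraMap_apply]
  refine (natDegree_C_mul_le _ _).trans ((natDegree_prod_le _ _).trans ?_)
  rw [← h1, Finset.mul_sum]
  refine Finset.sum_le_sum fun i _ => ?_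
  refine natDegree_pow_le.trans ?_
  rw [mul_comm d]
  exact Nat.mul_le_mul_left _ (hf i)

/-- sections in polynomial form are tangent tuples of forms -/
theorem isTangent_of_sec [Infinite k] (hV : VF.LocClosed V) {d e : ℕ}
    {f g : Fin (N + 1) → k[X]} (hf : ∀ a, (f a).natDegree ≤ d)
    (hg : Sec (VF.van V : Set _) f e g) : VF.IsTangent V (form d f) (form e g) := by
  intro p q
  refine VF.Br.mem_tan_of_forms hV fun E hE n hn => ?_
  have h1 : VF.dif E (VF.val (form d f) p q) (VF.val (form e g) p q) =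
      ∑ a, VF.Br.hv (d * (n - 1) + e)
        (MvPolynomial.aeval f (MvPolynomial.pderiv a E) * g a) p q := by
    unfold VF.dif
    refine Finset.sum_congr rfl fun a _ => ?_
    have h2 : (fun i => VF.Br.hv d (f i) p q) = VF.val (form d f) p q := by
      funext i
      exact (val_form hf p q i).symm
    have h3 := VF.Br.aeval_hv (k := k) hf (hn.pderiv (i := a)) p q
    rw [h2] at h3
    rw [VF.Br.hv_mul (natDegree_aeval_form hf hn.pderiv) (hg.1 a), ← h3, val_form hg.1]
  rw [h1, ← VF.Br.hv_sum]
  have h2 : ∑ a, MvPolynomial.aeval f (MvPolynomial.pderiv a E) * g a = 0 := hg.2 E hE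
  rw [h2, VF.Br.hv_zero]

end

end Pool.Agent.VFS
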