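import Pool.Agent.Lib_MP_1858fb_s.Iface
import Pool.Agent.Lib_MP_1858fb_w.Bridge
import Pool.Agent.Lib_MP_1858fb_w.Van2
import Pool.Agent.Lib_MP_1858fb_w.ChartA

/-!
# Smooth points add-on: the meaning of the final system (piece GOOD)
-/

set_option autoImplicit false

namespace Pool.Agent.VFS

open Polynomial

section

variable {k : Type} [Field k] {N : ℕ} {V : Set (Fin (N + 1) → k)}

/-- evaluation of the value of a polynomial at a tuple of polynomials -/
theorem eval_aeval_tuple (f : Fin (N + 1) → k[X]) (E : MvPolynomial (Fin (N + 1)) k) (x : k) :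
    (MvPolynomial.aeval f E).eval x = MvPolynomial.aeval (fun a => (f a).eval x) E := by
  have h : (Polynomial.aeval x).comp (MvPolynomial.aeval f) =
      MvPolynomial.aeval (fun a => (f a).eval x) := by
    apply MvPolynomial.algHom_ext
    intro j
    rw [AlgHom.comp_apply, MvPolynomial.aeval_X, MvPolynomial.aeval_X,
      Polynomial.coe_aeval_eq_eval]
  have h2 := congrArg (fun g => g E) h
  simp only [AlgHom.comp_apply] at h2
  rw [← h2, Polynomial.coe_aeval_eq_eval]

/-- the leading coefficients of a tuple that satisfies the equations of a cone satisfy them -/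
theorem aeval_lead_eq_zero [Infinite k] (hV : VF.LocClosed V) {d : ℕ} {f : Fin (N + 1) → k[X]}
    (hd : ∀ a, (f a).natDegree ≤ d) (hf : ∀ E ∈ VF.van V, MvPolynomial.aeval f E = 0)
    {E : MvPolynomial (Fin (N + 1)) k} (hE : E ∈ VF.van V) :
    MvPolynomial.aeval (fun a => (f a).coeff d) E = 0 := by
  rw [← MvPolynomial.sum_homogeneousComponent E, map_sum]
  refine Finset.sum_eq_zero fun n _ => ?_
  rw [← VF.Br.aeval_coeff hd (MvPolynomial.homogeneousComponent_isHomogeneous n E),
    hf _ (VF.van_homogeneousComponent hV hE n), coeff_zero]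

theorem cert_good [IsAlgClosed k] {cc n : ℕ} (hcc : cc + n = N) (hV : VF.LocClosed V)
    (hsm : ∀ x ∈ V, VF.SmoothAt cc V x) {d m r : ℕ} {c : Fin m → k}
    {v : Fin m → Fin (N + 1) → k}
    {a0 : Fin m → Fin (N + 1)} (ha0 : ∀ i, v i (a0 i) = 1) {c₀ x : k}
    {G : Fin r → MvPolynomial (Fin (N + 1)) k}
    (hGV : ∀ x, x ∈ V ↔ (∀ E ∈ VF.van V, MvPolynomial.aeval x E = 0) ∧
      ∃ l, MvPolynomial.aeval x (G l) ≠ 0)
    (h : Cert V n d c v a0 c₀ x G k) : Good V d c v c₀ x h.f := by
  classical
  have hinf : Infinite k := IsAlgClosed.instInfinite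
  have hfin : ∀ x : k, (fun a => (h.f a).eval x) ∈ V := by
    intro x
    rw [hGV]
    refine ⟨fun E hE => ?_, ?_⟩
    · rw [← eval_aeval_tuple, h.eqs E hE, eval_zero]
    · by_contra hcon
      push Not at hcon
      have h1 := congrArg (Polynomial.eval x) h.hB
      rw [Polynomial.eval_finsetSum, eval_one] at h1
      refine zero_ne_one (α := k) ?_
      rw [← h1]
      symm
      refine Finset.sum_eq_zero fun l _ => ?_
      rw [eval_mul, eval_aeval_tuple, hcon l, mul_zero]
  have hqc : ∀ (i : Fin m) (x : k), ¬ ∀ a, (h.q i a).eval x = 0 := by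
    intro i x h0
    have h1 := congrArg (Polynomial.eval x) (h.hQ i)
    rw [Polynomial.eval_finsetSum, eval_one] at h1
    refine zero_ne_one (α := k) ?_
    rw [← h1]
    symm
    refine Finset.sum_eq_zero fun a _ => ?_
    rw [eval_mul, h0 a, mul_zero]
  refine ⟨h.deg, hfin, ?_, ?_, ?_, ?_, ?_, ?_⟩
  · -- the point at infinity
    rw [hGV]
    refine ⟨fun E hE => aeval_lead_eq_zero hV h.deg h.eqs hE, ?_⟩
    by_contra hcon
    push Not at hcon
    refine zero_ne_one (α := k) ?_
    rw [← h.hB']
    symm
    refine Finset.sum_eq_zero fun l _ => ?_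
    rw [hcon l, mul_zero]
  · intro i
    exact ⟨h.t i, (h.ht i).ne_zero, fun a => h.mark i a⟩
  · -- only the mark
    rintro i x ⟨t, ht⟩
    by_contra hx
    apply hqc i x
    intro a
    have h1 := congrArg (Polynomial.eval x) (h.hq i a)
    rw [eval_sub, eval_mul, eval_mul, eval_sub, eval_X] at h1
    simp only [eval_C, Algebra.algebraMap_self, RingHom.id_apply] at h1
    rw [ht, ht, ha0, mul_one, sub_self] at h1
    rcases mul_eq_zero.1 h1.symm with h2 | h2
    · exact absurd (sub_eq_zero.1 h2) hx
    · exact h2
  · -- not at infinity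
    rintro i ⟨t, ht⟩
    have h1 := h.ha1 i
    rw [ht, ht, ha0] at h1
    simp at h1
  · -- immersed
    rintro i ⟨t, ht⟩
    apply hqc i (c i)
    intro a
    have h1 := congrArg (fun p => (derivative p).eval (c i)) (h.hq i a)
    simp only [derivative_sub, derivative_mul, derivative_X, derivative_C, eval_sub, eval_mul,
      eval_add, eval_X, eval_C, Algebra.algebraMap_self, RingHom.id_apply, mul_zero, add_zero,
      sub_zero, one_mul, sub_self, zero_mul] at h1
    rw [ht, ht, ha0, mul_one, sub_self] at h1
    exact h1.symm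
  · -- sections
    intro u hu
    -- the vectors at `x`
    let w : Fin (n + 1) → Fin (N + 1) → k :=
      Fin.cons (fun a => (h.f a).eval x) (fun j a => (h.g j a).eval x)
    have hw : ∀ j, w j ∈ VF.Tan V (fun a => (h.f a).eval x) := by
      intro j
      refine Fin.cases ?_ (fun j => ?_) j
      · exact VF.dif_self (fun y hy a ha => VF.smul_mem_of_locClosed hV hy ha) (hfin x)
      · intro E hE
        have h1 := congrArg (Polynomial.eval x) (h.gtan j E hE)
        rw [Polynomial.eval_finsetSum, eval_zero] at h1
        rw [← h1]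
        show ∑ a, MvPolynomial.aeval (fun a => (h.f a).eval x) (MvPolynomial.pderiv a E) *
          (h.g j a).eval x = _
        refine Finset.sum_congr rfl fun a _ => ?_
        rw [eval_mul, eval_aeval_tuple]
    have hli : LinearIndependent k w := by
      have h1 : LinearIndependent k (Matrix.of fun j l : Fin (n + 1) => w j (h.idx l)).row := by
        rw [Matrix.linearIndependent_rows_iff_isUnit, Matrix.isUnit_iff_isUnit_det]
        have h2 := h.minor
        have h3 : (Matrix.of fun j l : Fin (n + 1) =>
            ((Fin.cons (h.f (h.idx l)) (fun j => h.g j (h.idx l)) : Fin (n + 1) → k[X]) j).eval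
              (algebraMap k k x)) = (Matrix.of fun j l : Fin (n + 1) => w j (h.idx l)) := by
          ext j l
          refine Fin.cases ?_ (fun j => ?_) j
          · rfl
          · rfl
        rw [h3] at h2
        exact h2
      have h2 : LinearIndependent k ((LinearMap.funLeft k k h.idx) ∘ w) := h1
      exact h2.of_comp _
    have hspan : Submodule.span k (Set.range w) = VF.Tan V (fun a => (h.f a).eval x) := by
      apply Submodule.eq_of_le_of_finrank_eq
      · rw [Submodule.span_le]
        rintro _ ⟨j, rfl⟩
        exact hw j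
      · rw [finrank_span_eq_card hli, Fintype.card_fin]
        have h1 := VF.finrank_tan (hfin x) (hsm _ (hfin x))
        rw [Fintype.card_fin] at h1
        omega
    rw [← hspan, Submodule.mem_span_range_iff_exists_fun] at hu
    obtain ⟨a, ha⟩ := hu
    rw [Fin.sum_univ_succ] at ha
    refine ⟨fun l => ∑ j : Fin n, C (a j.succ) * h.g j l, ⟨fun l => ?_, fun E hE => ?_⟩,
      ⟨∑ j : Fin n, a j.succ * h.b j, fun l => ?_⟩, ⟨-a 0, fun l => ?_⟩⟩
    · refine natDegree_sum_le_of_forall_le _ _ fun j _ => ?_
      exact (natDegree_C_mul_le _ _).trans (h.gdeg j l)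
    · have h1 : dp E h.f (fun l => ∑ j : Fin n, C (a j.succ) * h.g j l) =
          ∑ j : Fin n, C (a j.succ) * ∑ l, MvPolynomial.aeval h.f (MvPolynomial.pderiv l E) *
            h.g j l := by
        unfold dp
        simp only [Finset.mul_sum]
        rw [Finset.sum_comm]
        refine Finset.sum_congr rfl fun j _ => Finset.sum_congr rfl fun l _ => ?_
        ring
      rw [h1]
      refine Finset.sum_eq_zero fun j _ => ?_
      rw [h.gtan j E hE, mul_zero]
    · rw [Polynomial.eval_finsetSum, Finset.sum_mul]
      refine Finset.sum_congr rfl fun j _ => ?_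
      have h1 := h.hg j l
      simp only [Algebra.algebraMap_self, RingHom.id_apply] at h1
      rw [eval_mul, eval_C, h1]
      ring
    · have h1 := congrFun ha l
      simp only [Pi.add_apply, Pi.smul_apply, Finset.sum_apply, smul_eq_mul] at h1
      rw [← h1, Polynomial.eval_finsetSum]
      have h2 : w 0 l = (h.f l).eval x := rfl
      have h3 : ∀ j : Fin n, (C (a j.succ) * h.g j l).eval x = a j.succ * w j.succ l := by
        intro j
        rw [eval_mul, eval_C]
        rfl
      simp only [h3, h2]
      ring

end

end Pool.Agent.VFS
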