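import Pool.Agent.Lib_MP_1858fb_s.Iface
import Pool.Agent.Lib_MP_1858fb_s.Alg

/-!
# Smooth points add-on: the open part of the certificate
-/

set_option autoImplicit false

namespace Pool.Agent.VFS

open Polynomial

section

variable {k : Type} [Field k] {N : ℕ}

lemma natDegree_coeff_aeval_monomial {A : Type} [CommRing A] [Algebra k A]
    (f : Fin (N + 1) → A[X]) {d : ℕ} (hf : ∀ a, (f a).natDegree ≤ d) (s : Fin (N + 1) →₀ ℕ) :
    (MvPolynomial.aeval f (MvPolynomial.monomial s (1 : k))).natDegree ≤ d * s.degree ∧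
      (MvPolynomial.aeval f (MvPolynomial.monomial s (1 : k))).coeff (d * s.degree) =
        MvPolynomial.aeval (fun a => (f a).coeff d) (MvPolynomial.monomial s (1 : k)) := by
  induction s using Finsupp.induction_linear with
  | zero => simp
  | add s t hs ht =>
    have e : MvPolynomial.monomial (s + t) (1 : k) =
        MvPolynomial.monomial s 1 * MvPolynomial.monomial t 1 := by
      rw [MvPolynomial.monomial_mul, one_mul]
    have e' : (s + t).degree = s.degree + t.degree := map_add _ _ _
    rw [e, map_mul, map_mul, e', mul_add]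
    refine ⟨natDegree_mul_le_of_le hs.1 ht.1, ?_⟩
    rw [coeff_mul_add_eq_of_natDegree_le hs.1 ht.1, hs.2, ht.2]
  | single a j =>
    have e : MvPolynomial.monomial (Finsupp.single a j) (1 : k) = MvPolynomial.X a ^ j := by
      rw [MvPolynomial.X_pow_eq_monomial]
    rw [e, map_pow, map_pow, MvPolynomial.aeval_X, MvPolynomial.aeval_X, Finsupp.degree_single]
    refine ⟨(natDegree_pow_le_of_le j (hf a)).trans (by rw [mul_comm]), ?_⟩
    rw [mul_comm, coeff_pow_of_natDegree_le (hf a)]

/-- a form of degree `e` at polynomials of degree `≤ d` -/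
lemma natDegree_coeff_aeval {A : Type} [CommRing A] [Algebra k A]
    (f : Fin (N + 1) → A[X]) {d : ℕ} (hf : ∀ a, (f a).natDegree ≤ d)
    {E : MvPolynomial (Fin (N + 1)) k} {e : ℕ} (hE : E.IsHomogeneous e) :
    (MvPolynomial.aeval f E).natDegree ≤ d * e ∧
      (MvPolynomial.aeval f E).coeff (d * e) =
        MvPolynomial.aeval (fun a => (f a).coeff d) E := by
  have hs : ∀ s ∈ E.support, s.degree = e := by
    intro s hs
    have := hE (MvPolynomial.mem_support_iff.1 hs)
    rw [← this, Finsupp.degree_eq_weight_one]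
    rfl
  have hm : ∀ s : Fin (N + 1) →₀ ℕ, MvPolynomial.monomial s (MvPolynomial.coeff s E) =
      MvPolynomial.C (MvPolynomial.coeff s E) * MvPolynomial.monomial s 1 := by
    intro s
    rw [MvPolynomial.C_mul_monomial, mul_one]
  constructor
  · rw [MvPolynomial.as_sum E, map_sum]
    refine natDegree_sum_le_of_forall_le _ _ fun s h => ?_
    rw [hm, map_mul, MvPolynomial.aeval_C, Polynomial.algebraMap_apply]
    refine (natDegree_C_mul_le _ _).trans ?_
    have := (natDegree_coeff_aeval_monomial f hf s (k := k)).1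
    rwa [hs s h] at this
  · conv_lhs => rw [MvPolynomial.as_sum E]
    conv_rhs => rw [MvPolynomial.as_sum E]
    rw [map_sum, map_sum, finsetSum_coeff]
    refine Finset.sum_congr rfl fun s h => ?_
    rw [hm, map_mul, map_mul, MvPolynomial.aeval_C, MvPolynomial.aeval_C,
      Polynomial.algebraMap_apply, coeff_C_mul]
    have := (natDegree_coeff_aeval_monomial f hf s (k := k)).2
    rw [hs s h] at this
    rw [this]

lemma span_eq_top_of_no_common_root [IsAlgClosed k] {r : ℕ} (M : Fin r → k[X])
    (h0 : ∀ x : k, ∃ l, (M l).eval x ≠ 0) : Ideal.span (Set.range M) = ⊤ := by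
  by_contra hne
  obtain ⟨P, hP, hle⟩ := Ideal.exists_le_maximal _ hne
  have hPp : P.IsPrincipal := inferInstance
  obtain ⟨g, hg⟩ := hPp
  have hgP : P = Ideal.span {g} := hg
  have hroot : ∀ x, g.eval x = 0 → False := by
    intro x hx
    obtain ⟨l, hl⟩ := h0 x
    apply hl
    have h1 : M l ∈ P := hle (Ideal.subset_span ⟨l, rfl⟩)
    rw [hgP, Ideal.mem_span_singleton] at h1
    obtain ⟨q, hq⟩ := h1
    rw [hq, eval_mul, hx, zero_mul]
  by_cases hdeg : g.degree = 0
  · apply hP.ne_top
    rw [hgP, Ideal.span_singleton_eq_top]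
    exact isUnit_iff_degree_eq_zero.2 hdeg
  · obtain ⟨x, hx⟩ := IsAlgClosed.exists_root g hdeg
    exact hroot x hx

variable {V : Set (Fin (N + 1) → k)}

/-- The open part of the certificate over the power series ring. -/
theorem cert_open [IsAlgClosed k] {d m h : ℕ} {F0 : Fin (N + 1) → k[X]}
    (h0 : Start V d m F0) {c : Fin m → k} {δ : Fin h → Fin (N + 1) → k[X]}
    {F : Fin (N + 1) → (MvPowerSeries (Fin h) k)[X]} (hF : Deform V d c F0 δ F)
    {r : ℕ} (G : Fin r → MvPolynomial (Fin (N + 1)) k)
    (hG : ∀ l, ∃ e, 0 < e ∧ (G l).IsHomogeneous e)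
    (hGV : ∀ x, x ∈ V ↔ (∀ E ∈ VF.van V, MvPolynomial.aeval x E = 0) ∧
      ∃ l, MvPolynomial.aeval x (G l) ≠ 0) :
    (∃ B : Fin r → (MvPowerSeries (Fin h) k)[X],
      ∑ l, B l * MvPolynomial.aeval F (G l) = 1) ∧
    ∃ B' : Fin r → MvPowerSeries (Fin h) k,
      ∑ l, B' l * MvPolynomial.aeval (fun a => (F a).coeff d) (G l) = 1 := by
  classical
  -- a form that does not vanish at infinity
  obtain ⟨-, l₀, hl₀⟩ := (hGV _).1 h0.inf
  have hcc : ∀ a, MvPowerSeries.constantCoeff ((F a).coeff d) = (F0 a).coeff d := by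
    intro a
    rw [← hF.red a, coeff_map]
  have hu : IsUnit (MvPolynomial.aeval (fun a => (F a).coeff d) (G l₀)) := by
    rw [MvPowerSeries.isUnit_iff_constantCoeff, isUnit_iff_ne_zero]
    have e1 : MvPowerSeries.constantCoeff (MvPolynomial.aeval (fun a => (F a).coeff d) (G l₀)) =
        MvPolynomial.aeval (fun a => (F0 a).coeff d) (G l₀) := by
      rw [MvPolynomial.aeval_def, MvPolynomial.aeval_def, MvPolynomial.hom_eval₂]
      simp only [hcc]
      congr 1
    rw [e1]
    exact hl₀
  constructor
  · have hred : ∀ E : MvPolynomial (Fin (N + 1)) k,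
        (MvPolynomial.aeval F E).map MvPowerSeries.constantCoeff = MvPolynomial.aeval F0 E := by
      intro E
      rw [← coe_mapRingHom, MvPolynomial.aeval_def, MvPolynomial.aeval_def,
        MvPolynomial.hom_eval₂]
      have e2 : ∀ a, mapRingHom (MvPowerSeries.constantCoeff (σ := Fin h) (R := k)) (F a) = F0 a :=
        hF.red
      simp only [e2]
      congr 1
      ext x
      have e5 : MvPowerSeries.constantCoeff (algebraMap k (MvPowerSeries (Fin h) k) x) = x := by
        rw [MvPowerSeries.algebraMap_apply, MvPowerSeries.constantCoeff_C]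
        rfl
      simp [e5]
    obtain ⟨e, -, he⟩ := hG l₀
    have h1 := natDegree_coeff_aeval F hF.deg he
    have hlc : (MvPolynomial.aeval F (G l₀)).leadingCoeff =
        MvPolynomial.aeval (fun a => (F a).coeff d) (G l₀) := by
      have h2 : d * e ≤ (MvPolynomial.aeval F (G l₀)).natDegree := by
        apply le_natDegree_of_ne_zero
        rw [h1.2]
        exact hu.ne_zero
      rw [leadingCoeff, le_antisymm h1.1 h2, h1.2]
    have htop := nak (MvPowerSeries.constantCoeff (σ := Fin h) (R := k))
      (fun x => ⟨MvPowerSeries.C x, by simp⟩) (fun l => MvPolynomial.aeval F (G l)) l₀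
      (hlc ▸ hu) (by
        have e3 : (fun l => (MvPolynomial.aeval F (G l)).map
            (MvPowerSeries.constantCoeff (σ := Fin h) (R := k))) =
            fun l => MvPolynomial.aeval F0 (G l) := funext fun l => hred (G l)
        rw [e3]
        refine span_eq_top_of_no_common_root _ fun x => ?_
        obtain ⟨-, l, hl⟩ := (hGV _).1 (h0.fin x)
        refine ⟨l, ?_⟩
        have e4 : (MvPolynomial.aeval F0 (G l)).eval x =
            MvPolynomial.aeval (fun a => (F0 a).eval x) (G l) := by
          rw [← coe_evalRingHom, MvPolynomial.aeval_def, MvPolynomial.aeval_def,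
            MvPolynomial.hom_eval₂]
          congr 1
          ext y
          simp
        rw [e4]
        exact hl)
    have h3 : (1 : (MvPowerSeries (Fin h) k)[X]) ∈
        Ideal.span (Set.range fun l => MvPolynomial.aeval F (G l)) := by
      rw [htop]; trivial
    rw [Ideal.mem_span_range_iff_exists_fun] at h3
    exact h3
  · obtain ⟨u, hu'⟩ := hu
    refine ⟨Pi.single l₀ (↑u⁻¹ : MvPowerSeries (Fin h) k), ?_⟩
    rw [Finset.sum_eq_single l₀]
    · rw [Pi.single_eq_same, ← hu', Units.inv_mul]
    · intro l _ hl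
      rw [Pi.single_eq_of_ne hl, zero_mul]
    · intro hl
      exact absurd (Finset.mem_univ l₀) hl

end

end Pool.Agent.VFS
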