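import Mathlib
import Pool.Agent.Lib_MP_1858fb_w.Defs
import Pool.Agent.Lib_MP_1858fb_s.Alg

/-!
# Linear algebra for the add-on 'smooth points': minors and tangent spaces
-/

set_option autoImplicit false

namespace Pool.Agent.VFS

open Pool.Agent.VF Module

/-- three vectors that are not linearly dependent have a nonzero minor -/
theorem exists_det3_ne_zero {k ι : Type*} [Field k] {u v w : ι → k} (hu : u ≠ 0)
    (hv : v ∉ Submodule.span k {u}) (hw : w ∉ Submodule.span k {u, v}) :
    ∃ x : Fin 3 → ι, det3 (fun i => u (x i)) (fun i => v (x i)) (fun i => w (x i)) ≠ 0 := by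
  obtain ⟨a, ha⟩ := Function.ne_iff.mp hu
  rw [Pi.zero_apply] at ha
  have h1 : ∃ b, u a * v b - v a * u b ≠ 0 := by
    by_contra hcon
    push Not at hcon
    apply hv
    rw [Submodule.mem_span_singleton]
    refine ⟨v a / u a, ?_⟩
    funext b
    have := hcon b
    simp only [Pi.smul_apply, smul_eq_mul]
    field_simp
    linear_combination -this
  obtain ⟨b, hb⟩ := h1
  have h2 : ∃ c, (u a * v b - v a * u b) * (u a * w c - w a * u c) -
      (u a * w b - w a * u b) * (u a * v c - v a * u c) ≠ 0 := by
    by_contra hcon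
    push Not at hcon
    apply hw
    rw [Submodule.mem_span_pair]
    generalize u a * v b - v a * u b = P at hb hcon ⊢
    generalize u a * w b - w a * u b = Q at hcon ⊢
    refine ⟨w a / u a - Q * v a / (P * u a), Q / P, ?_⟩
    funext c
    have := hcon c
    simp only [Pi.add_apply, Pi.smul_apply, smul_eq_mul]
    field_simp
    linear_combination -this
  obtain ⟨c, hc⟩ := h2
  refine ⟨![a, b, c], fun h0 => hc ?_⟩
  have h3 : (u a * v b - v a * u b) * (u a * w c - w a * u c) -
      (u a * w b - w a * u b) * (u a * v c - v a * u c) =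
      u a * det3 (fun i => u (![a, b, c] i)) (fun i => v (![a, b, c] i))
        (fun i => w (![a, b, c] i)) := by
    simp only [det3, Matrix.cons_val_zero, Matrix.cons_val_one, Matrix.cons_val]
    ring
  rw [h3, h0, mul_zero]

/-- a set of vectors that together with `u` spans a space of dimension `≥ 3` contains two vectors
which have a nonzero minor with `u` -/
theorem exists_minor {k ι : Type*} [Field k] {u : ι → k} {S : Set (ι → k)} {T : Submodule k (ι → k)}
    (hT : 3 ≤ finrank k T) (hu : u ≠ 0) (hS : T ≤ Submodule.span k (insert u S)) :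
    ∃ v ∈ S, ∃ w ∈ S, ∃ x : Fin 3 → ι,
      det3 (fun i => u (x i)) (fun i => v (x i)) (fun i => w (x i)) ≠ 0 := by
  have key : ∀ U : Submodule k (ι → k), u ∈ U → FiniteDimensional k U → finrank k U ≤ 2 →
      ∃ v ∈ S, v ∉ U := by
    intro U huU hUf hU
    by_contra hcon
    push Not at hcon
    have h1 : Submodule.span k (insert u S) ≤ U := by
      rw [Submodule.span_le]
      rintro x (rfl | hx)
      · exact huU
      · exact hcon x hx
    have h2 := Submodule.finrank_mono (hS.trans h1)
    omega
  obtain ⟨v, hv, hv1⟩ := key (Submodule.span k {u}) (Submodule.mem_span_singleton_self u)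
    (FiniteDimensional.span_singleton k u) (by
      rw [finrank_span_singleton hu]; omega)
  have hfin : FiniteDimensional k (Submodule.span k ({u, v} : Set (ι → k))) :=
    FiniteDimensional.span_of_finite k (Set.toFinite _)
  obtain ⟨w, hw, hw1⟩ := key (Submodule.span k {u, v}) (Submodule.subset_span (by simp)) hfin (by
      classical
      have h1 : ((({u, v} : Finset (ι → k)) : Set (ι → k))) = {u, v} := by simp
      rw [← h1]
      exact (finrank_span_finset_le_card _).trans Finset.card_le_two)
  obtain ⟨x, hx⟩ := exists_det3_ne_zero hu hv1 hw1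
  exact ⟨v, hv, w, hw, x, hx⟩

theorem dif_mul_of_zero {k : Type} [Field k] {σ : Type} [Fintype σ] {x : σ → k}
    (H : MvPolynomial σ k) {E : MvPolynomial σ k} (hx : MvPolynomial.aeval x E = 0) (w : σ → k) :
    dif (H * E) x w = MvPolynomial.aeval x H * dif E x w := by
  unfold dif
  rw [Finset.mul_sum]
  apply Finset.sum_congr rfl
  intro j _
  rw [Derivation.leibniz, smul_eq_mul, smul_eq_mul, map_add, map_mul, map_mul, hx]
  ring

/-- the differential of an element of the ideal generated by `E i` (vanishing at `x`) -/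
theorem dif_mem_span {k : Type} [Field k] {σ ι : Type} [Fintype σ] {x w : σ → k}
    {E : ι → MvPolynomial σ k} (hx : ∀ i, MvPolynomial.aeval x (E i) = 0)
    (hw : ∀ i, dif (E i) x w = 0) {G : MvPolynomial σ k} (hG : G ∈ Ideal.span (Set.range E)) :
    MvPolynomial.aeval x G = 0 ∧ dif G x w = 0 := by
  refine Submodule.span_induction (p := fun G _ => MvPolynomial.aeval x G = 0 ∧ dif G x w = 0)
    ?_ ?_ ?_ ?_ hG
  · rintro _ ⟨i, rfl⟩
    exact ⟨hx i, hw i⟩
  · simp [dif]
  · rintro a b _ _ ⟨ha0, ha⟩ ⟨hb0, hb⟩
    refine ⟨by rw [map_add, ha0, hb0, add_zero], ?_⟩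
    simp only [dif, map_add, add_mul, Finset.sum_add_distrib] at ha hb ⊢
    rw [ha, hb, add_zero]
  · rintro r a _ ⟨ha0, ha⟩
    refine ⟨by rw [smul_eq_mul, map_mul, ha0, mul_zero], ?_⟩
    rw [smul_eq_mul]
    exact (dif_mul_of_zero r ha0 w).trans (by rw [ha, mul_zero])

/-- the dimension of the tangent space of a smooth cone -/
theorem finrank_tan {k : Type} [Field k] {σ : Type} [Fintype σ] {c : ℕ} {V : Set (σ → k)}
    {x : σ → k} (hx : x ∈ V) (h : SmoothAt c V x) :
    finrank k (Tan V x) + c = Fintype.card σ := by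
  obtain ⟨E, H, hE, hli, hH, hgen⟩ := h
  let f : (σ → k) →ₗ[k] (Fin c → k) :=
    { toFun := fun w i => dif (E i) x w
      map_add' := by
        intro a b
        funext i
        simp only [dif, Pi.add_apply, mul_add, Finset.sum_add_distrib]
      map_smul' := by
        intro r a
        funext i
        simp only [dif, Pi.smul_apply, smul_eq_mul, RingHom.id_apply]
        rw [Finset.mul_sum]
        exact Finset.sum_congr rfl fun j _ => by ring }
  have hker : LinearMap.ker f = Tan V x := by
    ext w
    constructor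
    · intro hw E' hE'
      have hw' : ∀ i, dif (E i) x w = 0 := fun i => congrFun (LinearMap.mem_ker.mp hw) i
      have h1 := (dif_mem_span (fun i => hE i x hx) hw' (hgen E' hE')).2
      have h2 : dif (H * E') x w = MvPolynomial.aeval x H * dif E' x w :=
        dif_mul_of_zero H (hE' x hx) w
      rw [h2] at h1
      exact (mul_eq_zero.mp h1).resolve_left hH
    · intro hw
      rw [LinearMap.mem_ker]
      funext i
      exact hw (E i) (hE i)
  have hsurj : LinearMap.range f = ⊤ := by
    have hf : f = Matrix.mulVecLin (Matrix.of fun (i : Fin c) (j : σ) =>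
        MvPolynomial.aeval x (MvPolynomial.pderiv j (E i))) := by
      apply LinearMap.ext
      intro w
      rfl
    rw [hf]
    have h1 := hli.rank_matrix (M := Matrix.of fun (i : Fin c) (j : σ) =>
        MvPolynomial.aeval x (MvPolynomial.pderiv j (E i)))
    apply Submodule.eq_top_of_finrank_eq
    rw [Module.finrank_fin_fun]
    rw [Fintype.card_fin] at h1
    exact h1
  have h3 := LinearMap.finrank_range_add_finrank_ker f
  rw [hsurj, hker, finrank_top, Module.finrank_fin_fun, Module.finrank_fintype_fun_eq_card] at h3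
  omega

/-- `val` as a linear map of the tuple -/
noncomputable def valL {k κ : Type} [Field k] (d : ℕ) (p q : k) :
    (Fin (d + 1) → κ → k) →ₗ[k] (κ → k) where
  toFun := fun F => val F p q
  map_add' := by
    intro F G
    funext i
    simp only [val, Pi.add_apply, add_mul, Finset.sum_add_distrib]
  map_smul' := by
    intro r F
    funext i
    simp only [val, Pi.smul_apply, smul_eq_mul, RingHom.id_apply]
    rw [Finset.mul_sum]
    exact Finset.sum_congr rfl fun j _ => by ring

theorem valL_apply {k κ : Type} [Field k] (d : ℕ) (p q : k) (F : Fin (d + 1) → κ → k) :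
    valL d p q F = val F p q := rfl

/-- the tuples of forms of degree `m` that are tangent to the cone over `V` along `F` -/
noncomputable def tanSub {k : Type} [Field k] {N d : ℕ} (V : Set (Fin (N + 1) → k))
    (F : Fin (d + 1) → Fin (N + 1) → k) (m : ℕ) :
    Submodule k (Fin (m + 1) → Fin (N + 1) → k) where
  carrier := {G | IsTangent V F G}
  add_mem' := by
    intro a b ha hb p q
    have h1 : val (a + b) p q = val a p q + val b p q := (valL m p q).map_add a b
    rw [h1]
    exact (Tan V (val F p q)).add_mem (ha p q) (hb p q)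
  zero_mem' := by
    intro p q
    have h1 : val (0 : Fin (m + 1) → Fin (N + 1) → k) p q = 0 := (valL m p q).map_zero
    rw [h1]
    exact (Tan V (val F p q)).zero_mem
  smul_mem' := by
    intro r a ha p q
    have h1 : val (r • a) p q = r • val a p q := (valL m p q).map_smul r a
    rw [h1]
    exact (Tan V (val F p q)).smul_mem r (ha p q)

/-- a finite list of tangent tuples which generates all of them -/
theorem exists_tangent_basis {k : Type} [Field k] {N d : ℕ} (V : Set (Fin (N + 1) → k))
    (F : Fin (d + 1) → Fin (N + 1) → k) (m : ℕ) :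
    ∃ (h : ℕ) (δ : Fin h → Fin (m + 1) → Fin (N + 1) → k), (∀ j, IsTangent V F (δ j)) ∧
      LinearIndependent k δ ∧
      ∀ G : Fin (m + 1) → Fin (N + 1) → k, IsTangent V F G → G ∈ Submodule.span k (Set.range δ) := by
  let B := Module.finBasis k (tanSub V F m)
  refine ⟨finrank k (tanSub V F m), fun j => (B j : Fin (m + 1) → Fin (N + 1) → k),
    fun j => (B j).2, ?_, ?_⟩
  · exact B.linearIndependent.map' (tanSub V F m).subtype (Submodule.ker_subtype _)
  · intro G hG
    have h1 : (⟨G, hG⟩ : tanSub V F m) ∈ Submodule.span k (Set.range B) := by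
      rw [B.span_eq]
      exact Submodule.mem_top
    have h2 := Submodule.mem_map_of_mem (f := (tanSub V F m).subtype) h1
    rw [Submodule.map_span, ← Set.range_comp] at h2
    exact h2

/-- S2(a): at every point of the curve two members of a generating list of tangent tuples have a
nonzero minor with `F` (dimension of `V` at least two). -/
theorem minor_of_basis {k : Type} [Field k] {N d e c : ℕ} {V : Set (Fin (N + 1) → k)}
    {F : Fin (d + 1) → Fin (N + 1) → k} (hV0 : (0 : Fin (N + 1) → k) ∉ V) (hF : IsCurve V F)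
    (hsm : ∀ x ∈ V, SmoothAt c V x) (hc : c + 2 ≤ N) (hS : Span V F e) {h : ℕ}
    {δ : Fin h → Fin (d - e + 1) → Fin (N + 1) → k}
    (hδ : ∀ G : Fin (d - e + 1) → Fin (N + 1) → k, IsTangent V F G →
      G ∈ Submodule.span k (Set.range δ)) {p q : k} (hpq : p ≠ 0 ∨ q ≠ 0) :
    ∃ (j l : Fin h) (x : Fin 3 → Fin (N + 1)), det3 (fun i => val F p q (x i))
      (fun i => val (δ j) p q (x i)) (fun i => val (δ l) p q (x i)) ≠ 0 := by
  have hx := hF p q hpq
  have h1 := finrank_tan hx (hsm _ hx)
  rw [Fintype.card_fin] at h1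
  have hT : Tan V (val F p q) ≤
      Submodule.span k (insert (val F p q) (Set.range fun j => val (δ j) p q)) := by
    intro w hw
    obtain ⟨G, hG, hGw⟩ := hS.2 p q hpq w hw
    have h2 := Submodule.mem_map_of_mem (f := valL (d - e) p q) (hδ G hG)
    rw [Submodule.map_span, ← Set.range_comp, valL_apply, hGw] at h2
    exact Submodule.span_mono (Set.subset_insert _ _) h2
  have hu : val F p q ≠ 0 := fun h0 => hV0 (h0 ▸ hx)
  obtain ⟨v, ⟨j, rfl⟩, w, ⟨l, rfl⟩, x, h3⟩ := exists_minor (by omega) hu hT
  exact ⟨j, l, x, h3⟩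

/-- every tangent vector at a point of the curve is a combination of the values of the list -/
theorem tan_le_of_basis {k : Type} [Field k] {N d e : ℕ} {V : Set (Fin (N + 1) → k)}
    {F : Fin (d + 1) → Fin (N + 1) → k} (hS : Span V F e) {h : ℕ}
    {δ : Fin h → Fin (d - e + 1) → Fin (N + 1) → k}
    (hδ : ∀ G : Fin (d - e + 1) → Fin (N + 1) → k, IsTangent V F G →
      G ∈ Submodule.span k (Set.range δ)) {p q : k} (hpq : p ≠ 0 ∨ q ≠ 0) :
    Tan V (val F p q) ≤ Submodule.span k (Set.range fun j => val (δ j) p q) := by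
  intro w hw
  obtain ⟨G, hG, hGw⟩ := hS.2 p q hpq w hw
  have h2 := Submodule.mem_map_of_mem (f := valL (d - e) p q) (hδ G hG)
  rw [Submodule.map_span, ← Set.range_comp, valL_apply, hGw] at h2
  exact h2

/-- S5: some member of the list has at `(p, q)` a value which is not proportional to `v`
(dimension of `V` at least one) -/
theorem nonprop_of_basis {k : Type} [Field k] {N d e c : ℕ} {V : Set (Fin (N + 1) → k)}
    {F : Fin (d + 1) → Fin (N + 1) → k} (hF : IsCurve V F)
    (hsm : ∀ x ∈ V, SmoothAt c V x) (hc : c + 1 ≤ N) (hS : Span V F e) {h : ℕ}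
    {δ : Fin h → Fin (d - e + 1) → Fin (N + 1) → k}
    (hδ : ∀ G : Fin (d - e + 1) → Fin (N + 1) → k, IsTangent V F G →
      G ∈ Submodule.span k (Set.range δ)) {p q : k} (hpq : p ≠ 0 ∨ q ≠ 0)
    (v : Fin (N + 1) → k) :
    ∃ j, val (δ j) p q ∉ Submodule.span k {v} := by
  have hx := hF p q hpq
  have h1 := finrank_tan hx (hsm _ hx)
  rw [Fintype.card_fin] at h1
  by_contra hcon
  push Not at hcon
  have h2 : Tan V (val F p q) ≤ Submodule.span k {v} := by
    refine (tan_le_of_basis hS hδ hpq).trans ?_
    rw [Submodule.span_le]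
    rintro _ ⟨j, rfl⟩
    exact hcon j
  have h3 := Submodule.finrank_mono h2
  have h4 := finrank_span_le_card (R := k) ({v} : Set (Fin (N + 1) → k))
  simp at h4
  omega

/-! ### versions modulo the line `k u` (every characteristic) -/

theorem le_span_mod {k ι J : Type*} [Field k] {u : ι → k} {w : J → ι → k}
    {T : Submodule k (ι → k)}
    (h : ∀ x ∈ T, ∃ y ∈ Submodule.span k (Set.range w), ∃ b : k, y = x + b • u) :
    T ≤ Submodule.span k (insert u (Set.range w)) := by
  intro x hx
  obtain ⟨y, hy, b, hb⟩ := h x hx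
  have h1 : x = y - b • u := by rw [hb]; abel
  rw [h1]
  exact Submodule.sub_mem _ (Submodule.span_mono (Set.subset_insert _ _) hy)
    (Submodule.smul_mem _ _ (Submodule.subset_span (Set.mem_insert _ _)))

/-- rank hypothesis of `exists_M` at one point -/
theorem rank_mod {k ι J : Type*} [Field k] {u : ι → k} {w : J → ι → k}
    {T : Submodule k (ι → k)} (hT : 3 ≤ finrank k T) (hu : u ≠ 0)
    (h : ∀ x ∈ T, ∃ y ∈ Submodule.span k (Set.range w), ∃ b : k, y = x + b • u) :
    ∃ (t : Fin 3 → ι) (j l : J),
      det3 (fun a => u (t a)) (fun a => w j (t a)) (fun a => w l (t a)) ≠ 0 := by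
  obtain ⟨v, ⟨j, rfl⟩, w', ⟨l, rfl⟩, x, h3⟩ := exists_minor hT hu (le_span_mod h)
  exact ⟨x, j, l, h3⟩

/-- some member of the list is not proportional to `v` (dimension of `T` at least three) -/
theorem nonprop_mod {k ι J : Type*} [Field k] {u : ι → k} {w : J → ι → k}
    {T : Submodule k (ι → k)} (hT : 3 ≤ finrank k T)
    (h : ∀ x ∈ T, ∃ y ∈ Submodule.span k (Set.range w), ∃ b : k, y = x + b • u) (v : ι → k) :
    ∃ j, w j ∉ Submodule.span k {v} := by
  by_contra hcon
  push Not at hcon
  have h2 : T ≤ Submodule.span k ({u, v} : Set (ι → k)) := by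
    refine (le_span_mod h).trans ?_
    rw [Submodule.span_le]
    rintro _ (rfl | ⟨j, rfl⟩)
    · exact Submodule.subset_span (by simp)
    · exact Submodule.span_mono (by simp) (hcon j)
  have hfin : FiniteDimensional k (Submodule.span k ({u, v} : Set (ι → k))) :=
    FiniteDimensional.span_of_finite k (Set.toFinite _)
  have h3 := Submodule.finrank_mono h2
  have h4 : finrank k (Submodule.span k ({u, v} : Set (ι → k))) ≤ 2 := by
    classical
    have h1 : ((({u, v} : Finset (ι → k)) : Set (ι → k))) = {u, v} := by simp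
    rw [← h1]
    exact (finrank_span_finset_le_card _).trans Finset.card_le_two
  omega

/-- the same if `u` is itself proportional to `v` (dimension of `T` at least two) -/
theorem nonprop_mod' {k ι J : Type*} [Field k] {u : ι → k} {w : J → ι → k}
    {T : Submodule k (ι → k)} (hT : 2 ≤ finrank k T)
    (h : ∀ x ∈ T, ∃ y ∈ Submodule.span k (Set.range w), ∃ b : k, y = x + b • u) {v : ι → k}
    (hu : u ∈ Submodule.span k {v}) : ∃ j, w j ∉ Submodule.span k {v} := by
  by_contra hcon
  push Not at hcon
  have h2 : T ≤ Submodule.span k ({v} : Set (ι → k)) := by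
    refine (le_span_mod h).trans ?_
    rw [Submodule.span_le]
    rintro _ (rfl | ⟨j, rfl⟩)
    · exact hu
    · exact hcon j
  have h3 := Submodule.finrank_mono h2
  have h4 := finrank_span_le_card (R := k) ({v} : Set (ι → k))
  simp at h4
  omega

end Pool.Agent.VFS
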