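import Pool.Agent.Lib_MP_1858fb_s.Der

/-!
# First order terms of a formal deformation `F = F₀ + Π Δ`

`R = k[[ξ]]`, `Δ` has no constant term and the coefficient of `ξ_j` in `Δ` is `δ_j`.
-/

set_option autoImplicit false

namespace Pool.Agent.VFS

open Polynomial

section lin

variable {k σ : Type*} [CommRing k]

/-- the coefficient of `ξ_j`, applied to each coefficient of a polynomial over `k[[ξ]]` -/
noncomputable def linC (j : σ) (p : (MvPowerSeries σ k)[X]) : k[X] :=
  ∑ i ∈ p.support, monomial i (MvPowerSeries.coeff (Finsupp.single j 1) (p.coeff i))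

theorem coeff_linC (j : σ) (p : (MvPowerSeries σ k)[X]) (n : ℕ) :
    (linC j p).coeff n = MvPowerSeries.coeff (Finsupp.single j 1) (p.coeff n) := by
  unfold linC
  rw [finsetSum_coeff]
  simp only [coeff_monomial]
  rw [Finset.sum_ite_eq']
  split_ifs with h
  · rfl
  · rw [notMem_support_iff.1 h, map_zero]

theorem linC_add (j : σ) (p q : (MvPowerSeries σ k)[X]) : linC j (p + q) = linC j p + linC j q := by
  ext n
  rw [coeff_linC, coeff_add, coeff_add, map_add, coeff_linC, coeff_linC]

theorem coeff_C_mul' (m : σ →₀ ℕ) (c : k) (f : MvPowerSeries σ k) :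
    MvPowerSeries.coeff m (algebraMap k (MvPowerSeries σ k) c * f) = c * MvPowerSeries.coeff m f := by
  rw [← Algebra.smul_def, MvPowerSeries.coeff_smul]

theorem linC_map_mul (j : σ) (p : k[X]) (q : (MvPowerSeries σ k)[X]) :
    linC j (p.map (algebraMap k _) * q) = p * linC j q := by
  ext n
  rw [coeff_linC, coeff_mul, coeff_mul, map_sum]
  refine Finset.sum_congr rfl fun x _ => ?_
  rw [coeff_map, coeff_C_mul', coeff_linC]

theorem coeff_single_algebraMap (j : σ) (c : k) :
    MvPowerSeries.coeff (Finsupp.single j 1) (algebraMap k (MvPowerSeries σ k) c) = 0 := by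
  classical
  rw [MvPowerSeries.algebraMap_apply, Algebra.algebraMap_self_apply, MvPowerSeries.coeff_C, if_neg]
  intro h
  have := DFunLike.congr_fun h j
  rw [Finsupp.single_eq_same, Finsupp.coe_zero, Pi.zero_apply] at this
  exact one_ne_zero this

theorem linC_map (j : σ) (p : k[X]) : linC j (p.map (algebraMap k (MvPowerSeries σ k))) = 0 := by
  ext n
  rw [coeff_linC, coeff_map, coeff_single_algebraMap, coeff_zero]

theorem linC_eval (j : σ) (p : (MvPowerSeries σ k)[X]) (c : k) :
    (linC j p).eval c = MvPowerSeries.coeff (Finsupp.single j 1) (p.eval (algebraMap k _ c)) := by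
  induction p using Polynomial.induction_on' with
  | add p q hp hq => rw [linC_add, eval_add, hp, hq, eval_add, map_add]
  | monomial n a =>
    have h1 : linC j (monomial n a) = monomial n (MvPowerSeries.coeff (Finsupp.single j 1) a) := by
      ext m
      rw [coeff_linC, coeff_monomial, coeff_monomial]
      split_ifs
      · rfl
      · exact map_zero _
    rw [h1, eval_monomial, eval_monomial, ← map_pow, mul_comm a, coeff_C_mul', mul_comm]

theorem linC_derivative (j : σ) (p : (MvPowerSeries σ k)[X]) :
    linC j p.derivative = (linC j p).derivative := by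
  ext n
  rw [coeff_linC, coeff_derivative, coeff_derivative, coeff_linC]
  have : ((n : MvPowerSeries σ k) + 1) = algebraMap k _ ((n : k) + 1) := by
    rw [map_add, map_natCast, map_one]
  rw [this, mul_comm, coeff_C_mul', mul_comm]

theorem linC_map_constantCoeff_pderiv (j : σ) (p : (MvPowerSeries σ k)[X]) :
    (coefD (MvPowerSeries.pderiv k j) p).map MvPowerSeries.constantCoeff = linC j p := by
  ext n
  rw [coeff_map, coeff_coefD, coeff_linC]
  exact constantCoeff_pderiv j _

theorem eval_map_constantCoeff (p : (MvPowerSeries σ k)[X]) (c : k) :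
    (p.map MvPowerSeries.constantCoeff).eval c =
      MvPowerSeries.constantCoeff (p.eval (algebraMap k (MvPowerSeries σ k) c)) := by
  have h := Polynomial.hom_eval₂ p (RingHom.id _) (MvPowerSeries.constantCoeff (σ := σ) (R := k))
    (algebraMap k (MvPowerSeries σ k) c)
  rw [RingHom.comp_id] at h
  rw [eval_map, ← Polynomial.eval₂_id, h]
  congr 1

end lin

section data

variable {k σ ι : Type*} [Field k]

/-- `F = F₀ + Π Δ` -/
noncomputable def defF (F0 : ι → k[X]) (Pi : k[X]) (Δ : ι → (MvPowerSeries σ k)[X]) (a : ι) : (MvPowerSeries σ k)[X] :=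
  (F0 a).map (algebraMap k _) + Pi.map (algebraMap k _) * Δ a

variable {F0 : ι → k[X]} {Pi : k[X]} {Δ : ι → (MvPowerSeries σ k)[X]} {δ : σ → ι → k[X]}

/-- the reduction of `F` is `F₀` -/
theorem map_defF (h0 : ∀ a n, MvPowerSeries.constantCoeff ((Δ a).coeff n) = 0) (a : ι) :
    (defF F0 Pi Δ a).map MvPowerSeries.constantCoeff = F0 a := by
  have h1 : (Δ a).map MvPowerSeries.constantCoeff = 0 := by
    ext n
    rw [coeff_map, h0, coeff_zero]
  unfold defF
  rw [Polynomial.map_add, Polynomial.map_mul, h1, mul_zero, add_zero, Polynomial.map_map]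
  have : (MvPowerSeries.constantCoeff (σ := σ) (R := k)).comp (algebraMap k (MvPowerSeries σ k)) = RingHom.id k := by
    ext c
    rw [RingHom.comp_apply, MvPowerSeries.algebraMap_apply, Algebra.algebraMap_self_apply,
      MvPowerSeries.constantCoeff_C, RingHom.id_apply]
  rw [this, Polynomial.map_id]

theorem coefD_defF (j : σ) (a : ι) :
    coefD (MvPowerSeries.pderiv k j) (defF F0 Pi Δ a) =
      Pi.map (algebraMap k _) * coefD (MvPowerSeries.pderiv k j) (Δ a) := by
  unfold defF
  rw [map_add, coefD_map, zero_add, coefD_map_mul]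

theorem linC_eq (h1 : ∀ j a n, MvPowerSeries.coeff (Finsupp.single j 1) ((Δ a).coeff n) = (δ j a).coeff n) (j : σ)
    (a : ι) : linC j (Δ a) = δ j a := by
  ext n
  rw [coeff_linC, h1]

theorem map_coefD_Δ (h1 : ∀ j a n, MvPowerSeries.coeff (Finsupp.single j 1) ((Δ a).coeff n) = (δ j a).coeff n) (j : σ)
    (a : ι) : (coefD (MvPowerSeries.pderiv k j) (Δ a)).map MvPowerSeries.constantCoeff = δ j a := by
  rw [linC_map_constantCoeff_pderiv, linC_eq h1]

theorem linC_defF (h1 : ∀ j a n, MvPowerSeries.coeff (Finsupp.single j 1) ((Δ a).coeff n) = (δ j a).coeff n) (j : σ)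
    (a : ι) : linC j (defF F0 Pi Δ a) = Pi * δ j a := by
  unfold defF
  rw [linC_add, linC_map, zero_add, linC_map_mul, linC_eq h1]

/-- **S5, finite points.** At a simple root `c` of `Π` the derivative of `F` is not proportional to the constant vector `v`,
as soon as some `δ_j(c)` is not. -/
theorem derivative_defF_ne (h1 : ∀ j a n, MvPowerSeries.coeff (Finsupp.single j 1) ((Δ a).coeff n) = (δ j a).coeff n)
    {c : k} (hc : Pi.eval c = 0) (hc' : Pi.derivative.eval c ≠ 0) {v : ι → k} {a0 : ι} {j : σ} {a : ι}
    (hδ : (δ j a).eval c ≠ (δ j a0).eval c * v a) :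
    (defF F0 Pi Δ a).derivative.eval (algebraMap k _ c) ≠
      (defF F0 Pi Δ a0).derivative.eval (algebraMap k _ c) * algebraMap k _ (v a) := by
  intro h
  have h2 := congrArg (MvPowerSeries.coeff (Finsupp.single j 1)) h
  rw [mul_comm, coeff_C_mul', ← linC_eval, ← linC_eval, linC_derivative, linC_derivative, linC_defF h1, linC_defF h1,
    derivative_mul, derivative_mul, eval_add, eval_add, eval_mul, eval_mul, eval_mul, eval_mul, hc, zero_mul, zero_mul,
    add_zero, add_zero] at h2
  apply hδ
  apply mul_left_cancel₀ hc'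
  rw [h2]
  ring

/-- **S5, the point at infinity.** -/
theorem coeff_defF_ne (h1 : ∀ j a n, MvPowerSeries.coeff (Finsupp.single j 1) ((Δ a).coeff n) = (δ j a).coeff n)
    (hPi : Pi.Monic) {D : ℕ} (hD : Pi.natDegree ≤ D) (hdeg : ∀ j a, (δ j a).natDegree + Pi.natDegree ≤ D)
    {v : ι → k} {a0 : ι} {j : σ} {a : ι}
    (hδ : (δ j a).coeff (D - Pi.natDegree) ≠ (δ j a0).coeff (D - Pi.natDegree) * v a) :
    (defF F0 Pi Δ a).coeff D ≠ (defF F0 Pi Δ a0).coeff D * algebraMap k _ (v a) := by
  intro h
  have h2 := congrArg (MvPowerSeries.coeff (Finsupp.single j 1)) h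
  have h3 : ∀ a, (Pi * δ j a).coeff D = (δ j a).coeff (D - Pi.natDegree) := by
    intro a
    have h4 : D = Pi.natDegree + (D - Pi.natDegree) := by omega
    conv_lhs => rw [h4]
    rw [coeff_mul_add_eq_of_natDegree_le le_rfl (by have := hdeg j a; omega), hPi.coeff_natDegree, one_mul]
  rw [mul_comm, coeff_C_mul', ← coeff_linC, ← coeff_linC, linC_defF h1, linC_defF h1, h3, h3] at h2
  apply hδ
  rw [h2, mul_comm]

/-- a square matrix over `k[[ξ]]` whose reduction is invertible has unit determinant -/
theorem isUnit_det_of_map {n : Type*} [Fintype n] [DecidableEq n] (M : Matrix n n (MvPowerSeries σ k))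
    (h : (M.map MvPowerSeries.constantCoeff).det ≠ 0) : IsUnit M.det := by
  rw [MvPowerSeries.isUnit_iff_constantCoeff, isUnit_iff_ne_zero]
  rwa [show M.map MvPowerSeries.constantCoeff = (MvPowerSeries.constantCoeff (σ := σ) (R := k)).mapMatrix M from rfl,
    ← RingHom.map_det] at h

theorem constantCoeff_eval (p : (MvPowerSeries σ k)[X]) (c : k) :
    MvPowerSeries.constantCoeff (p.eval (algebraMap k (MvPowerSeries σ k) c)) =
      (p.map MvPowerSeries.constantCoeff).eval c := (eval_map_constantCoeff p c).symm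

end data

end Pool.Agent.VFS
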