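import Pool.Agent.Lib_MP_1858fb_s.Iface
import Pool.Agent.Lib_MP_1858fb_s.S5
import Pool.Agent.Lib_MP_1858fb_s.GLin

/-!
# MP_1858fb_ag, smooth points: the sections of the certificate (part (c) of CERT)

* `exists_indep_cons`: a list of vectors that spans a space of dimension `n + 1` modulo `u`
  contains `n` vectors that are independent together with `u`;
* `exists_minor_ne_zero`: independent rows have a nonzero minor;
* `cert_sections`: the sections `D_j F` of the formal deformation, their values at the mark and
  the minor at a general point `x`.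
-/

set_option autoImplicit false

namespace Pool.Agent.VFS

open Polynomial

section Lin

variable {k : Type} [Field k]

theorem exists_indep_cons {ι J : Type} [Finite ι] [Finite J] {n : ℕ} {u : ι → k} {w : J → ι → k}
    {T : Submodule k (ι → k)} (hT : n + 1 ≤ Module.finrank k T) (hu : u ≠ 0)
    (h : T ≤ Submodule.span k (insert u (Set.range w))) :
    ∃ v : Fin n → J,
      LinearIndependent k (Fin.cons u (fun l => w (v l)) : Fin (n + 1) → ι → k) := by
  classical
  have := Fintype.ofFinite J
  let W : Option J → ι → k := fun o => o.elim u w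
  have hs : LinearIndepOn k W ({none} : Set (Option J)) := by
    rw [linearIndepOn_singleton_iff]
    exact hu
  obtain ⟨b, -, hb2, hb3, hb4⟩ := exists_linearIndepOn_extension hs (Set.subset_univ _)
  have hnone : none ∈ b := hb2 rfl
  have hTle : T ≤ Submodule.span k (W '' b) := by
    refine h.trans (Submodule.span_le.2 ?_)
    intro y hy
    apply hb3
    rcases hy with rfl | ⟨j, rfl⟩
    · exact ⟨none, trivial, rfl⟩
    · exact ⟨some j, trivial, rfl⟩
  have hcard : n + 1 ≤ Fintype.card b := by
    refine hT.trans ?_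
    have h1 : Module.finrank k T ≤ Module.finrank k (Submodule.span k (W '' b)) :=
      Submodule.finrank_mono hTle
    refine h1.trans ?_
    have h2 : W '' b = Set.range (fun x : b => W x) := by
      rw [Set.image_eq_range]
    rw [h2]
    exact finrank_range_le_card _
  -- the elements of `b` other than `none`
  let b' : Finset (Option J) := b.toFinset.erase none
  have hb'card : n ≤ b'.card := by
    rw [Finset.card_erase_of_mem (by rw [Set.mem_toFinset]; exact hnone), Set.toFinset_card]
    omega
  obtain ⟨t, ht, htc⟩ := Finset.exists_subset_card_eq hb'card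
  let e : Fin n ≃ t := (Finset.equivFinOfCardEq htc).symm
  have hsome : ∀ o : t, ∃ j : J, (o : Option J) = some j := by
    rintro ⟨o, ho⟩
    have h1 : o ≠ none := (Finset.mem_erase.1 (ht ho)).1
    exact Option.ne_none_iff_exists'.1 h1
  choose f hf using hsome
  refine ⟨fun l => f (e l), ?_⟩
  let g : Fin (n + 1) → b := Fin.cons ⟨none, hnone⟩ fun l =>
    ⟨(e l : Option J), Set.mem_toFinset.1 (Finset.mem_erase.1 (ht (e l).2)).2⟩
  have hg : Function.Injective g := by
    rw [Fin.cons_injective_iff]
    constructor
    · rintro ⟨l, hl⟩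
      have h1 : ((e l : t) : Option J) = none := congrArg Subtype.val hl
      exact (Finset.mem_erase.1 (ht (e l).2)).1 h1
    · intro a a' haa
      have h1 := congrArg (fun z : b => (z : Option J)) haa
      exact e.injective (Subtype.ext h1)
  have h5 : LinearIndependent k (fun x : b => W x) := hb4
  have h6 := h5.comp g hg
  convert h6 using 1
  funext j
  refine Fin.cases ?_ (fun l => ?_) j
  · rfl
  · have h7 := hf (e l)
    change w (f (e l)) = W ((e l : t) : Option J)
    rw [h7]
    rfl

theorem exists_minor_ne_zero {ι : Type} [Finite ι] {m : ℕ} {A : Fin m → ι → k}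
    (hA : LinearIndependent k A) :
    ∃ idx : Fin m → ι, (Matrix.of fun j l : Fin m => A j (idx l)).det ≠ 0 := by
  classical
  have := Fintype.ofFinite ι
  let col : ι → Fin m → k := fun a j => A j a
  have hs : LinearIndepOn k col (∅ : Set ι) := linearIndepOn_empty k col
  obtain ⟨b, -, -, hb3, hb4⟩ := exists_linearIndepOn_extension hs (Set.subset_univ _)
  have htop : Submodule.span k (col '' b) = ⊤ := by
    by_contra hne
    obtain ⟨φ, hφ0, hφ⟩ := Submodule.exists_le_ker_of_lt_top _ (lt_top_iff_ne_top.2 hne)
    have h1 : ∀ a : ι, φ (col a) = 0 := fun a => hφ (hb3 ⟨a, trivial, rfl⟩)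
    -- the coefficients of `φ`
    let c : Fin m → k := fun j => φ (Pi.single j 1)
    have h2 : ∀ y : Fin m → k, φ y = ∑ j, c j * y j := by
      intro y
      have h3 : y = ∑ j, y j • (Pi.single j (1 : k) : Fin m → k) := by
        funext i
        rw [Finset.sum_apply]
        simp [Pi.single_apply]
      conv_lhs => rw [h3]
      rw [map_sum]
      refine Finset.sum_congr rfl fun j _ => ?_
      rw [map_smul, smul_eq_mul, mul_comm]
    have h4 : ∑ j, c j • A j = 0 := by
      funext a
      rw [Finset.sum_apply, Pi.zero_apply, ← h1 a, h2]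
      rfl
    have h5 := Fintype.linearIndependent_iff.1 hA c h4
    apply hφ0
    refine LinearMap.ext fun y => ?_
    rw [h2, LinearMap.zero_apply]
    exact Finset.sum_eq_zero fun j _ => by rw [h5 j, zero_mul]
  have hli : LinearIndependent k (fun x : b => col x) := hb4
  have hcard : Fintype.card b = m := by
    have h1 : Module.finrank k (Submodule.span k (Set.range fun x : b => col x)) =
        Fintype.card b := finrank_span_eq_card hli
    have h2 : Set.range (fun x : b => col x) = col '' b := by
      rw [Set.image_eq_range]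
    rw [h2, htop, finrank_top, Module.finrank_fin_fun] at h1
    exact h1.symm
  let e : Fin m ≃ b := (Fintype.equivFinOfCardEq hcard).symm
  refine ⟨fun l => (e l : ι), ?_⟩
  have h6 : LinearIndependent k (fun l : Fin m => col (e l)) := hli.comp e e.injective
  have h7 : IsUnit (Matrix.of fun l j : Fin m => A j (e l : ι)) :=
    Matrix.linearIndependent_rows_iff_isUnit.1 h6
  have h8 := (Matrix.isUnit_iff_isUnit_det _).1 h7
  rw [← Matrix.det_transpose] at h8
  exact h8.ne_zero

end Lin

section Cert

variable {k : Type} [Field k]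

theorem locClosed_zero_notMem {N : ℕ} {V : Set (Fin (N + 1) → k)} (hV : VF.LocClosed V) :
    (0 : Fin (N + 1) → k) ∉ V := by
  obtain ⟨I, J, -, rfl⟩ := hV
  intro h
  exact h.1 rfl

theorem map_aeval_poly {R A ι : Type} [CommRing R] [Algebra k R] [CommRing A] [Algebra k A]
    (φ : R →ₐ[k] A) (F : ι → R[X]) (P : MvPolynomial ι k) :
    (MvPolynomial.aeval F P).map (φ : R →+* A) =
      MvPolynomial.aeval (fun a => (F a).map (φ : R →+* A)) P := by
  have h1 : ∀ q : R[X], q.map (φ : R →+* A) = Polynomial.mapAlgHom φ q := fun _ => rfl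
  rw [h1, MvPolynomial.comp_aeval_apply]
  rfl

/-- The sections of the certificate. -/
theorem cert_sections [Infinite k] {N : ℕ} {V : Set (Fin (N + 1) → k)} (hV : VF.LocClosed V)
    {cc n : ℕ} (hcc : cc + n = N) (hsm : ∀ x ∈ V, VF.SmoothAt cc V x) {d m : ℕ}
    {F0 : Fin (N + 1) → k[X]} (h0 : Start V d m F0) (c : Fin m → k) (i₀ : Fin m)
    {h : ℕ} {δ : Fin h → Fin (N + 1) → k[X]}
    (hspan : ∀ G, Sec (VF.van V : Set _) F0 (d - m) G →
      ∃ a : Fin h → k, ∀ a', G a' = ∑ j, C (a j) * δ j a')
    {F : Fin (N + 1) → (MvPowerSeries (Fin h) k)[X]} (hF : Deform V d c F0 δ F)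
    {A : Type} [CommRing A] [Algebra k A] (φ : MvPowerSeries (Fin h) k →ₐ[k] A) :
    ∃ (x : k) (g : Fin n → Fin (N + 1) → A[X]) (b : Fin n → A) (idx : Fin (n + 1) → Fin (N + 1)),
      (∀ i, x ≠ c i) ∧
      (∀ j a, (g j a).natDegree ≤ d) ∧
      (∀ j, ∀ E ∈ VF.van V, ∑ a, MvPolynomial.aeval
        (fun a => (F a).map (φ : MvPowerSeries (Fin h) k →+* A)) (MvPolynomial.pderiv a E) *
          g j a = 0) ∧
      (∀ j a, (g j a).eval (algebraMap k A (c i₀)) =
        b j * ((F a).map (φ : MvPowerSeries (Fin h) k →+* A)).eval (algebraMap k A (c i₀))) ∧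
      IsUnit (Matrix.det (Matrix.of fun j l : Fin (n + 1) =>
        (Fin.cons ((F (idx l)).map (φ : MvPowerSeries (Fin h) k →+* A))
          (fun j => g j (idx l)) : Fin (n + 1) → A[X]) j |>.eval (algebraMap k A x))) := by
  classical
  let R := MvPowerSeries (Fin h) k
  -- the point `x`
  obtain ⟨x, hx⟩ : ∃ x : k, x ∉ Set.range c :=
    (Set.finite_range c).infinite_compl.nonempty
  have hxc : ∀ i, x ≠ c i := fun i h => hx ⟨i, h.symm⟩
  let P0 : k[X] := ∏ i, (X - C (c i))
  have hP0 : P0.eval x ≠ 0 := by
    change (∏ i, (X - C (c i))).eval x ≠ 0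
    rw [eval_prod, Finset.prod_ne_zero_iff]
    intro i _
    rw [eval_sub, eval_X, eval_C, sub_ne_zero]
    exact hxc i
  -- the tangent space
  let u : Fin (N + 1) → k := fun a => (F0 a).eval x
  have hu : u ∈ V := h0.fin x
  have hu0 : u ≠ 0 := fun h => locClosed_zero_notMem hV (h ▸ hu)
  let w : Fin h → Fin (N + 1) → k := fun j a => (P0 * δ j a).eval x
  have hT : n + 1 ≤ Module.finrank k (VF.Tan V u) := by
    have h1 := finrank_tan hu (hsm u hu)
    rw [Fintype.card_fin] at h1
    omega
  have hTle : VF.Tan V u ≤ Submodule.span k (insert u (Set.range w)) := by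
    refine le_span_mod fun t ht => ?_
    obtain ⟨G, hG, b, hb⟩ := h0.sfin x t ht
    obtain ⟨e, he⟩ := hspan G hG
    refine ⟨∑ j, (e j * (P0.eval x)⁻¹) • w j, ?_, b, ?_⟩
    · exact Submodule.sum_mem _ fun j _ =>
        Submodule.smul_mem _ _ (Submodule.subset_span ⟨j, rfl⟩)
    · funext a
      rw [Finset.sum_apply, Pi.add_apply, Pi.smul_apply, smul_eq_mul, ← hb a, he a,
        eval_finsetSum]
      refine Finset.sum_congr rfl fun j _ => ?_
      rw [Pi.smul_apply, smul_eq_mul]
      change e j * (P0.eval x)⁻¹ * (P0 * δ j a).eval x = _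
      rw [eval_mul, eval_mul, eval_C]
      field_simp
  obtain ⟨v, hv⟩ := exists_indep_cons hT hu0 hTle
  obtain ⟨idx, hidx⟩ := exists_minor_ne_zero hv
  -- the values at the mark
  obtain ⟨S, hS, hmark⟩ := hF.mark i₀
  obtain ⟨S', hS'⟩ := hS
  refine ⟨x, fun j a => (coefD (MvPowerSeries.pderiv k (v j)) (F a)).map (φ : R →+* A),
    fun j => φ (MvPowerSeries.pderiv k (v j) S * ((S'⁻¹ : Rˣ) : R)), idx, hxc, ?_, ?_, ?_, ?_⟩
  · intro j a
    exact natDegree_map_le.trans ((natDegree_coefD_le _ _).trans (hF.deg a))
  · intro j E hE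
    have h1 := der_aeval_eq_zero (coefD (MvPowerSeries.pderiv k (v j))) F E (hF.eqs E hE)
    have h2 := congrArg (Polynomial.map (φ : R →+* A)) h1
    rw [Polynomial.map_sum, Polynomial.map_zero] at h2
    rw [← h2]
    refine Finset.sum_congr rfl fun a _ => ?_
    rw [Polynomial.map_mul, map_aeval_poly]
  · intro j a
    have h3 : algebraMap k A (c i₀) = (φ : R →+* A) (algebraMap k R (c i₀)) := (φ.commutes _).symm
    rw [h3, eval_map_apply, eval_map_apply, eval_coefD, hmark a]
    have h4 : MvPowerSeries.pderiv k (v j) (S * algebraMap k R ((F0 a).eval (c i₀))) =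
        MvPowerSeries.pderiv k (v j) S * algebraMap k R ((F0 a).eval (c i₀)) := by
      rw [Derivation.leibniz, Derivation.map_algebraMap, smul_zero, zero_add, smul_eq_mul,
        mul_comm]
    rw [h4]
    change φ _ = φ _ * φ _
    rw [← map_mul]
    congr 1
    have h5 : ((S'⁻¹ : Rˣ) : R) * S = 1 := by rw [← hS', Units.inv_mul]
    calc MvPowerSeries.pderiv k (v j) S * algebraMap k R ((F0 a).eval (c i₀))
        = MvPowerSeries.pderiv k (v j) S * (((S'⁻¹ : Rˣ) : R) * S) *
            algebraMap k R ((F0 a).eval (c i₀)) := by rw [h5, mul_one]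
      _ = _ := by ring
  · -- the minor
    let M : Matrix (Fin (n + 1)) (Fin (n + 1)) R := Matrix.of fun j l =>
      (Fin.cons (F (idx l)) (fun j => coefD (MvPowerSeries.pderiv k (v j)) (F (idx l))) :
        Fin (n + 1) → R[X]) j |>.eval (algebraMap k R x)
    have hM : IsUnit M.det := by
      refine isUnit_det_of_map M ?_
      have h1 : M.map MvPowerSeries.constantCoeff =
          Matrix.of fun j l : Fin (n + 1) =>
            (Fin.cons u (fun l => w (v l)) : Fin (n + 1) → Fin (N + 1) → k) j (idx l) := by
        ext j l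
        rw [Matrix.map_apply]
        refine Fin.cases ?_ (fun j => ?_) j
        · change MvPowerSeries.constantCoeff ((F (idx l)).eval (algebraMap k R x)) = u (idx l)
          rw [constantCoeff_eval, hF.red]
        · change MvPowerSeries.constantCoeff
            ((coefD (MvPowerSeries.pderiv k (v j)) (F (idx l))).eval (algebraMap k R x)) =
              w (v j) (idx l)
          rw [constantCoeff_eval, linC_map_constantCoeff_pderiv]
          have h2 : linC (v j) (F (idx l)) = P0 * δ (v j) (idx l) := by
            ext n'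
            rw [coeff_linC, hF.lin]
          rw [h2]
      rw [h1]
      exact hidx
    have h2 := hM.map (φ : R →+* A)
    rw [RingHom.map_det] at h2
    convert h2 using 2
    ext j l
    rw [RingHom.mapMatrix_apply, Matrix.map_apply]
    have h3 : algebraMap k A x = (φ : R →+* A) (algebraMap k R x) := (φ.commutes _).symm
    rw [h3]
    refine Fin.cases ?_ (fun j => ?_) j
    · change ((F (idx l)).map (φ : R →+* A)).eval _ = _
      rw [eval_map_apply]
      rfl
    · change ((coefD (MvPowerSeries.pderiv k (v j)) (F (idx l))).map (φ : R →+* A)).eval _ = _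
      rw [eval_map_apply]
      rfl

end Cert

end Pool.Agent.VFS
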