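import Pool.Agent.Lib_MP_1858fb_s.Member
import Pool.Agent.Lib_MP_1858fb_s.S5

/-!
# Smooth points (MP_1858fb): `gcd_member` for formal deformations over `k[[ξ]]` with projective marks
-/

set_option autoImplicit false

namespace Pool.Agent.VFS

open Polynomial

/-- a `k`-derivation as a `ℤ`-derivation -/
noncomputable def zD {k R : Type*} [CommRing k] [CommRing R] [Algebra k R] (D : Derivation k R[X] R[X]) :
    Derivation ℤ R[X] R[X] := D.restrictScalars ℤ

theorem zD_apply {k R : Type*} [CommRing k] [CommRing R] [Algebra k R] (D : Derivation k R[X] R[X]) (p : R[X]) :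
    zD D p = D p := rfl

section

variable {k σ ι : Type*} [Field k]

/-- the constant coefficient, as a map of `k`-algebras -/
noncomputable def ccA : MvPowerSeries σ k →ₐ[k] k :=
  { MvPowerSeries.constantCoeff with
    commutes' := by
      intro x
      show MvPowerSeries.constantCoeff (algebraMap k (MvPowerSeries σ k) x) = _
      rw [MvPowerSeries.algebraMap_apply, Algebra.algebraMap_self_apply, MvPowerSeries.constantCoeff_C] }

theorem ccA_coe : ((ccA : MvPowerSeries σ k →ₐ[k] k) : MvPowerSeries σ k →+* k) = MvPowerSeries.constantCoeff := rfl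

theorem det3_prop (u v w : Fin 3 → k) (y : Fin 3 → k) (r s t : k) (hu : ∀ a, u a = r * y a)
    (hv : ∀ a, v a = s * y a) (hw : ∀ a, w a = t * y a) : det3 u v w = 0 := by
  unfold det3
  simp only [hu, hv, hw]
  ring

/-- **The marked points are simple points of the general deformation.** -/
theorem gcd_X [IsAlgClosed k] [Finite ι] {K : Type*} [Field K] [Algebra (MvPowerSeries σ k) K]
    [IsFractionRing (MvPowerSeries σ k) K] {m D : ℕ} (c : Fin m → k)
    (hc : Function.Injective c) (hmD : m ≤ D) (F0 : ι → k[X]) (δ : σ → ι → k[X])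
    (F : ι → (MvPowerSeries σ k)[X]) (h1 : ∀ a, (F a).natDegree ≤ D)
    (h2 : ∀ l, ∃ S : MvPowerSeries σ k, IsUnit S ∧ ∀ a, (F a).eval (algebraMap k _ (c l)) =
      S * algebraMap k _ ((F0 a).eval (c l)))
    (h3 : ∀ a, (F a).map MvPowerSeries.constantCoeff = F0 a)
    (h4 : ∀ j a n, MvPowerSeries.coeff (Finsupp.single j 1) ((F a).coeff n) =
      ((∏ i, (X - C (c i))) * δ j a).coeff n)
    (hrk : ∀ x : k, ∃ (t : Fin 3 → ι) (j l : σ), det3 (fun a => (F0 (t a)).eval x) (fun a => (δ j (t a)).eval x)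
      (fun a => (δ l (t a)).eval x) ≠ 0)
    (hoo : ∃ (t : Fin 3 → ι) (j l : σ), det3 (fun a => (F0 (t a)).coeff D) (fun a => (δ j (t a)).coeff (D - m))
      (fun a => (δ l (t a)).coeff (D - m)) ≠ 0)
    (v : Fin m → ι → k) (a₀ : Fin m → ι) (hv1 : ∀ i, v i (a₀ i) = 1)
    (hv : ∀ i a, (F0 a).eval (c i) = (F0 (a₀ i)).eval (c i) * v i a) (hv0 : ∀ i, (F0 (a₀ i)).eval (c i) ≠ 0)
    (i : Fin m) (hne : ∀ l, l ≠ i → ∃ a, v l a ≠ v l (a₀ i) * v i a) :
    ∃ q : ι → (MvPowerSeries σ k)[X],
      (∀ a, F a - F (a₀ i) * C (algebraMap k _ (v i a)) = (X - C (algebraMap k _ (c i))) * q a) ∧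
      Ideal.span (Set.range fun a => (q a).map (algebraMap (MvPowerSeries σ k) K)) = ⊤ := by
  classical
  choose S hS hS' using h2
  have hlin : ∀ j a, linC j (F a) = (∏ i, (X - C (c i))) * δ j a := by
    intro j a
    ext n
    rw [coeff_linC, h4]
  have : IsDomain (MvPowerSeries σ k) := NoZeroDivisors.to_isDomain _
  refine gcd_member (K := K) (ccA : MvPowerSeries σ k →ₐ[k] k) c hc hmD F
    (fun j => zD (coefD (MvPowerSeries.pderiv k j))) ?_ F0 δ v
    (fun l => S l * algebraMap k _ ((F0 (a₀ l)).eval (c l)))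
    (fun j l => MvPowerSeries.pderiv k j (S l * algebraMap k _ ((F0 (a₀ l)).eval (c l)))) ?_ ?_ h1 ?_ h3 ?_ hrk hoo i
    (a₀ i) (hv1 i) ?_ hne ?_
  · intro j x
    rw [zD_apply, coefD_C, Derivation.map_algebraMap, C_0]
  · intro l a
    rw [hS' l a, hv l a, map_mul]
    ring
  · intro j l a
    have h5 : S l * algebraMap k (MvPowerSeries σ k) ((F0 (a₀ l)).eval (c l) * v l a) =
        v l a • (S l * algebraMap k (MvPowerSeries σ k) ((F0 (a₀ l)).eval (c l))) := by
      rw [Algebra.smul_def, RingHom.map_mul]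
      ring
    rw [zD_apply, eval_coefD, hS' l a, hv l a, h5, Derivation.map_smul, Algebra.smul_def, mul_comm]
  · intro j a
    rw [zD_apply]
    exact le_trans (natDegree_coefD_le _ _) (h1 a)
  · intro j a
    rw [zD_apply, ccA_coe, linC_map_constantCoeff_pderiv, hlin]
  · intro l
    refine mul_ne_zero (hS l).ne_zero ?_
    rw [map_ne_zero_iff _ (algebraMap k (MvPowerSeries σ k)).injective]
    exact hv0 l
  · -- the derivative
    by_contra hcon
    push Not at hcon
    obtain ⟨t, j, l, hd⟩ := hrk (c i)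
    apply hd
    have hP0 : (∏ l, (X - C (c l)) : k[X]).eval (c i) = 0 := by
      rw [eval_prod]
      exact Finset.prod_eq_zero (Finset.mem_univ i) (by simp)
    have hP1 : (derivative (∏ l, (X - C (c l)) : k[X])).eval (c i) ≠ 0 := by
      rw [← Finset.mul_prod_erase _ _ (Finset.mem_univ i), derivative_mul, eval_add, eval_mul, eval_mul,
        derivative_X_sub_C, eval_one, one_mul, eval_sub, eval_X, eval_C, sub_self, zero_mul, add_zero, eval_prod]
      refine Finset.prod_ne_zero_iff.2 fun b hb => ?_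
      rw [eval_sub, eval_X, eval_C]
      exact sub_ne_zero.2 fun h => (Finset.ne_of_mem_erase hb) (hc h).symm
    have hδ : ∀ j a, (δ j a).eval (c i) = (δ j (a₀ i)).eval (c i) * v i a := by
      intro j a
      have h5 := congrArg (MvPowerSeries.coeff (Finsupp.single j 1)) (hcon a)
      rw [mul_comm, coeff_C_mul', ← linC_eval, ← linC_eval, linC_derivative, linC_derivative, hlin, hlin,
        derivative_mul, derivative_mul, eval_add, eval_add, eval_mul, eval_mul, eval_mul, eval_mul, hP0, zero_mul,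
        zero_mul, add_zero, add_zero] at h5
      apply mul_left_cancel₀ hP1
      rw [h5]
      ring
    exact det3_prop _ _ _ (fun a => v i (t a)) _ _ _ (fun a => hv i (t a)) (fun a => hδ j (t a))
      (fun a => hδ l (t a))

end

end Pool.Agent.VFS
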