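import Pool.Agent.Lib_MP_1858fb_s.Iface
import Pool.Agent.Lib_MP_1858fb_s.GLin
import Pool.Agent.Lib_MP_1858fb_s.Member2
import Pool.Agent.Lib_MP_1858fb_s.CertSec

/-!
# Smooth points add-on: part (b) of the certificate

The quotients `q` of `F a - F (a0 i) v i a` by `X - c i` generate the unit ideal over the fraction
field, and the point at infinity is not mapped to `v i`.
-/

set_option autoImplicit false

namespace Pool.Agent.VFS

open Polynomial

section

variable {k : Type} [Field k] {N : ℕ} {V : Set (Fin (N + 1) → k)}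

/-- the rank hypothesis at a finite point -/
theorem start_hrk (hV : VF.LocClosed V) {cc : ℕ} (hcc : cc + 2 ≤ N)
    (hsm : ∀ x ∈ V, VF.SmoothAt cc V x) {d m h : ℕ} {F0 : Fin (N + 1) → k[X]}
    (h0 : Start V d m F0) {δ : Fin h → Fin (N + 1) → k[X]}
    (hspan : ∀ G, Sec (VF.van V : Set _) F0 (d - m) G →
      ∃ c : Fin h → k, ∀ a, G a = ∑ j, C (c j) * δ j a) (x : k) :
    ∃ (t : Fin 3 → Fin (N + 1)) (j l : Fin h),
      det3 (fun a => (F0 (t a)).eval x) (fun a => (δ j (t a)).eval x)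
        (fun a => (δ l (t a)).eval x) ≠ 0 := by
  have hu : (fun a => (F0 a).eval x) ∈ V := h0.fin x
  have hT := finrank_tan hu (hsm _ hu)
  rw [Fintype.card_fin] at hT
  refine rank_mod (u := fun a => (F0 a).eval x) (w := fun j a => (δ j a).eval x)
    (T := VF.Tan V (fun a => (F0 a).eval x)) (by omega)
    (fun hz => locClosed_zero_notMem hV (hz ▸ hu)) fun y hy => ?_
  obtain ⟨G, hG, b, hb⟩ := h0.sfin x y hy
  obtain ⟨e, he⟩ := hspan G hG
  refine ⟨∑ j, e j • fun a => (δ j a).eval x, Submodule.sum_mem _ fun j _ =>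
    Submodule.smul_mem _ _ (Submodule.subset_span ⟨j, rfl⟩), b, ?_⟩
  funext a
  rw [Finset.sum_apply, Pi.add_apply, Pi.smul_apply, smul_eq_mul, ← hb a, he a, eval_finsetSum]
  refine Finset.sum_congr rfl fun j _ => ?_
  rw [Pi.smul_apply, smul_eq_mul, eval_mul, eval_C]

/-- every tangent vector at infinity is a combination modulo `F0` -/
theorem start_inf_span {d m h : ℕ} {F0 : Fin (N + 1) → k[X]}
    (h0 : Start V d m F0) {δ : Fin h → Fin (N + 1) → k[X]}
    (hspan : ∀ G, Sec (VF.van V : Set _) F0 (d - m) G →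
      ∃ c : Fin h → k, ∀ a, G a = ∑ j, C (c j) * δ j a)
    (y : Fin (N + 1) → k) (hy : y ∈ VF.Tan V (fun a => (F0 a).coeff d)) :
    ∃ z ∈ Submodule.span k (Set.range fun (j : Fin h) (a : Fin (N + 1)) =>
      (δ j a).coeff (d - m)), ∃ b : k, z = y + b • fun a => (F0 a).coeff d := by
  obtain ⟨G, hG, b, hb⟩ := h0.sinf y hy
  obtain ⟨e, he⟩ := hspan G hG
  refine ⟨∑ j, e j • fun a => (δ j a).coeff (d - m), Submodule.sum_mem _ fun j _ =>
    Submodule.smul_mem _ _ (Submodule.subset_span ⟨j, rfl⟩), b, ?_⟩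
  funext a
  rw [Finset.sum_apply, Pi.add_apply, Pi.smul_apply, smul_eq_mul, ← hb a, he a, finsetSum_coeff]
  refine Finset.sum_congr rfl fun j _ => ?_
  rw [Pi.smul_apply, smul_eq_mul, coeff_C_mul]

theorem cert_q [IsAlgClosed k] (hV : VF.LocClosed V) {cc : ℕ} (hcc : cc + 2 ≤ N)
    (hsm : ∀ x ∈ V, VF.SmoothAt cc V x) {d m h : ℕ} {F0 : Fin (N + 1) → k[X]}
    (h0 : Start V d m F0) {c : Fin m → k} (hc : Function.Injective c)
    {δ : Fin h → Fin (N + 1) → k[X]} (hδ : ∀ j, Sec (VF.van V : Set _) F0 (d - m) (δ j))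
    (hspan : ∀ G, Sec (VF.van V : Set _) F0 (d - m) G →
      ∃ c : Fin h → k, ∀ a, G a = ∑ j, C (c j) * δ j a)
    {F : Fin (N + 1) → (MvPowerSeries (Fin h) k)[X]} (hF : Deform V d c F0 δ F)
    {v : Fin m → Fin (N + 1) → k} {a0 : Fin m → Fin (N + 1)}
    (hv : ∀ i, ∃ t : k, t ≠ 0 ∧ ∀ a, (F0 a).eval (c i) = t * v i a)
    (ha0 : ∀ i, v i (a0 i) = 1) (hvv : ∀ i j, i ≠ j → ¬ ∃ t : k, v i = t • v j) (i : Fin m) :
    (∃ q : Fin (N + 1) → (MvPowerSeries (Fin h) k)[X],
      (∀ a, F a - F (a0 i) * C (algebraMap k (MvPowerSeries (Fin h) k) (v i a)) =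
        (X - C (algebraMap k (MvPowerSeries (Fin h) k) (c i))) * q a) ∧
      ∃ Q : Fin (N + 1) → (FractionRing (MvPowerSeries (Fin h) k))[X],
        ∑ a, Q a * (q a).map (algebraMap _ _) = 1) ∧
    ∃ a1, (F a1).coeff d - (F (a0 i)).coeff d *
      algebraMap k (MvPowerSeries (Fin h) k) (v i a1) ≠ 0 := by
  classical
  have hoou : (fun a => (F0 a).coeff d) ∈ V := h0.inf
  have hT := finrank_tan hoou (hsm _ hoou)
  rw [Fintype.card_fin] at hT
  have hmon : (∏ i, (X - C (c i)) : k[X]).Monic := monic_prod_of_monic _ _ fun i _ => monic_X_sub_C _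
  have hdegk : (∏ i, (X - C (c i)) : k[X]).natDegree = m := by
    rw [natDegree_prod_of_monic _ _ fun i _ => monic_X_sub_C _]; simp
  constructor
  · obtain ⟨q, hq, hq1⟩ := gcd_X (K := FractionRing (MvPowerSeries (Fin h) k)) c hc h0.hm F0 δ F
      hF.deg hF.mark hF.red hF.lin (start_hrk hV hcc hsm h0 hspan)
      (rank_mod (u := fun a => (F0 a).coeff d) (w := fun j a => (δ j a).coeff (d - m))
        (T := VF.Tan V (fun a => (F0 a).coeff d)) (by omega)
        (fun hz => locClosed_zero_notMem hV (hz ▸ hoou)) (start_inf_span h0 hspan))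
      v a0 ha0
      (by
        intro i a
        obtain ⟨t, _, ht⟩ := hv i
        rw [ht, ht, ha0, mul_one])
      (by
        intro i
        obtain ⟨t, ht0, ht⟩ := hv i
        rw [ht, ha0, mul_one]
        exact ht0)
      i
      (by
        intro l hl
        by_contra hcon
        push Not at hcon
        exact hvv l i hl ⟨v l (a0 i), funext hcon⟩)
    refine ⟨q, hq, ?_⟩
    have h1 : (1 : (FractionRing (MvPowerSeries (Fin h) k))[X]) ∈
        Ideal.span (Set.range fun a => (q a).map (algebraMap (MvPowerSeries (Fin h) k)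
          (FractionRing (MvPowerSeries (Fin h) k)))) := by
      rw [hq1]
      exact Submodule.mem_top
    obtain ⟨Q, hQ⟩ := Ideal.mem_span_range_iff_exists_fun.1 h1
    exact ⟨Q, hQ⟩
  · by_contra hcon
    push Not at hcon
    obtain ⟨j, hj⟩ := nonprop_mod (u := fun a => (F0 a).coeff d)
      (w := fun j a => (δ j a).coeff (d - m)) (T := VF.Tan V (fun a => (F0 a).coeff d))
      (by omega) (start_inf_span h0 hspan) (v i)
    apply hj
    rw [Submodule.mem_span_singleton]
    refine ⟨(δ j (a0 i)).coeff (d - m), ?_⟩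
    funext a
    have h3 : ∀ a, ((∏ i, (X - C (c i))) * δ j a).coeff d = (δ j a).coeff (d - m) := by
      intro a
      have h4 : d = (∏ i, (X - C (c i)) : k[X]).natDegree + (d - m) := by
        rw [hdegk]
        have := h0.hm
        omega
      conv_lhs => rw [h4]
      rw [coeff_mul_add_eq_of_natDegree_le le_rfl ((hδ j).1 a), hmon.coeff_natDegree, one_mul]
    have h2 := congrArg (MvPowerSeries.coeff (Finsupp.single j 1)) (hcon a)
    rw [map_sub, map_zero, mul_comm, coeff_C_mul', hF.lin, hF.lin, h3, h3, sub_eq_zero] at h2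
    rw [Pi.smul_apply, smul_eq_mul, h2, mul_comm]

end

end Pool.Agent.VFS
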