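import Pool.Agent.Lib_MP_1858fb_s.CertSec

/-!
# MP_1858fb_ag, smooth points: `cert_secs` (CERT (c) over the ring of power series)
-/

set_option autoImplicit false

namespace Pool.Agent.VFS

open Polynomial

section CertS

variable {k : Type} [Field k] {N : ℕ} {V : Set (Fin (N + 1) → k)}

theorem cert_secs [IsAlgClosed k] (hV : VF.LocClosed V) {cc n : ℕ} (hcc : cc + n = N)
    (hsm : ∀ x ∈ V, VF.SmoothAt cc V x) {d m h : ℕ} {F0 : Fin (N + 1) → k[X]}
    (h0 : Start V d m F0) {c : Fin m → k} (hc : Function.Injective c)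
    {δ : Fin h → Fin (N + 1) → k[X]} (hδ : ∀ j, Sec (VF.van V : Set _) F0 (d - m) (δ j))
    (hspan : ∀ G, Sec (VF.van V : Set _) F0 (d - m) G →
      ∃ c : Fin h → k, ∀ a, G a = ∑ j, C (c j) * δ j a)
    {F : Fin (N + 1) → (MvPowerSeries (Fin h) k)[X]} (hF : Deform V d c F0 δ F) (i₀ : Fin m) :
    ∃ x : k, x ≠ c i₀ ∧ ∃ (g : Fin n → Fin (N + 1) → (MvPowerSeries (Fin h) k)[X])
      (b : Fin n → MvPowerSeries (Fin h) k) (idx : Fin (n + 1) → Fin (N + 1)),
      (∀ j a, (g j a).natDegree ≤ d) ∧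
      (∀ j, ∀ E ∈ VF.van V,
        ∑ a, MvPolynomial.aeval F (MvPolynomial.pderiv a E) * g j a = 0) ∧
      (∀ j a, (g j a).eval (algebraMap k _ (c i₀)) =
        b j * (F a).eval (algebraMap k _ (c i₀))) ∧
      IsUnit (Matrix.det (Matrix.of fun j l : Fin (n + 1) =>
        (Fin.cons (F (idx l)) (fun j => g j (idx l)) : Fin (n + 1) → (MvPowerSeries (Fin h) k)[X]) j
          |>.eval (algebraMap k _ x))) := by
  have hkinf : Infinite k := IsAlgClosed.instInfinite
  obtain ⟨x, g, b, idx, hx, h1, h2, h3, h4⟩ := cert_sections hV hcc hsm h0 c i₀ hspan hF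
    (AlgHom.id k (MvPowerSeries (Fin h) k))
  have hid : ∀ a, (F a).map ((AlgHom.id k (MvPowerSeries (Fin h) k) :
      MvPowerSeries (Fin h) k →+* MvPowerSeries (Fin h) k)) = F a := fun a => Polynomial.map_id
  simp only [hid] at h2 h3 h4
  exact ⟨x, hx i₀, g, b, idx, h1, h2, h3, h4⟩

end CertS

end Pool.Agent.VFS
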