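import Pool.Agent.Lib_MP_1858fb_s.Def
import Pool.Agent.Lib_MP_1858fb_s.CertOpen
import Pool.Agent.Lib_MP_1858fb_s.CertQ
import Pool.Agent.Lib_MP_1858fb_s.CertS
import Pool.Agent.Lib_MP_1858fb_s.CertTrans
import Pool.Agent.Lib_MP_1858fb_w.Van1
import Pool.Agent.Lib_MP_1858fb_s.CertGood

/-!
# Smooth points add-on: assembly of the certificate over the fraction field
-/

set_option autoImplicit false

namespace Pool.Agent.VFS

open Polynomial

section map

variable {k R K : Type} [Field k] [CommRing R] [Field K] [Algebra k R] [Algebra k K] [Algebra R K]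
  [IsScalarTower k R K]

theorem eval_map_tower (p : R[X]) (c : k) :
    (p.map (algebraMap R K)).eval (algebraMap k K c) =
      algebraMap R K (p.eval (algebraMap k R c)) := by
  rw [IsScalarTower.algebraMap_apply k R K, Polynomial.eval_map_apply]

theorem aeval_map_poly {ι : Type} (F : ι → R[X]) (E : MvPolynomial ι k) :
    MvPolynomial.aeval (fun a => (F a).map (algebraMap R K)) E =
      (MvPolynomial.aeval F E).map (algebraMap R K) := by
  have h : (fun a => (F a).map (algebraMap R K)) =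
      fun a => Polynomial.mapAlgHom (IsScalarTower.toAlgHom k R K) (F a) := rfl
  rw [h, ← MvPolynomial.comp_aeval_apply]
  rfl

theorem aeval_map_coeff {ι : Type} (F : ι → R) (E : MvPolynomial ι k) :
    MvPolynomial.aeval (fun a => algebraMap R K (F a)) E = algebraMap R K (MvPolynomial.aeval F E) := by
  have h : (fun a => algebraMap R K (F a)) = fun a => IsScalarTower.toAlgHom k R K (F a) := rfl
  rw [h, ← MvPolynomial.comp_aeval_apply]
  rfl

end map

section

variable {k : Type} [Field k] {N : ℕ} {V : Set (Fin (N + 1) → k)}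

theorem exists_cert_frac' [IsAlgClosed k] (hV : VF.LocClosed V) {cc n : ℕ} (hn : 2 ≤ n)
    (hcc : cc + n = N) (hsm : ∀ x ∈ V, VF.SmoothAt cc V x) {d m : ℕ}
    {F0 : Fin (N + 1) → k[X]} (h0 : Start V d m F0) (c : Fin m → k)
    (hc : Function.Injective c) (v : Fin m → Fin (N + 1) → k) (a0 : Fin m → Fin (N + 1))
    (hv : ∀ i, ∃ t : k, t ≠ 0 ∧ ∀ a, (F0 a).eval (c i) = t * v i a)
    (ha0 : ∀ i, v i (a0 i) = 1) (hvv : ∀ i j, i ≠ j → ¬ ∃ t : k, v i = t • v j) (i₀ : Fin m)
    {r : ℕ} (G : Fin r → MvPolynomial (Fin (N + 1)) k)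
    (hG : ∀ l, ∃ e, 0 < e ∧ (G l).IsHomogeneous e)
    (hGV : ∀ x, x ∈ V ↔ (∀ E ∈ VF.van V, MvPolynomial.aeval x E = 0) ∧
      ∃ l, MvPolynomial.aeval x (G l) ≠ 0) :
    ∃ (h : ℕ) (x : k), x ≠ c i₀ ∧ Nonempty (Cert V n d c v a0 (c i₀) x G
      (FractionRing (MvPowerSeries (Fin h) k))) := by
  classical
  obtain ⟨h, δ, hδ, hspan⟩ := sec_basis (VF.van V : Set (MvPolynomial (Fin (N + 1)) k)) F0 (d - m)
  obtain ⟨F, hF⟩ := exists_deform hV hsm h0 c hc δ hδ
  obtain ⟨⟨B, hB⟩, B', hB'⟩ := cert_open h0 hF G hG hGV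
  have hq := cert_q hV (by omega) hsm h0 hc hδ hspan hF hv ha0 hvv
  obtain ⟨x, hx, g, b, idx, hgdeg, hgtan, hgb, hminor⟩ := cert_secs hV hcc hsm h0 hc hδ hspan hF i₀
  choose q hqf using fun i => (hq i).1
  choose Q hQ using fun i => (hqf i).2
  choose a1 ha1 using fun i => (hq i).2
  choose S hSu hS using hF.mark
  choose t ht0 ht using hv
  have hmark : ∀ i a, (F a).eval (algebraMap k _ (c i)) =
      S i * algebraMap k _ (t i) * algebraMap k _ (v i a) := by
    intro i a
    rw [hS, ht, map_mul, mul_assoc]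
  refine ⟨h, x, hx, ⟨{
    f := fun a => (F a).map (algebraMap _ _)
    deg := fun a => natDegree_map_le.trans (hF.deg a)
    eqs := ?_
    B := fun l => (B l).map (algebraMap _ _)
    hB := ?_
    B' := fun l => algebraMap _ _ (B' l)
    hB' := ?_
    t := fun i => algebraMap _ _ (S i * algebraMap k _ (t i))
    ht := ?_
    mark := ?_
    q := fun i a => (q i a).map (algebraMap _ _)
    hq := ?_
    Q := Q
    hQ := hQ
    a1 := a1
    ha1 := ?_
    g := fun j a => (g j a).map (algebraMap _ _)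
    gdeg := fun j a => natDegree_map_le.trans (hgdeg j a)
    gtan := ?_
    b := fun j => algebraMap _ _ (b j)
    hg := ?_
    idx := idx
    minor := ?_ }⟩⟩
  · intro E hE
    rw [aeval_map_poly, hF.eqs E hE, Polynomial.map_zero]
  · have h1 := congrArg (Polynomial.map (algebraMap (MvPowerSeries (Fin h) k)
      (FractionRing (MvPowerSeries (Fin h) k)))) hB
    rw [Polynomial.map_sum, Polynomial.map_one] at h1
    rw [← h1]
    refine Finset.sum_congr rfl fun l _ => ?_
    rw [aeval_map_poly, Polynomial.map_mul]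
  · have h1 := congrArg (algebraMap (MvPowerSeries (Fin h) k)
      (FractionRing (MvPowerSeries (Fin h) k))) hB'
    rw [map_sum, map_one] at h1
    rw [← h1]
    refine Finset.sum_congr rfl fun l _ => ?_
    simp only [coeff_map]
    rw [aeval_map_coeff, map_mul]
  · intro i
    rw [isUnit_iff_ne_zero, map_ne_zero_iff _ (IsFractionRing.injective _ _)]
    refine mul_ne_zero (hSu i).ne_zero ?_
    rw [map_ne_zero_iff _ (FaithfulSMul.algebraMap_injective _ _)]
    exact ht0 i
  · intro i a
    rw [eval_map_tower, hmark, map_mul, ← IsScalarTower.algebraMap_apply]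
  · intro i a
    have h1 := congrArg (Polynomial.map (algebraMap (MvPowerSeries (Fin h) k)
      (FractionRing (MvPowerSeries (Fin h) k)))) ((hqf i).1 a)
    rw [Polynomial.map_sub, Polynomial.map_mul, Polynomial.map_mul, Polynomial.map_sub, map_X, map_C,
      map_C, ← IsScalarTower.algebraMap_apply, ← IsScalarTower.algebraMap_apply] at h1
    exact h1
  · intro i
    rw [isUnit_iff_ne_zero]
    simp only [coeff_map]
    rw [IsScalarTower.algebraMap_apply k (MvPowerSeries (Fin h) k)
      (FractionRing (MvPowerSeries (Fin h) k)), ← map_mul, ← map_sub,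
      map_ne_zero_iff _ (IsFractionRing.injective _ _)]
    exact ha1 i
  · intro j E hE
    have h1 := congrArg (Polynomial.map (algebraMap (MvPowerSeries (Fin h) k)
      (FractionRing (MvPowerSeries (Fin h) k)))) (hgtan j E hE)
    rw [Polynomial.map_sum, Polynomial.map_zero] at h1
    rw [← h1]
    refine Finset.sum_congr rfl fun a _ => ?_
    rw [aeval_map_poly, Polynomial.map_mul]
  · intro j a
    rw [eval_map_tower, eval_map_tower, hgb, map_mul]
  · have h1 := hminor.map (algebraMap (MvPowerSeries (Fin h) k)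
      (FractionRing (MvPowerSeries (Fin h) k)))
    rw [RingHom.map_det] at h1
    have h2 : ∀ (j : Fin (n + 1)) (a : Fin (N + 1)),
        (Fin.cons ((F a).map (algebraMap (MvPowerSeries (Fin h) k)
          (FractionRing (MvPowerSeries (Fin h) k))))
          (fun j => (g j a).map (algebraMap (MvPowerSeries (Fin h) k)
          (FractionRing (MvPowerSeries (Fin h) k)))) :
          Fin (n + 1) → (FractionRing (MvPowerSeries (Fin h) k))[X]) j =
        ((Fin.cons (F a) (fun j => g j a) : Fin (n + 1) → (MvPowerSeries (Fin h) k)[X]) j).map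
          (algebraMap (MvPowerSeries (Fin h) k) (FractionRing (MvPowerSeries (Fin h) k))) := by
      intro j a
      refine Fin.cases ?_ (fun j' => ?_) j
      · rfl
      · rfl
    have h3 : (Matrix.of fun j l : Fin (n + 1) =>
        ((Fin.cons ((F (idx l)).map (algebraMap (MvPowerSeries (Fin h) k)
          (FractionRing (MvPowerSeries (Fin h) k))))
          (fun j => (g j (idx l)).map (algebraMap (MvPowerSeries (Fin h) k)
          (FractionRing (MvPowerSeries (Fin h) k)))) :
          Fin (n + 1) → (FractionRing (MvPowerSeries (Fin h) k))[X]) j).eval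
          (algebraMap k (FractionRing (MvPowerSeries (Fin h) k)) x)) =
        (algebraMap (MvPowerSeries (Fin h) k) (FractionRing (MvPowerSeries (Fin h) k))).mapMatrix
          (Matrix.of fun j l : Fin (n + 1) =>
        ((Fin.cons (F (idx l)) (fun j => g j (idx l)) :
          Fin (n + 1) → (MvPowerSeries (Fin h) k)[X]) j).eval (algebraMap k _ x)) := by
      refine Matrix.ext fun j l => ?_
      rw [RingHom.mapMatrix_apply, Matrix.map_apply, Matrix.of_apply, Matrix.of_apply, h2,
        eval_map_tower]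
    rw [← h3] at h1
    exact h1

/-- **the core**: from the cover to the good curve -/
theorem smooth_core [IsAlgClosed k] (hV : VF.LocClosed V) {cc n : ℕ} (hn : 2 ≤ n)
    (hcc : cc + n = N) (hsm : ∀ x ∈ V, VF.SmoothAt cc V x) {d m : ℕ}
    {F0 : Fin (N + 1) → k[X]} (h0 : Start V d m F0) (hm : 0 < m) (c : Fin m → k)
    (hc : Function.Injective c) (v : Fin m → Fin (N + 1) → k)
    (hv : ∀ i, ∃ t : k, t ≠ 0 ∧ ∀ a, (F0 a).eval (c i) = t * v i a)
    (hvv : ∀ i j, i ≠ j → ∀ t : k, v i ≠ t • v j) :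
    ∃ (c₀ x : k) (f : Fin (N + 1) → k[X]), x ≠ c₀ ∧ Good V d c v c₀ x f := by
  classical
  have hV0 : ∀ y ∈ V, y ≠ 0 := by
    intro y hy
    obtain ⟨I, J, -, rfl⟩ := hV
    exact hy.1
  have hv0 : ∀ i, ∃ a, v i a ≠ 0 := by
    intro i
    obtain ⟨t, ht, h1⟩ := hv i
    by_contra hcon
    push Not at hcon
    refine hV0 _ (h0.fin (c i)) ?_
    funext a
    simp only [h1 a, hcon a, mul_zero, Pi.zero_apply]
  choose a0 ha0 using hv0
  obtain ⟨r, G, e, hGh, he, hGV⟩ := VF.exists_open_forms hV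
  let v' : Fin m → Fin (N + 1) → k := fun i a => (v i (a0 i))⁻¹ * v i a
  have hv' : ∀ i a, v i a = v i (a0 i) * v' i a := by
    intro i a
    simp only [v']
    rw [mul_inv_cancel_left₀ (ha0 i)]
  obtain ⟨h, x, hx, ⟨hK⟩⟩ := exists_cert_frac' hV hn hcc hsm h0 c hc v' a0
    (fun i => by
      obtain ⟨t, ht, h1⟩ := hv i
      refine ⟨t * v i (a0 i), mul_ne_zero ht (ha0 i), fun a => ?_⟩
      rw [h1, mul_assoc, ← hv'])
    (fun i => inv_mul_cancel₀ (ha0 i))
    (fun i j hij => by
      rintro ⟨t, ht⟩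
      refine hvv i j hij (v i (a0 i) * t * (v j (a0 j))⁻¹) ?_
      funext a
      have h1 := congrFun ht a
      rw [Pi.smul_apply, smul_eq_mul] at h1
      rw [Pi.smul_apply, smul_eq_mul, hv' i a, h1, hv' j a]
      have := ha0 j
      field_simp)
    ⟨0, hm⟩ G (fun l => ⟨e l, he l, hGh l⟩) hGV
  obtain ⟨hk⟩ := cert_descend hK
  have hgood := cert_good hcc hV hsm (fun i => inv_mul_cancel₀ (ha0 i)) hGV hk
  refine ⟨c ⟨0, hm⟩, x, hk.f, hx, hgood.deg, hgood.fin, hgood.inf, ?_, ?_, ?_, ?_, hgood.secs⟩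
  · intro i
    obtain ⟨t, ht, h1⟩ := hgood.mark i
    refine ⟨t * (v i (a0 i))⁻¹, mul_ne_zero ht (inv_ne_zero (ha0 i)), fun a => ?_⟩
    rw [h1, mul_assoc]
  · rintro i y ⟨t, ht⟩
    refine hgood.uniq i y ⟨t * v i (a0 i), fun a => ?_⟩
    rw [ht, mul_assoc, ← hv']
  · rintro i ⟨t, ht⟩
    refine hgood.uniq_inf i ⟨t * v i (a0 i), fun a => ?_⟩
    rw [ht, mul_assoc, ← hv']
  · rintro i ⟨t, ht⟩
    refine hgood.imm i ⟨t * v i (a0 i), fun a => ?_⟩
    rw [ht, mul_assoc, ← hv']

end

end Pool.Agent.VFS
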