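import Pool.Agent.Lib_MP_1858fb_s.IfaceZ
import Pool.Agent.Lib_MP_1858fb_s.Member2
import Pool.Agent.Lib_MP_1858fb_s.CertOpen

/-!
# Smooth points, second part: the deformation meets a closed subset of codimension two only at the
mark, and transversally (piece Z1)
-/

set_option autoImplicit false

namespace Pool.Agent.VFS

open Polynomial

namespace GZ

section key

variable {k S : Type*} [CommRing k] [CommRing S] [Algebra k S]

/-- two elements that are multiples of `p` up to factors -/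
theorem key (D₁ D₂ : Derivation k S S) (f f' H H' r r' p : S) (hf : r * f = p * H)
    (hf' : r' * f' = p * H') : p ∣ r ^ 2 * r' ^ 2 * (D₁ f * D₂ f' - D₂ f * D₁ f') := by
  have h : ∀ (D : Derivation k S S) (f H r : S), r * f = p * H →
      r ^ 2 * D f = r * H * D p + p * (r * D H - H * D r) := by
    intro D f H r h
    have h1 := congrArg D h
    rw [D.leibniz, D.leibniz] at h1
    simp only [smul_eq_mul] at h1
    linear_combination r * h1 - D r * h
  have a1 := h D₁ f H r hf
  have a2 := h D₂ f H r hf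
  have b1 := h D₁ f' H' r' hf'
  have b2 := h D₂ f' H' r' hf'
  refine ⟨r * H * D₁ p * (r' * D₂ H' - H' * D₂ r') + (r * D₁ H - H * D₁ r) * (r' * H' * D₂ p) +
    p * (r * D₁ H - H * D₁ r) * (r' * D₂ H' - H' * D₂ r') -
    (r * H * D₂ p * (r' * D₁ H' - H' * D₁ r') + (r * D₂ H - H * D₂ r) * (r' * H' * D₁ p) +
    p * (r * D₂ H - H * D₂ r) * (r' * D₁ H' - H' * D₁ r')), ?_⟩
  calc r ^ 2 * r' ^ 2 * (D₁ f * D₂ f' - D₂ f * D₁ f')
      = (r ^ 2 * D₁ f) * (r' ^ 2 * D₂ f') - (r ^ 2 * D₂ f) * (r' ^ 2 * D₁ f') := by ring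
    _ = _ := by rw [a1, a2, b1, b2]; ring

end key

section core

variable {k R K J T : Type*} [CommRing k] [CommRing R] [IsDomain R] [Algebra k R] [Field K]
  [Algebra R K] [IsFractionRing R K]

/-- the family of the `q t` and of the `2 × 2` minors of their derivatives -/
noncomputable def fam (D : J → Derivation k R[X] R[X]) (q : T → R[X]) : T ⊕ (T × T × J × J) → R[X] :=
  Sum.elim q fun t => D t.2.2.1 (q t.1) * D t.2.2.2 (q t.2.1) - D t.2.2.2 (q t.1) * D t.2.2.1 (q t.2.1)

theorem gcd_core (D : J → Derivation k R[X] R[X]) (q : T → R[X])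
    (hM : Ideal.span (Set.range (fam D q)) = ⊤) :
    Ideal.span (Set.range fun t => (q t).map (algebraMap R K)) = ⊤ := by
  by_contra hne
  obtain ⟨P, hP, hle⟩ := Ideal.exists_le_maximal _ hne
  have hPp : P.IsPrime := hP.isPrime
  have hPr : P.IsPrincipal := inferInstance
  obtain ⟨g, hg⟩ := hPr
  have hgP : P = Ideal.span {g} := hg
  have hinj : Function.Injective (algebraMap R K) := IsFractionRing.injective R K
  have hqg : ∀ t, ∃ h : K[X], (q t).map (algebraMap R K) = g * h := by
    intro t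
    have h1 : (q t).map (algebraMap R K) ∈ P := hle (Ideal.subset_span ⟨t, rfl⟩)
    rw [hgP, Ideal.mem_span_singleton] at h1
    exact h1
  choose h hh using hqg
  obtain ⟨s, G, hs, hG⟩ := clear (R := R) (fun _ : Unit => g)
  set p := G () with hp
  have hpg : p.map (algebraMap R K) = C (algebraMap R K s) * g := hG ()
  have hgp : g ∣ p.map (algebraMap R K) := ⟨C (algebraMap R K s), by rw [hpg, mul_comm]⟩
  have h1 : ∀ t, ∃ (r : R) (H : R[X]), r ≠ 0 ∧ C r * q t = p * H := by
    intro t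
    obtain ⟨r, H, hr, hH⟩ := clear (R := R) (fun _ : Unit => h t)
    refine ⟨r * s, H (), mul_ne_zero hr hs, ?_⟩
    apply map_injective _ hinj
    rw [Polynomial.map_mul, Polynomial.map_mul, map_C, hh t, hpg, hH (), map_mul, C_mul]
    ring
  have hu : ∀ r : R, r ≠ 0 → IsUnit (C (algebraMap R K r) : K[X]) := fun r hr =>
    isUnit_C.2 (IsUnit.mk0 _ (by rwa [Ne, map_eq_zero_iff _ hinj]))
  have h2 : ∀ (r : R) (f : R[X]), r ≠ 0 → p ∣ C r * f → f.map (algebraMap R K) ∈ P := by
    intro r f hr hf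
    obtain ⟨y, hy⟩ := hf
    have h5 := congrArg (Polynomial.map (algebraMap R K)) hy
    rw [Polynomial.map_mul, map_C, Polynomial.map_mul] at h5
    have h6 : C (algebraMap R K r) * f.map (algebraMap R K) ∈ P := by
      rw [h5, hgP]
      exact Ideal.mem_span_singleton.2 (Dvd.dvd.mul_right hgp _)
    exact (Ideal.unit_mul_mem_iff_mem P (hu r hr)).1 h6
  have h3 : ∀ t, ((fam D q) t).map (algebraMap R K) ∈ P := by
    rintro (t | ⟨t, t', j, l⟩)
    · exact hle (Ideal.subset_span ⟨t, rfl⟩)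
    · obtain ⟨r, H, hr, hH⟩ := h1 t
      obtain ⟨r', H', hr', hH'⟩ := h1 t'
      refine h2 (r ^ 2 * r' ^ 2) _ (mul_ne_zero (pow_ne_zero 2 hr) (pow_ne_zero 2 hr')) ?_
      have h4 := key (D j) (D l) (q t) (q t') H H' (C r) (C r') p hH hH'
      rw [C_mul, C_pow, C_pow]
      exact h4
  have h6 : ∀ f ∈ Ideal.span (Set.range (fam D q)), f.map (algebraMap R K) ∈ P := by
    intro f hf
    refine Submodule.span_induction ?_ ?_ ?_ ?_ hf
    · rintro _ ⟨t, rfl⟩
      exact h3 t
    · simp
    · intro u v _ _ hu hv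
      rw [Polynomial.map_add]
      exact P.add_mem hu hv
    · intro d u _ hu
      rw [smul_eq_mul, Polynomial.map_mul]
      exact P.mul_mem_left _ hu
  have h7 := h6 1 (hM ▸ Submodule.mem_top)
  rw [Polynomial.map_one] at h7
  exact hP.ne_top ((Ideal.eq_top_iff_one P).2 h7)

end core

section main

variable {k : Type} [Field k] {N : ℕ}

theorem span_top {T : Type*} [IsAlgClosed k] (M : T → k[X])
    (h0 : ∀ x : k, ∃ l, (M l).eval x ≠ 0) : Ideal.span (Set.range M) = ⊤ := by
  by_contra hne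
  obtain ⟨P, hP, hle⟩ := Ideal.exists_le_maximal _ hne
  have hPp : P.IsPrincipal := inferInstance
  obtain ⟨g, hg⟩ := hPp
  have hgP : P = Ideal.span {g} := hg
  have hroot : ∀ x, g.eval x = 0 → False := by
    intro x hx
    obtain ⟨l, hl⟩ := h0 x
    apply hl
    have h1 : M l ∈ P := hle (Ideal.subset_span ⟨l, rfl⟩)
    rw [hgP, Ideal.mem_span_singleton] at h1
    obtain ⟨q, hq⟩ := h1
    rw [hq, eval_mul, hx, zero_mul]
  by_cases hdeg : g.degree = 0
  · apply hP.ne_top
    rw [hgP, Ideal.span_singleton_eq_top]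
    exact isUnit_iff_degree_eq_zero.2 hdeg
  · obtain ⟨x, hx⟩ := IsAlgClosed.exists_root g hdeg
    exact hroot x hx

/-- bilinearity of the minors -/
theorem exists_minor_ne {h : ℕ} (a b c₁ c₂ : Fin h → k)
    (H : (∑ j, c₁ j * a j) * (∑ j, c₂ j * b j) - (∑ j, c₂ j * a j) * (∑ j, c₁ j * b j) ≠ 0) :
    ∃ j l, a j * b l - a l * b j ≠ 0 := by
  by_contra hcon
  push Not at hcon
  apply H
  have h1 : (∑ j, c₁ j * a j) * (∑ j, c₂ j * b j) - (∑ j, c₂ j * a j) * (∑ j, c₁ j * b j) =
      ∑ j, ∑ l, c₁ j * c₂ l * (a j * b l - a l * b j) := by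
    rw [mul_comm (∑ j, c₂ j * a j), Finset.sum_mul_sum, Finset.sum_mul_sum,
      ← Finset.sum_sub_distrib]
    refine Finset.sum_congr rfl fun j _ => ?_
    rw [← Finset.sum_sub_distrib]
    exact Finset.sum_congr rfl fun l _ => by ring
  rw [h1]
  exact Finset.sum_eq_zero fun j _ => Finset.sum_eq_zero fun l _ => by rw [hcon, mul_zero]

theorem euler_zero {E : MvPolynomial (Fin (N + 1)) k} {e : ℕ} (he : E.IsHomogeneous e)
    {u : Fin (N + 1) → k} (hu : MvPolynomial.aeval u E = 0) : VF.dif E u u = 0 := by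
  have h2 := congrArg (MvPolynomial.aeval u) he.sum_X_mul_pderiv
  rw [map_sum, map_nsmul, hu, smul_zero] at h2
  rw [VF.dif, ← h2]
  refine Finset.sum_congr rfl fun j _ => ?_
  rw [map_mul, MvPolynomial.aeval_X, mul_comm]

theorem dif_comb {E : MvPolynomial (Fin (N + 1)) k} {e : ℕ} (he : E.IsHomogeneous e)
    {u : Fin (N + 1) → k} (hu : MvPolynomial.aeval u E = 0) {h : ℕ}
    (D : Fin h → Fin (N + 1) → k) (c : Fin h → k) (b : k) (w : Fin (N + 1) → k)
    (hw : ∀ a, ∑ j, c j * D j a = w a + b * u a) :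
    VF.dif E u w = ∑ j, c j * VF.dif E u (D j) := by
  have h1 : VF.dif E u w = VF.dif E u (fun a => ∑ j, c j * D j a) - b * VF.dif E u u := by
    unfold VF.dif
    rw [Finset.mul_sum, ← Finset.sum_sub_distrib]
    refine Finset.sum_congr rfl fun a _ => ?_
    simp only [hw a]
    ring
  rw [h1, euler_zero he hu, mul_zero, sub_zero]
  unfold VF.dif
  simp only [Finset.mul_sum]
  rw [Finset.sum_comm]
  exact Finset.sum_congr rfl fun j _ => Finset.sum_congr rfl fun a _ => by ring

theorem exists_jl {h : ℕ} (D : Fin h → Fin (N + 1) → k) (u : Fin (N + 1) → k)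
    {E₁ E₂ : MvPolynomial (Fin (N + 1)) k} {e₁ e₂ : ℕ} (h₁ : E₁.IsHomogeneous e₁)
    (h₂ : E₂.IsHomogeneous e₂) (z₁ : MvPolynomial.aeval u E₁ = 0)
    (z₂ : MvPolynomial.aeval u E₂ = 0) (w₁ w₂ : Fin (N + 1) → k)
    (s₁ : ∃ (c : Fin h → k) (b : k), ∀ a, ∑ j, c j * D j a = w₁ a + b * u a)
    (s₂ : ∃ (c : Fin h → k) (b : k), ∀ a, ∑ j, c j * D j a = w₂ a + b * u a)
    (hne : VF.dif E₁ u w₁ * VF.dif E₂ u w₂ - VF.dif E₁ u w₂ * VF.dif E₂ u w₁ ≠ 0) :
    ∃ j l, VF.dif E₁ u (D j) * VF.dif E₂ u (D l) - VF.dif E₁ u (D l) * VF.dif E₂ u (D j) ≠ 0 := by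
  obtain ⟨c₁, b₁, hw₁⟩ := s₁
  obtain ⟨c₂, b₂, hw₂⟩ := s₂
  refine exists_minor_ne _ _ c₁ c₂ ?_
  rwa [← dif_comb h₁ z₁ D c₁ b₁ w₁ hw₁, ← dif_comb h₂ z₂ D c₂ b₂ w₂ hw₂,
    ← dif_comb h₁ z₁ D c₂ b₂ w₂ hw₂, ← dif_comb h₂ z₂ D c₁ b₁ w₁ hw₁]

theorem deg_pos {E : MvPolynomial (Fin (N + 1)) k} {e : ℕ} (he : E.IsHomogeneous e)
    {u : Fin (N + 1) → k} (hu : MvPolynomial.aeval u E = 0) :
    ∃ e' : ℕ, 0 < e' ∧ E.IsHomogeneous e' := by
  rcases Nat.eq_zero_or_pos e with rfl | h
  · have h1 := MvPolynomial.totalDegree_eq_zero_iff_eq_C.mp (Nat.le_zero.mp he.totalDegree_le)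
    rw [h1, MvPolynomial.aeval_C] at hu
    have h2 : MvPolynomial.coeff 0 E = 0 := hu
    refine ⟨1, one_pos, ?_⟩
    rw [h1, h2, MvPolynomial.C_0]
    exact MvPolynomial.isHomogeneous_zero _ _ _
  · exact ⟨e, h, he⟩

theorem aeval_scale {A : Type} [CommRing A] [Algebra k A] (x : Fin (N + 1) → A) (a : A)
    {E : MvPolynomial (Fin (N + 1)) k} {e : ℕ} (hE : E.IsHomogeneous e) :
    MvPolynomial.aeval (fun i => a * x i) E = a ^ e * MvPolynomial.aeval x E := by
  rw [MvPolynomial.aeval_def, MvPolynomial.aeval_def, MvPolynomial.eval₂_eq,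
    MvPolynomial.eval₂_eq, Finset.mul_sum]
  refine Finset.sum_congr rfl fun m hm => ?_
  have h1 : ∏ i ∈ m.support, (a * x i) ^ m i = a ^ e * ∏ i ∈ m.support, x i ^ m i := by
    simp only [mul_pow]
    rw [Finset.prod_mul_distrib, Finset.prod_pow_eq_pow_sum]
    congr 2
    have h2 := hE (MvPolynomial.mem_support_iff.1 hm)
    rw [← h2]
    simp [Finsupp.weight_apply, Finsupp.sum]
  rw [h1]
  ring

theorem eval_aeval {A : Type} [CommRing A] [Algebra k A] (f : Fin (N + 1) → A[X])
    (E : MvPolynomial (Fin (N + 1)) k) (x : A) :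
    (MvPolynomial.aeval f E).eval x = MvPolynomial.aeval (fun i => (f i).eval x) E := by
  rw [← Polynomial.coe_evalRingHom, MvPolynomial.map_aeval, MvPolynomial.aeval_def,
    MvPolynomial.coe_eval₂Hom]
  congr 1
  ext a
  simp [Polynomial.algebraMap_apply]

theorem map_aeval {A : Type} [CommRing A] [Algebra k A] (φ : A →ₐ[k] k)
    (f : Fin (N + 1) → A[X]) (E : MvPolynomial (Fin (N + 1)) k) :
    (MvPolynomial.aeval f E).map (φ : A →+* k) =
      MvPolynomial.aeval (fun i => (f i).map (φ : A →+* k)) E := by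
  have h := MvPolynomial.comp_aeval_apply (R := k) (f := f) (Polynomial.mapAlgHom φ) E
  exact h

theorem unit_lead {R : Type*} [CommRing R] [Nontrivial R] {p : R[X]} {n : ℕ}
    (hd : p.natDegree ≤ n) (hu : IsUnit (p.coeff n)) : IsUnit p.leadingCoeff := by
  have h1 : n ≤ p.natDegree := le_natDegree_of_ne_zero hu.ne_zero
  rwa [leadingCoeff, le_antisymm hd h1]

/-- a finite certificate for a family that generates the unit ideal -/
theorem exists_fin {A : Type*} [CommRing A] {T : Type*} (M : T → A)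
    (h : Ideal.span (Set.range M) = ⊤) :
    ∃ (s : ℕ) (t : Fin s → T) (Q : Fin s → A), ∑ l, Q l * M (t l) = 1 := by
  have h1 : (1 : A) ∈ Submodule.span A (Set.range M) := by
    have : (1 : A) ∈ Ideal.span (Set.range M) := by rw [h]; exact Submodule.mem_top
    exact this
  obtain ⟨c, hc⟩ := Finsupp.mem_span_range_iff_exists_finsupp.1 h1
  refine ⟨c.support.card, fun l => (c.support.equivFin.symm l : T),
    fun l => c (c.support.equivFin.symm l : T), ?_⟩
  rw [← hc, Finsupp.sum, ← Finset.sum_coe_sort c.support (fun a => c a • M a)]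
  exact Equiv.sum_comp c.support.equivFin.symm (fun t : c.support => c (t : T) • M (t : T))

end main

end GZ

open GZ in
theorem gcd_Z {k : Type} [Field k] {N : ℕ} {V : Set (Fin (N + 1) → k)}
    [IsAlgClosed k] {d m h : ℕ} {F0 : Fin (N + 1) → k[X]} (h0 : Start V d m F0)
    {c : Fin m → k} (hc : Function.Injective c) {δ : Fin h → Fin (N + 1) → k[X]}
    (hδ : ∀ j, Sec (VF.van V : Set _) F0 (d - m) (δ j))
    (hspan : ∀ G, Sec (VF.van V : Set _) F0 (d - m) G →
      ∃ c : Fin h → k, ∀ a, G a = ∑ j, C (c j) * δ j a)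
    {F : Fin (N + 1) → (MvPowerSeries (Fin h) k)[X]} (hF : Deform V d c F0 δ F) (i : Fin m)
    {𝓔 : Set (MvPolynomial (Fin (N + 1)) k)} (hE : CodimTwo V 𝓔)
    (h1 : ∀ E ∈ 𝓔, MvPolynomial.aeval (fun a => (F0 a).eval (c i)) E = 0)
    (h2 : ∀ l, l ≠ i → ∃ E ∈ 𝓔, MvPolynomial.aeval (fun a => (F0 a).eval (c l)) E ≠ 0) :
    ∃ (s : ℕ) (El : Fin s → MvPolynomial (Fin (N + 1)) k)
      (q : Fin s → (MvPowerSeries (Fin h) k)[X])
      (Q : Fin s → (FractionRing (MvPowerSeries (Fin h) k))[X]),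
      (∀ l, El l ∈ 𝓔) ∧
      (∀ l, MvPolynomial.aeval F (El l) =
        (X - C (algebraMap k (MvPowerSeries (Fin h) k) (c i))) * q l) ∧
      ∑ l, Q l * (q l).map (algebraMap _ _) = 1 := by
  classical
  have hdom : IsDomain (MvPowerSeries (Fin h) k) := NoZeroDivisors.to_isDomain _
  have hm : 0 < m := i.pos
  have hmd := h0.hm
  -- degrees
  have hdeg : ∀ E ∈ 𝓔, ∃ e : ℕ, 0 < e ∧ E.IsHomogeneous e := by
    intro E hE'
    obtain ⟨e, he⟩ := hE.hom E hE'
    exact deg_pos he (h1 E hE')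
  choose! e he0 he using hdeg
  have hφ : ∀ E : MvPolynomial (Fin (N + 1)) k, (MvPolynomial.aeval F E).map MvPowerSeries.constantCoeff =
      MvPolynomial.aeval F0 E := by
    intro E
    have h3 := map_aeval (ccA : MvPowerSeries (Fin h) k →ₐ[k] k) F E
    rw [ccA_coe] at h3
    rw [h3]
    congr 2
    exact funext hF.red
  -- the quotients
  have hq : ∀ E : 𝓔, ∃ q : (MvPowerSeries (Fin h) k)[X], MvPolynomial.aeval F (E : MvPolynomial (Fin (N + 1)) k) =
      (X - C (algebraMap k (MvPowerSeries (Fin h) k) (c i))) * q := by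
    intro E
    have h3 : (X - C (algebraMap k (MvPowerSeries (Fin h) k) (c i))) ∣
        MvPolynomial.aeval F (E : MvPolynomial (Fin (N + 1)) k) := by
      rw [dvd_iff_isRoot, IsRoot.def, eval_aeval]
      obtain ⟨S, -, hS⟩ := hF.mark i
      have h4 : (fun a => (F a).eval (algebraMap k (MvPowerSeries (Fin h) k) (c i))) =
          fun a => S * algebraMap k (MvPowerSeries (Fin h) k) ((F0 a).eval (c i)) := funext hS
      rw [h4, aeval_scale _ _ (he E E.2)]
      have h5 : MvPolynomial.aeval (fun a => algebraMap k (MvPowerSeries (Fin h) k)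
          ((F0 a).eval (c i))) (E : MvPolynomial (Fin (N + 1)) k) = 0 := by
        have h6 := MvPolynomial.comp_aeval_apply (R := k) (f := fun a => (F0 a).eval (c i))
          (Algebra.ofId k (MvPowerSeries (Fin h) k)) (E : MvPolynomial (Fin (N + 1)) k)
        rw [h1 E E.2, map_zero] at h6
        exact h6.symm
      rw [h5, mul_zero]
    exact h3
  choose q hq using hq
  -- the derivations
  let D : Fin h → Derivation k (MvPowerSeries (Fin h) k)[X] (MvPowerSeries (Fin h) k)[X] :=
    fun j => coefD (MvPowerSeries.pderiv k j)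
  set P' : k[X] := ∏ l ∈ Finset.univ.erase i, (X - C (c l)) with hP'
  have hPP : (∏ l, (X - C (c l)) : k[X]) = (X - C (c i)) * P' := by
    rw [hP']
    exact (Finset.mul_prod_erase Finset.univ (fun l => X - C (c l)) (Finset.mem_univ i)).symm
  have hmapX : ((X - C (algebraMap k (MvPowerSeries (Fin h) k) (c i))) :
      (MvPowerSeries (Fin h) k)[X]).map MvPowerSeries.constantCoeff = X - C (c i) := by
    rw [Polynomial.map_sub, map_X, map_C]
    congr 2
  have hq0 : ∀ E : 𝓔, MvPolynomial.aeval F0 (E : MvPolynomial (Fin (N + 1)) k) =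
      (X - C (c i)) * (q E).map MvPowerSeries.constantCoeff := by
    intro E
    rw [← hφ, hq E, Polynomial.map_mul, hmapX]
  have hDq : ∀ (E : 𝓔) (j : Fin h), (D j (q E)).map MvPowerSeries.constantCoeff =
      P' * dp (E : MvPolynomial (Fin (N + 1)) k) F0 (δ j) := by
    intro E j
    apply mul_left_cancel₀ (X_sub_C_ne_zero (c i))
    have h3 : D j (MvPolynomial.aeval F (E : MvPolynomial (Fin (N + 1)) k)) =
        (X - C (algebraMap k (MvPowerSeries (Fin h) k) (c i))) * D j (q E) := by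
      rw [hq E, (D j).leibniz]
      have h4 : D j (X - C (algebraMap k (MvPowerSeries (Fin h) k) (c i))) = 0 := by
        show coefD (MvPowerSeries.pderiv k j) _ = 0
        rw [map_sub, coefD_X, coefD_C, Derivation.map_algebraMap, C_0, sub_zero]
      rw [h4, smul_zero, add_zero, smul_eq_mul]
    have h5 := congrArg (Polynomial.map MvPowerSeries.constantCoeff) h3
    rw [Polynomial.map_mul, hmapX] at h5
    rw [← h5, der_aeval, Polynomial.map_sum, ← mul_assoc, ← hPP]
    unfold dp
    rw [Finset.mul_sum]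
    refine Finset.sum_congr rfl fun a _ => ?_
    rw [Polynomial.map_mul, hφ]
    have h6 : (D j (F a)).map MvPowerSeries.constantCoeff = (∏ l, (X - C (c l))) * δ j a := by
      show (coefD (MvPowerSeries.pderiv k j) (F a)).map MvPowerSeries.constantCoeff = _
      rw [linC_map_constantCoeff_pderiv]
      ext n
      rw [coeff_linC, hF.lin]
    rw [h6]
    ring
  have hP'0 : ∀ x, (∀ l, l ≠ i → x ≠ c l) → P'.eval x ≠ 0 := by
    intro x hx
    rw [hP', eval_prod, Finset.prod_ne_zero_iff]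
    intro l hl
    rw [eval_sub, eval_X, eval_C, sub_ne_zero]
    exact hx l (Finset.ne_of_mem_erase hl)
  have hP'm : P'.Monic := monic_prod_of_monic _ _ fun l _ => monic_X_sub_C _
  have hP'd : P'.natDegree = m - 1 := by
    rw [hP', natDegree_prod_of_monic _ _ fun l _ => monic_X_sub_C _]
    simp [Finset.card_erase_of_mem]
  -- the values of the reductions
  have hval : ∀ (E : 𝓔) (j : Fin h) (x : k), (dp (E : MvPolynomial (Fin (N + 1)) k) F0 (δ j)).eval x =
      VF.dif (E : MvPolynomial (Fin (N + 1)) k) (fun a => (F0 a).eval x)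
        (fun a => (δ j a).eval x) := by
    intro E j x
    unfold dp VF.dif
    rw [eval_finsetSum]
    refine Finset.sum_congr rfl fun a _ => ?_
    rw [eval_mul, eval_aeval]
  -- the unit ideal
  have hunit : ∀ y : MvPowerSeries (Fin h) k, MvPowerSeries.constantCoeff y ≠ 0 → IsUnit y :=
    fun y hy => MvPowerSeries.isUnit_iff_constantCoeff.2 (IsUnit.mk0 _ hy)
  have hM : Ideal.span (Set.range (fam D q)) = ⊤ := by
    have hroot : Ideal.span (Set.range fun t => (fam D q t).map MvPowerSeries.constantCoeff) = ⊤ := by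
      refine span_top _ fun x => ?_
      by_cases hx : ∃ l, l ≠ i ∧ x = c l
      · obtain ⟨l, hl, rfl⟩ := hx
        obtain ⟨E, hE', hEl⟩ := h2 l hl
        refine ⟨Sum.inl ⟨E, hE'⟩, fun hcon => hEl ?_⟩
        rw [← eval_aeval, hq0 ⟨E, hE'⟩, eval_mul]
        have hcon' : ((q ⟨E, hE'⟩).map MvPowerSeries.constantCoeff).eval (c l) = 0 := hcon
        rw [hcon', mul_zero]
      · push Not at hx
        by_cases hz : ∃ E : 𝓔, ((q E).map MvPowerSeries.constantCoeff).eval x ≠ 0
        · obtain ⟨E, hE'⟩ := hz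
          exact ⟨Sum.inl E, hE'⟩
        · push Not at hz
          have hz' : ∀ E ∈ 𝓔, MvPolynomial.aeval (fun a => (F0 a).eval x) E = 0 := by
            intro E hE'
            rw [← eval_aeval, hq0 ⟨E, hE'⟩, eval_mul, hz ⟨E, hE'⟩, mul_zero]
          obtain ⟨E₁, hE₁, E₂, hE₂, w₁, hw₁, w₂, hw₂, hne⟩ := hE.rank _ (h0.fin x) hz'
          have hs : ∀ w ∈ VF.Tan V (fun a => (F0 a).eval x), ∃ (c : Fin h → k) (b : k),
              ∀ a, ∑ j, c j * (δ j a).eval x = w a + b * (F0 a).eval x := by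
            intro w hw
            obtain ⟨g, hg, b, hb⟩ := h0.sfin x w hw
            obtain ⟨c', hc'⟩ := hspan g hg
            refine ⟨c', b, fun a => ?_⟩
            rw [← hb a, hc' a, eval_finsetSum]
            exact Finset.sum_congr rfl fun j _ => by rw [eval_mul, eval_C]
          obtain ⟨j, l, hjl⟩ := exists_jl (fun j a => (δ j a).eval x) _ (he E₁ hE₁) (he E₂ hE₂)
            (hz' _ hE₁) (hz' _ hE₂) w₁ w₂ (hs w₁ hw₁) (hs w₂ hw₂) hne
          refine ⟨Sum.inr (⟨E₁, hE₁⟩, ⟨E₂, hE₂⟩, j, l), ?_⟩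
          have h5 : ((fam D q (Sum.inr (⟨E₁, hE₁⟩, ⟨E₂, hE₂⟩, j, l))).map
              MvPowerSeries.constantCoeff).eval x = (P'.eval x) ^ 2 *
              (VF.dif E₁ (fun a => (F0 a).eval x) (fun a => (δ j a).eval x) *
                VF.dif E₂ (fun a => (F0 a).eval x) (fun a => (δ l a).eval x) -
              VF.dif E₁ (fun a => (F0 a).eval x) (fun a => (δ l a).eval x) *
                VF.dif E₂ (fun a => (F0 a).eval x) (fun a => (δ j a).eval x)) := by
            simp only [fam, Sum.elim_inr]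
            rw [Polynomial.map_sub, Polynomial.map_mul, Polynomial.map_mul, hDq, hDq, hDq, hDq,
              eval_sub, eval_mul, eval_mul, eval_mul, eval_mul, eval_mul, eval_mul,
              hval, hval, hval, hval]
            ring
          rw [h5]
          exact mul_ne_zero (pow_ne_zero 2 (hP'0 x hx)) hjl
    have hlead : ∃ t, IsUnit (fam D q t).leadingCoeff := by
      by_cases hA : ∃ E : 𝓔, MvPolynomial.aeval (fun a => (F0 a).coeff d)
          (E : MvPolynomial (Fin (N + 1)) k) ≠ 0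
      · obtain ⟨E, hE'⟩ := hA
        refine ⟨Sum.inl E, ?_⟩
        have h3 := natDegree_coeff_aeval F hF.deg (he E E.2)
        have h4 := natDegree_coeff_aeval F0 h0.deg (he E E.2)
        have h5 : IsUnit (MvPolynomial.aeval F (E : MvPolynomial (Fin (N + 1)) k)).leadingCoeff := by
          refine unit_lead h3.1 (hunit _ ?_)
          have h6 := congrArg (fun p : k[X] => p.coeff (d * e E)) (hφ E)
          simp only [coeff_map] at h6
          rw [h6, h4.2]
          exact hE'
        rw [hq E, leadingCoeff_monic_mul (monic_X_sub_C _)] at h5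
        exact h5
      · push Not at hA
        obtain ⟨E₁, hE₁, E₂, hE₂, w₁, hw₁, w₂, hw₂, hne⟩ :=
          hE.rank _ h0.inf (fun E hE' => hA ⟨E, hE'⟩)
        have hs : ∀ w ∈ VF.Tan V (fun a => (F0 a).coeff d), ∃ (c : Fin h → k) (b : k),
            ∀ a, ∑ j, c j * (δ j a).coeff (d - m) = w a + b * (F0 a).coeff d := by
          intro w hw
          obtain ⟨g, hg, b, hb⟩ := h0.sinf w hw
          obtain ⟨c', hc'⟩ := hspan g hg
          refine ⟨c', b, fun a => ?_⟩
          rw [← hb a, hc' a, finsetSum_coeff]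
          exact Finset.sum_congr rfl fun j _ => by rw [coeff_C_mul]
        obtain ⟨j, l, hjl⟩ := exists_jl (fun j a => (δ j a).coeff (d - m)) _ (he E₁ hE₁) (he E₂ hE₂)
          (hA ⟨_, hE₁⟩) (hA ⟨_, hE₂⟩) w₁ w₂ (hs w₁ hw₁) (hs w₂ hw₂) hne
        -- degrees and top coefficients
        have hqd : ∀ (E : 𝓔) (j : Fin h), (D j (q E)).natDegree ≤ d * e E - 1 := by
          intro E j
          refine (natDegree_coefD_le _ _).trans ?_
          by_cases hq0' : q E = 0
          · rw [hq0', natDegree_zero]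
            exact Nat.zero_le _
          · have h3 := (natDegree_coeff_aeval F hF.deg (he E E.2)).1
            rw [hq E, (monic_X_sub_C _).natDegree_mul' hq0', natDegree_X_sub_C] at h3
            omega
        have hdp : ∀ (E : 𝓔) (j : Fin h),
            (P' * dp (E : MvPolynomial (Fin (N + 1)) k) F0 (δ j)).natDegree ≤ d * e E - 1 ∧
            (P' * dp (E : MvPolynomial (Fin (N + 1)) k) F0 (δ j)).coeff (d * e E - 1) =
              VF.dif (E : MvPolynomial (Fin (N + 1)) k) (fun a => (F0 a).coeff d)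
                (fun a => (δ j a).coeff (d - m)) := by
          intro E j
          have h3 : ∀ a, (MvPolynomial.aeval F0 (MvPolynomial.pderiv a
              (E : MvPolynomial (Fin (N + 1)) k))).natDegree ≤ d * (e E - 1) ∧
              (MvPolynomial.aeval F0 (MvPolynomial.pderiv a
              (E : MvPolynomial (Fin (N + 1)) k))).coeff (d * (e E - 1)) =
              MvPolynomial.aeval (fun a => (F0 a).coeff d) (MvPolynomial.pderiv a
              (E : MvPolynomial (Fin (N + 1)) k)) := fun a =>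
            natDegree_coeff_aeval F0 h0.deg (he E E.2).pderiv
          have h4 : (dp (E : MvPolynomial (Fin (N + 1)) k) F0 (δ j)).natDegree ≤
              d * (e E - 1) + (d - m) := by
            unfold dp
            exact natDegree_sum_le_of_forall_le _ _ fun a _ =>
              natDegree_mul_le_of_le (h3 a).1 ((hδ j).1 a)
          have h5 : (dp (E : MvPolynomial (Fin (N + 1)) k) F0 (δ j)).coeff
              (d * (e E - 1) + (d - m)) =
              VF.dif (E : MvPolynomial (Fin (N + 1)) k) (fun a => (F0 a).coeff d)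
                (fun a => (δ j a).coeff (d - m)) := by
            unfold dp VF.dif
            rw [finsetSum_coeff]
            refine Finset.sum_congr rfl fun a _ => ?_
            rw [coeff_mul_add_eq_of_natDegree_le (h3 a).1 ((hδ j).1 a), (h3 a).2]
          have h6 : d * e E - 1 = (m - 1) + (d * (e E - 1) + (d - m)) := by
            obtain ⟨e', he'⟩ := Nat.exists_eq_succ_of_ne_zero (he0 E E.2).ne'
            rw [he', Nat.succ_sub_one, Nat.mul_succ]
            omega
          rw [h6]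
          refine ⟨natDegree_mul_le_of_le hP'd.le h4, ?_⟩
          rw [coeff_mul_add_eq_of_natDegree_le hP'd.le h4, h5, ← hP'd, hP'm.coeff_natDegree,
            one_mul]
        refine ⟨Sum.inr (⟨E₁, hE₁⟩, ⟨E₂, hE₂⟩, j, l), ?_⟩
        refine unit_lead (n := (d * e E₁ - 1) + (d * e E₂ - 1)) ?_ (hunit _ ?_)
        · simp only [fam, Sum.elim_inr]
          refine (natDegree_sub_le_of_le (natDegree_mul_le_of_le (hqd _ _) (hqd _ _))
            (natDegree_mul_le_of_le (hqd _ _) (hqd _ _))).trans (max_self _).le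
        · have h6 : MvPowerSeries.constantCoeff ((fam D q (Sum.inr (⟨E₁, hE₁⟩, ⟨E₂, hE₂⟩, j, l))).coeff
              ((d * e E₁ - 1) + (d * e E₂ - 1))) =
              ((fam D q (Sum.inr (⟨E₁, hE₁⟩, ⟨E₂, hE₂⟩, j, l))).map
                MvPowerSeries.constantCoeff).coeff ((d * e E₁ - 1) + (d * e E₂ - 1)) :=
            (coeff_map _ _).symm
          rw [h6]
          simp only [fam, Sum.elim_inr]
          rw [Polynomial.map_sub, Polynomial.map_mul, Polynomial.map_mul, hDq, hDq, hDq, hDq,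
            coeff_sub,
            coeff_mul_add_eq_of_natDegree_le (hdp ⟨E₁, hE₁⟩ j).1 (hdp ⟨E₂, hE₂⟩ l).1,
            coeff_mul_add_eq_of_natDegree_le (hdp ⟨E₁, hE₁⟩ l).1 (hdp ⟨E₂, hE₂⟩ j).1,
            (hdp ⟨E₁, hE₁⟩ j).2, (hdp ⟨E₂, hE₂⟩ l).2, (hdp ⟨E₁, hE₁⟩ l).2, (hdp ⟨E₂, hE₂⟩ j).2]
          exact hjl
    obtain ⟨t, ht⟩ := hlead
    exact nak (MvPowerSeries.constantCoeff : MvPowerSeries (Fin h) k →+* k)
      (fun y => ⟨MvPowerSeries.C y, MvPowerSeries.constantCoeff_C y⟩) (fam D q) t ht hroot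
  obtain ⟨s, t, Q, hQ⟩ := exists_fin _ (gcd_core (K := FractionRing (MvPowerSeries (Fin h) k)) D q hM)
  exact ⟨s, fun l => (t l : MvPolynomial (Fin (N + 1)) k), fun l => q (t l), Q, fun l => (t l).2,
    fun l => hq (t l), hQ⟩

end Pool.Agent.VFS
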