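import Pool.Agent.Lib_MP_1858fb_s.IfaceZ
import Pool.Agent.Lib_MP_1858fb_s.CertQ

/-!
# Add-on Z, piece Z2: the point at infinity of the deformed curve is not in the zero set
-/

set_option autoImplicit false

namespace Pool.Agent.VFS

open Polynomial

section

variable {k : Type} [Field k] {N : ℕ} {V : Set (Fin (N + 1) → k)}

theorem infZ_euler {E : MvPolynomial (Fin (N + 1)) k} {e : ℕ} (hE : E.IsHomogeneous e)
    (y : Fin (N + 1) → k) (hy : MvPolynomial.aeval y E = 0) : VF.dif E y y = 0 := by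
  have h1 := congrArg (MvPolynomial.aeval y) hE.sum_X_mul_pderiv
  rw [map_nsmul, hy, smul_zero, map_sum] at h1
  rw [VF.dif, ← h1]
  refine Finset.sum_congr rfl fun j _ => ?_
  rw [map_mul, MvPolynomial.aeval_X, mul_comm]

theorem infZ_const {h : ℕ} (x : Fin (N + 1) → MvPowerSeries (Fin h) k)
    (E : MvPolynomial (Fin (N + 1)) k) :
    MvPowerSeries.constantCoeff (MvPolynomial.aeval x E) =
      MvPolynomial.aeval (fun a => MvPowerSeries.constantCoeff (x a)) E := by
  rw [MvPolynomial.map_aeval]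
  have h1 : (MvPowerSeries.constantCoeff (σ := Fin h) (R := k)).comp
      (algebraMap k (MvPowerSeries (Fin h) k)) = algebraMap k k := by
    ext a
    rw [RingHom.comp_apply, MvPowerSeries.algebraMap_apply, MvPowerSeries.constantCoeff_C]
  rw [h1]
  rfl

/-- `dif` as a linear map in the vector -/
noncomputable def infZ_lin (E : MvPolynomial (Fin (N + 1)) k) (y : Fin (N + 1) → k) :
    (Fin (N + 1) → k) →ₗ[k] k where
  toFun := fun w => VF.dif E y w
  map_add' := by
    intro w w'
    simp only [VF.dif, Pi.add_apply, mul_add, Finset.sum_add_distrib]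
  map_smul' := by
    intro b w
    simp only [VF.dif, Pi.smul_apply, smul_eq_mul, RingHom.id_apply, Finset.mul_sum]
    exact Finset.sum_congr rfl fun j _ => by ring

theorem infZ_lin_apply (E : MvPolynomial (Fin (N + 1)) k) (y w : Fin (N + 1) → k) :
    infZ_lin E y w = VF.dif E y w := rfl

/-- Z2 -/
theorem inf_Z [IsAlgClosed k] {d m h : ℕ} {F0 : Fin (N + 1) → k[X]} (h0 : Start V d m F0)
    {c : Fin m → k} {δ : Fin h → Fin (N + 1) → k[X]}
    (hδ : ∀ j, Sec (VF.van V : Set _) F0 (d - m) (δ j))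
    (hspan : ∀ G, Sec (VF.van V : Set _) F0 (d - m) G →
      ∃ c : Fin h → k, ∀ a, G a = ∑ j, C (c j) * δ j a)
    {F : Fin (N + 1) → (MvPowerSeries (Fin h) k)[X]} (hF : Deform V d c F0 δ F)
    {𝓔 : Set (MvPolynomial (Fin (N + 1)) k)} (hE : CodimTwo V 𝓔) :
    ∃ E ∈ 𝓔, MvPolynomial.aeval (fun a => (F a).coeff d) E ≠ 0 := by
  classical
  by_contra hcon
  push Not at hcon
  set y : Fin (N + 1) → k := fun a => (F0 a).coeff d with hy
  have hmon : (∏ i, (X - C (c i)) : k[X]).Monic := monic_prod_of_monic _ _ fun i _ => monic_X_sub_C _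
  have hdegk : (∏ i, (X - C (c i)) : k[X]).natDegree = m := by
    rw [natDegree_prod_of_monic _ _ fun i _ => monic_X_sub_C _]; simp
  have hc0 : ∀ a, MvPowerSeries.constantCoeff ((F a).coeff d) = y a := by
    intro a
    show MvPowerSeries.constantCoeff ((F a).coeff d) = (F0 a).coeff d
    rw [← hF.red a, coeff_map]
  have hc0' : (fun a => MvPowerSeries.constantCoeff ((F a).coeff d)) = y := funext hc0
  have hEy : ∀ E ∈ 𝓔, MvPolynomial.aeval y E = 0 := by
    intro E hE
    rw [← hc0', ← infZ_const, hcon E hE, map_zero]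
  obtain ⟨E, hE1, E₂, hE2, w₁, hw1, w₂, hw2, hne⟩ := hE.rank y h0.inf hEy
  obtain ⟨e, he⟩ := hE.hom E hE1
  obtain ⟨w, hw, hwne⟩ : ∃ w ∈ VF.Tan V y, VF.dif E y w ≠ 0 := by
    by_contra hall
    push Not at hall
    rw [hall w₁ hw1, hall w₂ hw2] at hne
    simp at hne
  have hj : ∀ j, VF.dif E y (fun a => (δ j a).coeff (d - m)) = 0 := by
    intro j
    have h1 := der_aeval_eq_zero (MvPowerSeries.pderiv k j) (fun a => (F a).coeff d) E
      (hcon E hE1)
    have h2 := congrArg MvPowerSeries.constantCoeff h1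
    rw [map_sum, map_zero] at h2
    rw [VF.dif, ← h2]
    refine Finset.sum_congr rfl fun a _ => ?_
    rw [map_mul, infZ_const, hc0', constantCoeff_pderiv, hF.lin]
    congr 1
    have h4 : d = (∏ i, (X - C (c i)) : k[X]).natDegree + (d - m) := by
      rw [hdegk]
      have := h0.hm
      omega
    conv_rhs => rw [h4]
    rw [coeff_mul_add_eq_of_natDegree_le le_rfl ((hδ j).1 a), hmon.coeff_natDegree, one_mul]
  obtain ⟨z, hz, b, hb⟩ := start_inf_span h0 hspan w hw
  have hz0 : infZ_lin E y z = 0 := by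
    have hle : Submodule.span k (Set.range fun (j : Fin h) (a : Fin (N + 1)) =>
        (δ j a).coeff (d - m)) ≤ LinearMap.ker (infZ_lin E y) := by
      rw [Submodule.span_le]
      rintro _ ⟨j, rfl⟩
      exact hj j
    exact hle hz
  rw [hb, map_add, map_smul, infZ_lin_apply, infZ_lin_apply] at hz0
  have h5 : VF.dif E y (fun a => (F0 a).coeff d) = 0 := infZ_euler he y (hEy E hE1)
  rw [h5, smul_zero, add_zero] at hz0
  exact hwne hz0

end

end Pool.Agent.VFS
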