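import Pool.Agent.Lib_MP_1858fb_s.IfaceZ
import Pool.Agent.Lib_MP_1858fb_s.CertTrans

/-!
# Smooth points, second part, Z3: the final system descends from a field extension to `k`
-/

set_option autoImplicit false

namespace Pool.Agent.VFS

open Polynomial

section map

variable {k : Type} [Field k] {N : ℕ} {V : Set (Fin (N + 1) → k)} {A A' : Type} [CommRing A]
  [Algebra k A] [CommRing A'] [Algebra k A']

/-- the system is preserved by homomorphisms -/
noncomputable def certZMap {n d m r : ℕ} {c : Fin m → k} {v : Fin m → Fin (N + 1) → k}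
    {c₀ x : k} {G : Fin r → MvPolynomial (Fin (N + 1)) k} {s : Fin m → ℕ}
    {El : ∀ i, Fin (s i) → MvPolynomial (Fin (N + 1)) k}
    {Eo : Fin m → MvPolynomial (Fin (N + 1)) k}
    (ψ : A →ₐ[k] A') (h : CertZ V n d c v c₀ x G El Eo A) :
    CertZ V n d c v c₀ x G El Eo A' where
  f := fun a => (h.f a).map (ψ : A →+* A')
  deg := fun a => natDegree_map_le.trans (h.deg a)
  eqs := by
    intro E hE
    rw [ct_aeval_map, h.eqs E hE, Polynomial.map_zero]
  B := fun l => (h.B l).map (ψ : A →+* A')
  hB := by
    have h1 := congrArg (Polynomial.map (ψ : A →+* A')) h.hB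
    rw [Polynomial.map_sum, Polynomial.map_one] at h1
    rw [← h1]
    refine Finset.sum_congr rfl fun l _ => ?_
    rw [Polynomial.map_mul, ct_aeval_map]
  B' := fun l => ψ (h.B' l)
  hB' := by
    have h1 := congrArg ψ h.hB'
    rw [map_sum, map_one] at h1
    rw [← h1]
    refine Finset.sum_congr rfl fun l _ => ?_
    rw [map_mul, MvPolynomial.comp_aeval_apply]
    congr 2
    congr 1
    funext a
    rw [Polynomial.coeff_map]
    rfl
  t := fun i => ψ (h.t i)
  ht := fun i => (h.ht i).map ψ
  mark := by
    intro i a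
    rw [ct_eval_map, h.mark, map_mul, ψ.commutes]
  q := fun i l => (h.q i l).map (ψ : A →+* A')
  hq := by
    intro i l
    have h1 := congrArg (Polynomial.map (ψ : A →+* A')) (h.hq i l)
    rw [Polynomial.map_mul, Polynomial.map_sub, Polynomial.map_C, Polynomial.map_X] at h1
    have h2 : ∀ y : k, (ψ : A →+* A') (algebraMap k A y) = algebraMap k A' y := ψ.commutes
    rw [h2] at h1
    rw [ct_aeval_map]
    exact h1
  Q := fun i l => (h.Q i l).map (ψ : A →+* A')
  hQ := by
    intro i
    have h1 := congrArg (Polynomial.map (ψ : A →+* A')) (h.hQ i)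
    rw [Polynomial.map_sum, Polynomial.map_one] at h1
    rw [← h1]
    refine Finset.sum_congr rfl fun l _ => ?_
    rw [Polynomial.map_mul]
  hinf := by
    intro i
    have h1 := (h.hinf i).map ψ
    rw [MvPolynomial.comp_aeval_apply] at h1
    have h2 : (fun a => ((h.f a).map (ψ : A →+* A')).coeff d) =
        fun a => ψ ((h.f a).coeff d) := by
      funext a
      rw [Polynomial.coeff_map]
      rfl
    rw [h2]
    exact h1
  g := fun j a => (h.g j a).map (ψ : A →+* A')
  gdeg := fun j a => natDegree_map_le.trans (h.gdeg j a)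
  gtan := by
    intro j E hE
    have h1 := congrArg (Polynomial.map (ψ : A →+* A')) (h.gtan j E hE)
    rw [Polynomial.map_sum, Polynomial.map_zero] at h1
    rw [← h1]
    refine Finset.sum_congr rfl fun l _ => ?_
    rw [Polynomial.map_mul, ct_aeval_map]
  b := fun j => ψ (h.b j)
  hg := by
    intro j a
    rw [ct_eval_map, ct_eval_map, h.hg, map_mul]
  idx := h.idx
  minor := by
    have h1 := h.minor.map (ψ : A →+* A')
    rw [RingHom.map_det] at h1
    convert h1 using 2
    ext j l
    simp only [Matrix.of_apply, RingHom.mapMatrix_apply, Matrix.map_apply]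
    refine Fin.cases ?_ (fun j => ?_) j
    · simp only [Fin.cons_zero]
      exact ct_eval_map ψ _ _
    · simp only [Fin.cons_succ]
      exact ct_eval_map ψ _ _

end map

section descend

variable {k : Type} [Field k] {N : ℕ} {V : Set (Fin (N + 1) → k)}

/-- the system over `K` comes from a finitely generated subalgebra -/
theorem certZ_fg {n d m r : ℕ} {c : Fin m → k} {v : Fin m → Fin (N + 1) → k}
    {c₀ x : k} {G : Fin r → MvPolynomial (Fin (N + 1)) k} {s : Fin m → ℕ}
    {El : ∀ i, Fin (s i) → MvPolynomial (Fin (N + 1)) k}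
    {Eo : Fin m → MvPolynomial (Fin (N + 1)) k}
    {K : Type} [Field K] [Algebra k K] (hK : CertZ V n d c v c₀ x G El Eo K) :
    ∃ A : Subalgebra k K, Algebra.FiniteType k A ∧
      Nonempty (CertZ V n d c v c₀ x G El Eo A) := by
  obtain ⟨A, hA, hP, hS, hU⟩ := ct_exists_fg (k := k)
    (P := Set.range hK.f ∪ Set.range hK.B ∪
      Set.range (fun y : (Σ i : Fin m, Fin (s i)) => hK.q y.1 y.2) ∪
      Set.range (fun y : (Σ i : Fin m, Fin (s i)) => hK.Q y.1 y.2) ∪
      Set.range (fun y : Fin n × Fin (N + 1) => hK.g y.1 y.2))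
    (S := Set.range hK.B' ∪ Set.range hK.b)
    (U := Set.range hK.t ∪ Set.range (fun i =>
      MvPolynomial.aeval (fun a => (hK.f a).coeff d) (Eo i)) ∪
      {Matrix.det (Matrix.of fun j l : Fin (n + 1) =>
        (Fin.cons (hK.f (hK.idx l)) (fun j => hK.g j (hK.idx l)) : Fin (n + 1) → K[X]) j
          |>.eval (algebraMap k K x))})
    (((((Set.finite_range _).union (Set.finite_range _)).union (Set.finite_range _)).union
      (Set.finite_range _)).union (Set.finite_range _))
    ((Set.finite_range _).union (Set.finite_range _))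
    (((Set.finite_range _).union (Set.finite_range _)).union (Set.finite_singleton _))
    (by
      rintro u ((⟨i, rfl⟩ | ⟨i, rfl⟩) | hu)
      · exact (hK.ht i).ne_zero
      · exact (hK.hinf i).ne_zero
      · rw [Set.mem_singleton_iff] at hu
        rw [hu]
        exact hK.minor.ne_zero)
  refine ⟨A, hA, ?_⟩
  choose f hf hfd using fun a => hP (hK.f a) (Or.inl (Or.inl (Or.inl (Or.inl ⟨a, rfl⟩))))
  choose B hB hBd using fun a => hP (hK.B a) (Or.inl (Or.inl (Or.inl (Or.inr ⟨a, rfl⟩))))
  choose q hq hqd using fun (i : Fin m) (a : Fin (s i)) =>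
    hP (hK.q i a) (Or.inl (Or.inl (Or.inr ⟨⟨i, a⟩, rfl⟩)))
  choose Q hQ hQd using fun (i : Fin m) (a : Fin (s i)) =>
    hP (hK.Q i a) (Or.inl (Or.inr ⟨⟨i, a⟩, rfl⟩))
  choose g hg hgd using fun (i : Fin n) (a : Fin (N + 1)) =>
    hP (hK.g i a) (Or.inr ⟨(i, a), rfl⟩)
  choose B' hB' using fun l => hS (hK.B' l) (Or.inl ⟨l, rfl⟩)
  choose b hb using fun l => hS (hK.b l) (Or.inr ⟨l, rfl⟩)
  choose t ht htu using fun i => hU (hK.t i) (Or.inl (Or.inl ⟨i, rfl⟩))
  choose u1 hu1 hu1u using fun i => hU _ (Or.inl (Or.inr ⟨i, rfl⟩))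
  obtain ⟨u2, hu2, hu2u⟩ := hU _ (Or.inr (Set.mem_singleton _))
  have hinj : Function.Injective (A.val : A →+* K) := Subtype.val_injective
  have hmapinj : Function.Injective (Polynomial.map (A.val : A →+* K)) :=
    Polynomial.map_injective _ hinj
  have hae : ∀ E : MvPolynomial (Fin (N + 1)) k,
      (MvPolynomial.aeval f E).map (A.val : A →+* K) = MvPolynomial.aeval hK.f E := by
    intro E
    rw [← ct_aeval_map A.val f E]
    congr 2
    funext a
    exact hf a
  have hev : ∀ (p : A[X]) (y : k), ((p.eval (algebraMap k A y) : A) : K) =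
      (p.map (A.val : A →+* K)).eval (algebraMap k K y) := by
    intro p y
    exact (ct_eval_map A.val p y).symm
  have hco : ∀ a, (((f a).coeff d : A) : K) = (hK.f a).coeff d := by
    intro a
    rw [← hf a, Polynomial.coeff_map]
    rfl
  refine ⟨{
    f := f
    deg := fun a => (hfd a).trans_le (hK.deg a)
    eqs := ?_
    B := B
    hB := ?_
    B' := B'
    hB' := ?_
    t := t
    ht := htu
    mark := ?_
    q := q
    hq := ?_
    Q := Q
    hQ := ?_
    hinf := ?_
    g := g
    gdeg := fun j a => (hgd j a).trans_le (hK.gdeg j a)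
    gtan := ?_
    b := b
    hg := ?_
    idx := hK.idx
    minor := ?_ }⟩
  · intro E hE
    apply hmapinj
    rw [hae, Polynomial.map_zero]
    exact hK.eqs E hE
  · apply hmapinj
    rw [Polynomial.map_sum, Polynomial.map_one, ← hK.hB]
    refine Finset.sum_congr rfl fun l _ => ?_
    rw [Polynomial.map_mul, hae, hB]
  · apply hinj
    rw [map_sum, map_one, ← hK.hB']
    refine Finset.sum_congr rfl fun l _ => ?_
    rw [map_mul]
    have h1 : (A.val : A →+* K) (MvPolynomial.aeval (fun a => (f a).coeff d) (G l)) =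
        A.val (MvPolynomial.aeval (fun a => (f a).coeff d) (G l)) := rfl
    rw [h1, MvPolynomial.comp_aeval_apply]
    congr 1
    · exact hB' l
    · congr 2
      funext a
      exact hco a
  · intro i a
    apply Subtype.ext
    rw [hev, hf, hK.mark]
    show _ = ((t i : A) : K) * _
    rw [ht]
    rfl
  · intro i l
    apply hmapinj
    rw [Polynomial.map_mul, Polynomial.map_sub, Polynomial.map_C, Polynomial.map_X, hae, hq]
    exact hK.hq i l
  · intro i
    apply hmapinj
    rw [Polynomial.map_sum, Polynomial.map_one, ← hK.hQ i]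
    refine Finset.sum_congr rfl fun l _ => ?_
    rw [Polynomial.map_mul, hQ, hq]
  · intro i
    have h1 : MvPolynomial.aeval (fun a => (f a).coeff d) (Eo i) = u1 i := by
      apply Subtype.ext
      rw [hu1]
      have h2 : ((MvPolynomial.aeval (fun a => (f a).coeff d) (Eo i) : A) : K) =
        A.val (MvPolynomial.aeval (fun a => (f a).coeff d) (Eo i)) := rfl
      rw [h2, MvPolynomial.comp_aeval_apply]
      have h3 : (fun a => A.val ((f a).coeff d)) = fun a => (hK.f a).coeff d := funext hco
      rw [h3]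
    rw [h1]
    exact hu1u i
  · intro j E hE
    apply hmapinj
    rw [Polynomial.map_sum, Polynomial.map_zero, ← hK.gtan j E hE]
    refine Finset.sum_congr rfl fun l _ => ?_
    rw [Polynomial.map_mul, hae, hg]
  · intro j a
    apply Subtype.ext
    show _ = ((b j : A) : K) * (((f a).eval (algebraMap k A c₀) : A) : K)
    rw [hev, hev, hg, hf, hb]
    exact hK.hg j a
  · have h1 : Matrix.det (Matrix.of fun j l : Fin (n + 1) =>
        (Fin.cons (f (hK.idx l)) (fun j => g j (hK.idx l)) : Fin (n + 1) → A[X]) j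
          |>.eval (algebraMap k A x)) = u2 := by
      apply hinj
      have h2 : (A.val : A →+* K) u2 = (u2 : K) := rfl
      rw [h2, hu2, RingHom.map_det]
      congr 1
      ext j l
      simp only [Matrix.of_apply, RingHom.mapMatrix_apply, Matrix.map_apply]
      refine Fin.cases ?_ (fun j => ?_) j
      · simp only [Fin.cons_zero]
        rw [← hf]
        exact hev _ _
      · simp only [Fin.cons_succ]
        rw [← hg]
        exact hev _ _
    rw [h1]
    exact hu2u

/-- Z3: the system descends -/
theorem certZ_descend [IsAlgClosed k] {n d m r : ℕ} {c : Fin m → k} {v : Fin m → Fin (N + 1) → k}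
    {c₀ x : k} {G : Fin r → MvPolynomial (Fin (N + 1)) k} {s : Fin m → ℕ}
    {El : ∀ i, Fin (s i) → MvPolynomial (Fin (N + 1)) k}
    {Eo : Fin m → MvPolynomial (Fin (N + 1)) k}
    {K : Type} [Field K] [Algebra k K] (hK : CertZ V n d c v c₀ x G El Eo K) :
    Nonempty (CertZ V n d c v c₀ x G El Eo k) := by
  obtain ⟨A, hA, ⟨h⟩⟩ := certZ_fg hK
  obtain ⟨φ⟩ := exists_algHom (k := k) (A := A)
  exact ⟨certZMap φ h⟩

end descend

end Pool.Agent.VFS
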