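import Pool.Agent.Lib_MP_1858fb_s.AsmA
import Pool.Agent.Lib_MP_1858fb_s.GcdZ
import Pool.Agent.Lib_MP_1858fb_s.InfZ
import Pool.Agent.Lib_MP_1858fb_s.TransZ
import Pool.Agent.Lib_MP_1858fb_s.GoodZ

/-!
# Smooth points, second part: assembly of the certificate over the fraction field
-/

set_option autoImplicit false

namespace Pool.Agent.VFS

open Polynomial

section

variable {k : Type} [Field k] {N : ℕ} {V : Set (Fin (N + 1) → k)}

theorem core_Z [IsAlgClosed k] (hV : VF.LocClosed V) {cc : ℕ}
    (hcc : cc < N) (hsm : ∀ x ∈ V, VF.SmoothAt cc V x) {d m : ℕ}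
    {F0 : Fin (N + 1) → k[X]} (h0 : Start V d m F0) (hm : 0 < m) (c : Fin m → k)
    (hc : Function.Injective c) (v : Fin m → Fin (N + 1) → k)
    (hv : ∀ i, ∃ t : k, t ≠ 0 ∧ ∀ a, (F0 a).eval (c i) = t * v i a)
    (𝓔 : Fin m → Set (MvPolynomial (Fin (N + 1)) k)) (hE : ∀ i, CodimTwo V (𝓔 i))
    (h1 : ∀ i, ∀ E ∈ 𝓔 i, MvPolynomial.aeval (v i) E = 0)
    (h2 : ∀ i l, l ≠ i → ∃ E ∈ 𝓔 i, MvPolynomial.aeval (v l) E ≠ 0) :
    ∃ (c₀ x : k) (f : Fin (N + 1) → k[X]), x ≠ c₀ ∧ GoodZ V d c v 𝓔 c₀ x f := by
  classical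
  obtain ⟨r, G, e, hGh, he, hGV⟩ := VF.exists_open_forms hV
  obtain ⟨n, hn⟩ : ∃ n, cc + n = N := ⟨N - cc, by omega⟩
  obtain ⟨h, δ, hδ, hspan⟩ := sec_basis (VF.van V : Set (MvPolynomial (Fin (N + 1)) k)) F0 (d - m)
  obtain ⟨F, hF⟩ := exists_deform hV hsm h0 c hc δ hδ
  obtain ⟨⟨B, hB⟩, B', hB'⟩ := cert_open h0 hF G (fun l => ⟨e l, he l, hGh l⟩) hGV
  obtain ⟨x, hx, g, b, idx, hgdeg, hgtan, hgb, hminor⟩ :=
    cert_secs hV hn hsm h0 hc hδ hspan hF ⟨0, hm⟩
  have hF0v : ∀ i, ∃ t : k, t ≠ 0 ∧ (fun a => (F0 a).eval (c i)) = t • v i := by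
    intro i
    obtain ⟨t, ht, h3⟩ := hv i
    exact ⟨t, ht, funext h3⟩
  have hsmul : ∀ (E : MvPolynomial (Fin (N + 1)) k) (e : ℕ), E.IsHomogeneous e →
      ∀ (t : k) (y : Fin (N + 1) → k),
      MvPolynomial.aeval (t • y) E = t ^ e * MvPolynomial.aeval y E := by
    intro E e hE' t y
    rw [MvPolynomial.aeval_eq_eval₂Hom, MvPolynomial.aeval_eq_eval₂Hom, MvPolynomial.coe_eval₂Hom,
      MvPolynomial.coe_eval₂Hom, MvPolynomial.eval₂_eq, MvPolynomial.eval₂_eq, Finset.mul_sum]
    refine Finset.sum_congr rfl fun μ hμ => ?_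
    have h1 : μ.degree = e := by
      have h0 := hE' (MvPolynomial.mem_support_iff.mp hμ)
      rw [← h0]
      exact DFunLike.congr_fun (Finsupp.degree_eq_weight_one (R := ℕ) (σ := Fin (N + 1))) μ
    have h2 : ∏ i ∈ μ.support, (t • y) i ^ μ i = t ^ e * ∏ i ∈ μ.support, y i ^ μ i := by
      rw [← h1, Finsupp.degree_apply, ← Finset.prod_pow_eq_pow_sum, ← Finset.prod_mul_distrib]
      refine Finset.prod_congr rfl fun i _ => ?_
      rw [Pi.smul_apply, smul_eq_mul, mul_pow]
    rw [h2]
    ring
  have hq := fun i => gcd_Z h0 hc hδ hspan hF i (hE i)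
    (fun E hE1 => by
      obtain ⟨t, ht, h3⟩ := hF0v i
      obtain ⟨e, he⟩ := (hE i).hom E hE1
      rw [h3, hsmul E e he, h1 i E hE1, mul_zero])
    (fun l hl => by
      obtain ⟨t, ht, h3⟩ := hF0v l
      obtain ⟨E, hE1, hE2⟩ := h2 i l hl
      obtain ⟨e, he⟩ := (hE i).hom E hE1
      refine ⟨E, hE1, ?_⟩
      rw [h3, hsmul E e he]
      exact mul_ne_zero (pow_ne_zero _ ht) hE2)
  have hinf := fun i => inf_Z h0 hδ hspan hF (hE i)
  choose s El q Q hEl hqf hQ using hq
  choose Eo hEo hEo' using hinf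
  choose S hSu hS using hF.mark
  choose t ht0 ht using hv
  have hmark : ∀ i a, (F a).eval (algebraMap k _ (c i)) =
      S i * algebraMap k _ (t i) * algebraMap k _ (v i a) := by
    intro i a
    rw [hS, ht, map_mul, mul_assoc]
  have hK : CertZ V n d c v (c ⟨0, hm⟩) x G El Eo (FractionRing (MvPowerSeries (Fin h) k)) := {
    f := fun a => (F a).map (algebraMap _ _)
    deg := fun a => natDegree_map_le.trans (hF.deg a)
    eqs := by
      intro E hE
      rw [aeval_map_poly, hF.eqs E hE, Polynomial.map_zero]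
    B := fun l => (B l).map (algebraMap _ _)
    hB := by
      have h1 := congrArg (Polynomial.map (algebraMap (MvPowerSeries (Fin h) k)
        (FractionRing (MvPowerSeries (Fin h) k)))) hB
      rw [Polynomial.map_sum, Polynomial.map_one] at h1
      rw [← h1]
      refine Finset.sum_congr rfl fun l _ => ?_
      rw [aeval_map_poly, Polynomial.map_mul]
    B' := fun l => algebraMap _ _ (B' l)
    hB' := by
      have h1 := congrArg (algebraMap (MvPowerSeries (Fin h) k)
        (FractionRing (MvPowerSeries (Fin h) k))) hB'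
      rw [map_sum, map_one] at h1
      rw [← h1]
      refine Finset.sum_congr rfl fun l _ => ?_
      simp only [coeff_map]
      rw [aeval_map_coeff, map_mul]
    t := fun i => algebraMap _ _ (S i * algebraMap k _ (t i))
    ht := by
      intro i
      rw [isUnit_iff_ne_zero, map_ne_zero_iff _ (IsFractionRing.injective _ _)]
      refine mul_ne_zero (hSu i).ne_zero ?_
      rw [map_ne_zero_iff _ (FaithfulSMul.algebraMap_injective _ _)]
      exact ht0 i
    mark := by
      intro i a
      rw [eval_map_tower, hmark, map_mul, ← IsScalarTower.algebraMap_apply]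
    q := fun i l => (q i l).map (algebraMap _ _)
    hq := by
      intro i l
      rw [aeval_map_poly, hqf, Polynomial.map_mul, Polynomial.map_sub, map_X, map_C,
        ← IsScalarTower.algebraMap_apply]
    Q := Q
    hQ := hQ
    hinf := by
      intro i
      rw [isUnit_iff_ne_zero]
      simp only [coeff_map]
      rw [aeval_map_coeff, map_ne_zero_iff _ (IsFractionRing.injective _ _)]
      exact hEo' i
    g := fun j a => (g j a).map (algebraMap _ _)
    gdeg := fun j a => natDegree_map_le.trans (hgdeg j a)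
    gtan := by
      intro j E hE
      have h1 := congrArg (Polynomial.map (algebraMap (MvPowerSeries (Fin h) k)
        (FractionRing (MvPowerSeries (Fin h) k)))) (hgtan j E hE)
      rw [Polynomial.map_sum, Polynomial.map_zero] at h1
      rw [← h1]
      refine Finset.sum_congr rfl fun a _ => ?_
      rw [aeval_map_poly, Polynomial.map_mul]
    b := fun j => algebraMap _ _ (b j)
    hg := by
      intro j a
      rw [eval_map_tower, eval_map_tower, hgb, map_mul]
    idx := idx
    minor := by
      have h1 := hminor.map (algebraMap (MvPowerSeries (Fin h) k)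
        (FractionRing (MvPowerSeries (Fin h) k)))
      rw [RingHom.map_det] at h1
      have h2 : ∀ (j : Fin (n + 1)) (a : Fin (N + 1)),
          (Fin.cons ((F a).map (algebraMap (MvPowerSeries (Fin h) k)
            (FractionRing (MvPowerSeries (Fin h) k))))
            (fun j => (g j a).map (algebraMap (MvPowerSeries (Fin h) k)
            (FractionRing (MvPowerSeries (Fin h) k)))) :
            Fin (n + 1) → (FractionRing (MvPowerSeries (Fin h) k))[X]) j =
          ((Fin.cons (F a) (fun j => g j a) : Fin (n + 1) → (MvPowerSeries (Fin h) k)[X]) j).map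
            (algebraMap (MvPowerSeries (Fin h) k) (FractionRing (MvPowerSeries (Fin h) k))) := by
        intro j a
        refine Fin.cases ?_ (fun j' => ?_) j
        · rfl
        · rfl
      have h3 : (Matrix.of fun j l : Fin (n + 1) =>
          ((Fin.cons ((F (idx l)).map (algebraMap (MvPowerSeries (Fin h) k)
            (FractionRing (MvPowerSeries (Fin h) k))))
            (fun j => (g j (idx l)).map (algebraMap (MvPowerSeries (Fin h) k)
            (FractionRing (MvPowerSeries (Fin h) k)))) :
            Fin (n + 1) → (FractionRing (MvPowerSeries (Fin h) k))[X]) j).eval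
            (algebraMap k (FractionRing (MvPowerSeries (Fin h) k)) x)) =
          (algebraMap (MvPowerSeries (Fin h) k) (FractionRing (MvPowerSeries (Fin h) k))).mapMatrix
            (Matrix.of fun j l : Fin (n + 1) =>
          ((Fin.cons (F (idx l)) (fun j => g j (idx l)) :
            Fin (n + 1) → (MvPowerSeries (Fin h) k)[X]) j).eval (algebraMap k _ x)) := by
        refine Matrix.ext fun j l => ?_
        rw [RingHom.mapMatrix_apply, Matrix.map_apply, Matrix.of_apply, Matrix.of_apply, h2,
          eval_map_tower]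
      rw [← h3] at h1
      exact h1 }
  obtain ⟨hk⟩ := certZ_descend hK
  have hgood := certZ_good hV hn hsm hGV hEl hEo hk
  exact ⟨c ⟨0, hm⟩, x, hk.f, hx, hgood⟩

end

end Pool.Agent.VFS
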