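import Pool.Agent.Lib_MP_1858fb_s.Iface
import Pool.Agent.Lib_MP_1858fb_w.Van2
import Pool.Agent.Lib_MP_1858fb_w.Van6

/-!
# Smooth points add-on: very freeness from one pair of points (BACK), the affine part

`f` is a curve in `V` of degree `≤ d` whose sections with value at `c₀` in the line of `f (c₀)` have all
tangent values at `x` (modulo `f (x)`). Then for `y ≠ y'` in `k` and all tangent values `w`, `w'` there is
a section of degree `≤ d` with these values, modulo `f`. Proof: the sections divided by `X - c₀` give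
sections `g'_1, ..., g'_n` of degree `≤ d - 1` which form with `f` a basis over `k(X)`. A section `ε` of
unbounded degree with the right values satisfies `b ε = u_0 f + ∑ u_j g'_j`; divide `u_j` by
`b (X - y) (X - y')` and `u_0` by `b` and keep the remainders.
-/

set_option autoImplicit false

namespace Pool.Agent.VFS.BackA

open Polynomial

section linalg

variable {k : Type} [Field k] {M : Type}

/-- independence from the values at a point -/
theorem indep_of_eval {n : ℕ} (δ : Fin n → M → k[X]) (p0 : k)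
    (h : LinearIndependent k (fun l a => (δ l a).eval p0)) : LinearIndependent k[X] δ := by
  rw [Fintype.linearIndependent_iff] at h ⊢
  intro g hg
  have main : ∀ m : ℕ, ∀ g : Fin n → k[X], ∑ l, g l • δ l = 0 →
      (∀ l, (g l).natDegree ≤ m) → ∀ l, g l = 0 := by
    intro m
    have hev : ∀ g : Fin n → k[X], ∑ l, g l • δ l = 0 → ∀ l, (g l).eval p0 = 0 := by
      intro g hg
      apply h
      funext a
      have h1 := congrArg (fun f => Polynomial.eval p0 f) (congrFun hg a)
      simpa [Polynomial.eval_finsetSum] using h1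
    induction m with
    | zero =>
      intro g hg hm l
      have h1 := hev g hg l
      rw [Polynomial.eq_C_of_natDegree_le_zero (hm l)] at h1 ⊢
      rw [Polynomial.eval_C] at h1
      rw [h1, map_zero]
    | succ m ih =>
      intro g hg hm
      have h1 : ∀ l, ∃ g', g l = (X - C p0) * g' := by
        intro l
        have : (X - C p0) ∣ g l := dvd_iff_isRoot.2 (hev g hg l)
        exact this
      choose g' hg' using h1
      have h2 : ∑ l, g' l • δ l = 0 := by
        have h3 : (X - C p0) • ∑ l, g' l • δ l = 0 := by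
          rw [← hg, Finset.smul_sum]
          refine Finset.sum_congr rfl fun l _ => ?_
          rw [smul_smul, hg' l]
        funext a
        have h4 := congrFun h3 a
        rw [Pi.smul_apply, smul_eq_mul, Pi.zero_apply] at h4
        exact (mul_eq_zero.1 h4).resolve_left (X_sub_C_ne_zero p0)
      have h3 : ∀ l, (g' l).natDegree ≤ m := by
        intro l
        by_cases h0 : g' l = 0
        · rw [h0, natDegree_zero]; omega
        · have := hm l
          rw [hg' l, natDegree_mul (X_sub_C_ne_zero p0) h0, natDegree_X_sub_C] at this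
          omega
      intro l
      rw [hg' l, ih g' h2 h3 l, mul_zero]
  exact main (Finset.univ.sup fun l => (g l).natDegree) g hg
    (fun l => Finset.le_sup (f := fun l => (g l).natDegree) (Finset.mem_univ l))

theorem exists_cons_basis {E : Type} [AddCommGroup E] [Module k E] {n : ℕ}
    (h : Module.finrank k E = n + 1) {v : E} (hv : v ≠ 0) :
    ∃ u : Fin n → E, LinearIndependent k (Fin.cons v u : Fin (n + 1) → E) := by
  have main : ∀ m ≤ n, ∃ u : Fin m → E, LinearIndependent k (Fin.cons v u : Fin (m + 1) → E) := by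
    intro m
    induction m with
    | zero =>
      intro _
      refine ⟨Fin.elim0, ?_⟩
      rw [Fintype.linearIndependent_iff]
      intro g hg i
      have h1 : g 0 • v = 0 := by
        rw [Fin.sum_univ_succ, Fin.cons_zero] at hg
        simpa using hg
      have h2 : i = 0 := Fin.ext (by have := i.2; omega)
      rw [h2]
      exact (smul_eq_zero.1 h1).resolve_right hv
    | succ m ih =>
      intro hm
      obtain ⟨u, hu⟩ := ih (by omega)
      obtain ⟨x, hx⟩ := exists_linearIndependent_snoc_of_lt_finrank hu (by omega)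
      refine ⟨Fin.snoc u x, ?_⟩
      rw [Fin.cons_snoc_eq_snoc_cons]
      exact hx
  exact main n le_rfl

end linalg

section sections

variable {k : Type} [Field k] {N : ℕ} {V : Set (Fin (N + 1) → k)}

theorem eval_aeval' {σ : Type} (E : MvPolynomial σ k) (x : σ → k[X]) (s : k) :
    (MvPolynomial.aeval x E).eval s = MvPolynomial.aeval (fun i => (x i).eval s) E :=
  VF.V6.eval_aeval E x s

theorem aeval_eq_zero [Infinite k] {f : Fin (N + 1) → k[X]}
    (hfin : ∀ x : k, (fun a => (f a).eval x) ∈ V) {E : MvPolynomial (Fin (N + 1)) k}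
    (hE : E ∈ VF.van V) : MvPolynomial.aeval f E = 0 := by
  apply Polynomial.eq_zero_of_infinite_isRoot
  refine Set.infinite_univ.mono fun s _ => ?_
  show (MvPolynomial.aeval f E).eval s = 0
  rw [eval_aeval']
  exact hE _ (hfin s)

/-- the matrix of differentials along the curve -/
noncomputable def jac {c : ℕ} (E : Fin c → MvPolynomial (Fin (N + 1)) k)
    (f : Fin (N + 1) → k[X]) : Matrix (Fin c) (Fin (N + 1)) k[X] :=
  Matrix.of fun i j => MvPolynomial.aeval f (MvPolynomial.pderiv j (E i))

theorem jac_rows {c : ℕ} (E : Fin c → MvPolynomial (Fin (N + 1)) k) (f : Fin (N + 1) → k[X])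
    (p : k) (h : LinearIndependent k (fun (i : Fin c) (j : Fin (N + 1)) =>
      MvPolynomial.aeval (fun a => (f a).eval p) (MvPolynomial.pderiv j (E i)))) :
    LinearIndependent k (fun i => fun j => (jac E f i j).eval p) := by
  have : (fun i => fun j => (jac E f i j).eval p) = (fun (i : Fin c) (j : Fin (N + 1)) =>
      MvPolynomial.aeval (fun a => (f a).eval p) (MvPolynomial.pderiv j (E i))) := by
    funext i j
    exact eval_aeval' _ _ _
  rw [this]
  exact h

/-- a section with prescribed value -/
theorem exists_sec_value [Infinite k] {c : ℕ} {f : Fin (N + 1) → k[X]}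
    (hfin : ∀ x : k, (fun a => (f a).eval x) ∈ V) {y : k}
    (hs : VF.SmoothAt c V (fun a => (f a).eval y)) {w : Fin (N + 1) → k}
    (hw : w ∈ VF.Tan V (fun a => (f a).eval y)) :
    ∃ ε : Fin (N + 1) → k[X], (∀ E ∈ VF.van V, dp E f ε = 0) ∧ ∀ a, (ε a).eval y = w a := by
  classical
  obtain ⟨E, H, hE, hli, hH, hgen⟩ := hs
  obtain ⟨ε, hε, hv⟩ := VF.V6.exists_section (jac E f) y (jac_rows E f y hli) w (by
    funext i
    have h1 := hw (E i) (hE i)
    rw [Pi.zero_apply, ← h1]
    simp only [Matrix.mulVec, dotProduct, Matrix.map_apply, VF.dif]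
    refine Finset.sum_congr rfl fun j _ => ?_
    congr 1
    exact eval_aeval' _ _ _)
  refine ⟨ε, fun G hG => ?_, hv⟩
  have h0 : ∀ i, VF.dif (E i) f ε = 0 := fun i => congrFun hε i
  have h1 := VF.V6.mul_dif_eq_zero (x := f) (w := ε) (fun i => aeval_eq_zero hfin (hE i)) h0
    (hgen G hG) (aeval_eq_zero hfin hG)
  refine (mul_eq_zero.1 h1).resolve_left fun h2 => hH ?_
  have h3 := eval_aeval' H f y
  rw [h2, eval_zero] at h3
  exact h3.symm

/-- a relation between sections -/
theorem exists_rel {c n : ℕ} (hc : c + n = N) {f : Fin (N + 1) → k[X]} {p : k}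
    (hs : VF.SmoothAt c V (fun a => (f a).eval p))
    (δ : Fin (n + 1) → Fin (N + 1) → k[X]) (hδ : ∀ l, ∀ E ∈ VF.van V, dp E f (δ l) = 0)
    (hind : LinearIndependent k (fun l a => (δ l a).eval p))
    {ε : Fin (N + 1) → k[X]} (hε : ∀ E ∈ VF.van V, dp E f ε = 0) :
    ∃ b : k[X], b ≠ 0 ∧ ∃ u : Fin (n + 1) → k[X], ∀ a, b * ε a = ∑ l, u l * δ l a := by
  classical
  obtain ⟨E, H, hE, hli, hH, hgen⟩ := hs
  exact VF.V6.exists_relation (jac E f) p (jac_rows E f p hli)
    (by rw [Fintype.card_fin]; omega) δ (fun l => by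
      funext i
      exact hδ l (E i) (hE i)) (indep_of_eval δ p hind) ε (by
      funext i
      exact hε (E i) (hE i))

theorem dp_sum {ι : Type} [Fintype ι] {n : ℕ} (E : MvPolynomial ι k) (f : ι → k[X])
    (r : Fin n → k[X]) (G : Fin n → ι → k[X]) :
    dp E f (fun a => ∑ j, r j * G j a) = ∑ j, r j * dp E f (G j) := by
  unfold dp
  simp only [Finset.mul_sum]
  rw [Finset.sum_comm]
  refine Finset.sum_congr rfl fun j _ => Finset.sum_congr rfl fun a _ => ?_
  ring

/-- division with remainder for the coefficients of a relation: a section of degree `≤ d` with the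
same values at `y`, `y'`, modulo `f` -/
theorem reduce_degree {n d : ℕ} {f : Fin (N + 1) → k[X]} (hfd : ∀ a, (f a).natDegree ≤ d)
    (hff : ∀ E ∈ VF.van V, dp E f f = 0) {g : Fin n → Fin (N + 1) → k[X]}
    (hgd : ∀ j a, (g j a).natDegree ≤ d - 1) (hgd' : ∀ j a, g j a = 0 ∨ 0 < d)
    (hg : ∀ j, ∀ E ∈ VF.van V, dp E f (g j) = 0) {ε : Fin (N + 1) → k[X]}
    (hε : ∀ E ∈ VF.van V, dp E f ε = 0) {b : k[X]} (hb : b ≠ 0) {u0 : k[X]} {u : Fin n → k[X]}
    (h : ∀ a, b * ε a = u0 * f a + ∑ j, u j * g j a) (y y' : k) :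
    ∃ G, Sec (VF.van V : Set _) f d G ∧ (∃ t : k, ∀ a, (G a).eval y = (ε a).eval y + t * (f a).eval y) ∧
      ∃ t : k, ∀ a, (G a).eval y' = (ε a).eval y' + t * (f a).eval y' := by
  classical
  set P : k[X] := (X - C y) * (X - C y') with hP
  have hP0 : P ≠ 0 := mul_ne_zero (X_sub_C_ne_zero y) (X_sub_C_ne_zero y')
  have hPd : P.natDegree = 2 := by
    rw [hP, natDegree_mul (X_sub_C_ne_zero y) (X_sub_C_ne_zero y'), natDegree_X_sub_C,
      natDegree_X_sub_C]
  have hbP : (b * P).natDegree = b.natDegree + 2 := by rw [natDegree_mul hb hP0, hPd]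
  set A : Fin n → k[X] := fun j => u j / (b * P) with hA
  set r : Fin n → k[X] := fun j => u j % (b * P) with hr
  have hu : ∀ j, u j = b * P * A j + r j := fun j => (EuclideanDomain.div_add_mod _ _).symm
  have hrd : ∀ j, (r j).natDegree ≤ b.natDegree + 1 := by
    intro j
    have h1 := natDegree_mod_lt (u j) (q := b * P) (by omega)
    show (u j % (b * P)).natDegree ≤ b.natDegree + 1
    omega
  set A0 : k[X] := u0 / b with hA0
  set r0 : k[X] := u0 % b with hr0
  have hu0 : u0 = b * A0 + r0 := (EuclideanDomain.div_add_mod _ _).symm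
  have hr0d : r0.natDegree ≤ b.natDegree :=
    natDegree_le_natDegree (le_of_lt (EuclideanDomain.mod_lt u0 hb))
  set G : Fin (N + 1) → k[X] := fun a => (ε a - P * ∑ j, A j * g j a) - A0 * f a with hG
  have hbG : ∀ a, b * G a = ∑ j, r j * g j a + r0 * f a := by
    intro a
    have h1 : ∑ j, u j * g j a = b * P * ∑ j, A j * g j a + ∑ j, r j * g j a := by
      rw [Finset.mul_sum, ← Finset.sum_add_distrib]
      refine Finset.sum_congr rfl fun j _ => ?_
      rw [hu j]
      ring
    have h2 := h a
    rw [h1, hu0] at h2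
    show b * ((ε a - P * ∑ j, A j * g j a) - A0 * f a) = _
    linear_combination h2
  refine ⟨G, ⟨fun a => ?_, fun E hE => ?_⟩, ⟨-A0.eval y, fun a => ?_⟩, ⟨-A0.eval y', fun a => ?_⟩⟩
  · by_cases h0 : G a = 0
    · rw [h0, natDegree_zero]
      exact Nat.zero_le _
    · have h1 : (b * G a).natDegree ≤ b.natDegree + d := by
        rw [hbG a]
        refine (natDegree_add_le _ _).trans (max_le ?_ ?_)
        · apply natDegree_sum_le_of_forall_le
          intro j _
          rcases hgd' j a with h2 | h2
          · rw [h2, mul_zero, natDegree_zero]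
            exact Nat.zero_le _
          · refine natDegree_mul_le.trans ?_
            have h3 := hgd j a
            have h4 := hrd j
            omega
        · refine natDegree_mul_le.trans ?_
          have h3 := hfd a
          omega
      rw [natDegree_mul hb h0] at h1
      omega
  · have e1 : dp E f G = dp E f (fun a => ε a - P * ∑ j, A j * g j a) -
        dp E f (fun a => A0 * f a) := dp_sub _ _ _ _
    have e2 : dp E f (fun a => ε a - P * ∑ j, A j * g j a) =
        dp E f ε - dp E f (fun a => P * ∑ j, A j * g j a) := dp_sub _ _ _ _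
    rw [e1, e2, dp_mul, dp_mul, dp_sum, hε E hE, hff E hE]
    have e3 : ∑ j, A j * dp E f (g j) = 0 :=
      Finset.sum_eq_zero fun j _ => by rw [hg j E hE, mul_zero]
    rw [e3]
    ring
  · show (((ε a - P * ∑ j, A j * g j a) - A0 * f a)).eval y = _
    simp only [hP, eval_sub, eval_mul, eval_X, eval_C, sub_self, zero_mul]
    ring
  · show (((ε a - P * ∑ j, A j * g j a) - A0 * f a)).eval y' = _
    simp only [hP, eval_sub, eval_mul, eval_X, eval_C, sub_self, zero_mul, mul_zero]
    ring

/-- **BACK, affine part.** -/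
theorem exists_sec_pair [Infinite k] {c n d : ℕ} (hc : c + n = N)
    (hsm : ∀ x ∈ V, VF.SmoothAt c V x) {f : Fin (N + 1) → k[X]}
    (hfd : ∀ a, (f a).natDegree ≤ d) (hfin : ∀ x : k, (fun a => (f a).eval x) ∈ V)
    (hff : ∀ E ∈ VF.van V, dp E f f = 0) {c₀ x : k} (hx : x ≠ c₀)
    (hf0 : (fun a => (f a).eval x) ≠ 0)
    (secs : ∀ u ∈ VF.Tan V (fun a => (f a).eval x), ∃ g, Sec (VF.van V : Set _) f d g ∧
      (∃ b : k, ∀ a, (g a).eval c₀ = b * (f a).eval c₀) ∧
      ∃ b : k, ∀ a, (g a).eval x = u a + b * (f a).eval x)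
    {y y' : k} (hy : y ≠ y') {w w' : Fin (N + 1) → k}
    (hw : w ∈ VF.Tan V (fun a => (f a).eval y)) (hw' : w' ∈ VF.Tan V (fun a => (f a).eval y')) :
    ∃ G, Sec (VF.van V : Set _) f d G ∧ (∃ t : k, ∀ a, (G a).eval y = w a + t * (f a).eval y) ∧
      ∃ t : k, ∀ a, (G a).eval y' = w' a + t * (f a).eval y' := by
  classical
  have hxV := hfin x
  have hxT : (fun a => (f a).eval x) ∈ VF.Tan V (fun a => (f a).eval x) := by
    intro E hE
    have h1 := congrArg (Polynomial.eval x) (hff E hE)
    rw [dp, Polynomial.eval_finsetSum, Polynomial.eval_zero] at h1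
    rw [← h1, VF.dif]
    refine Finset.sum_congr rfl fun a _ => ?_
    rw [Polynomial.eval_mul, eval_aeval']
  have hfr : Module.finrank k (VF.Tan V (fun a => (f a).eval x)) = n + 1 := by
    have h1 := VF.finrank_tan hxV (hsm _ hxV)
    rw [Fintype.card_fin] at h1
    omega
  obtain ⟨u, hu⟩ := exists_cons_basis hfr (v := ⟨_, hxT⟩) (by
    intro h
    exact hf0 (congrArg Subtype.val h))
  have hu' : LinearIndependent k (Fin.cons (fun a => (f a).eval x)
      (fun j => (u j : Fin (N + 1) → k)) : Fin (n + 1) → Fin (N + 1) → k) := by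
    have h1 := hu.map' (VF.Tan V (fun a => (f a).eval x)).subtype (Submodule.ker_subtype _)
    have h2 : (Fin.cons (fun a => (f a).eval x)
        (fun j => (u j : Fin (N + 1) → k)) : Fin (n + 1) → Fin (N + 1) → k) =
        ((VF.Tan V (fun a => (f a).eval x)).subtype ∘
          (Fin.cons ⟨fun a => (f a).eval x, hxT⟩ u : Fin (n + 1) → _)) := by
      funext j
      refine Fin.cases ?_ (fun j => ?_) j
      · rfl
      · rfl
    rw [h2]
    exact h1
  choose g hg hb using fun j => secs (u j) (u j).2
  choose b0 hb0 using fun j => (hb j).1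
  choose b1 hb1 using fun j => (hb j).2
  choose G1 hG1 hG1d hG1d' hG1s using fun j => sec_div hfd hff (hg j) (hb0 j)
  have hxc : x - c₀ ≠ 0 := sub_ne_zero.2 hx
  have hval : ∀ j a, (x - c₀) * (G1 j a).eval x =
      (u j : Fin (N + 1) → k) a + (b1 j - b0 j) * (f a).eval x := by
    intro j a
    have h1 := congrArg (Polynomial.eval x) (hG1 j a)
    simp only [eval_sub, eval_mul, eval_X, eval_C] at h1
    rw [← h1, hb1 j a]
    ring
  have hind : LinearIndependent k (fun (l : Fin (n + 1)) (a : Fin (N + 1)) =>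
      ((Fin.cons f G1 : Fin (n + 1) → Fin (N + 1) → k[X]) l a).eval x) := by
    rw [Fintype.linearIndependent_iff] at hu' ⊢
    intro s hs
    have h1 := hu' (Fin.cons ((x - c₀) * s 0 + ∑ j, s (Fin.succ j) * (b1 j - b0 j))
      (fun j => s (Fin.succ j))) (by
        funext a
        have h2 := congrFun hs a
        simp only [Fin.sum_univ_succ, Fin.cons_zero, Fin.cons_succ, Pi.add_apply, Pi.smul_apply,
          Finset.sum_apply, smul_eq_mul, Pi.zero_apply] at h2 ⊢
        have h3 : ∑ j, s (Fin.succ j) * (u j : Fin (N + 1) → k) a =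
            (x - c₀) * ∑ j, s (Fin.succ j) * (G1 j a).eval x -
              (∑ j, s (Fin.succ j) * (b1 j - b0 j)) * (f a).eval x := by
          rw [Finset.mul_sum, Finset.sum_mul, ← Finset.sum_sub_distrib]
          refine Finset.sum_congr rfl fun j _ => ?_
          linear_combination (-s (Fin.succ j)) * hval j a
        rw [h3]
        linear_combination (x - c₀) * h2)
    have h4 : ∀ j : Fin n, s (Fin.succ j) = 0 := by
      intro j
      have := h1 (Fin.succ j)
      rwa [Fin.cons_succ] at this
    have h5 : s 0 = 0 := by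
      have := h1 0
      rw [Fin.cons_zero] at this
      simp only [h4, zero_mul, Finset.sum_const_zero, add_zero] at this
      exact (mul_eq_zero.1 this).resolve_left hxc
    intro l
    refine Fin.cases h5 (fun j => h4 j) l
  obtain ⟨ε1, hε1, hv1⟩ := exists_sec_value hfin (hsm _ (hfin y)) hw
  obtain ⟨ε2, hε2, hv2⟩ := exists_sec_value hfin (hsm _ (hfin y')) hw'
  have hyy : y - y' ≠ 0 := sub_ne_zero.2 hy
  set ε : Fin (N + 1) → k[X] := fun a =>
    (C (y - y')⁻¹ * (X - C y')) * ε1 a - (C (y - y')⁻¹ * (X - C y)) * ε2 a with hε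
  have hεs : ∀ E ∈ VF.van V, dp E f ε = 0 := by
    intro E hE
    have e1 : dp E f ε = dp E f (fun a => (C (y - y')⁻¹ * (X - C y')) * ε1 a) -
        dp E f (fun a => (C (y - y')⁻¹ * (X - C y)) * ε2 a) := dp_sub _ _ _ _
    rw [e1, dp_mul, dp_mul, hε1 E hE, hε2 E hE]
    ring
  obtain ⟨b, hb, v, hv⟩ := exists_rel hc (hsm _ hxV) (Fin.cons f G1)
    (fun l => by
      refine Fin.cases ?_ (fun j => ?_) l
      · exact hff
      · exact hG1s j) hind hεs
  obtain ⟨G, hG, ⟨t, ht⟩, t', ht'⟩ := reduce_degree hfd hff (g := G1) hG1d hG1d' hG1s hεs hb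
    (u0 := v 0) (u := fun j => v (Fin.succ j)) (fun a => by
      rw [hv a, Fin.sum_univ_succ]
      rfl) y y'
  refine ⟨G, hG, ⟨t, fun a => ?_⟩, ⟨t', fun a => ?_⟩⟩
  · rw [ht a]
    congr 1
    show ((C (y - y')⁻¹ * (X - C y')) * ε1 a - (C (y - y')⁻¹ * (X - C y)) * ε2 a).eval y = w a
    simp only [eval_sub, eval_mul, eval_X, eval_C, sub_self, mul_zero, zero_mul, sub_zero, hv1 a]
    rw [inv_mul_cancel₀ hyy, one_mul]
  · rw [ht' a]
    congr 1
    show ((C (y - y')⁻¹ * (X - C y')) * ε1 a - (C (y - y')⁻¹ * (X - C y)) * ε2 a).eval y' = w' a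
    simp only [eval_sub, eval_mul, eval_X, eval_C, sub_self, mul_zero, zero_mul, zero_sub, hv2 a]
    have : y' - y = -(y - y') := by ring
    rw [this]
    field_simp

end sections

end Pool.Agent.VFS.BackA
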