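import Mathlib

/-!
# No common factor in a one parameter family

`Q j` are polynomials over `K⟦t⟧`. If at every common root `l` of the polynomials `Q j` at `t = 0`
the derivative in `t` is not proportional to the leading vector in `X - l`, then the `Q j` have no
common factor over the field of fractions.
-/

namespace Pool.Agent.VFS

open Polynomial

variable {K : Type*} [Field K]

/-- A common factor with a root at `t = 0`. -/
theorem exists_common_root {J : Type*} [Fintype J] [IsAlgClosed K]
    {L : Type*} [Field L] [Algebra (PowerSeries K) L] [IsFractionRing (PowerSeries K) L]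
    (Q : J → Polynomial (PowerSeries K)) (D : ℕ)
    (hD : ∀ j, (Q j).natDegree ≤ D) (j0 : J)
    (hj0 : PowerSeries.constantCoeff ((Q j0).coeff D) ≠ 0)
    (hn : ¬ ∃ a : J → Polynomial L, ∑ j, a j * (Q j).map (algebraMap (PowerSeries K) L) = 1) :
    ∃ (P : Polynomial (PowerSeries K)) (B : J → Polynomial (PowerSeries K)) (l : K),
      (∀ j, Q j = P * B j) ∧ (P.map PowerSeries.constantCoeff).eval l = 0 := by
  classical
  let : NormalizedGCDMonoid (PowerSeries K) := Nonempty.some inferInstance
  set I : Ideal (Polynomial L) :=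
    Ideal.span (Set.range fun j => (Q j).map (algebraMap (PowerSeries K) L)) with hI
  set g := Submodule.IsPrincipal.generator I with hg
  have hgI : I = Ideal.span {g} := (Ideal.span_singleton_generator I).symm
  have hQg : ∀ j, g ∣ (Q j).map (algebraMap (PowerSeries K) L) := by
    intro j
    rw [← Ideal.mem_span_singleton, ← hgI]
    exact Ideal.subset_span ⟨j, rfl⟩
  have hinj : Function.Injective (algebraMap (PowerSeries K) L) := IsFractionRing.injective _ _
  have hQ0 : Q j0 ≠ 0 := by
    intro h
    apply hj0
    rw [h]; simp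
  have hg0 : g ≠ 0 := by
    intro h
    have h1 := hQg j0
    rw [h, zero_dvd_iff, Polynomial.map_eq_zero_iff hinj] at h1
    exact hQ0 h1
  have hgu : ¬ IsUnit g := by
    intro h
    apply hn
    have h1 : (1 : Polynomial L) ∈ I := by
      rw [hgI, Ideal.span_singleton_eq_top.2 h]
      exact Submodule.mem_top
    rw [hI] at h1
    obtain ⟨c, hc⟩ := (Ideal.mem_span_range_iff_exists_fun).1 h1
    exact ⟨c, hc⟩
  set g' := IsLocalization.integerNormalization (nonZeroDivisors (PowerSeries K)) g with hg'
  obtain ⟨b, hb0, hb⟩ :=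
    IsLocalization.integerNormalization_spec (nonZeroDivisors (PowerSeries K)) g
  have hb0' : b ≠ 0 := nonZeroDivisors.ne_zero hb0
  have hg'0 : g' ≠ 0 := by
    intro h
    rw [← hg'] at hb
    rw [h] at hb
    simp only [Polynomial.map_zero] at hb
    have h2 := hb.symm
    rw [Algebra.smul_def, mul_eq_zero] at h2
    rcases h2 with h2 | h2
    · rw [Polynomial.algebraMap_apply, Polynomial.C_eq_zero] at h2
      exact hb0' (hinj (by rw [h2, map_zero]))
    · exact hg0 h2
  have hcont : g'.content ≠ 0 := by
    rwa [Ne, content_eq_zero_iff]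
  have hPg : (g'.primPart.map (algebraMap (PowerSeries K) L)) ∣ g := by
    have h1 : C (algebraMap (PowerSeries K) L g'.content) *
        g'.primPart.map (algebraMap (PowerSeries K) L) =
        C (algebraMap (PowerSeries K) L b) * g := by
      rw [← Polynomial.map_C, ← Polynomial.map_mul, ← g'.eq_C_content_mul_primPart, hg', hb,
        Algebra.smul_def, Polynomial.algebraMap_apply]
    have hu : IsUnit (C (algebraMap (PowerSeries K) L b)) := by
      rw [Polynomial.isUnit_C]
      exact isUnit_iff_ne_zero.2 (fun h => hb0' (hinj (by rw [h, map_zero])))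
    have h2 : (g'.primPart.map (algebraMap (PowerSeries K) L)) ∣
        C (algebraMap (PowerSeries K) L b) * g := ⟨_, by rw [← h1, mul_comm]⟩
    exact (hu.dvd_mul_left).1 h2
  have hP : g'.primPart.IsPrimitive := g'.isPrimitive_primPart
  have hdvd : ∀ j, g'.primPart ∣ Q j := fun j =>
    hP.dvd_of_fraction_map_dvd_fraction_map (K := L) (hPg.trans (hQg j))
  choose B hB using hdvd
  have hPdeg : 0 < g'.primPart.natDegree := by
    by_contra h
    have h0 : g'.primPart.natDegree = 0 := by omega
    have hgd : g.natDegree ≠ 0 := by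
      intro h1
      apply hgu
      rw [Polynomial.natDegree_eq_zero] at h1
      obtain ⟨c, hc⟩ := h1
      rw [← hc, Polynomial.isUnit_C]
      rw [isUnit_iff_ne_zero]
      rintro rfl
      exact hg0 (by rw [← hc, map_zero])
    apply hgd
    have h3 : g'.natDegree = 0 := by rw [← natDegree_primPart]; exact h0
    have h4 : (g'.map (algebraMap (PowerSeries K) L)).natDegree = 0 := by
      rw [Polynomial.natDegree_map_eq_of_injective hinj, h3]
    rw [hg', hb, Algebra.smul_def, Polynomial.algebraMap_apply,
      Polynomial.natDegree_C_mul] at h4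
    · exact h4
    · exact fun h => hb0' (hinj (by rw [h, map_zero]))
  -- no drop of the degree
  have hdeg : (g'.primPart.map PowerSeries.constantCoeff).natDegree = g'.primPart.natDegree := by
    have hj := hB j0
    have hP0 : g'.primPart ≠ 0 := hP.ne_zero
    have hB0 : B j0 ≠ 0 := by
      rintro h
      exact hQ0 (by rw [hj, h, mul_zero])
    have h1 : (Q j0).natDegree = g'.primPart.natDegree + (B j0).natDegree := by
      conv_lhs => rw [hj]
      exact Polynomial.natDegree_mul hP0 hB0
    have h2 : D ≤ ((Q j0).map PowerSeries.constantCoeff).natDegree := by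
      apply Polynomial.le_natDegree_of_ne_zero
      rw [Polynomial.coeff_map]
      exact hj0
    have h3 : ((Q j0).map PowerSeries.constantCoeff).natDegree ≤
        (g'.primPart.map PowerSeries.constantCoeff).natDegree +
        ((B j0).map PowerSeries.constantCoeff).natDegree := by
      conv_lhs => rw [hj, Polynomial.map_mul]
      exact Polynomial.natDegree_mul_le
    have h4 := Polynomial.natDegree_map_le (f := (PowerSeries.constantCoeff (R := K)))
      (p := B j0)
    have h5 := Polynomial.natDegree_map_le (f := (PowerSeries.constantCoeff (R := K)))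
      (p := g'.primPart)
    have h6 := hD j0
    omega
  obtain ⟨l, hl⟩ := IsAlgClosed.exists_root (g'.primPart.map PowerSeries.constantCoeff) (by
    intro h
    have := Polynomial.natDegree_eq_of_degree_eq_some (n := 0) h
    omega)
  exact ⟨g'.primPart, B, l, hB, hl⟩

/-- No common factor over the field of fractions. -/
theorem exists_bezout {J : Type*} [Fintype J] [IsAlgClosed K]
    {L : Type*} [Field L] [Algebra (PowerSeries K) L] [IsFractionRing (PowerSeries K) L]
    (Q : J → Polynomial (PowerSeries K)) (D : ℕ)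
    (hD : ∀ j, (Q j).natDegree ≤ D) (j0 : J)
    (hj0 : PowerSeries.constantCoeff ((Q j0).coeff D) ≠ 0)
    (hG : ∀ l : K, (∀ j, ((Q j).map PowerSeries.constantCoeff).eval l = 0) →
      ∀ (μ : ℕ) (W : J → Polynomial K),
        (∀ j, (Q j).map PowerSeries.constantCoeff = (X - C l) ^ μ * W j) →
        (∃ j, (W j).eval l ≠ 0) →
        ∀ c : K, ∃ j, PowerSeries.coeff 1 ((Q j).eval (PowerSeries.C l)) ≠ c * (W j).eval l) :
    ∃ a : J → Polynomial L, ∑ j, a j * (Q j).map (algebraMap (PowerSeries K) L) = 1 := by
  classical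
  by_contra hn
  obtain ⟨P, B, l, hB, hl⟩ := exists_common_root Q D hD j0 hj0 hn
  have hroot : ∀ j, ((Q j).map PowerSeries.constantCoeff).eval l = 0 := by
    intro j
    rw [hB j, Polynomial.map_mul, Polynomial.eval_mul, hl, zero_mul]
  have hQ0 : (Q j0).map PowerSeries.constantCoeff ≠ 0 := by
    intro h
    apply hj0
    rw [← Polynomial.coeff_map, h, Polynomial.coeff_zero]
  -- the least order
  have hdiv : ∀ μ : ℕ, (∀ j, (X - C l) ^ μ ∣ (Q j).map PowerSeries.constantCoeff) →
      μ ≤ ((Q j0).map PowerSeries.constantCoeff).natDegree := by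
    intro μ h
    have h1 := Polynomial.natDegree_le_of_dvd (h j0) hQ0
    rwa [Polynomial.natDegree_pow, Polynomial.natDegree_X_sub_C, mul_one] at h1
  obtain ⟨μ, hμ, hmax⟩ : ∃ μ : ℕ, (∀ j, (X - C l) ^ μ ∣ (Q j).map PowerSeries.constantCoeff) ∧
      ∀ ν : ℕ, (∀ j, (X - C l) ^ ν ∣ (Q j).map PowerSeries.constantCoeff) → ν ≤ μ := by
    set S : Set ℕ := {μ | ∀ j, (X - C l) ^ μ ∣ (Q j).map PowerSeries.constantCoeff} with hS
    have hne : S.Nonempty := ⟨0, fun j => by simp⟩
    have hbd : BddAbove S := ⟨_, fun μ h => hdiv μ h⟩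
    exact ⟨sSup S, Nat.sSup_mem hne hbd, fun ν h => le_csSup hbd h⟩
  choose W hW using hμ
  have hW0 : ∃ j, (W j).eval l ≠ 0 := by
    by_contra h
    push Not at h
    have h1 := hmax (μ + 1) (fun j => by
      rw [hW j, pow_succ]
      exact mul_dvd_mul_left _ (Polynomial.dvd_iff_isRoot.2 (h j)))
    omega
  have hQP0 : P.map PowerSeries.constantCoeff ≠ 0 := by
    intro h
    apply hQ0
    rw [hB j0, Polynomial.map_mul, h, zero_mul]
  obtain ⟨p, hp, hpl⟩ := Polynomial.exists_eq_pow_rootMultiplicity_mul_and_not_dvd
    (P.map PowerSeries.constantCoeff) hQP0 l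
  set a := (P.map PowerSeries.constantCoeff).rootMultiplicity l with ha
  have hpl' : p.eval l ≠ 0 := by
    intro h
    exact hpl (Polynomial.dvd_iff_isRoot.2 h)
  have haμ : a ≤ μ := by
    apply hmax
    intro j
    rw [hB j, Polynomial.map_mul, hp, mul_assoc]
    exact dvd_mul_right _ _
  have hX : (X - C l : Polynomial K) ≠ 0 := Polynomial.X_sub_C_ne_zero l
  have hBW : ∀ j, p.eval l * ((B j).map PowerSeries.constantCoeff).eval l =
      (0 : K) ^ (μ - a) * (W j).eval l := by
    intro j
    have h1 : (X - C l) ^ a * (p * (B j).map PowerSeries.constantCoeff) =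
        (X - C l) ^ a * ((X - C l) ^ (μ - a) * W j) := by
      rw [← mul_assoc, ← hp, ← Polynomial.map_mul, ← hB j, hW j, ← mul_assoc, ← pow_add]
      congr 2
      omega
    have h2 := mul_left_cancel₀ (pow_ne_zero a hX) h1
    have h3 := congrArg (Polynomial.eval l) h2
    simpa using h3
  obtain ⟨j, hj⟩ := hG l hroot μ W hW hW0
    (PowerSeries.coeff 1 (P.eval (PowerSeries.C l)) * ((0 : K) ^ (μ - a) / p.eval l))
  apply hj
  have hev : ∀ F : Polynomial (PowerSeries K), PowerSeries.constantCoeff
      (F.eval (PowerSeries.C l)) = (F.map PowerSeries.constantCoeff).eval l := by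
    intro F
    rw [Polynomial.eval_map, Polynomial.eval, Polynomial.hom_eval₂]
    simp
  have h1 : (Q j).eval (PowerSeries.C l) =
      P.eval (PowerSeries.C l) * (B j).eval (PowerSeries.C l) := by
    conv_lhs => rw [hB j, Polynomial.eval_mul]
  rw [h1, PowerSeries.coeff_mul]
  have h2 : Finset.HasAntidiagonal.antidiagonal (1 : ℕ) = {((0 : ℕ), (1 : ℕ)), (1, 0)} := by decide
  rw [h2, Finset.sum_pair (by decide)]
  simp only [PowerSeries.coeff_zero_eq_constantCoeff]
  rw [hev P, hl, zero_mul, zero_add, hev (B j)]
  have h3 := hBW j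
  field_simp
  rw [mul_assoc _ ((0 : K) ^ (μ - a)), ← h3]
  ring

end Pool.Agent.VFS
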