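import Mathlib

/-!
# Smooth points add-on: the cover `x ↦ x ^ e` (SP-D)

`k` is a field, `I` a set of polynomials in the variables `ι`, `f : ι → k[X]` a tuple of nominal degree `d`. A *section* of `f`
is a tuple `G` of nominal degree `D` with `∑ a, (∂E/∂X_a)(f) G_a = 0` for all `E ∈ I`. If `f` is very free (for `p ≠ q` there
are sections that vanish at `p` and take any tangent value at `q`, up to multiples of `f`), then for `e > m` the tuple
`F₀ = f (X ^ e)` has, at every point of the projective line, sections of degree `e d - m` with any tangent value, up to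
multiples of `F₀`.
-/

set_option autoImplicit false

namespace Pool.Agent.VFS

open Polynomial

variable {k : Type*} [Field k] {ι : Type*} [Fintype ι]

/-- `∑ a, (∂E/∂X_a)(v) u_a` -/
noncomputable def dv (E : MvPolynomial ι k) (v u : ι → k) : k :=
  ∑ a, MvPolynomial.eval v (MvPolynomial.pderiv a E) * u a

/-- `∑ a, (∂E/∂X_a)(f) G_a` -/
noncomputable def dp (E : MvPolynomial ι k) (f G : ι → k[X]) : k[X] :=
  ∑ a, MvPolynomial.aeval f (MvPolynomial.pderiv a E) * G a

/-- sections of `f` of degree `≤ D` -/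
def Sec (I : Set (MvPolynomial ι k)) (f : ι → k[X]) (D : ℕ) (G : ι → k[X]) : Prop :=
  (∀ a, (G a).natDegree ≤ D) ∧ ∀ E ∈ I, dp E f G = 0

theorem dp_mul (E : MvPolynomial ι k) (f G : ι → k[X]) (r : k[X]) :
    dp E f (fun a => r * G a) = r * dp E f G := by
  unfold dp
  rw [Finset.mul_sum]
  refine Finset.sum_congr rfl fun a _ => ?_
  ring

theorem dp_sub (E : MvPolynomial ι k) (f G H : ι → k[X]) :
    dp E f (fun a => G a - H a) = dp E f G - dp E f H := by
  unfold dp
  rw [← Finset.sum_sub_distrib]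
  refine Finset.sum_congr rfl fun a _ => ?_
  ring

omit [Fintype ι] in
theorem aeval_expand (e : ℕ) (f : ι → k[X]) (P : MvPolynomial ι k) :
    MvPolynomial.aeval (fun a => expand k e (f a)) P = expand k e (MvPolynomial.aeval f P) := by
  have h : (MvPolynomial.aeval (fun a => expand k e (f a)) : MvPolynomial ι k →ₐ[k] k[X]) =
      (expand k e).comp (MvPolynomial.aeval f) := by
    apply MvPolynomial.algHom_ext
    intro a
    simp
  rw [h]
  rfl

theorem dp_expand (e : ℕ) (E : MvPolynomial ι k) (f G : ι → k[X]) :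
    dp E (fun a => expand k e (f a)) (fun a => expand k e (G a)) = expand k e (dp E f G) := by
  unfold dp
  rw [map_sum]
  refine Finset.sum_congr rfl fun a _ => ?_
  rw [aeval_expand, map_mul]

/-- a section which is a multiple of `f` at `p` is, up to a multiple of `f`, `X - p` times a section -/
theorem sec_div {I : Set (MvPolynomial ι k)} {f : ι → k[X]} {d : ℕ} (hfd : ∀ a, (f a).natDegree ≤ d)
    (hff : ∀ E ∈ I, dp E f f = 0) {G : ι → k[X]} (hG : Sec I f d G) {p c : k}
    (hp : ∀ a, (G a).eval p = c * (f a).eval p) :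
    ∃ G1 : ι → k[X], (∀ a, G a - C c * f a = (X - C p) * G1 a) ∧ (∀ a, (G1 a).natDegree ≤ d - 1) ∧
      (∀ a, G1 a = 0 ∨ 0 < d) ∧ ∀ E ∈ I, dp E f G1 = 0 := by
  have h1 : ∀ a, ∃ g : k[X], G a - C c * f a = (X - C p) * g := by
    intro a
    have : (X - C p) ∣ G a - C c * f a := by
      rw [dvd_iff_isRoot, IsRoot.def, eval_sub, eval_mul, eval_C, hp a, sub_self]
    exact this
  choose G1 hG1 using h1
  have hdeg : ∀ a, (G a - C c * f a).natDegree ≤ d := by
    intro a
    refine (natDegree_sub_le _ _).trans (max_le (hG.1 a) ?_)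
    exact (natDegree_C_mul_le _ _).trans (hfd a)
  have hdeg1 : ∀ a, G1 a ≠ 0 → (G1 a).natDegree + 1 ≤ d := by
    intro a ha
    have := hdeg a
    rw [hG1 a, natDegree_mul (X_sub_C_ne_zero p) ha, natDegree_X_sub_C] at this
    omega
  refine ⟨G1, hG1, fun a => ?_, fun a => ?_, fun E hE => ?_⟩
  · by_cases ha : G1 a = 0
    · rw [ha, natDegree_zero]
      exact Nat.zero_le _
    · have := hdeg1 a ha
      omega
  · by_cases ha : G1 a = 0
    · exact Or.inl ha
    · have := hdeg1 a ha
      exact Or.inr (by omega)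
  · have h2 : dp E f (fun a => G a - C c * f a) = 0 := by
      have h3 := dp_sub E f G (fun a => C c * f a)
      rw [h3, dp_mul, hff E hE, hG.2 E hE, mul_zero, sub_zero]
    have h4 : dp E f (fun a => G a - C c * f a) = (X - C p) * dp E f G1 := by
      rw [← dp_mul]
      congr 1
      funext a
      exact hG1 a
    rw [h4] at h2
    exact (mul_eq_zero.1 h2).resolve_left (X_sub_C_ne_zero p)

/-- **the cover at a finite point** -/
theorem cover_fin {I : Set (MvPolynomial ι k)} {f : ι → k[X]} {d e m : ℕ} (he : m < e)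
    (hfd : ∀ a, (f a).natDegree ≤ d) (hff : ∀ E ∈ I, dp E f f = 0)
    (hvf : ∀ p q : k, p ≠ q → ∀ u : ι → k, (∀ E ∈ I, dv E (fun a => (f a).eval q) u = 0) →
      ∃ G, Sec I f d G ∧ (∃ c : k, ∀ a, (G a).eval p = c * (f a).eval p) ∧
        ∃ c : k, ∀ a, (G a).eval q = u a + c * (f a).eval q)
    (x : k) (u : ι → k) (hu : ∀ E ∈ I, dv E (fun a => (expand k e (f a)).eval x) u = 0) :
    ∃ δ, Sec I (fun a => expand k e (f a)) (e * d - m) δ ∧
      ∃ c : k, ∀ a, (δ a).eval x = u a + c * (expand k e (f a)).eval x := by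
  have hev : ∀ g : k[X], (expand k e g).eval x = g.eval (x ^ e) := fun g => expand_eval e g x
  simp only [hev] at hu ⊢
  obtain ⟨G, hG, ⟨c, hc⟩, c', hc'⟩ := hvf (x ^ e + 1) (x ^ e) (by simp) u hu
  obtain ⟨G1, h1, h2, h3, h4⟩ := sec_div hfd hff hG hc
  refine ⟨fun a => C (-1) * expand k e (G1 a), ⟨fun a => ?_, fun E hE => ?_⟩, c' - c, fun a => ?_⟩
  · rcases h3 a with h5 | h5
    · simp only [h5, map_zero, mul_zero, natDegree_zero]
      exact Nat.zero_le _
    · refine (natDegree_C_mul_le _ _).trans ?_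
      rw [natDegree_expand]
      have h6 := h2 a
      calc (G1 a).natDegree * e ≤ (d - 1) * e := Nat.mul_le_mul_right _ h6
        _ ≤ e * d - m := by
          obtain ⟨d', rfl⟩ : ∃ d', d = d' + 1 := ⟨d - 1, by omega⟩
          rw [Nat.add_sub_cancel, Nat.mul_add, Nat.mul_one, Nat.mul_comm d' e]
          omega
  · have h5 := dp_mul E (fun a => expand k e (f a)) (fun a => expand k e (G1 a)) (C (-1))
    rw [h5, dp_expand, h4 E hE, map_zero, mul_zero]
  · have h5 := congrArg (eval (x ^ e)) (h1 a)
    rw [eval_sub, eval_mul, eval_C, eval_mul, eval_sub, eval_X, eval_C, hc' a] at h5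
    rw [eval_mul, eval_C, hev]
    linear_combination -h5

/-- **the cover at infinity** -/
theorem cover_inf {I : Set (MvPolynomial ι k)} {f : ι → k[X]} {d e m : ℕ} (he : m < e)
    (hfd : ∀ a, (f a).natDegree ≤ d) (hff : ∀ E ∈ I, dp E f f = 0)
    (hvf : ∀ p : k, ∀ u : ι → k, (∀ E ∈ I, dv E (fun a => (f a).coeff d) u = 0) →
      ∃ G, Sec I f d G ∧ (∃ c : k, ∀ a, (G a).eval p = c * (f a).eval p) ∧
        ∃ c : k, ∀ a, (G a).coeff d = u a + c * (f a).coeff d)
    (u : ι → k) (hu : ∀ E ∈ I, dv E (fun a => (expand k e (f a)).coeff (e * d)) u = 0) :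
    ∃ δ, Sec I (fun a => expand k e (f a)) (e * d - m) δ ∧
      ∃ c : k, ∀ a, (δ a).coeff (e * d - m) = u a + c * (expand k e (f a)).coeff (e * d) := by
  have he0 : 0 < e := by omega
  have hev : ∀ g : k[X], ∀ n, (expand k e g).coeff (e * n) = g.coeff n := fun g n => coeff_expand_mul' he0 g n
  simp only [hev] at hu ⊢
  obtain ⟨G, hG, ⟨c, hc⟩, c', hc'⟩ := hvf 0 u hu
  obtain ⟨G1, h1, h2, h3, h4⟩ := sec_div hfd hff hG hc
  refine ⟨fun a => X ^ (e - m) * expand k e (G1 a), ⟨fun a => ?_, fun E hE => ?_⟩, c' - c, fun a => ?_⟩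
  · rcases h3 a with h5 | h5
    · simp only [h5, map_zero, mul_zero, natDegree_zero]
      exact Nat.zero_le _
    · refine natDegree_mul_le.trans ?_
      rw [natDegree_expand, natDegree_X_pow]
      have h6 := h2 a
      calc e - m + (G1 a).natDegree * e ≤ e - m + (d - 1) * e := Nat.add_le_add_left (Nat.mul_le_mul_right _ h6) _
        _ ≤ e * d - m := by
          obtain ⟨d', rfl⟩ : ∃ d', d = d' + 1 := ⟨d - 1, by omega⟩
          rw [Nat.add_sub_cancel, Nat.mul_add, Nat.mul_one, Nat.mul_comm d' e]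
          omega
  · have h5 := dp_mul E (fun a => expand k e (f a)) (fun a => expand k e (G1 a)) (X ^ (e - m))
    rw [h5, dp_expand, h4 E hE, map_zero, mul_zero]
  · have h5 := congrArg (fun g => coeff g d) (h1 a)
    simp only [coeff_sub, coeff_C_mul, hc' a] at h5
    change (X ^ (e - m) * expand k e (G1 a)).coeff (e * d - m) = u a + (c' - c) * (f a).coeff d
    rcases Nat.eq_zero_or_pos d with hd | hd
    · have h6 : G1 a = 0 := (h3 a).resolve_right (by omega)
      rw [h6] at h5 ⊢
      simp only [mul_zero, coeff_zero, map_zero] at h5 ⊢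
      linear_combination -h5
    · obtain ⟨d', rfl⟩ : ∃ d', d = d' + 1 := ⟨d - 1, by omega⟩
      have h7 : e * (d' + 1) - m = (e - m) + e * d' := by
        rw [Nat.mul_add, Nat.mul_one]
        omega
      have h8 : (G1 a).coeff (d' + 1) = 0 := by
        apply coeff_eq_zero_of_natDegree_lt
        have := h2 a
        omega
      rw [h7, add_comm (e - m), coeff_X_pow_mul, hev]
      rw [sub_mul, coeff_sub, coeff_X_mul, coeff_C_mul, h8] at h5
      linear_combination -h5

/-- distinct `e`-th roots of distinct numbers -/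
theorem cover_points [IsAlgClosed k] {m e : ℕ} (he : 0 < e) (c : Fin m → k) (hc : Function.Injective c) :
    ∃ c' : Fin m → k, Function.Injective c' ∧ ∀ i, c' i ^ e = c i := by
  choose c' hc' using fun i => IsAlgClosed.exists_pow_nat_eq (c i) he
  refine ⟨c', fun i j hij => hc ?_, hc'⟩
  rw [← hc' i, ← hc' j, hij]

/-- the sections of degree `≤ D` are spanned by finitely many -/
theorem sec_basis (I : Set (MvPolynomial ι k)) (f : ι → k[X]) (D : ℕ) :
    ∃ (h : ℕ) (δ : Fin h → ι → k[X]), (∀ j, Sec I f D (δ j)) ∧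
      ∀ G, Sec I f D G → ∃ c : Fin h → k, ∀ a, G a = ∑ j, C (c j) * δ j a := by
  classical
  let S : Submodule k (ι → k[X]) :=
    { carrier := {G | Sec I f D G}
      zero_mem' := ⟨fun a => by simp, fun E _ => by simp [dp]⟩
      add_mem' := by
        rintro G H ⟨h1, h2⟩ ⟨h3, h4⟩
        refine ⟨fun a => (natDegree_add_le _ _).trans (max_le (h1 a) (h3 a)), fun E hE => ?_⟩
        have : dp E f (G + H) = dp E f G + dp E f H := by
          unfold dp
          rw [← Finset.sum_add_distrib]
          refine Finset.sum_congr rfl fun a _ => ?_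
          rw [Pi.add_apply, mul_add]
        rw [this, h2 E hE, h4 E hE, add_zero]
      smul_mem' := by
        rintro c G ⟨h1, h2⟩
        refine ⟨fun a => ?_, fun E hE => ?_⟩
        · rw [Pi.smul_apply, smul_eq_C_mul]
          exact (natDegree_C_mul_le _ _).trans (h1 a)
        · have : dp E f (c • G) = C c * dp E f G := by
            rw [← dp_mul]
            congr 1
            funext a
            rw [Pi.smul_apply, smul_eq_C_mul]
          rw [this, h2 E hE, mul_zero] }
  let φ : S →ₗ[k] (ι → Fin (D + 1) → k) :=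
    { toFun := fun G a n => ((G : ι → k[X]) a).coeff n
      map_add' := fun G H => by
        funext a n
        simp
      map_smul' := fun c G => by
        funext a n
        simp }
  have hφ : Function.Injective φ := by
    intro G H hGH
    apply Subtype.ext
    funext a
    ext n
    by_cases hn : n < D + 1
    · exact congrFun (congrFun hGH a) ⟨n, hn⟩
    · rw [coeff_eq_zero_of_natDegree_lt (lt_of_le_of_lt (G.2.1 a) (by omega)),
        coeff_eq_zero_of_natDegree_lt (lt_of_le_of_lt (H.2.1 a) (by omega))]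
  have hfin : Module.Finite k S := Module.Finite.of_injective φ hφ
  let b := Module.finBasis k S
  refine ⟨Module.finrank k S, fun j => (b j : ι → k[X]), fun j => (b j).2, fun G hG => ?_⟩
  refine ⟨fun j => b.repr ⟨G, hG⟩ j, fun a => ?_⟩
  have h1 := b.sum_repr ⟨G, hG⟩
  have h2 := congrArg (fun z : S => (z : ι → k[X]) a) h1
  simp only [Submodule.coe_sum, Finset.sum_apply, Submodule.coe_smul, Pi.smul_apply, smul_eq_C_mul] at h2
  exact h2.symm

end Pool.Agent.VFS
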