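import Pool.Agent.Lib_MP_1858fb_w.FormalM

/-!
The formal deformation with marks, as a tuple of polynomials over `k[[ξ]]`.
-/

set_option autoImplicit false

namespace Pool.Agent.VFS.FX

open Polynomial Pool.Agent.VF.Fm

variable {K : Type*} [Field K] {σ : Type*} {M : Type*} {ι : Type*}

/-- `k[[ξ]][X] → k[X][[ξ]]` -/
noncomputable def th (σ : Type*) (K : Type*) [Field K] :
    (MvPowerSeries σ K)[X] →+* MvPowerSeries σ K[X] :=
  eval₂RingHom (MvPowerSeries.map (C : K →+* K[X])) (MvPowerSeries.C (X : K[X]))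

theorem coeff_th (p : (MvPowerSeries σ K)[X]) (μ : σ →₀ ℕ) (n : ℕ) :
    (MvPowerSeries.coeff μ (th σ K p)).coeff n = MvPowerSeries.coeff μ (p.coeff n) := by
  induction p using Polynomial.induction_on' with
  | add p q hp hq => rw [map_add, map_add, coeff_add, hp, hq, coeff_add, map_add]
  | monomial m a =>
    have h1 : th σ K (monomial m a) =
        MvPowerSeries.map (C : K →+* K[X]) a * MvPowerSeries.C (X ^ m : K[X]) := by
      rw [th, coe_eval₂RingHom, eval₂_monomial, map_pow]
    rw [h1, MvPowerSeries.coeff_mul_C, MvPowerSeries.coeff_map, coeff_C_mul_X_pow, coeff_monomial]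
    by_cases h : n = m
    · rw [if_pos h, if_pos h.symm]
    · rw [if_neg h, if_neg (Ne.symm h), map_zero]

theorem th_injective : Function.Injective (th σ K) := by
  intro p q h
  ext n μ
  rw [← coeff_th, ← coeff_th, h]

theorem th_algebraMap (c : K) :
    th σ K (algebraMap K (MvPowerSeries σ K)[X] c) = algebraMap K (MvPowerSeries σ K[X]) c := by
  rw [Polynomial.algebraMap_apply, th, coe_eval₂RingHom, eval₂_C, MvPowerSeries.algebraMap_apply,
    MvPowerSeries.map_C, MvPowerSeries.algebraMap_apply]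
  rfl

/-- bounded degrees: every series comes from a polynomial over `k[[ξ]]` -/
theorem exists_th {d : ℕ} (f : MvPowerSeries σ K[X])
    (hf : ∀ μ, (MvPowerSeries.coeff μ f).natDegree ≤ d) :
    ∃ p : (MvPowerSeries σ K)[X], p.natDegree ≤ d ∧ th σ K p = f := by
  let a : ℕ → MvPowerSeries σ K := fun n μ => (MvPowerSeries.coeff μ f).coeff n
  have ha : ∀ n μ, MvPowerSeries.coeff μ (a n) = (MvPowerSeries.coeff μ f).coeff n :=
    fun n μ => rfl
  refine ⟨∑ n ∈ Finset.range (d + 1), monomial n (a n), ?_, ?_⟩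
  · refine natDegree_sum_le_of_forall_le _ _ fun n hn => (natDegree_monomial_le _).trans ?_
    have := Finset.mem_range.1 hn
    omega
  · ext μ n
    rw [coeff_th, finsetSum_coeff]
    simp only [coeff_monomial]
    rw [Finset.sum_ite_eq' (Finset.range (d + 1)) n]
    split_ifs with h
    · exact ha n μ
    · rw [map_zero]
      symm
      apply coeff_eq_zero_of_natDegree_lt
      have h1 := hf μ
      have h2 : ¬ n < d + 1 := fun h' => h (Finset.mem_range.2 h')
      omega

theorem th_aeval (F : M → (MvPowerSeries σ K)[X]) (E : MvPolynomial M K) :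
    th σ K (MvPolynomial.aeval F E) = MvPolynomial.aeval (fun j => th σ K (F j)) E := by
  rw [MvPolynomial.aeval_def, MvPolynomial.aeval_def, MvPolynomial.hom_eval₂]
  congr 1
  ext b : 1
  exact th_algebraMap b

theorem map_evalRingHom_th (c : K) (p : (MvPowerSeries σ K)[X]) :
    MvPowerSeries.map (evalRingHom c) (th σ K p) = p.eval (algebraMap K (MvPowerSeries σ K) c) := by
  induction p using Polynomial.induction_on' with
  | add p q hp hq => rw [map_add, map_add, hp, hq, eval_add]
  | monomial m a =>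
    have h1 : th σ K (monomial m a) =
        MvPowerSeries.map (C : K →+* K[X]) a * MvPowerSeries.C (X ^ m : K[X]) := by
      rw [th, coe_eval₂RingHom, eval₂_monomial, map_pow]
    have h2 : MvPowerSeries.map (evalRingHom c) (MvPowerSeries.map (C : K →+* K[X]) a) = a := by
      ext μ
      rw [MvPowerSeries.coeff_map, MvPowerSeries.coeff_map]
      simp
    rw [h1, map_mul, h2, MvPowerSeries.map_C, eval_monomial, MvPowerSeries.algebraMap_apply]
    simp

theorem map_constantCoeff_th (p : (MvPowerSeries σ K)[X]) :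
    MvPowerSeries.constantCoeff (th σ K p) = p.map MvPowerSeries.constantCoeff := by
  ext n
  rw [← MvPowerSeries.coeff_zero_eq_constantCoeff_apply, coeff_th, coeff_map,
    MvPowerSeries.coeff_zero_eq_constantCoeff_apply]

/-- **Formal deformation with marked points, over `k[[ξ]]`.** -/
theorem exists_formal_X [Fintype M] [Fintype σ] (I : Ideal (MvPolynomial M K)) (d : ℕ)
    (c : ι → K) (F0 : M → K[X]) (g : σ → M → K[X]) (hF0d : ∀ j, (F0 j).natDegree ≤ d)
    (hgd : ∀ i j, (g i j).natDegree ≤ d) (hgc : ∀ i a j, (g i j).eval (c a) = 0)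
    (hF0 : ∀ E ∈ I, MvPolynomial.aeval F0 E = 0)
    (hF0c : ∀ a, ∃ j, (F0 j).eval (c a) ≠ 0)
    (hg : ∀ i, ∀ E ∈ I, ∑ j, MvPolynomial.aeval F0 (MvPolynomial.pderiv j E) * g i j = 0)
    (hobs : ∀ o : MvPolynomial M K → K[X],
      (∀ E ∈ I, ∀ G, o (G * E) = MvPolynomial.aeval F0 G * o E) →
      (∀ E ∈ I, ∀ E' ∈ I, o (E + E') = o E + o E') →
      (∀ E ∈ I, ∀ e, E.IsHomogeneous e → ∀ a, (o E).eval (c a) = 0) →
      (∀ E ∈ I, ∀ e, E.IsHomogeneous e → (o E).natDegree ≤ d * e) →
      ∃ δ : M → K[X], Marked c F0 δ ∧ (∀ j, (δ j).natDegree ≤ d) ∧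
        ∀ E ∈ I, ∑ j, MvPolynomial.aeval F0 (MvPolynomial.pderiv j E) * δ j = o E) :
    ∃ F : M → (MvPowerSeries σ K)[X],
      (∀ j, (F j).natDegree ≤ d) ∧
      (∀ a, ∃ S : MvPowerSeries σ K, IsUnit S ∧
        ∀ j, (F j).eval (algebraMap K _ (c a)) = S * algebraMap K _ ((F0 j).eval (c a))) ∧
      (∀ j, (F j).map MvPowerSeries.constantCoeff = F0 j) ∧
      (∀ i j n, MvPowerSeries.coeff (Finsupp.single i 1) ((F j).coeff n) = (g i j).coeff n) ∧
      ∀ E ∈ I, MvPolynomial.aeval F E = 0 := by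
  obtain ⟨F, h1, h2, h3, h4, h5⟩ := exists_formal_marks I d c F0 g hF0d hgd
    (fun i a => ⟨0, fun j => by rw [hgc, zero_mul]⟩) hF0 hg hobs
  choose G hG hGth using fun j => exists_th (F j) (h1 j)
  have hG3 : ∀ j, (G j).map MvPowerSeries.constantCoeff = F0 j := by
    intro j
    rw [← map_constantCoeff_th, hGth, h3]
  refine ⟨G, hG, fun a => ?_, hG3, fun i j n => ?_, fun E hE => ?_⟩
  · obtain ⟨S, hS⟩ := mark_series h2 a
    have hS' : ∀ j, (G j).eval (algebraMap K _ (c a)) = S * algebraMap K _ ((F0 j).eval (c a)) := by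
      intro j
      rw [← map_evalRingHom_th, hGth, hS]
    refine ⟨S, ?_, hS'⟩
    obtain ⟨j, hj⟩ := hF0c a
    rw [MvPowerSeries.isUnit_iff_constantCoeff, isUnit_iff_ne_zero]
    intro h0
    apply hj
    have h6 := congrArg MvPowerSeries.constantCoeff (hS' j)
    rw [map_mul, h0, zero_mul] at h6
    have h7 : MvPowerSeries.constantCoeff ((G j).eval (algebraMap K (MvPowerSeries σ K) (c a))) =
        ((G j).map MvPowerSeries.constantCoeff).eval (c a) := by
      rw [eval_map, ← Polynomial.eval₂_id, Polynomial.hom_eval₂, RingHom.comp_id]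
      congr 1
    rw [h7, hG3] at h6
    exact h6
  · rw [← coeff_th, hGth, h4]
  · apply th_injective
    rw [th_aeval, map_zero]
    simp only [hGth]
    exact h5 E hE

end Pool.Agent.VFS.FX
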