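import Pool.Agent.Lib_MP_1858fb_s.Iface
import Pool.Agent.Lib_MP_1858fb_s.FormalX
import Pool.Agent.Lib_MP_1858fb_w.ObsMarks
import Pool.Agent.Lib_MP_1858fb_w.Bridge

/-!
# Smooth points add-on: the formal deformation with marked points (DEF)

`exists_deform`: for `Start V d m F0` and sections `δ j` of degree `d - m` there is a formal
deformation of `F0` over `k[[ξ]]` with first order terms `Π δ j` and projective marks at `c i`.
-/

set_option autoImplicit false

namespace Pool.Agent.VFS

open Polynomial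

namespace DX

section

variable {k : Type} [Field k] {N : ℕ} {V : Set (Fin (N + 1) → k)}

theorem eval_aeval_tuple {ι : Type} (f : ι → k[X]) (E : MvPolynomial ι k) (x : k) :
    (MvPolynomial.aeval f E).eval x = MvPolynomial.aeval (fun a => (f a).eval x) E := by
  have h : (Polynomial.aeval x : k[X] →ₐ[k] k) (MvPolynomial.aeval f E) =
      MvPolynomial.aeval (fun i => (Polynomial.aeval x : k[X] →ₐ[k] k) (f i)) E := by
    rw [← AlgHom.comp_apply, MvPolynomial.comp_aeval]
  rw [← Polynomial.coe_aeval_eq_eval]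
  exact h

/-- the curve satisfies the equations of `V` -/
theorem start_eqs [Infinite k] {d m : ℕ} {F0 : Fin (N + 1) → k[X]} (h0 : Start V d m F0) :
    ∀ E ∈ VF.van V, MvPolynomial.aeval F0 E = 0 := by
  intro E hE
  refine Polynomial.funext fun x => ?_
  rw [eval_aeval_tuple, Polynomial.eval_zero]
  exact hE _ (h0.fin x)

/-- `V` does not contain the vector `0` -/
theorem ne_zero_of_mem (hV : VF.LocClosed V) {x : Fin (N + 1) → k} (hx : x ∈ V) : x ≠ 0 := by
  obtain ⟨I, J, hhom, rfl⟩ := hV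
  exact hx.1

theorem exists_ne_zero_of_mem (hV : VF.LocClosed V) {x : Fin (N + 1) → k} (hx : x ∈ V) :
    ∃ a, x a ≠ 0 := by
  by_contra hcon
  push Not at hcon
  exact ne_zero_of_mem hV hx (funext hcon)

theorem locGen_tuple {c : ℕ} {a : k} (F0 : Fin (N + 1) → k[X])
    (h : VF.SmoothAt c V (fun i => (F0 i).eval a)) : VF.Obs.LocGen F0 (VF.van V) c a := by
  obtain ⟨E, H, hE, hli, hH, hgen⟩ := h
  refine ⟨E, hE, ?_, fun P hP => ⟨H, ?_, hgen P hP⟩⟩
  · convert hli using 3
    rw [VF.Obs.dif, eval_aeval_tuple]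
  · intro h0
    apply hH
    rw [← eval_aeval_tuple, h0, Polynomial.eval_zero]

theorem dif_eval_tuple (F0 : Fin (N + 1) → k[X]) (E : MvPolynomial (Fin (N + 1)) k) (a : k)
    (x : Fin (N + 1) → k) :
    ∑ i, (VF.Obs.dif F0 E i).eval a * x i = VF.dif E (fun i => (F0 i).eval a) x := by
  rw [VF.dif]
  refine Finset.sum_congr rfl fun i _ => ?_
  rw [VF.Obs.dif, eval_aeval_tuple]

theorem dif_coeff_tuple {d : ℕ} {F0 : Fin (N + 1) → k[X]} (hd : ∀ a, (F0 a).natDegree ≤ d)
    {E : MvPolynomial (Fin (N + 1)) k} {e : ℕ} (hE : E.IsHomogeneous e)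
    (x : Fin (N + 1) → k) :
    ∑ i, (VF.Obs.dif F0 E i).coeff (d * (e - 1)) * x i =
      VF.dif E (fun i => (F0 i).coeff d) x := by
  rw [VF.dif]
  refine Finset.sum_congr rfl fun i _ => ?_
  rw [VF.Obs.dif, VF.Br.aeval_coeff hd hE.pderiv]

end

end DX

section

open DX

variable {k : Type} [Field k] {N : ℕ} {V : Set (Fin (N + 1) → k)}

/-- **DEF: the formal deformation with marked points.** -/
theorem exists_deform [IsAlgClosed k] (hV : VF.LocClosed V) {cc : ℕ}
    (hsm : ∀ x ∈ V, VF.SmoothAt cc V x) {d m : ℕ} {F0 : Fin (N + 1) → k[X]}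
    (h0 : Start V d m F0) (c : Fin m → k) (hc : Function.Injective c) {h : ℕ}
    (δ : Fin h → Fin (N + 1) → k[X]) (hδ : ∀ j, Sec (VF.van V : Set _) F0 (d - m) (δ j)) :
    ∃ F : Fin (N + 1) → (MvPowerSeries (Fin h) k)[X], Deform V d c F0 δ F := by
  classical
  have hinf : Infinite k := IsAlgClosed.instInfinite
  have hPd : (∏ i, (X - C (c i)) : k[X]).natDegree = m := by
    rw [Polynomial.natDegree_finsetProd_X_sub_C_eq_card]
    simp
  obtain ⟨F, h1, h2, h3, h4, h5⟩ := FX.exists_formal_X (σ := Fin h) (VF.van V) d c F0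
    (fun j a => (∏ i, (X - C (c i))) * δ j a) h0.deg
    (fun j a => by
      refine Polynomial.natDegree_mul_le.trans ?_
      have h6 := (hδ j).1 a
      have h7 := h0.hm
      omega)
    (fun j l a => by
      rw [eval_mul, eval_prod, Finset.prod_eq_zero (Finset.mem_univ l) (by simp), zero_mul])
    (start_eqs h0)
    (fun l => exists_ne_zero_of_mem hV (h0.fin (c l)))
    (fun j E hE => by
      have h6 := dp_mul E F0 (δ j) (∏ i, (X - C (c i)))
      rw [(hδ j).2 E hE, mul_zero] at h6
      exact h6)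
    (fun o ho1 ho2 ho3 ho4 => by
      refine VF.Obs.obs_marks (I := VF.van V) h0.hm hc
        (fun E hE e => VF.van_homogeneousComponent hV hE e) h0.deg (start_eqs h0)
        (locGen_tuple (a := 0) F0 (hsm _ (h0.fin 0))) ?_ ?_ o ho1 ho2 ho3 ho4
      · intro a x hx
        obtain ⟨g, hg, b, hb⟩ := h0.sfin a x (fun E hE => by
          rw [← dif_eval_tuple]
          exact hx E hE)
        exact ⟨g, hg, b, hb⟩
      · intro x hx
        obtain ⟨g, hg, b, hb⟩ := h0.sinf x (VF.Br.mem_tan_of_forms hV (fun E hE e he => by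
          rw [← dif_coeff_tuple h0.deg he]
          exact hx E hE e he))
        exact ⟨g, hg, b, hb⟩)
  exact ⟨F, h1, h2, h3, h4, h5⟩

end

end Pool.Agent.VFS
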