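import Pool.Agent.Lib_MP_1858fb_s.AsmZ
import Pool.Agent.Lib_MP_1858fb_s.Final
import Pool.Agent.Lib_MP_1858fb_g.DefsZ

/-!
# Smooth points, second part: transversal curves
-/

set_option autoImplicit false

namespace Pool.Agent.VFS

open Polynomial

variable {k : Type} [Field k] {N : ℕ} {V : Set (Fin (N + 1) → k)}

theorem goodZ_veryFree [IsAlgClosed k] {cc n : ℕ} (hcc : cc + n = N)
    (hV : VF.LocClosed V) (hsm : ∀ x ∈ V, VF.SmoothAt cc V x) {d m : ℕ} {c : Fin m → k}
    {v : Fin m → Fin (N + 1) → k} {𝓔 : Fin m → Set (MvPolynomial (Fin (N + 1)) k)} {c₀ x : k}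
    (hx : x ≠ c₀) {f : Fin (N + 1) → k[X]} (h : GoodZ V d c v 𝓔 c₀ x f) :
    VF.IsCurve V (fun (j : Fin (d + 1)) a => (f a).coeff j) ∧
      VF.VeryFree V (fun (j : Fin (d + 1)) a => (f a).coeff j) := by
  have h' : Good V d (m := 0) Fin.elim0 (fun i => i.elim0) c₀ x f :=
    { deg := h.deg
      fin := h.fin
      inf := h.inf
      mark := fun i => i.elim0
      uniq := fun i => i.elim0
      uniq_inf := fun i => i.elim0
      imm := fun i => i.elim0
      secs := h.secs }
  exact good_veryFree hcc hV hsm hx h'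

theorem dval_form {d : ℕ} (f : Fin (N + 1) → k[X]) (hd : ∀ a, (f a).natDegree ≤ d) (x : k) :
    dval (fun (j : Fin (d + 1)) a => (f a).coeff j) x = fun a => (derivative (f a)).eval x := by
  funext a
  unfold dval
  rw [derivative_eval, sum_over_range' _ _ (d + 1) (Nat.lt_succ_of_le (hd a)),
    Finset.sum_range]
  · refine Finset.sum_congr rfl fun j _ => ?_
    ring
  · intro n
    ring

theorem aeval_smul_form {κ : Type} {E : MvPolynomial κ k} {e : ℕ} (hE : E.IsHomogeneous e)
    (t : k) (x : κ → k) :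
    MvPolynomial.aeval (t • x) E = t ^ e * MvPolynomial.aeval x E := by
  classical
  rw [MvPolynomial.aeval_eq_eval₂Hom, MvPolynomial.aeval_eq_eval₂Hom, MvPolynomial.coe_eval₂Hom,
    MvPolynomial.coe_eval₂Hom, MvPolynomial.eval₂_eq, MvPolynomial.eval₂_eq, Finset.mul_sum]
  refine Finset.sum_congr rfl fun μ hμ => ?_
  have h1 : μ.degree = e := by
    have h0 := hE (MvPolynomial.mem_support_iff.mp hμ)
    rw [← h0]
    exact DFunLike.congr_fun (Finsupp.degree_eq_weight_one (R := ℕ) (σ := κ)) μ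
  have h2 : ∏ i ∈ μ.support, (t • x) i ^ μ i = t ^ e * ∏ i ∈ μ.support, x i ^ μ i := by
    rw [← h1, Finsupp.degree_apply, ← Finset.prod_pow_eq_pow_sum, ← Finset.prod_mul_distrib]
    refine Finset.prod_congr rfl fun i _ => ?_
    rw [Pi.smul_apply, smul_eq_mul, mul_pow]
  rw [h2]
  ring

theorem val_form_inf {d : ℕ} (f : Fin (N + 1) → k[X]) :
    VF.val (fun (j : Fin (d + 1)) a => (f a).coeff j) 0 1 = fun a => (f a).coeff d := by
  funext a
  exact BackInf.val_tup_zero_one f a

/-- **transversal curves**: through the points `v i`, meeting the zero set of `𝓔 i` only at the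
point `c i` of the parameter line, and not tangentially -/
theorem exists_transversal [IsAlgClosed k] (hV : VF.LocClosed V) {cc : ℕ} (hcc : cc < N)
    (hsm : ∀ x ∈ V, VF.SmoothAt cc V x) {d : ℕ} {F : Fin (d + 1) → Fin (N + 1) → k}
    (hF : VF.IsCurve V F) (hvf : VF.VeryFree V F) {m : ℕ} (hm : 0 < m)
    (v : Fin m → Fin (N + 1) → k) (hv : ∀ i, v i ∈ Img F)
    (𝓔 : Fin m → Set (MvPolynomial (Fin (N + 1)) k)) (hE : ∀ i, CodimTwo V (𝓔 i))
    (h1 : ∀ i, ∀ E ∈ 𝓔 i, MvPolynomial.aeval (v i) E = 0)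
    (h2 : ∀ i l, l ≠ i → ∃ E ∈ 𝓔 i, MvPolynomial.aeval (v l) E ≠ 0) :
    ∃ (d' : ℕ) (F' : Fin (d' + 1) → Fin (N + 1) → k) (c : Fin m → k),
      VF.IsCurve V F' ∧ VF.VeryFree V F' ∧ Function.Injective c ∧ ∀ i,
        (∃ t : k, t ≠ 0 ∧ VF.val F' 1 (c i) = t • v i) ∧
        (∀ p q : k, (p ≠ 0 ∨ q ≠ 0) →
          (∀ E ∈ 𝓔 i, MvPolynomial.aeval (VF.val F' p q) E = 0) → q = c i * p) ∧
        ∃ E ∈ 𝓔 i, VF.dif E (VF.val F' 1 (c i)) (dval F' (c i)) ≠ 0 := by
  classical
  have hvv : ∀ i j, i ≠ j → ∀ t : k, v i ≠ t • v j := by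
    intro i j hij t h
    obtain ⟨E, hE1, hE2⟩ := h2 j i hij
    obtain ⟨e, he⟩ := (hE j).hom E hE1
    apply hE2
    rw [h, aeval_smul_form he, h1 j E hE1, mul_zero]
  choose a p q ha hpq hvi using hv
  obtain ⟨D, c, F0, hc, h0, hF0⟩ := exists_start hV hcc hsm hF hvf (fun i => (p i, q i))
    (by
      intro i h
      have h1 := congrArg Prod.fst h
      have h2 := congrArg Prod.snd h
      rcases hpq i with h3 | h3
      · exact h3 h1
      · exact h3 h2)
    (by
      intro i j hij h
      simp only at h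
      -- the two points of the line are equal
      obtain ⟨t, ht⟩ : ∃ t : k, p i = t * p j ∧ q i = t * q j := by
        rcases hpq j with h3 | h3
        · refine ⟨p i / p j, ?_, ?_⟩
          · field_simp
          · field_simp
            linear_combination -h
        · refine ⟨q i / q j, ?_, ?_⟩
          · field_simp
            linear_combination h
          · field_simp
      apply hvv i j hij (a i * t ^ d * (a j)⁻¹)
      rw [hvi i, hvi j, ht.1, ht.2, val_smul_arg, smul_smul, smul_smul]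
      congr 1
      have := ha j
      field_simp)
  obtain ⟨c₀, x, f, hx, hG⟩ := core_Z hV hcc hsm h0 hm c hc v (by
    intro i
    obtain ⟨t, ht, h1⟩ := hF0 i
    refine ⟨t * (a i)⁻¹, mul_ne_zero ht (inv_ne_zero (ha i)), fun b => ?_⟩
    have h2 := congrFun h1 b
    simp only [Pi.smul_apply, smul_eq_mul] at h2
    rw [h2, hvi i, Pi.smul_apply, smul_eq_mul]
    have := ha i
    field_simp) 𝓔 hE h1 h2
  obtain ⟨hC, hVF⟩ := goodZ_veryFree (n := N - cc) (by omega) hV hsm hx hG
  refine ⟨D, _, c, hC, hVF, hc, fun i => ⟨?_, ?_, ?_⟩⟩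
  · obtain ⟨t, ht, h1⟩ := hG.mark i
    refine ⟨t, ht, ?_⟩
    rw [val_form_one f hG.deg]
    funext b
    exact h1 b
  · intro p' q' hpq' hz
    by_cases hp : p' = 0
    · exfalso
      subst hp
      have hq : q' ≠ 0 := by
        rcases hpq' with h | h
        · exact absurd rfl h
        · exact h
      obtain ⟨E, hE1, hE2⟩ := hG.uniq_inf i
      obtain ⟨e, he⟩ := (hE i).hom E hE1
      apply hE2
      have h3 := hz E hE1
      have h4 := val_smul_arg (fun (j : Fin (D + 1)) a => (f a).coeff j) q' 0 1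
      rw [mul_zero, mul_one] at h4
      rw [h4, aeval_smul_form he, mul_eq_zero] at h3
      rcases h3 with h3 | h3
      · exact absurd h3 (pow_ne_zero _ (pow_ne_zero _ hq))
      · rw [← h3, val_form_inf]
    · have h5 : q' / p' = c i := by
        apply hG.uniq i
        intro E hE1
        obtain ⟨e, he⟩ := (hE i).hom E hE1
        have h3 := hz E hE1
        have h4 := val_smul_arg (fun (j : Fin (D + 1)) a => (f a).coeff j) p' 1 (q' / p')
        rw [mul_one, mul_div_cancel₀ _ hp] at h4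
        rw [h4, aeval_smul_form he, mul_eq_zero] at h3
        rcases h3 with h3 | h3
        · exact absurd h3 (pow_ne_zero _ (pow_ne_zero _ hp))
        · rw [val_form_one f hG.deg] at h3
          exact h3
      rw [← h5]
      field_simp
  · obtain ⟨E, hE1, hE2⟩ := hG.imm i
    refine ⟨E, hE1, ?_⟩
    rw [val_form_one f hG.deg, dval_form f hG.deg]
    exact hE2

/-- **GZ-QP**: the statement `QPSmooth` of line G -/
theorem qpSmooth (k : Type) [Field k] [IsAlgClosed k] : VFG.QPSmooth k := by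
  intro N c m d V F v a G hc hV hsm hF hvf ha hv hG hG0 hdis hrk
  rcases Nat.eq_zero_or_pos m with hm | hm
  · subst hm
    exact ⟨d, F, Fin.elim0, fun i => i.elim0, hF, hvf, fun l => l.elim0, fun l => l.elim0,
      fun l => l.elim0⟩
  · obtain ⟨d', F', a', h1, h2, h3, h4⟩ := exists_transversal hV (cc := c) (by omega) hsm hF hvf
      hm v (fun i => by
        obtain ⟨b, hb, h⟩ := hv i
        refine ⟨b⁻¹, 1, a i, inv_ne_zero hb, Or.inl one_ne_zero, ?_⟩
        rw [h, smul_smul, inv_mul_cancel₀ hb, one_smul])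
      G (fun i => ⟨hG i, fun u hu hz => by
        obtain ⟨g, hg, g', hg', w, hw, w', hw', h⟩ := hrk i u hu hz
        exact ⟨g, hg, g', hg', w, hw, w', hw', h⟩⟩)
      hG0 (fun i l hl => hdis i l (Ne.symm hl))
    refine ⟨d', F', a', h3, h1, h2, fun l => ?_, fun l => (h4 l).2.1, fun l => ?_⟩
    · obtain ⟨t, ht, h⟩ := (h4 l).1
      exact ⟨t, ht, h⟩
    · obtain ⟨E, hE, h⟩ := (h4 l).2.2
      refine ⟨E, hE, ?_⟩
      have h5 : VFG.dval F' (a' l) = dval F' (a' l) := by
        funext i
        unfold VFG.dval dval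
        refine Finset.sum_congr rfl fun j _ => ?_
        ring
      rw [h5]
      exact h

end Pool.Agent.VFS
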