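import Pool.Agent.Lib_MP_1858fb_w.Defs
import Pool.Agent.Lib_MP_1858fb_s.Cover
import Pool.Agent.Lib_MP_1858fb_s.Der

/-!
# Smooth points add-on: the interface between the pieces

Curves are tuples of polynomials in `X = q / p`, of nominal degree `d`; the point at infinity
`(0 : 1)` corresponds to the coefficients of `X ^ d`. Everything is modulo the radial direction,
so that it works in every characteristic.
-/

set_option autoImplicit false

namespace Pool.Agent.VFS

open Polynomial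

/-- what the cover `X ↦ X ^ e` gives: a curve `F0` of degree `d` in `V` such that the sections of
degree `d - m` span the tangent spaces of `V` along `F0`, modulo multiples of `F0` -/
structure Start {k : Type} [Field k] {N : ℕ} (V : Set (Fin (N + 1) → k)) (d m : ℕ)
    (F0 : Fin (N + 1) → k[X]) : Prop where
  hm : m ≤ d
  deg : ∀ a, (F0 a).natDegree ≤ d
  fin : ∀ x : k, (fun a => (F0 a).eval x) ∈ V
  inf : (fun a => (F0 a).coeff d) ∈ V
  sfin : ∀ x : k, ∀ u ∈ VF.Tan V (fun a => (F0 a).eval x),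
    ∃ δ, Sec (VF.van V : Set _) F0 (d - m) δ ∧
      ∃ b : k, ∀ a, (δ a).eval x = u a + b * (F0 a).eval x
  sinf : ∀ u ∈ VF.Tan V (fun a => (F0 a).coeff d),
    ∃ δ, Sec (VF.van V : Set _) F0 (d - m) δ ∧
      ∃ b : k, ∀ a, (δ a).coeff (d - m) = u a + b * (F0 a).coeff d

/-- a formal deformation `F` of `F0` over `R = k[[ξ]]` with first order terms `Π δ j`,
`Π = ∏ (X - c i)`; the values at the marks `c i` are unit multiples of the vectors `F0 (c i)` -/
structure Deform {k : Type} [Field k] {N : ℕ} (V : Set (Fin (N + 1) → k)) (d : ℕ) {m : ℕ}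
    (c : Fin m → k) (F0 : Fin (N + 1) → k[X]) {h : ℕ} (δ : Fin h → Fin (N + 1) → k[X])
    (F : Fin (N + 1) → (MvPowerSeries (Fin h) k)[X]) : Prop where
  deg : ∀ a, (F a).natDegree ≤ d
  mark : ∀ i, ∃ S : MvPowerSeries (Fin h) k, IsUnit S ∧
    ∀ a, (F a).eval (algebraMap k _ (c i)) = S * algebraMap k _ ((F0 a).eval (c i))
  red : ∀ a, (F a).map MvPowerSeries.constantCoeff = F0 a
  lin : ∀ j a n, MvPowerSeries.coeff (Finsupp.single j 1) ((F a).coeff n) =
    ((∏ i, (X - C (c i))) * δ j a).coeff n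
  eqs : ∀ E ∈ VF.van V, MvPolynomial.aeval F E = 0

/-- the final system, over a `k`-algebra `A`: a curve `f` of degree `d` in `V` (`G l` are forms
that define the open part), with `f (c i)` a multiple of `v i`, a Bezout certificate for
`f⁻¹ (v i) = {c i}` as a reduced point, and `n` sections with value at `c₀` in the line of `f (c₀)`
which are independent modulo `f` at the point `x` -/
structure Cert {k : Type} [Field k] {N : ℕ} (V : Set (Fin (N + 1) → k)) (n d : ℕ) {m r : ℕ}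
    (c : Fin m → k) (v : Fin m → Fin (N + 1) → k) (a0 : Fin m → Fin (N + 1)) (c₀ x : k)
    (G : Fin r → MvPolynomial (Fin (N + 1)) k) (A : Type) [CommRing A] [Algebra k A] where
  f : Fin (N + 1) → A[X]
  deg : ∀ a, (f a).natDegree ≤ d
  eqs : ∀ E ∈ VF.van V, MvPolynomial.aeval f E = 0
  B : Fin r → A[X]
  hB : ∑ l, B l * MvPolynomial.aeval f (G l) = 1
  B' : Fin r → A
  hB' : ∑ l, B' l * MvPolynomial.aeval (fun a => (f a).coeff d) (G l) = 1
  t : Fin m → A
  ht : ∀ i, IsUnit (t i)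
  mark : ∀ i a, (f a).eval (algebraMap k A (c i)) = t i * algebraMap k A (v i a)
  q : Fin m → Fin (N + 1) → A[X]
  hq : ∀ i a, f a - f (a0 i) * C (algebraMap k A (v i a)) =
    (X - C (algebraMap k A (c i))) * q i a
  Q : Fin m → Fin (N + 1) → A[X]
  hQ : ∀ i, ∑ a, Q i a * q i a = 1
  a1 : Fin m → Fin (N + 1)
  ha1 : ∀ i, IsUnit ((f (a1 i)).coeff d - (f (a0 i)).coeff d * algebraMap k A (v i (a1 i)))
  g : Fin n → Fin (N + 1) → A[X]
  gdeg : ∀ j a, (g j a).natDegree ≤ d
  gtan : ∀ j, ∀ E ∈ VF.van V,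
    ∑ a, MvPolynomial.aeval f (MvPolynomial.pderiv a E) * g j a = 0
  b : Fin n → A
  hg : ∀ j a, (g j a).eval (algebraMap k A c₀) = b j * (f a).eval (algebraMap k A c₀)
  idx : Fin (n + 1) → Fin (N + 1)
  minor : IsUnit (Matrix.det (Matrix.of fun j l : Fin (n + 1) =>
    (Fin.cons (f (idx l)) (fun j => g j (idx l)) : Fin (n + 1) → A[X]) j
      |>.eval (algebraMap k A x)))

/-- what the system over `k` means: the curve is in `V`, `f⁻¹ (v i) = {c i}`, immersed there -/
structure Good {k : Type} [Field k] {N : ℕ} (V : Set (Fin (N + 1) → k)) (d : ℕ) {m : ℕ}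
    (c : Fin m → k) (v : Fin m → Fin (N + 1) → k) (c₀ x : k) (f : Fin (N + 1) → k[X]) :
    Prop where
  deg : ∀ a, (f a).natDegree ≤ d
  fin : ∀ x : k, (fun a => (f a).eval x) ∈ V
  inf : (fun a => (f a).coeff d) ∈ V
  mark : ∀ i, ∃ t : k, t ≠ 0 ∧ ∀ a, (f a).eval (c i) = t * v i a
  uniq : ∀ i, ∀ x : k, (∃ t : k, ∀ a, (f a).eval x = t * v i a) → x = c i
  uniq_inf : ∀ i, ¬ ∃ t : k, ∀ a, (f a).coeff d = t * v i a
  imm : ∀ i, ¬ ∃ t : k, ∀ a, (derivative (f a)).eval (c i) = t * v i a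
  secs : ∀ u ∈ VF.Tan V (fun a => (f a).eval x), ∃ g, Sec (VF.van V : Set _) f d g ∧
    (∃ b : k, ∀ a, (g a).eval c₀ = b * (f a).eval c₀) ∧
    ∃ b : k, ∀ a, (g a).eval x = u a + b * (f a).eval x

end Pool.Agent.VFS
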