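import Pool.Agent.Lib_MP_1858fb_s.Iface
import Pool.Agent.Lib_MP_1858fb_s.ImgDef

/-!
# Smooth points, second part: subsets of codimension at least two instead of points
-/

set_option autoImplicit false

namespace Pool.Agent.VFS

open Polynomial

/-- `𝓔` is a set of forms whose zero set `Z` in `V` has codimension at least two, in the sense of
the tangent spaces: at every point `u` of `Z` the differentials of two members are independent
on the tangent space of `V` -/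
structure CodimTwo {k : Type} [Field k] {N : ℕ} (V : Set (Fin (N + 1) → k))
    (𝓔 : Set (MvPolynomial (Fin (N + 1)) k)) : Prop where
  hom : ∀ E ∈ 𝓔, ∃ e : ℕ, E.IsHomogeneous e
  rank : ∀ u ∈ V, (∀ E ∈ 𝓔, MvPolynomial.aeval u E = 0) →
    ∃ E₁ ∈ 𝓔, ∃ E₂ ∈ 𝓔, ∃ w₁ ∈ VF.Tan V u, ∃ w₂ ∈ VF.Tan V u,
      VF.dif E₁ u w₁ * VF.dif E₂ u w₂ - VF.dif E₁ u w₂ * VF.dif E₂ u w₁ ≠ 0

/-- the final system, over a `k`-algebra `A`, with the forms `El i` of `𝓔 i` -/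
structure CertZ {k : Type} [Field k] {N : ℕ} (V : Set (Fin (N + 1) → k)) (n d : ℕ) {m r : ℕ}
    (c : Fin m → k) (v : Fin m → Fin (N + 1) → k) (c₀ x : k)
    (G : Fin r → MvPolynomial (Fin (N + 1)) k) {s : Fin m → ℕ}
    (El : ∀ i, Fin (s i) → MvPolynomial (Fin (N + 1)) k) (Eo : Fin m → MvPolynomial (Fin (N + 1)) k)
    (A : Type) [CommRing A] [Algebra k A] where
  f : Fin (N + 1) → A[X]
  deg : ∀ a, (f a).natDegree ≤ d
  eqs : ∀ E ∈ VF.van V, MvPolynomial.aeval f E = 0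
  B : Fin r → A[X]
  hB : ∑ l, B l * MvPolynomial.aeval f (G l) = 1
  B' : Fin r → A
  hB' : ∑ l, B' l * MvPolynomial.aeval (fun a => (f a).coeff d) (G l) = 1
  t : Fin m → A
  ht : ∀ i, IsUnit (t i)
  mark : ∀ i a, (f a).eval (algebraMap k A (c i)) = t i * algebraMap k A (v i a)
  q : ∀ i, Fin (s i) → A[X]
  hq : ∀ i l, MvPolynomial.aeval f (El i l) = (X - C (algebraMap k A (c i))) * q i l
  Q : ∀ i, Fin (s i) → A[X]
  hQ : ∀ i, ∑ l, Q i l * q i l = 1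
  hinf : ∀ i, IsUnit (MvPolynomial.aeval (fun a => (f a).coeff d) (Eo i))
  g : Fin n → Fin (N + 1) → A[X]
  gdeg : ∀ j a, (g j a).natDegree ≤ d
  gtan : ∀ j, ∀ E ∈ VF.van V,
    ∑ a, MvPolynomial.aeval f (MvPolynomial.pderiv a E) * g j a = 0
  b : Fin n → A
  hg : ∀ j a, (g j a).eval (algebraMap k A c₀) = b j * (f a).eval (algebraMap k A c₀)
  idx : Fin (n + 1) → Fin (N + 1)
  minor : IsUnit (Matrix.det (Matrix.of fun j l : Fin (n + 1) =>
    (Fin.cons (f (idx l)) (fun j => g j (idx l)) : Fin (n + 1) → A[X]) j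
      |>.eval (algebraMap k A x)))

/-- what the system over `k` means -/
structure GoodZ {k : Type} [Field k] {N : ℕ} (V : Set (Fin (N + 1) → k)) (d : ℕ) {m : ℕ}
    (c : Fin m → k) (v : Fin m → Fin (N + 1) → k) (𝓔 : Fin m → Set (MvPolynomial (Fin (N + 1)) k))
    (c₀ x : k) (f : Fin (N + 1) → k[X]) : Prop where
  deg : ∀ a, (f a).natDegree ≤ d
  fin : ∀ x : k, (fun a => (f a).eval x) ∈ V
  inf : (fun a => (f a).coeff d) ∈ V
  mark : ∀ i, ∃ t : k, t ≠ 0 ∧ ∀ a, (f a).eval (c i) = t * v i a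
  uniq : ∀ i, ∀ x : k, (∀ E ∈ 𝓔 i, MvPolynomial.aeval (fun a => (f a).eval x) E = 0) → x = c i
  uniq_inf : ∀ i, ∃ E ∈ 𝓔 i, MvPolynomial.aeval (fun a => (f a).coeff d) E ≠ 0
  imm : ∀ i, ∃ E ∈ 𝓔 i, VF.dif E (fun a => (f a).eval (c i))
    (fun a => (derivative (f a)).eval (c i)) ≠ 0
  secs : ∀ u ∈ VF.Tan V (fun a => (f a).eval x), ∃ g, Sec (VF.van V : Set _) f d g ∧
    (∃ b : k, ∀ a, (g a).eval c₀ = b * (f a).eval c₀) ∧
    ∃ b : k, ∀ a, (g a).eval x = u a + b * (f a).eval x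

/-- the derivative in `X` of the curve `F (1, X)` at `X = x` -/
def dval {k κ : Type} [Field k] {d : ℕ} (F : Fin (d + 1) → κ → k) (x : k) : κ → k :=
  fun a => ∑ j : Fin (d + 1), F j a * ((j : ℕ) * x ^ ((j : ℕ) - 1))

end Pool.Agent.VFS
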