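import Mathlib

/-!
# The equations of the cone over a curve near a point with one reduced preimage

Part A of IMG: elementary (Bezout in `k[X]` with degrees and a determinant).
-/

set_option autoImplicit false

namespace Pool.Agent.VFS

open Polynomial

section

variable {k : Type} [Field k]

/-- Bezout's identity with degrees. -/
theorem bezout_degrees [IsAlgClosed k] {ι : Type} [Fintype ι] [DecidableEq ι] (h : ι → k[X])
    (b : ι) (hb0 : h b ≠ 0) (hz : ∀ x : k, ∃ a, (h a).eval x ≠ 0) :
    ∃ e0 : ℕ, ∀ e, e0 ≤ e → ∀ P : k[X], P.natDegree ≤ e →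
      ∃ r : ι → k[X], (∀ a, (r a).natDegree ≤ e - (h b).natDegree) ∧ ∑ a, r a * h a = P := by
  have htop : Ideal.span (Set.range h) = ⊤ := by
    obtain ⟨g, hg⟩ := (IsPrincipalIdealRing.principal (Ideal.span (Set.range h))).principal
    have hdvd : ∀ a, g ∣ h a := by
      intro a
      have h1 : h a ∈ Ideal.span (Set.range h) := Ideal.subset_span ⟨a, rfl⟩
      rw [hg] at h1
      exact Ideal.mem_span_singleton.mp h1
    by_cases hdeg : g.degree = 0
    · rw [hg]
      exact Ideal.span_singleton_eq_top.mpr (isUnit_iff_degree_eq_zero.mpr hdeg)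
    · obtain ⟨x, hx⟩ := IsAlgClosed.exists_root g hdeg
      obtain ⟨a, ha⟩ := hz x
      exact absurd (eval_eq_zero_of_dvd_of_eval_eq_zero (hdvd a) hx) ha
  obtain ⟨g, hg⟩ : ∃ g : ι → k[X], ∑ a, g a * h a = 1 := by
    have h1 : (1 : k[X]) ∈ Ideal.span (Set.range h) := by rw [htop]; trivial
    exact Ideal.mem_span_range_iff_exists_fun.mp h1
  refine ⟨2 * (h b).natDegree + Finset.univ.sup (fun a => (g a).natDegree),
    fun e he P hP => ?_⟩
  refine ⟨fun a => (P % h b) * g a + if a = b then P / h b else 0, fun a => ?_, ?_⟩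
  · refine (natDegree_add_le _ _).trans (max_le ?_ ?_)
    · refine natDegree_mul_le.trans ?_
      have h2 : (g a).natDegree ≤ Finset.univ.sup (fun a => (g a).natDegree) :=
        Finset.le_sup (f := fun a => (g a).natDegree) (Finset.mem_univ a)
      have h1 : (P % h b).natDegree ≤ (h b).natDegree :=
        natDegree_le_natDegree (degree_mod_lt P hb0).le
      omega
    · split_ifs
      · by_cases hq : P / h b = 0
        · rw [hq]; simp
        · have h3 : (h b).degree ≤ P.degree := by
            by_contra hlt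
            exact hq ((Polynomial.div_eq_zero_iff hb0).mpr (not_le.mp hlt))
          have h4 := degree_add_div hb0 h3
          rw [← degree_mul] at h4
          have h5 := natDegree_eq_of_degree_eq h4
          rw [natDegree_mul hb0 hq] at h5
          omega
      · simp
  · simp only [add_mul, Finset.sum_add_distrib, mul_assoc, ← Finset.mul_sum, hg, mul_one,
      ite_mul, zero_mul, Finset.sum_ite_eq', Finset.mem_univ, if_true]
    rw [mul_comm (P / h b)]
    exact EuclideanDomain.mod_add_div P (h b)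

/-- The relations for the multiplication by `f0` on the polynomials of degree `≤ n`. -/
theorem rel_core [IsAlgClosed k] {ι : Type} [Fintype ι] [DecidableEq ι] {d : ℕ} (hd1 : 1 ≤ d)
    (f0 : k[X]) (hf0 : f0.natDegree ≤ d) (c : k) (hc : f0.eval c ≠ 0) (h : ι → k[X])
    (b : ι) (hb : (h b).natDegree = d - 1) (hb0 : h b ≠ 0)
    (hz : ∀ x : k, ∃ a, (h a).eval x ≠ 0) :
    ∃ (m n : ℕ) (l : Fin (n + 1) → k) (A : Fin (n + 1) → Fin (n + 1) → ι → k), d ≤ n + 1 ∧
      ∀ (i : Fin (n + 1)) (x : k), f0.eval x * x ^ (i : ℕ) = l i * f0.eval x ^ (m + 1) +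
        ∑ j : Fin (n + 1), (∑ a, A i j a * ((x - c) * (h a).eval x)) * x ^ (j : ℕ) := by
  obtain ⟨e0, he0⟩ := bezout_degrees h b hb0 hz
  have key : ∀ i : Fin (d * (e0 + 1) + 1), ∃ (l : k) (r : ι → k[X]),
      (∀ a, (r a).natDegree ≤ d * (e0 + 1)) ∧
      f0 * X ^ (i : ℕ) = C l * f0 ^ (e0 + 1 + 1) + ∑ a, r a * ((X - C c) * h a) := by
    intro i
    set l : k := c ^ (i : ℕ) / f0.eval c ^ (e0 + 1) with hl
    set T : k[X] := f0 * X ^ (i : ℕ) - C l * f0 ^ (e0 + 1 + 1) with hT
    have hTc : T.eval c = 0 := by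
      simp only [hT, hl, eval_sub, eval_mul, eval_pow, eval_X, eval_C]
      rw [pow_succ (f0.eval c) (e0 + 1)]
      field_simp
      ring
    have hi := Nat.lt_succ_iff.mp i.2
    have hde : d * (e0 + 1 + 1) = d * (e0 + 1) + d := by ring
    have hde1 : e0 + 1 ≤ d * (e0 + 1) := Nat.le_mul_of_pos_left _ hd1
    have hTd : T.natDegree ≤ d * (e0 + 1 + 1) := by
      refine (natDegree_sub_le _ _).trans (max_le ?_ ?_)
      · refine natDegree_mul_le.trans ?_
        rw [natDegree_X_pow]
        omega
      · refine (natDegree_C_mul_le _ _).trans (natDegree_pow_le.trans ?_)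
        rw [mul_comm d]
        exact Nat.mul_le_mul_left _ hf0
    obtain ⟨P1, hP1⟩ := dvd_iff_isRoot.mpr hTc
    have hP1d : P1.natDegree ≤ d * (e0 + 1 + 1) - 1 := by
      by_cases h0 : P1 = 0
      · simp [h0]
      · rw [hP1, natDegree_mul (X_sub_C_ne_zero c) h0, natDegree_X_sub_C] at hTd
        omega
    obtain ⟨r, hr, hrs⟩ := he0 (d * (e0 + 1 + 1) - 1) (by omega) P1 hP1d
    refine ⟨l, r, fun a => (hr a).trans ?_, ?_⟩
    · rw [hb]
      omega
    · have h1 : ∑ a, r a * ((X - C c) * h a) = (X - C c) * P1 := by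
        rw [← hrs, Finset.mul_sum]
        exact Finset.sum_congr rfl fun a _ => by ring
      rw [h1, ← hP1, hT]
      ring
  choose l r hr hrel using key
  refine ⟨e0 + 1, d * (e0 + 1), l, fun i j a => (r i a).coeff j, ?_, fun i x => ?_⟩
  · have := Nat.le_mul_of_pos_right d (show 0 < e0 + 1 by omega)
    omega
  · have h1 := congrArg (eval x) (hrel i)
    simp only [eval_mul, eval_pow, eval_X, eval_add, eval_C, eval_finsetSum, eval_sub] at h1
    rw [h1]
    congr 1
    simp only [Finset.sum_mul]
    rw [Finset.sum_comm]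
    refine Finset.sum_congr rfl fun a _ => ?_
    rw [eval_eq_sum_range' (Nat.lt_succ_of_le (hr i a)), Finset.sum_mul, Finset.sum_range]
    exact Finset.sum_congr rfl fun j _ => by ring

/-- For every polynomial `g` of degree `< d` the product of `g` with the form `U` is a polynomial
in the coordinates along the cone over the curve. -/
theorem conductor [IsAlgClosed k] {ι : Type} [Fintype ι] [DecidableEq ι] {d : ℕ} (hd1 : 1 ≤ d)
    (f h : ι → k[X]) (c : k) (u : ι → k) (a0 : ι)
    (hfh : ∀ a, f a = C (u a) * f a0 + (X - C c) * h a)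
    (hf0 : (f a0).natDegree ≤ d) (hc : (f a0).eval c ≠ 0)
    (b : ι) (hb : (h b).natDegree = d - 1) (hb0 : h b ≠ 0)
    (hz : ∀ x : k, ∃ a, (h a).eval x ≠ 0) :
    ∃ (m e : ℕ) (U : MvPolynomial ι k) (A : k[X] → MvPolynomial ι k),
      (∀ y : ι → k, (∀ a, y a = u a * y a0) → MvPolynomial.aeval y U = y a0 ^ e) ∧
      ∀ g : k[X], g.natDegree ≤ d - 1 → ∀ s x : k,
        MvPolynomial.aeval (fun a => s * (f a).eval x) (A g) =
          s ^ m * MvPolynomial.aeval (fun a => s * (f a).eval x) U * g.eval x := by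
  obtain ⟨m, n, l, A, hdn, hrel⟩ := rel_core hd1 (f a0) hf0 c hc h b hb hb0 hz
  let M : Matrix (Fin (n + 1)) (Fin (n + 1)) (MvPolynomial ι k) := fun i j =>
    (if i = j then MvPolynomial.X a0 else 0) -
      ∑ a, MvPolynomial.C (A i j a) *
        (MvPolynomial.X a - MvPolynomial.C (u a) * MvPolynomial.X a0)
  let B : Fin (n + 1) → MvPolynomial ι k := fun i =>
    MvPolynomial.C (l i) * MvPolynomial.X a0 ^ (m + 1)
  have hM : ∀ (y : ι → k) (i j : Fin (n + 1)), MvPolynomial.aeval y (M i j) =
      (if i = j then y a0 else 0) - ∑ a, A i j a * (y a - u a * y a0) := by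
    intro y i j
    simp only [M, map_sub, map_sum, map_mul, MvPolynomial.aeval_X, MvPolynomial.aeval_C,
      Algebra.algebraMap_self, RingHom.id_apply]
    congr 1
    split_ifs <;> simp
  refine ⟨m, n + 1, M.det, fun g => ∑ j : Fin (n + 1),
    MvPolynomial.C (g.coeff j) * (M.adjugate.mulVec B) j, ?_, ?_⟩
  · intro y hy
    rw [AlgHom.map_det]
    have h1 : (MvPolynomial.aeval y).mapMatrix M = Matrix.diagonal (fun _ => y a0) := by
      ext i j
      rw [AlgHom.mapMatrix_apply, Matrix.map_apply, hM, Matrix.diagonal_apply]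
      have h2 : ∑ a, A i j a * (y a - u a * y a0) = 0 :=
        Finset.sum_eq_zero fun a _ => by rw [← hy a, sub_self, mul_zero]
      rw [h2, sub_zero]
    rw [h1, Matrix.det_diagonal]
    simp
  · intro g hg s x
    set y : ι → k := fun a => s * (f a).eval x with hy
    set M' : Matrix (Fin (n + 1)) (Fin (n + 1)) k := (MvPolynomial.aeval y).mapMatrix M with hM'
    have hdet : MvPolynomial.aeval y M.det = M'.det := by rw [AlgHom.map_det]
    have hyb : ∀ a, y a - u a * y a0 = s * ((x - c) * (h a).eval x) := by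
      intro a
      have h1 : (f a).eval x = u a * (f a0).eval x + (x - c) * (h a).eval x := by
        conv_lhs => rw [hfh a]
        simp
      simp only [hy]
      rw [h1]
      ring
    have hM'ij : ∀ i j, M' i j = (if i = j then y a0 else 0) -
        ∑ a, A i j a * (s * ((x - c) * (h a).eval x)) := by
      intro i j
      rw [hM', AlgHom.mapMatrix_apply, Matrix.map_apply, hM]
      simp only [hyb]
    have hMX : M'.mulVec (fun j : Fin (n + 1) => s ^ m * x ^ (j : ℕ)) =
        fun i => MvPolynomial.aeval y (B i) := by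
      funext i
      have h1 := hrel i x
      simp only [Matrix.mulVec, dotProduct, hM'ij]
      rw [Finset.sum_congr rfl (fun j _ => sub_mul _ _ _), Finset.sum_sub_distrib]
      simp only [ite_mul, zero_mul, Finset.sum_ite_eq,
        Finset.mem_univ, if_true, B, map_mul, map_pow, MvPolynomial.aeval_X,
        MvPolynomial.aeval_C, Algebra.algebraMap_self, RingHom.id_apply]
      have h2 : ∑ j : Fin (n + 1), (∑ a, A i j a * (s * ((x - c) * (h a).eval x))) *
          (s ^ m * x ^ (j : ℕ)) =
          s ^ (m + 1) * ∑ j : Fin (n + 1), (∑ a, A i j a * ((x - c) * (h a).eval x)) *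
            x ^ (j : ℕ) := by
        rw [Finset.mul_sum]
        refine Finset.sum_congr rfl fun j _ => ?_
        rw [Finset.sum_mul, Finset.sum_mul, Finset.mul_sum]
        exact Finset.sum_congr rfl fun a _ => by ring
      rw [h2]
      simp only [hy]
      linear_combination s ^ (m + 1) * h1
    have hadj : ∀ j, MvPolynomial.aeval y ((M.adjugate.mulVec B) j) =
        s ^ m * M'.det * x ^ (j : ℕ) := by
      intro j
      have h1 : MvPolynomial.aeval y ((M.adjugate.mulVec B) j) =
          (M'.adjugate.mulVec (fun i => MvPolynomial.aeval y (B i))) j := by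
        have h3 : M'.adjugate = (MvPolynomial.aeval y).mapMatrix M.adjugate := by
          rw [AlgHom.map_adjugate]
        rw [h3]
        simp only [Matrix.mulVec, dotProduct, AlgHom.mapMatrix_apply, Matrix.map_apply, map_sum,
          map_mul]
      rw [h1, ← hMX, Matrix.mulVec_mulVec, Matrix.adjugate_mul, Matrix.smul_mulVec,
        Matrix.one_mulVec, Pi.smul_apply, smul_eq_mul]
      ring
    rw [map_sum, hdet, eval_eq_sum_range' (show g.natDegree < n + 1 by omega), Finset.sum_range,
      Finset.mul_sum]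
    refine Finset.sum_congr rfl fun j _ => ?_
    rw [map_mul, hadj, MvPolynomial.aeval_C, Algebra.algebraMap_self, RingHom.id_apply]
    ring

/-- The equations of the cone over the curve near the point `v`: all the linear forms
`X j - (v j / v a0) X a0` are multiples of one of them. -/
theorem local_eqs_aux [IsAlgClosed k] {N d : ℕ} {f : Fin (N + 1) → k[X]}
    (hd : ∀ a, (f a).natDegree ≤ d) (h0 : ∀ x : k, ∃ a, (f a).eval x ≠ 0) (c : k)
    (v : Fin (N + 1) → k) (hv : ∃ t : k, t ≠ 0 ∧ ∀ a, (f a).eval c = t * v a)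
    (hu : ∀ x : k, (∃ t : k, ∀ a, (f a).eval x = t * v a) → x = c)
    (hui : ¬ ∃ t : k, ∀ a, (f a).coeff d = t * v a)
    (hi : ¬ ∃ t : k, ∀ a, (derivative (f a)).eval c = t * v a) :
    ∃ a0 a1 : Fin (N + 1), a1 ≠ a0 ∧ v a0 ≠ 0 ∧
      (∃ s x : k, MvPolynomial.aeval (fun a => s * (f a).eval x)
        (MvPolynomial.X a1 - MvPolynomial.C (v a1 * (v a0)⁻¹) * MvPolynomial.X a0 :
          MvPolynomial (Fin (N + 1)) k) ≠ 0) ∧
      ∀ j, ∃ P Q : MvPolynomial (Fin (N + 1)) k, MvPolynomial.aeval v Q ≠ 0 ∧
        ∀ s x : k, MvPolynomial.aeval (fun a => s * (f a).eval x)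
          (Q * (MvPolynomial.X j - MvPolynomial.C (v j * (v a0)⁻¹) * MvPolynomial.X a0) -
            P * (MvPolynomial.X a1 - MvPolynomial.C (v a1 * (v a0)⁻¹) * MvPolynomial.X a0)) =
          0 := by
  obtain ⟨t, ht, hft⟩ := hv
  obtain ⟨a0, ha0⟩ := h0 c
  have hva0 : v a0 ≠ 0 := by
    intro h1
    rw [hft, h1, mul_zero] at ha0
    exact ha0 rfl
  set u : Fin (N + 1) → k := fun a => v a * (v a0)⁻¹ with hudef
  have hua0 : u a0 = 1 := mul_inv_cancel₀ hva0
  have hex : ∀ a, ∃ g : k[X], f a = C (u a) * f a0 + (X - C c) * g := by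
    intro a
    have h1 : (f a - C (u a) * f a0).IsRoot c := by
      rw [IsRoot.def, eval_sub, eval_mul, eval_C, hft, hft, hudef]
      field_simp
      ring
    obtain ⟨g, hg⟩ := dvd_iff_isRoot.mpr h1
    exact ⟨g, by rw [← hg]; ring⟩
  choose h hfh using hex
  have hd1 : 1 ≤ d := by
    by_contra hd0
    have hd0' : d = 0 := by omega
    apply hui
    refine ⟨t, fun a => ?_⟩
    have h1 := hd a
    rw [hd0', Nat.le_zero] at h1
    rw [← hft a, hd0', eq_C_of_natDegree_eq_zero h1]
    simp
  have hdeg : ∀ a, (h a).natDegree ≤ d - 1 := by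
    intro a
    by_cases h1 : h a = 0
    · rw [h1]; simp
    · have h2 : ((X - C c) * h a).natDegree ≤ d := by
        have h3 : (X - C c) * h a = f a - C (u a) * f a0 := by
          conv_rhs => rw [hfh a]
          ring
        rw [h3]
        exact (natDegree_sub_le _ _).trans (max_le (hd a)
          ((natDegree_C_mul_le _ _).trans (hd a0)))
      rw [natDegree_mul (X_sub_C_ne_zero c) h1, natDegree_X_sub_C] at h2
      omega
  have hz : ∀ x : k, ∃ a, (h a).eval x ≠ 0 := by
    intro x
    by_contra hcon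
    push Not at hcon
    have hx : x = c := by
      apply hu
      refine ⟨(f a0).eval x * (v a0)⁻¹, fun a => ?_⟩
      have h1 : (f a).eval x = (C (u a) * f a0 + (X - C c) * h a).eval x := by rw [← hfh a]
      rw [h1, eval_add, eval_mul, eval_mul, hcon a, eval_C, hudef]
      ring
    apply hi
    refine ⟨(derivative (f a0)).eval c * (v a0)⁻¹, fun a => ?_⟩
    have h1 : (derivative (f a)).eval c =
        (derivative (C (u a) * f a0 + (X - C c) * h a)).eval c := by rw [← hfh a]
    rw [h1]
    have h2 := hcon a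
    rw [hx] at h2
    simp only [derivative_add, derivative_mul, derivative_C, derivative_sub, derivative_X,
      eval_add, eval_mul, eval_sub, eval_X, eval_C, h2, eval_one, sub_self, zero_mul,
      mul_zero, add_zero, zero_add, sub_zero, hudef]
    ring
  obtain ⟨b, hb⟩ : ∃ b, (h b).coeff (d - 1) ≠ 0 := by
    by_contra hcon
    push Not at hcon
    apply hui
    refine ⟨(f a0).coeff d * (v a0)⁻¹, fun a => ?_⟩
    have h1 : (f a).coeff d = (C (u a) * f a0 + (X - C c) * h a).coeff d := by rw [← hfh a]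
    obtain ⟨d', rfl⟩ : ∃ d', d = d' + 1 := ⟨d - 1, by omega⟩
    have h2 : (h a).coeff (d' + 1) = 0 :=
      coeff_eq_zero_of_natDegree_lt (by have := hdeg a; omega)
    have h3 : (h a).coeff d' = 0 := hcon a
    rw [h1, coeff_add, sub_mul, coeff_sub, coeff_C_mul, coeff_C_mul, coeff_X_mul, h2, h3, hudef]
    ring
  have hb0 : h b ≠ 0 := by
    intro h1
    rw [h1, coeff_zero] at hb
    exact hb rfl
  have hbd : (h b).natDegree = d - 1 := le_antisymm (hdeg b) (le_natDegree_of_ne_zero hb)
  obtain ⟨m, e, U, A, hU, hA⟩ := conductor hd1 f h c u a0 hfh (hd a0) ha0 b hbd hb0 hz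
  obtain ⟨a1, ha1⟩ := hz c
  have hh0 : h a0 = 0 := by
    have h1 := hfh a0
    rw [hua0, C_1, one_mul] at h1
    have h2 : (X - C c) * h a0 = 0 := by linear_combination -h1
    exact (mul_eq_zero.mp h2).resolve_left (X_sub_C_ne_zero c)
  have ha10 : a1 ≠ a0 := by
    rintro rfl
    rw [hh0, eval_zero] at ha1
    exact ha1 rfl
  have hl : ∀ (s x : k) (a : Fin (N + 1)), MvPolynomial.aeval (fun a => s * (f a).eval x)
      (MvPolynomial.X a - MvPolynomial.C (u a) * MvPolynomial.X a0 :
        MvPolynomial (Fin (N + 1)) k) = s * ((x - c) * (h a).eval x) := by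
    intro s x a
    have h1 : (f a).eval x = (C (u a) * f a0 + (X - C c) * h a).eval x := by rw [← hfh a]
    rw [map_sub, map_mul, MvPolynomial.aeval_X, MvPolynomial.aeval_X, MvPolynomial.aeval_C, h1]
    simp only [eval_add, eval_mul, eval_sub, eval_X, eval_C, Algebra.algebraMap_self,
      RingHom.id_apply]
    ring
  refine ⟨a0, a1, ha10, hva0, ?_, fun j => ⟨A (h j), A (h a1), ?_, fun s x => ?_⟩⟩
  · by_contra hcon
    push Not at hcon
    have h1 : (X - C c) * h a1 = 0 := by
      apply Polynomial.funext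
      intro x
      have h2 := hcon 1 x
      rw [hl, one_mul] at h2
      simpa using h2
    have h2 := (mul_eq_zero.mp h1).resolve_left (X_sub_C_ne_zero c)
    rw [h2, eval_zero] at ha1
    exact ha1 rfl
  · have h1 : v = fun a => t⁻¹ * (f a).eval c := by
      funext a
      rw [hft]
      field_simp
    have h2 := hA (h a1) (hdeg a1) t⁻¹ c
    rw [← h1, hU v (fun a => by simp only [hudef]; field_simp)] at h2
    rw [h2]
    exact mul_ne_zero (mul_ne_zero (pow_ne_zero _ (inv_ne_zero ht)) (pow_ne_zero _ hva0)) ha1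
  · have h1 := hl s x j
    have h2 := hl s x a1
    simp only [hudef] at h1 h2
    rw [map_sub, map_mul, map_mul (MvPolynomial.aeval _) (A (h j)), h1, h2,
      hA (h a1) (hdeg a1), hA (h j) (hdeg j)]
    ring

end

end Pool.Agent.VFS
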