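import Pool.Agent.Lib_MP_1858fb_s.Alg

/-!
# Smooth points (MP_1858fb): the minors of a formal deformation with marked points

`exists_M`: `det3 (F, G_j, G_l) = Π ^ 2 M` with `M` generating the unit ideal; `gcd_member`: the conclusion of
`gcd_one` for a deformation with `F (c i) = s i * v i`.
-/

set_option autoImplicit false

namespace Pool.Agent.VFS

open Polynomial

section det

variable {S : Type*} [CommRing S]

theorem det3_map {T : Type*} [CommRing T] (f : S →+* T) (u v w : Fin 3 → S) :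
    f (det3 u v w) = det3 (fun a => f (u a)) (fun a => f (v a)) (fun a => f (w a)) := by
  unfold det3
  simp only [map_add, map_sub, map_mul]

theorem det3_mul (p : S) (u v w : Fin 3 → S) :
    det3 u (fun a => p * v a) (fun a => p * w a) = p ^ 2 * det3 u v w := by
  unfold det3
  ring

/-- three vectors that are multiples of the same vector modulo `x` have a determinant divisible by `x ^ 2` -/
theorem sq_dvd_det3 (x s s' s'' : S) (v A B E u u' u'' : Fin 3 → S) (h : ∀ a, u a = s * v a + x * A a)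
    (h' : ∀ a, u' a = s' * v a + x * B a) (h'' : ∀ a, u'' a = s'' * v a + x * E a) : x ^ 2 ∣ det3 u u' u'' := by
  refine ⟨s * det3 v B E + s' * det3 A v E + s'' * det3 A B v + x * det3 A B E, ?_⟩
  have e : u = fun a => s * v a + x * A a := funext h
  have e' : u' = fun a => s' * v a + x * B a := funext h'
  have e'' : u'' = fun a => s'' * v a + x * E a := funext h''
  rw [e, e', e'']
  unfold det3
  ring

theorem natDegree_sub_le' {n : ℕ} {p q : S[X]} (hp : p.natDegree ≤ n) (hq : q.natDegree ≤ n) :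
    (p - q).natDegree ≤ n :=
  (natDegree_sub_le_of_le hp hq).trans (max_self n).le

theorem natDegree_det3 {a b c : ℕ} (u v w : Fin 3 → S[X]) (hu : ∀ i, (u i).natDegree ≤ a)
    (hv : ∀ i, (v i).natDegree ≤ b) (hw : ∀ i, (w i).natDegree ≤ c) : (det3 u v w).natDegree ≤ a + (b + c) := by
  have h1 : ∀ i j l, (u i * (v j * w l - v l * w j)).natDegree ≤ a + (b + c) := by
    intro i j l
    refine natDegree_mul_le_of_le (hu i) (natDegree_sub_le' ?_ ?_)
    · exact natDegree_mul_le_of_le (hv _) (hw _)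
    · exact natDegree_mul_le_of_le (hv _) (hw _)
  unfold det3
  exact natDegree_add_le_of_degree_le (natDegree_sub_le' (h1 _ _ _) (h1 _ _ _)) (h1 _ _ _)

theorem coeff_det3 {a b c : ℕ} (u v w : Fin 3 → S[X]) (hu : ∀ i, (u i).natDegree ≤ a)
    (hv : ∀ i, (v i).natDegree ≤ b) (hw : ∀ i, (w i).natDegree ≤ c) :
    (det3 u v w).coeff (a + (b + c)) =
      det3 (fun i => (u i).coeff a) (fun i => (v i).coeff b) (fun i => (w i).coeff c) := by
  have h1 : ∀ i j l, (u i * (v j * w l - v l * w j)).coeff (a + (b + c)) =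
      (u i).coeff a * ((v j).coeff b * (w l).coeff c - (v l).coeff b * (w j).coeff c) := by
    intro i j l
    rw [coeff_mul_add_eq_of_natDegree_le (hu i), coeff_sub, coeff_mul_add_eq_of_natDegree_le (hv _) (hw _),
      coeff_mul_add_eq_of_natDegree_le (hv _) (hw _)]
    exact natDegree_sub_le' (natDegree_mul_le_of_le (hv _) (hw _)) (natDegree_mul_le_of_le (hv _) (hw _))
  unfold det3
  rw [coeff_add, coeff_sub, h1, h1, h1]

end det

section member

variable {k R ι J : Type*} [Field k] [CommRing R] [IsDomain R] [Algebra k R]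

omit [IsDomain R] in
theorem eval_decomp (f : R[X]) (c s v : R) (h : f.eval c = s * v) :
    ∃ A : R[X], f = C s * C v + (X - C c) * A := by
  obtain ⟨A, hA⟩ := X_sub_C_dvd_sub_C_eval (p := f) (a := c)
  refine ⟨A, ?_⟩
  rw [← hA, h, C_mul]
  ring

omit [IsDomain R] in
theorem exists_M [IsLocalRing R] [IsAlgClosed k] (φ : R →ₐ[k] k) {m D : ℕ} (c : Fin m → k)
    (hc : Function.Injective c) (hmD : m ≤ D) (F : ι → R[X]) (G : J → ι → R[X]) (F0 : ι → k[X]) (δ : J → ι → k[X])
    (v : Fin m → ι → k) (s : Fin m → R) (s' : J → Fin m → R)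
    (hs : ∀ i a, (F a).eval (algebraMap k R (c i)) = s i * algebraMap k R (v i a))
    (hs' : ∀ j i a, (G j a).eval (algebraMap k R (c i)) = s' j i * algebraMap k R (v i a))
    (hFd : ∀ a, (F a).natDegree ≤ D) (hGd : ∀ j a, (G j a).natDegree ≤ D)
    (hF0 : ∀ a, (F a).map (φ : R →+* k) = F0 a)
    (hG0 : ∀ j a, (G j a).map (φ : R →+* k) = (∏ i, (X - C (c i))) * δ j a)
    (hrk : ∀ x : k, ∃ (t : Fin 3 → ι) (j l : J), det3 (fun a => (F0 (t a)).eval x) (fun a => (δ j (t a)).eval x)
      (fun a => (δ l (t a)).eval x) ≠ 0)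
    (hoo : ∃ (t : Fin 3 → ι) (j l : J), det3 (fun a => (F0 (t a)).coeff D) (fun a => (δ j (t a)).coeff (D - m))
      (fun a => (δ l (t a)).coeff (D - m)) ≠ 0) :
    ∃ M : (Fin 3 → ι) × J × J → R[X],
      (∀ x, det3 (fun a => F (x.1 a)) (fun a => G x.2.1 (x.1 a)) (fun a => G x.2.2 (x.1 a)) =
        (∏ i, (X - C (algebraMap k R (c i)))) ^ 2 * M x) ∧ Ideal.span (Set.range M) = ⊤ := by
  classical
  have hinj : Function.Injective (algebraMap k R) := (algebraMap k R).injective
  have hmon : (∏ i, (X - C (c i)) : k[X]).Monic := monic_prod_of_monic _ _ fun i _ => monic_X_sub_C _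
  have hmonR : (∏ i, (X - C (algebraMap k R (c i))) : R[X]).Monic :=
    monic_prod_of_monic _ _ fun i _ => monic_X_sub_C _
  have hdegk : (∏ i, (X - C (c i)) : k[X]).natDegree = m := by
    rw [natDegree_prod_of_monic _ _ fun i _ => monic_X_sub_C _]; simp
  have hdegR : (∏ i, (X - C (algebraMap k R (c i))) : R[X]).natDegree = m := by
    rw [natDegree_prod_of_monic _ _ fun i _ => monic_X_sub_C _]; simp
  have hmapP : (∏ i, (X - C (algebraMap k R (c i))) : R[X]).map (φ : R →+* k) = ∏ i, (X - C (c i)) := by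
    rw [Polynomial.map_prod]
    refine Finset.prod_congr rfl fun i _ => ?_
    rw [Polynomial.map_sub, map_X, map_C]
    congr 2
    exact φ.commutes (c i)
  -- divisibility by `Π ^ 2`
  have hdvd : ∀ x : (Fin 3 → ι) × J × J, (∏ i, (X - C (algebraMap k R (c i)))) ^ 2 ∣
      det3 (fun a => F (x.1 a)) (fun a => G x.2.1 (x.1 a)) (fun a => G x.2.2 (x.1 a)) := by
    intro x
    rw [← Finset.prod_pow]
    refine Finset.prod_dvd_of_coprime ?_ ?_
    · intro i _ l _ hil
      refine IsCoprime.pow ?_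
      have h1 : c i - c l ≠ 0 := sub_ne_zero.2 fun h => hil (hc h)
      refine ⟨-C (algebraMap k R (c i - c l)⁻¹), C (algebraMap k R (c i - c l)⁻¹), ?_⟩
      have h2 : algebraMap k R (c i - c l)⁻¹ * (algebraMap k R (c i) - algebraMap k R (c l)) = 1 := by
        rw [← map_sub, ← map_mul, inv_mul_cancel₀ h1, map_one]
      calc -C (algebraMap k R (c i - c l)⁻¹) * (X - C (algebraMap k R (c i))) +
            C (algebraMap k R (c i - c l)⁻¹) * (X - C (algebraMap k R (c l)))
          = C (algebraMap k R (c i - c l)⁻¹ * (algebraMap k R (c i) - algebraMap k R (c l))) := by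
            rw [C_mul, C_sub]; ring
        _ = 1 := by rw [h2, C_1]
    · intro i _
      choose A hA using fun a => eval_decomp (F (x.1 a)) _ _ _ (hs i (x.1 a))
      choose B hB using fun a => eval_decomp (G x.2.1 (x.1 a)) _ _ _ (hs' x.2.1 i (x.1 a))
      choose E hE using fun a => eval_decomp (G x.2.2 (x.1 a)) _ _ _ (hs' x.2.2 i (x.1 a))
      exact sq_dvd_det3 _ (C (s i)) (C (s' x.2.1 i)) (C (s' x.2.2 i))
        (fun a => C (algebraMap k R (v i (x.1 a)))) A B E _ _ _ hA hB hE
  choose M hM using hdvd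
  -- the degrees of the `δ j a`
  have hδd : ∀ j a, (δ j a).natDegree ≤ D - m := by
    intro j a
    have h1 : ((∏ i, (X - C (c i))) * δ j a).natDegree ≤ D := by
      rw [← hG0]
      exact natDegree_map_le.trans (hGd j a)
    by_cases h0 : δ j a = 0
    · rw [h0]; simp
    · rw [hmon.natDegree_mul' h0, hdegk] at h1
      omega
  have hF0d : ∀ a, (F0 a).natDegree ≤ D := fun a => by
    rw [← hF0]; exact natDegree_map_le.trans (hFd a)
  -- the reductions of the `M x`
  have hred : ∀ x, (M x).map (φ : R →+* k) =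
      det3 (fun a => F0 (x.1 a)) (fun a => δ x.2.1 (x.1 a)) (fun a => δ x.2.2 (x.1 a)) := by
    intro x
    have h1 := congrArg (mapRingHom (φ : R →+* k)) (hM x)
    rw [det3_map, map_mul, map_pow] at h1
    simp only [coe_mapRingHom] at h1
    simp only [hF0, hG0, hmapP] at h1
    rw [det3_mul] at h1
    exact (mul_left_cancel₀ (pow_ne_zero 2 hmon.ne_zero) h1).symm
  refine ⟨M, hM, nak_deg (φ : R →+* k) (fun y => ⟨algebraMap k R y, φ.commutes y⟩) M (D + ((D - m) + (D - m))) ?_ ?_ ?_⟩
  · intro x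
    by_cases h0 : M x = 0
    · rw [h0]; simp
    · have h1 := congrArg natDegree (hM x)
      rw [(hmonR.pow 2).natDegree_mul' h0, hmonR.natDegree_pow, hdegR] at h1
      have h2 := natDegree_det3 (fun a => F (x.1 a)) (fun a => G x.2.1 (x.1 a)) (fun a => G x.2.2 (x.1 a))
        (fun i => hFd _) (fun i => hGd _ _) (fun i => hGd _ _)
      omega
  · intro x
    obtain ⟨t, j, l, h⟩ := hrk x
    refine ⟨(t, j, l), ?_⟩
    rw [hred, ← coe_evalRingHom, det3_map]
    exact h
  · obtain ⟨t, j, l, h⟩ := hoo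
    refine ⟨(t, j, l), ?_⟩
    have h1 : (φ : R →+* k) ((M (t, j, l)).coeff (D + ((D - m) + (D - m)))) =
        ((M (t, j, l)).map (φ : R →+* k)).coeff (D + ((D - m) + (D - m))) := (coeff_map _ _).symm
    rw [h1, hred, coeff_det3 _ _ _ (fun i => hF0d _) (fun i => hδd _ _) (fun i => hδd _ _)]
    exact h

/-- **The marked points are simple points of the curve.** `F` is a deformation over the local domain `R` with
`F (c i) = s i v i`, `D j` derivations of `R[X]`; `v i (a₀ i) = 1`. Then the quotients of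
`F a - F (a₀ i) v i a` by `X - c i` generate the unit ideal over the field of fractions. -/
theorem gcd_member [IsLocalRing R] [IsAlgClosed k] [Finite ι] {K : Type*} [Field K] [Algebra R K]
    [IsFractionRing R K] (φ : R →ₐ[k] k) {m D : ℕ} (c : Fin m → k)
    (hc : Function.Injective c) (hmD : m ≤ D) (F : ι → R[X]) (Dv : J → Derivation ℤ R[X] R[X])
    (hDk : ∀ j (x : k), Dv j (C (algebraMap k R x)) = 0) (F0 : ι → k[X]) (δ : J → ι → k[X])
    (v : Fin m → ι → k) (s : Fin m → R) (s' : J → Fin m → R)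
    (hs : ∀ i a, (F a).eval (algebraMap k R (c i)) = s i * algebraMap k R (v i a))
    (hs' : ∀ j i a, (Dv j (F a)).eval (algebraMap k R (c i)) = s' j i * algebraMap k R (v i a))
    (hFd : ∀ a, (F a).natDegree ≤ D) (hGd : ∀ j a, (Dv j (F a)).natDegree ≤ D)
    (hF0 : ∀ a, (F a).map (φ : R →+* k) = F0 a)
    (hG0 : ∀ j a, (Dv j (F a)).map (φ : R →+* k) = (∏ i, (X - C (c i))) * δ j a)
    (hrk : ∀ x : k, ∃ (t : Fin 3 → ι) (j l : J), det3 (fun a => (F0 (t a)).eval x) (fun a => (δ j (t a)).eval x)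
      (fun a => (δ l (t a)).eval x) ≠ 0)
    (hoo : ∃ (t : Fin 3 → ι) (j l : J), det3 (fun a => (F0 (t a)).coeff D) (fun a => (δ j (t a)).coeff (D - m))
      (fun a => (δ l (t a)).coeff (D - m)) ≠ 0)
    (i : Fin m) (a₀ : ι) (hv1 : v i a₀ = 1) (hs0 : ∀ l, s l ≠ 0)
    (hvne : ∀ l, l ≠ i → ∃ a, v l a ≠ v l a₀ * v i a)
    (hi : ∃ a, (derivative (F a)).eval (algebraMap k R (c i)) ≠
      (derivative (F a₀)).eval (algebraMap k R (c i)) * algebraMap k R (v i a)) :
    ∃ q : ι → R[X], (∀ a, F a - F a₀ * C (algebraMap k R (v i a)) = (X - C (algebraMap k R (c i))) * q a) ∧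
      Ideal.span (Set.range fun a => (q a).map (algebraMap R K)) = ⊤ := by
  obtain ⟨M, hM, hspan⟩ := exists_M φ c hc hmD F (fun j a => Dv j (F a)) F0 δ v s s' hs hs' hFd hGd hF0 hG0 hrk hoo
  have hq : ∀ a, ∃ q : R[X], F a - F a₀ * C (algebraMap k R (v i a)) = (X - C (algebraMap k R (c i))) * q := by
    intro a
    have h1 : (X - C (algebraMap k R (c i))) ∣ F a - F a₀ * C (algebraMap k R (v i a)) := by
      rw [dvd_iff_isRoot, IsRoot.def, eval_sub, eval_mul, eval_C, hs, hs, hv1, map_one]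
      ring
    exact h1
  choose q hq using hq
  refine ⟨q, hq, gcd_one (K := K) Dv F q (fun a => algebraMap k R (v i a)) a₀ (fun j a => hDk j _)
    (fun l => algebraMap k R (c l)) i M (fun x => x.1) (fun x => x.2.1) (fun x => x.2.2) hM hspan hq ?_ hi⟩
  intro l hl
  obtain ⟨a, ha⟩ := hvne l hl
  refine ⟨a, ?_⟩
  rw [hs, hs]
  intro h
  apply ha
  apply (algebraMap k R).injective
  rw [map_mul]
  apply mul_left_cancel₀ (hs0 l)
  rw [h]
  ring

end member

end Pool.Agent.VFS
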