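import Pool.Agent.Lib_MP_1858fb_s.Iface
import Pool.Agent.Lib_MP_1858fb_w.Van1

/-!
# Smooth points add-on: a linear change of the parameter (SP-D2, first half)

The tuple of forms `F` becomes a tuple of polynomials in `X` after the change
`(p : q) ↦ (X, 1 + s X)`, where `(1 : s)` is not one of the marked points. A very free `F` gives
the hypotheses of `cover_fin` and `cover_inf`.
-/

set_option autoImplicit false

namespace Pool.Agent.VFS

open Polynomial

section

variable {k : Type} [Field k] {N : ℕ} {V : Set (Fin (N + 1) → k)}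

/-- the polynomial tuple `F (X, 1 + s X)` -/
private noncomputable def pol {d : ℕ} (F : Fin (d + 1) → Fin (N + 1) → k) (s : k) :
    Fin (N + 1) → k[X] :=
  fun a => ∑ j : Fin (d + 1), C (F j a) * (X ^ (d - (j : ℕ)) * (C s * X + C 1) ^ (j : ℕ))

private theorem natDegree_pol {d : ℕ} (F : Fin (d + 1) → Fin (N + 1) → k) (s : k)
    (a : Fin (N + 1)) : (pol F s a).natDegree ≤ d := by
  unfold pol
  refine natDegree_sum_le_of_forall_le _ _ fun j _ => ?_
  refine (natDegree_C_mul_le _ _).trans (natDegree_mul_le.trans ?_)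
  have h1 : ((X : k[X]) ^ (d - (j : ℕ))).natDegree ≤ d - j := natDegree_X_pow_le _
  have h2 : ((C s * X + C 1 : k[X]) ^ (j : ℕ)).natDegree ≤ j * 1 :=
    natDegree_pow_le_of_le _ natDegree_linear_le
  have h3 := j.2
  omega

private theorem eval_pol {d : ℕ} (F : Fin (d + 1) → Fin (N + 1) → k) (s x : k)
    (a : Fin (N + 1)) : (pol F s a).eval x = VF.val F x (s * x + 1) a := by
  unfold pol VF.val
  rw [eval_finsetSum]
  refine Finset.sum_congr rfl fun j _ => ?_
  simp

private theorem coeff_pol {d : ℕ} (F : Fin (d + 1) → Fin (N + 1) → k) (s : k)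
    (a : Fin (N + 1)) : (pol F s a).coeff d = VF.val F 1 s a := by
  unfold pol VF.val
  rw [finsetSum_coeff]
  refine Finset.sum_congr rfl fun j _ => ?_
  have h3 : (d - (j : ℕ)) + j = d := Nat.sub_add_cancel (Nat.lt_succ_iff.1 j.2)
  rw [coeff_C_mul, one_pow, one_mul]
  congr 1
  have h4 : ((X : k[X]) ^ (d - (j : ℕ)) * (C s * X + C 1) ^ (j : ℕ)).coeff d =
      ((X : k[X]) ^ (d - (j : ℕ)) * (C s * X + C 1) ^ (j : ℕ)).coeff (j + (d - (j : ℕ))) := by
    congr 1
    omega
  rw [h4, coeff_X_pow_mul]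
  have h5 := coeff_pow_of_natDegree_le (p := (C s * X + C 1 : k[X])) (n := 1) (m := (j : ℕ))
    natDegree_linear_le
  rw [mul_one] at h5
  rw [h5, coeff_add, coeff_C_mul, coeff_X_one, mul_one, coeff_C_succ, add_zero]

private theorem val_smul {d : ℕ} (F : Fin (d + 1) → Fin (N + 1) → k) (t p q : k) :
    VF.val F (t * p) (t * q) = t ^ d • VF.val F p q := by
  funext a
  rw [Pi.smul_apply, smul_eq_mul]
  unfold VF.val
  rw [Finset.mul_sum]
  refine Finset.sum_congr rfl fun j _ => ?_
  have h3 : (d - (j : ℕ)) + j = d := Nat.sub_add_cancel (Nat.lt_succ_iff.1 j.2)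
  have h4 : t ^ d = t ^ (d - (j : ℕ)) * t ^ (j : ℕ) := by rw [← pow_add, h3]
  rw [mul_pow, mul_pow, h4]
  ring

private theorem eval_aeval (E : MvPolynomial (Fin (N + 1)) k) (f : Fin (N + 1) → k[X]) (x : k) :
    (MvPolynomial.aeval f E).eval x = MvPolynomial.aeval (fun a => (f a).eval x) E := by
  have h2 : (aeval x : k[X] →ₐ[k] k).comp (MvPolynomial.aeval f) =
      (MvPolynomial.aeval (fun a => (f a).eval x) : MvPolynomial (Fin (N + 1)) k →ₐ[k] k) := by
    apply MvPolynomial.algHom_ext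
    intro a
    rw [AlgHom.comp_apply, MvPolynomial.aeval_X, MvPolynomial.aeval_X, coe_aeval_eq_eval]
  have h3 := DFunLike.congr_fun h2 E
  rw [AlgHom.comp_apply, coe_aeval_eq_eval] at h3
  exact h3

private theorem dp_eval (E : MvPolynomial (Fin (N + 1)) k) (f G : Fin (N + 1) → k[X]) (x : k) :
    (dp E f G).eval x = VF.dif E (fun a => (f a).eval x) (fun a => (G a).eval x) := by
  unfold dp VF.dif
  rw [eval_finsetSum]
  refine Finset.sum_congr rfl fun a _ => ?_
  rw [eval_mul, eval_aeval]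

private theorem dv_eq_dif (E : MvPolynomial (Fin (N + 1)) k) (v u : Fin (N + 1) → k) :
    dv E v u = VF.dif E v u := by
  unfold dv VF.dif
  refine Finset.sum_congr rfl fun a _ => ?_
  rw [MvPolynomial.aeval_eq_eval]

/-- Euler: the radial direction is tangent -/
private theorem dif_radial [Infinite k] (hV : VF.LocClosed V)
    {E : MvPolynomial (Fin (N + 1)) k} (hE : E ∈ VF.van V) {y : Fin (N + 1) → k} (hy : y ∈ V) :
    VF.dif E y y = 0 := by
  have h1 : MvPolynomial.aeval (fun a => C (y a) * X : Fin (N + 1) → k[X]) E = 0 := by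
    apply Polynomial.eq_zero_of_infinite_isRoot
    refine Set.Infinite.mono (s := {a : k | a ≠ 0}) (fun a ha => ?_) ?_
    · change IsRoot _ a
      rw [IsRoot.def, eval_aeval]
      have h2 : (fun b => (C (y b) * X : k[X]).eval a) = a • y := by
        funext b
        rw [eval_mul, eval_C, eval_X, Pi.smul_apply, smul_eq_mul, mul_comm]
      rw [h2]
      exact hE _ (VF.smul_mem_of_locClosed hV hy ha)
    · have : ({a : k | a ≠ 0} : Set k) = {(0 : k)}ᶜ := rfl
      rw [this]
      exact (Set.finite_singleton (0 : k)).infinite_compl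
  have h2 := der_aeval_eq_zero (k := k) (derivative' (R := k))
    (fun a => C (y a) * X : Fin (N + 1) → k[X]) E h1
  have h3 := congrArg (eval 1) h2
  rw [eval_finsetSum, eval_zero] at h3
  rw [← h3]
  unfold VF.dif
  refine Finset.sum_congr rfl fun a _ => ?_
  rw [eval_mul, eval_aeval]
  have h4 : (fun b => (C (y b) * X : k[X]).eval 1) = y := by
    funext b
    rw [eval_mul, eval_C, eval_X, mul_one]
  rw [h4]
  congr 1
  simp

private theorem sec_pol [Infinite k] {d : ℕ} {F G : Fin (d + 1) → Fin (N + 1) → k}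
    (hG : VF.IsTangent V F G) (s : k) :
    Sec (VF.van V : Set (MvPolynomial (Fin (N + 1)) k)) (pol F s) d (pol G s) := by
  refine ⟨fun a => natDegree_pol G s a, fun E hE => ?_⟩
  apply Polynomial.funext
  intro x
  rw [dp_eval, eval_zero]
  have h1 : (fun a => (pol F s a).eval x) = VF.val F x (s * x + 1) := by
    funext a
    exact eval_pol F s x a
  have h2 : (fun a => (pol G s a).eval x) = VF.val G x (s * x + 1) := by
    funext a
    exact eval_pol G s x a
  rw [h1, h2]
  exact hG x (s * x + 1) E hE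

private theorem exists_s [Infinite k] {m : ℕ} (P : Fin m → k × k) (hP : ∀ i, P i ≠ 0) :
    ∃ s : k, ∀ i, (P i).2 - s * (P i).1 ≠ 0 := by
  classical
  obtain ⟨s, hs⟩ := Infinite.exists_notMem_finset
    (Finset.univ.image fun i => (P i).2 / (P i).1)
  refine ⟨s, fun i h => ?_⟩
  by_cases h1 : (P i).1 = 0
  · rw [h1, mul_zero, sub_zero] at h
    exact hP i (Prod.ext h1 h)
  · apply hs
    rw [Finset.mem_image]
    refine ⟨i, Finset.mem_univ i, ?_⟩
    rw [div_eq_iff h1]
    exact sub_eq_zero.1 h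

/-- the first half of `exists_start`: `F` as a tuple of polynomials `f`, no mark at infinity,
with the hypotheses of `cover_fin` and `cover_inf` -/
theorem start_input [IsAlgClosed k] (hV : VF.LocClosed V) {c d : ℕ} (_hc : c < N)
    (_hsm : ∀ x ∈ V, VF.SmoothAt c V x) {F : Fin (d + 1) → Fin (N + 1) → k}
    (hF : VF.IsCurve V F) (hvf : VF.VeryFree V F) {m : ℕ} (P : Fin m → k × k)
    (hP : ∀ i, P i ≠ 0) (hPP : ∀ i j, i ≠ j → (P i).1 * (P j).2 - (P j).1 * (P i).2 ≠ 0) :
    ∃ (f : Fin (N + 1) → k[X]) (c0 : Fin m → k), Function.Injective c0 ∧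
      (∀ a, (f a).natDegree ≤ d) ∧ (∀ x : k, (fun a => (f a).eval x) ∈ V) ∧
      (fun a => (f a).coeff d) ∈ V ∧
      (∀ i, ∃ t : k, t ≠ 0 ∧
        (fun a => (f a).eval (c0 i)) = t • VF.val F (P i).1 (P i).2) ∧
      (∀ E ∈ (VF.van V : Set (MvPolynomial (Fin (N + 1)) k)), dp E f f = 0) ∧
      (∀ p q : k, p ≠ q → ∀ u : Fin (N + 1) → k,
        (∀ E ∈ (VF.van V : Set (MvPolynomial (Fin (N + 1)) k)),
          dv E (fun a => (f a).eval q) u = 0) →
        ∃ G, Sec (VF.van V : Set (MvPolynomial (Fin (N + 1)) k)) f d G ∧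
          (∃ c : k, ∀ a, (G a).eval p = c * (f a).eval p) ∧
          ∃ c : k, ∀ a, (G a).eval q = u a + c * (f a).eval q) ∧
      (∀ p : k, ∀ u : Fin (N + 1) → k,
        (∀ E ∈ (VF.van V : Set (MvPolynomial (Fin (N + 1)) k)),
          dv E (fun a => (f a).coeff d) u = 0) →
        ∃ G, Sec (VF.van V : Set (MvPolynomial (Fin (N + 1)) k)) f d G ∧
          (∃ c : k, ∀ a, (G a).eval p = c * (f a).eval p) ∧
          ∃ c : k, ∀ a, (G a).coeff d = u a + c * (f a).coeff d) := by
  have : Infinite k := IsAlgClosed.instInfinite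
  obtain ⟨s, hs⟩ := exists_s P hP
  have hev : ∀ x : k, (fun a => (pol F s a).eval x) = VF.val F x (s * x + 1) := by
    intro x
    funext a
    exact eval_pol F s x a
  have hco : (fun a => (pol F s a).coeff d) = VF.val F 1 s := by
    funext a
    exact coeff_pol F s a
  have hne : ∀ x : k, x ≠ 0 ∨ s * x + 1 ≠ 0 := by
    intro x
    by_cases hx : x = 0
    · right
      rw [hx, mul_zero, zero_add]
      exact one_ne_zero
    · exact Or.inl hx
  have hmem : ∀ x : k, (fun a => (pol F s a).eval x) ∈ V := by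
    intro x
    rw [hev x]
    exact hF _ _ (hne x)
  have hzero : ∀ y : Fin (N + 1) → k, (0 : Fin (N + 1) → k) ∈ VF.Tan V y := fun y =>
    Submodule.zero_mem _
  refine ⟨pol F s, fun i => (P i).1 / ((P i).2 - s * (P i).1), fun i j hij => ?_,
    natDegree_pol F s, hmem, ?_, fun i => ?_, fun E hE => ?_, fun p q hpq u hu => ?_,
    fun p u hu => ?_⟩
  · by_contra hne'
    apply hPP i j hne'
    have h1 : (P i).1 / ((P i).2 - s * (P i).1) = (P j).1 / ((P j).2 - s * (P j).1) := hij
    rw [div_eq_div_iff (hs i) (hs j)] at h1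
    linear_combination h1
  · rw [hco]
    exact hF _ _ (Or.inl one_ne_zero)
  · refine ⟨(((P i).2 - s * (P i).1)⁻¹) ^ d, pow_ne_zero _ (inv_ne_zero (hs i)), ?_⟩
    beta_reduce
    rw [hev, ← val_smul]
    have h1 : (P i).1 / ((P i).2 - s * (P i).1) = ((P i).2 - s * (P i).1)⁻¹ * (P i).1 := by
      rw [div_eq_inv_mul]
    have h2 : s * ((P i).1 / ((P i).2 - s * (P i).1)) + 1 =
        ((P i).2 - s * (P i).1)⁻¹ * (P i).2 := by
      have := hs i
      field_simp
      ring
    rw [h2, h1]
  · apply Polynomial.funext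
    intro x
    rw [dp_eval, eval_zero]
    exact dif_radial hV hE (hmem x)
  · have hu' : u ∈ VF.Tan V (VF.val F q (s * q + 1)) := by
      intro E hE
      rw [← dv_eq_dif, ← hev q]
      exact hu E hE
    obtain ⟨G, hG, ⟨b, hb⟩, b', hb'⟩ := hvf p (s * p + 1) q (s * q + 1)
      (by
        have h1 : p * (s * q + 1) - q * (s * p + 1) = p - q := by ring
        rw [h1]
        exact sub_ne_zero.2 hpq) 0 (hzero _) u hu'
    refine ⟨pol G s, sec_pol hG s, ⟨b, fun a => ?_⟩, b', fun a => ?_⟩
    · rw [eval_pol, eval_pol, hb]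
      simp
    · rw [eval_pol, eval_pol, hb']
      simp
  · have hu' : u ∈ VF.Tan V (VF.val F 1 s) := by
      intro E hE
      rw [← dv_eq_dif, ← hco]
      exact hu E hE
    obtain ⟨G, hG, ⟨b, hb⟩, b', hb'⟩ := hvf p (s * p + 1) 1 s
      (by
        have h1 : p * s - 1 * (s * p + 1) = -1 := by ring
        rw [h1]
        exact neg_ne_zero.2 one_ne_zero) 0 (hzero _) u hu'
    refine ⟨pol G s, sec_pol hG s, ⟨b, fun a => ?_⟩, b', fun a => ?_⟩
    · rw [eval_pol, eval_pol, hb]
      simp
    · rw [coeff_pol, coeff_pol, hb']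
      simp

end

end Pool.Agent.VFS
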