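import Pool.Agent.Lib_MP_1858fb_s.Iface
import Pool.Agent.Lib_MP_1858fb_s.ImgDef

/-! STUBS (statements only, never import this file in a result) of the smooth point add-on. -/

set_option autoImplicit false

namespace Pool.Agent.VFS

open Polynomial

section

variable {k : Type} [Field k] {N : ℕ} {V : Set (Fin (N + 1) → k)}

-- D2 (helper72, helper98): cover, file Start.lean ----------------------------------------------
/-- `V` is a cone, `F` very free (modulo the radial direction), `m` distinct points `P i` of the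
projective line: after a linear change of the parameter and the cover `X ↦ X ^ (m + 1)`. -/
theorem exists_start [IsAlgClosed k] (hV : VF.LocClosed V) {c d : ℕ} (hc : c < N)
    (hsm : ∀ x ∈ V, VF.SmoothAt c V x) {F : Fin (d + 1) → Fin (N + 1) → k}
    (hF : VF.IsCurve V F) (hvf : VF.VeryFree V F) {m : ℕ} (P : Fin m → k × k)
    (hP : ∀ i, P i ≠ 0) (hPP : ∀ i j, i ≠ j → (P i).1 * (P j).2 - (P j).1 * (P i).2 ≠ 0) :
    ∃ (D : ℕ) (c' : Fin m → k) (F0 : Fin (N + 1) → k[X]), Function.Injective c' ∧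
      Start V D m F0 ∧
      ∀ i, ∃ t : k, t ≠ 0 ∧ (fun a => (F0 a).eval (c' i)) = t • VF.val F (P i).1 (P i).2 := sorry

-- DEF (helper66, helper8): formal deformation with marks, file Def.lean --------------------------
theorem exists_deform [IsAlgClosed k] (hV : VF.LocClosed V) {cc : ℕ}
    (hsm : ∀ x ∈ V, VF.SmoothAt cc V x) {d m : ℕ} {F0 : Fin (N + 1) → k[X]}
    (h0 : Start V d m F0) (c : Fin m → k) (hc : Function.Injective c) {h : ℕ}
    (δ : Fin h → Fin (N + 1) → k[X]) (hδ : ∀ j, Sec (VF.van V : Set _) F0 (d - m) (δ j)) :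
    ∃ F : Fin (N + 1) → (MvPowerSeries (Fin h) k)[X], Deform V d c F0 δ F := sorry

-- MAT (helper28): Member.lean, exists_M and gcd_member, DONE

-- CERT (helper66): the system over the fraction field, file CertK.lean ----------------------------
theorem exists_cert_frac [IsAlgClosed k] (hV : VF.LocClosed V) {cc n : ℕ} (hn : 2 ≤ n)
    (hcc : cc + n = N) (hsm : ∀ x ∈ V, VF.SmoothAt cc V x) {d m : ℕ}
    {F0 : Fin (N + 1) → k[X]} (h0 : Start V d m F0) (c : Fin m → k)
    (hc : Function.Injective c) (v : Fin m → Fin (N + 1) → k) (a0 : Fin m → Fin (N + 1))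
    (hv : ∀ i, ∃ t : k, t ≠ 0 ∧ ∀ a, (F0 a).eval (c i) = t * v i a)
    (ha0 : ∀ i, v i (a0 i) = 1) (hvv : ∀ i j, i ≠ j → ¬ ∃ t : k, v i = t • v j) (i₀ : Fin m)
    {r : ℕ} (G : Fin r → MvPolynomial (Fin (N + 1)) k)
    (hG : ∀ l, ∃ e, 0 < e ∧ (G l).IsHomogeneous e)
    (hGV : ∀ x, x ∈ V ↔ (∀ E ∈ VF.van V, MvPolynomial.aeval x E = 0) ∧
      ∃ l, MvPolynomial.aeval x (G l) ≠ 0) :
    ∃ (h : ℕ) (x : k), Nonempty (Cert V n d c v a0 (c i₀) x G
      (FractionRing (MvPowerSeries (Fin h) k))) := sorry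

-- TRANS (helper95): the system descends, file CertTrans.lean --------------------------------------
theorem cert_descend [IsAlgClosed k] {n d m r : ℕ} {c : Fin m → k} {v : Fin m → Fin (N + 1) → k}
    {a0 : Fin m → Fin (N + 1)} {c₀ x : k} {G : Fin r → MvPolynomial (Fin (N + 1)) k}
    {K : Type} [Field K] [Algebra k K] (hK : Cert V n d c v a0 c₀ x G K) :
    Nonempty (Cert V n d c v a0 c₀ x G k) := sorry

-- GOOD (helper47): the meaning of the system, file CertGood.lean -----------------------------------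
theorem cert_good [IsAlgClosed k] {cc n : ℕ} (hcc : cc + n = N)
    (hsm : ∀ x ∈ V, VF.SmoothAt cc V x) {d m r : ℕ} {c : Fin m → k}
    (hc : Function.Injective c) {v : Fin m → Fin (N + 1) → k}
    {a0 : Fin m → Fin (N + 1)} (ha0 : ∀ i, v i (a0 i) = 1) {c₀ x : k}
    {G : Fin r → MvPolynomial (Fin (N + 1)) k} (hG : ∀ l, ∃ e, 0 < e ∧ (G l).IsHomogeneous e)
    (hGV : ∀ x, x ∈ V ↔ (∀ E ∈ VF.van V, MvPolynomial.aeval x E = 0) ∧
      ∃ l, MvPolynomial.aeval x (G l) ≠ 0)
    (h : Cert V n d c v a0 c₀ x G k) : Good V d c v c₀ x h.f := sorry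

-- CORE (helper66): AsmA.lean, replaces CERT + TRANS + GOOD ----------------------------------------
theorem smooth_core [IsAlgClosed k] (hV : VF.LocClosed V) {cc n : ℕ} (hn : 2 ≤ n)
    (hcc : cc + n = N) (hsm : ∀ x ∈ V, VF.SmoothAt cc V x) {d m : ℕ}
    {F0 : Fin (N + 1) → k[X]} (h0 : Start V d m F0) (hm : 0 < m) (c : Fin m → k)
    (hc : Function.Injective c) (v : Fin m → Fin (N + 1) → k)
    (hv : ∀ i, ∃ t : k, t ≠ 0 ∧ ∀ a, (F0 a).eval (c i) = t * v i a)
    (hvv : ∀ i j, i ≠ j → ∀ t : k, v i ≠ t • v j) :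
    ∃ (c₀ x : k) (f : Fin (N + 1) → k[X]), x ≠ c₀ ∧ Good V d c v c₀ x f := sorry

-- BACK (helper53, helper24): back to tuples of forms, file Back.lean --------------------------------
/-- from `Good` to a very free curve in the sense of the definitions -/
theorem good_veryFree [IsAlgClosed k] {cc n : ℕ} (hcc : cc + n = N)
    (hV : VF.LocClosed V) (hsm : ∀ x ∈ V, VF.SmoothAt cc V x) {d m : ℕ} {c : Fin m → k}
    {v : Fin m → Fin (N + 1) → k} {c₀ x : k} (hx : x ≠ c₀) {f : Fin (N + 1) → k[X]}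
    (h : Good V d c v c₀ x f) :
    VF.IsCurve V (fun (j : Fin (d + 1)) a => (f a).coeff j) ∧
      VF.VeryFree V (fun (j : Fin (d + 1)) a => (f a).coeff j) := sorry

-- IMG (helper32): the literal smooth point, file Img.lean -------------------------------------------
/-- if the fibre of `f` over `v` is one reduced point, then `v` is a smooth point of the image -/
theorem img_smooth [IsAlgClosed k] {d : ℕ} {f : Fin (N + 1) → k[X]}
    (hd : ∀ a, (f a).natDegree ≤ d) (h0 : ∀ x : k, ∃ a, (f a).eval x ≠ 0)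
    (hoo : ∃ a, (f a).coeff d ≠ 0) (c : k) (v : Fin (N + 1) → k)
    (hv : ∃ t : k, t ≠ 0 ∧ ∀ a, (f a).eval c = t * v a)
    (hu : ∀ x : k, (∃ t : k, ∀ a, (f a).eval x = t * v a) → x = c)
    (hui : ¬ ∃ t : k, ∀ a, (f a).coeff d = t * v a)
    (hi : ¬ ∃ t : k, ∀ a, (derivative (f a)).eval c = t * v a) :
    VF.SmoothAt (N - 1) (Img (fun (j : Fin (d + 1)) a => (f a).coeff j)) v := sorry

-- ONE (helper86, helper62): dimension one, file One.lean --------------------------------------------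
/-- in dimension one the image of a very free curve is `V` -/
theorem img_eq_of_dim_one [IsAlgClosed k] (hV : VF.LocClosed V) (hirr : VF.Irred V) {cc : ℕ}
    (hcc : cc + 1 = N) (hsm : ∀ x ∈ V, VF.SmoothAt cc V x) {d : ℕ}
    {F : Fin (d + 1) → Fin (N + 1) → k} (hF : VF.IsCurve V F) (hvf : VF.VeryFree V F) :
    Img F = V := sorry

end

end Pool.Agent.VFS
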