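import Pool.Agent.Lib_MP_1858fb_s.Iface
import Pool.Agent.Lib_MP_1858fb_s.ImgDef

/-! STUBS (statements only, never import this file in a result): what is still open. -/

set_option autoImplicit false

namespace Pool.Agent.VFS

open Polynomial

section

variable {k : Type} [Field k] {N : ℕ} {V : Set (Fin (N + 1) → k)}

-- BACK (helper53, helper24): back to tuples of forms, file Back.lean --------------------------------
/-- from `Good` to a very free curve in the sense of the definitions -/
theorem good_veryFree [IsAlgClosed k] {cc n : ℕ} (hcc : cc + n = N)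
    (hV : VF.LocClosed V) (hsm : ∀ x ∈ V, VF.SmoothAt cc V x) {d m : ℕ} {c : Fin m → k}
    {v : Fin m → Fin (N + 1) → k} {c₀ x : k} (hx : x ≠ c₀) {f : Fin (N + 1) → k[X]}
    (h : Good V d c v c₀ x f) :
    VF.IsCurve V (fun (j : Fin (d + 1)) a => (f a).coeff j) ∧
      VF.VeryFree V (fun (j : Fin (d + 1)) a => (f a).coeff j) := sorry

-- ONE (helper86, helper62): dimension one, file One.lean --------------------------------------------
/-- in dimension one the image of a very free curve is `V` -/
theorem img_eq_of_dim_one [IsAlgClosed k] (hV : VF.LocClosed V) (hirr : VF.Irred V) {cc : ℕ}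
    (hcc : cc + 1 = N) (hsm : ∀ x ∈ V, VF.SmoothAt cc V x) {d : ℕ}
    {F : Fin (d + 1) → Fin (N + 1) → k} (hF : VF.IsCurve V F) (hvf : VF.VeryFree V F) :
    Img F = V := sorry

end

end Pool.Agent.VFS
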