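import Pool.Agent.Lib_MP_1858fb_s.IfaceZ

/-! STUBS (never import in a result): add-on Z -/

set_option autoImplicit false

namespace Pool.Agent.VFS

open Polynomial

section

variable {k : Type} [Field k] {N : ℕ} {V : Set (Fin (N + 1) → k)}

-- Z1, file GcdZ.lean -------------------------------------------------------------------------
theorem gcd_Z [IsAlgClosed k] {d m h : ℕ} {F0 : Fin (N + 1) → k[X]} (h0 : Start V d m F0)
    {c : Fin m → k} (hc : Function.Injective c) {δ : Fin h → Fin (N + 1) → k[X]}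
    (hδ : ∀ j, Sec (VF.van V : Set _) F0 (d - m) (δ j))
    (hspan : ∀ G, Sec (VF.van V : Set _) F0 (d - m) G →
      ∃ c : Fin h → k, ∀ a, G a = ∑ j, C (c j) * δ j a)
    {F : Fin (N + 1) → (MvPowerSeries (Fin h) k)[X]} (hF : Deform V d c F0 δ F) (i : Fin m)
    {𝓔 : Set (MvPolynomial (Fin (N + 1)) k)} (hE : CodimTwo V 𝓔)
    (h1 : ∀ E ∈ 𝓔, MvPolynomial.aeval (fun a => (F0 a).eval (c i)) E = 0)
    (h2 : ∀ l, l ≠ i → ∃ E ∈ 𝓔, MvPolynomial.aeval (fun a => (F0 a).eval (c l)) E ≠ 0) :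
    ∃ (s : ℕ) (El : Fin s → MvPolynomial (Fin (N + 1)) k)
      (q : Fin s → (MvPowerSeries (Fin h) k)[X])
      (Q : Fin s → (FractionRing (MvPowerSeries (Fin h) k))[X]),
      (∀ l, El l ∈ 𝓔) ∧
      (∀ l, MvPolynomial.aeval F (El l) =
        (X - C (algebraMap k (MvPowerSeries (Fin h) k) (c i))) * q l) ∧
      ∑ l, Q l * (q l).map (algebraMap _ _) = 1 := sorry

-- Z2, file InfZ.lean -------------------------------------------------------------------------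
theorem inf_Z [IsAlgClosed k] {d m h : ℕ} {F0 : Fin (N + 1) → k[X]} (h0 : Start V d m F0)
    {c : Fin m → k} {δ : Fin h → Fin (N + 1) → k[X]}
    (hδ : ∀ j, Sec (VF.van V : Set _) F0 (d - m) (δ j))
    (hspan : ∀ G, Sec (VF.van V : Set _) F0 (d - m) G →
      ∃ c : Fin h → k, ∀ a, G a = ∑ j, C (c j) * δ j a)
    {F : Fin (N + 1) → (MvPowerSeries (Fin h) k)[X]} (hF : Deform V d c F0 δ F)
    {𝓔 : Set (MvPolynomial (Fin (N + 1)) k)} (hE : CodimTwo V 𝓔) :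
    ∃ E ∈ 𝓔, MvPolynomial.aeval (fun a => (F a).coeff d) E ≠ 0 := sorry

-- Z3, file TransZ.lean -----------------------------------------------------------------------
theorem certZ_descend [IsAlgClosed k] {n d m r : ℕ} {c : Fin m → k} {v : Fin m → Fin (N + 1) → k}
    {c₀ x : k} {G : Fin r → MvPolynomial (Fin (N + 1)) k} {s : Fin m → ℕ}
    {El : ∀ i, Fin (s i) → MvPolynomial (Fin (N + 1)) k}
    {Eo : Fin m → MvPolynomial (Fin (N + 1)) k}
    {K : Type} [Field K] [Algebra k K] (hK : CertZ V n d c v c₀ x G El Eo K) :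
    Nonempty (CertZ V n d c v c₀ x G El Eo k) := sorry

-- Z4, file GoodZ.lean ------------------------------------------------------------------------
theorem certZ_good [IsAlgClosed k] (hV : VF.LocClosed V) {cc n : ℕ} (hcc : cc + n = N)
    (hsm : ∀ x ∈ V, VF.SmoothAt cc V x) {d m r : ℕ} {c : Fin m → k}
    {v : Fin m → Fin (N + 1) → k} {c₀ x : k}
    {G : Fin r → MvPolynomial (Fin (N + 1)) k}
    (hGV : ∀ x, x ∈ V ↔ (∀ E ∈ VF.van V, MvPolynomial.aeval x E = 0) ∧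
      ∃ l, MvPolynomial.aeval x (G l) ≠ 0)
    {𝓔 : Fin m → Set (MvPolynomial (Fin (N + 1)) k)} {s : Fin m → ℕ}
    {El : ∀ i, Fin (s i) → MvPolynomial (Fin (N + 1)) k} (hEl : ∀ i l, El i l ∈ 𝓔 i)
    {Eo : Fin m → MvPolynomial (Fin (N + 1)) k} (hEo : ∀ i, Eo i ∈ 𝓔 i)
    (h : CertZ V n d c v c₀ x G El Eo k) : GoodZ V d c v 𝓔 c₀ x h.f := sorry

-- Z5, file AsmZ.lean (from Z1-Z4, as AsmA.lean) ----------------------------------------------
theorem core_Z [IsAlgClosed k] (hV : VF.LocClosed V) {cc : ℕ}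
    (hcc : cc < N) (hsm : ∀ x ∈ V, VF.SmoothAt cc V x) {d m : ℕ}
    {F0 : Fin (N + 1) → k[X]} (h0 : Start V d m F0) (hm : 0 < m) (c : Fin m → k)
    (hc : Function.Injective c) (v : Fin m → Fin (N + 1) → k)
    (hv : ∀ i, ∃ t : k, t ≠ 0 ∧ ∀ a, (F0 a).eval (c i) = t * v i a)
    (𝓔 : Fin m → Set (MvPolynomial (Fin (N + 1)) k)) (hE : ∀ i, CodimTwo V (𝓔 i))
    (h1 : ∀ i, ∀ E ∈ 𝓔 i, MvPolynomial.aeval (v i) E = 0)
    (h2 : ∀ i l, l ≠ i → ∃ E ∈ 𝓔 i, MvPolynomial.aeval (v l) E ≠ 0) :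
    ∃ (c₀ x : k) (f : Fin (N + 1) → k[X]), x ≠ c₀ ∧ GoodZ V d c v 𝓔 c₀ x f := sorry

-- Z6, file FinalZ.lean (from core_Z, exists_start, BACK) -------------------------------------
/-- **transversal curves**: through the points `v i`, meeting the zero set of `𝓔 i` only at the
point `c i` of the parameter line, and not tangentially -/
theorem exists_transversal [IsAlgClosed k] (hV : VF.LocClosed V) {cc : ℕ} (hcc : cc < N)
    (hsm : ∀ x ∈ V, VF.SmoothAt cc V x) {d : ℕ} {F : Fin (d + 1) → Fin (N + 1) → k}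
    (hF : VF.IsCurve V F) (hvf : VF.VeryFree V F) {m : ℕ} (hm : 0 < m)
    (v : Fin m → Fin (N + 1) → k) (hv : ∀ i, v i ∈ Img F)
    (𝓔 : Fin m → Set (MvPolynomial (Fin (N + 1)) k)) (hE : ∀ i, CodimTwo V (𝓔 i))
    (h1 : ∀ i, ∀ E ∈ 𝓔 i, MvPolynomial.aeval (v i) E = 0)
    (h2 : ∀ i l, l ≠ i → ∃ E ∈ 𝓔 i, MvPolynomial.aeval (v l) E ≠ 0) :
    ∃ (d' : ℕ) (F' : Fin (d' + 1) → Fin (N + 1) → k) (c : Fin m → k),
      VF.IsCurve V F' ∧ VF.VeryFree V F' ∧ Function.Injective c ∧ ∀ i,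
        (∃ t : k, t ≠ 0 ∧ VF.val F' 1 (c i) = t • v i) ∧
        (∀ p q : k, (p ≠ 0 ∨ q ≠ 0) →
          (∀ E ∈ 𝓔 i, MvPolynomial.aeval (VF.val F' p q) E = 0) → q = c i * p) ∧
        ∃ E ∈ 𝓔 i, VF.dif E (VF.val F' 1 (c i)) (dval F' (c i)) ≠ 0 := sorry

end

end Pool.Agent.VFS
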