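import Pool.Agent.Lib_MP_1858fb_s.S5

/-!
# Power series over polynomials versus polynomials over power series

`exists_delta`: a formal deformation `F : M → MvPowerSeries σ k[X]` of bounded degree with fixed divisor `P` is
`F₀ + P Δ` with `Δ` a tuple of polynomials over `MvPowerSeries σ k`.
-/

set_option autoImplicit false

namespace Pool.Agent.VFS

open Polynomial

section swap

variable {k σ : Type*} [Field k]

/-- `(k[[ξ]])[X] → (k[X])[[ξ]]` -/
noncomputable def swr : (MvPowerSeries σ k)[X] →+* MvPowerSeries σ k[X] :=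
  eval₂RingHom (MvPowerSeries.map (C : k →+* k[X])) (MvPowerSeries.C (X : k[X]))

theorem coeff_swr (p : (MvPowerSeries σ k)[X]) (μ : σ →₀ ℕ) (n : ℕ) :
    (MvPowerSeries.coeff μ (swr p)).coeff n = MvPowerSeries.coeff μ (p.coeff n) := by
  induction p using Polynomial.induction_on' with
  | add p q hp hq => rw [map_add, map_add, coeff_add, coeff_add, hp, hq, map_add]
  | monomial m a =>
    have h1 : swr (monomial m a) = MvPowerSeries.C (X ^ m : k[X]) * MvPowerSeries.map (C : k →+* k[X]) a := by
      unfold swr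
      rw [coe_eval₂RingHom, eval₂_monomial, ← map_pow, mul_comm]
    rw [h1, MvPowerSeries.coeff_C_mul, MvPowerSeries.coeff_map, mul_comm, coeff_C_mul, coeff_X_pow, coeff_monomial]
    by_cases h : n = m
    · subst h; simp
    · rw [if_neg h, if_neg (Ne.symm h), mul_zero, map_zero]

theorem swr_inj : Function.Injective (swr : (MvPowerSeries σ k)[X] →+* MvPowerSeries σ k[X]) := by
  intro p q h
  ext n μ
  rw [← coeff_swr, ← coeff_swr, h]

/-- the same map as a map of `k`-algebras -/
noncomputable def swa : (MvPowerSeries σ k)[X] →ₐ[k] MvPowerSeries σ k[X] :=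
  { swr with
    commutes' := by
      intro c
      classical
      refine MvPowerSeries.ext fun μ => Polynomial.ext fun n => ?_
      show (MvPowerSeries.coeff μ (swr (algebraMap k (MvPowerSeries σ k)[X] c))).coeff n = _
      rw [coeff_swr, Polynomial.algebraMap_apply, MvPowerSeries.algebraMap_apply, MvPowerSeries.algebraMap_apply,
        Polynomial.coeff_C, MvPowerSeries.coeff_C, Algebra.algebraMap_self_apply, Polynomial.algebraMap_apply,
        Algebra.algebraMap_self_apply]
      split_ifs with h1 h2 h2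
      · rw [h1, coeff_C_zero, MvPowerSeries.coeff_C, if_pos h2]
      · rw [MvPowerSeries.coeff_C, if_neg h2, coeff_zero]
      · rw [map_zero, coeff_C, if_neg h1]
      · rw [map_zero, coeff_zero] }

theorem swa_apply (p : (MvPowerSeries σ k)[X]) : swa p = swr p := rfl

/-- the coefficients of `X ^ n`, as a power series -/
noncomputable def sec (f : MvPowerSeries σ k[X]) (n : ℕ) : MvPowerSeries σ k :=
  fun μ => (MvPowerSeries.coeff μ f).coeff n

theorem coeff_sec (f : MvPowerSeries σ k[X]) (n : ℕ) (μ : σ →₀ ℕ) :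
    MvPowerSeries.coeff μ (sec f n) = (MvPowerSeries.coeff μ f).coeff n := rfl

/-- the inverse of `swr` on series with coefficients of degree at most `d` -/
noncomputable def unsw (d : ℕ) (f : MvPowerSeries σ k[X]) : (MvPowerSeries σ k)[X] :=
  ∑ n ∈ Finset.range (d + 1), monomial n (sec f n)

theorem coeff_unsw (d : ℕ) (f : MvPowerSeries σ k[X]) (n : ℕ) (μ : σ →₀ ℕ) :
    MvPowerSeries.coeff μ ((unsw d f).coeff n) = if n ≤ d then (MvPowerSeries.coeff μ f).coeff n else 0 := by
  unfold unsw
  rw [finsetSum_coeff]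
  simp only [coeff_monomial]
  rw [Finset.sum_ite_eq']
  by_cases h : n ≤ d
  · rw [if_pos (Finset.mem_range.2 (by omega)), if_pos h, coeff_sec]
  · rw [if_neg (fun h' => h (by have := Finset.mem_range.1 h'; omega)), if_neg h, map_zero]

theorem natDegree_unsw (d : ℕ) (f : MvPowerSeries σ k[X]) : (unsw d f).natDegree ≤ d := by
  rw [natDegree_le_iff_coeff_eq_zero]
  intro n hn
  refine MvPowerSeries.ext fun μ => ?_
  rw [coeff_unsw, if_neg (by omega), map_zero]

theorem swr_unsw (d : ℕ) (f : MvPowerSeries σ k[X]) (hf : ∀ μ, (MvPowerSeries.coeff μ f).natDegree ≤ d) :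
    swr (unsw d f) = f := by
  refine MvPowerSeries.ext fun μ => Polynomial.ext fun n => ?_
  rw [coeff_swr, coeff_unsw]
  split_ifs with h
  · rfl
  · exact (coeff_eq_zero_of_natDegree_lt (lt_of_le_of_lt (hf μ) (by omega))).symm

theorem swr_map (q : k[X]) : swr (q.map (algebraMap k (MvPowerSeries σ k))) = MvPowerSeries.C q := by
  classical
  refine MvPowerSeries.ext fun μ => Polynomial.ext fun n => ?_
  rw [coeff_swr, coeff_map, MvPowerSeries.algebraMap_apply, MvPowerSeries.coeff_C, MvPowerSeries.coeff_C,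
    Algebra.algebraMap_self_apply]
  split_ifs <;> simp

/-- a formal deformation with fixed divisor `P`, written as `F₀ + P Δ` over `(k[[ξ]])[X]` -/
theorem exists_delta {M : Type*} (I : Ideal (MvPolynomial M k)) (d : ℕ) (P : k[X]) (hP : P.Monic)
    (F0 : M → k[X]) (δ : σ → M → k[X]) (F : M → MvPowerSeries σ k[X])
    (hd : ∀ j μ, (MvPowerSeries.coeff μ (F j)).natDegree ≤ d)
    (hdvd : ∀ j μ, μ ≠ 0 → P ∣ MvPowerSeries.coeff μ (F j))
    (h0 : ∀ j, MvPowerSeries.constantCoeff (F j) = F0 j)
    (h1 : ∀ i j, MvPowerSeries.coeff (Finsupp.single i 1) (F j) = P * δ i j)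
    (hE : ∀ E ∈ I, MvPolynomial.aeval F E = 0) :
    ∃ Δ : M → (MvPowerSeries σ k)[X],
      (∀ a, (Δ a).natDegree ≤ d - P.natDegree) ∧
      (∀ a n, MvPowerSeries.constantCoeff ((Δ a).coeff n) = 0) ∧
      (∀ j a n, MvPowerSeries.coeff (Finsupp.single j 1) ((Δ a).coeff n) = (δ j a).coeff n) ∧
      ∀ E ∈ I, MvPolynomial.aeval (defF F0 P Δ) E = 0 := by
  classical
  let Δ' : M → MvPowerSeries σ k[X] := fun a μ => if μ = 0 then 0 else (MvPowerSeries.coeff μ (F a)) /ₘ P
  have hΔ' : ∀ a μ, MvPowerSeries.coeff μ (Δ' a) = if μ = 0 then 0 else (MvPowerSeries.coeff μ (F a)) /ₘ P :=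
    fun a μ => rfl
  have hPdiv : ∀ f : k[X], P ∣ f → P * (f /ₘ P) = f := by
    intro f hf
    have h2 := modByMonic_add_div f P
    rwa [(modByMonic_eq_zero_iff_dvd hP).2 hf, zero_add] at h2
  have hPF : ∀ a, MvPowerSeries.C (F0 a) + MvPowerSeries.C P * Δ' a = F a := by
    intro a
    refine MvPowerSeries.ext fun μ => ?_
    rw [map_add, MvPowerSeries.coeff_C, MvPowerSeries.coeff_C_mul, hΔ']
    split_ifs with h
    · rw [mul_zero, add_zero, h, MvPowerSeries.coeff_zero_eq_constantCoeff_apply, h0]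
    · rw [zero_add, hPdiv _ (hdvd a μ h)]
  have hdeg : ∀ a μ, (MvPowerSeries.coeff μ (Δ' a)).natDegree ≤ d - P.natDegree := by
    intro a μ
    rw [hΔ']
    split_ifs with h
    · simp
    · rw [natDegree_divByMonic _ hP]
      exact Nat.sub_le_sub_right (hd a μ) _
  have hsingle : ∀ j : σ, (Finsupp.single j 1 : σ →₀ ℕ) ≠ 0 := by
    intro j h
    have := DFunLike.congr_fun h j
    rw [Finsupp.single_eq_same, Finsupp.coe_zero, Pi.zero_apply] at this
    exact one_ne_zero this
  have hδ : ∀ j a, MvPowerSeries.coeff (Finsupp.single j 1) (Δ' a) = δ j a := by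
    intro j a
    rw [hΔ', if_neg (hsingle j), h1]
    exact mul_divByMonic_cancel_left _ hP
  refine ⟨fun a => unsw (d - P.natDegree) (Δ' a), fun a => natDegree_unsw _ _, ?_, ?_, ?_⟩
  · intro a n
    rw [← MvPowerSeries.coeff_zero_eq_constantCoeff_apply, coeff_unsw, hΔ']
    simp
  · intro j a n
    rw [coeff_unsw, hδ]
    split_ifs with h
    · rfl
    · have h2 := hdeg a (Finsupp.single j 1)
      rw [hδ] at h2
      exact (coeff_eq_zero_of_natDegree_lt (lt_of_le_of_lt h2 (by omega))).symm
  · intro E hEI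
    apply swr_inj
    rw [map_zero, ← hE E hEI]
    have h2 : ∀ a, swa (defF F0 P (fun a => unsw (d - P.natDegree) (Δ' a)) a) = F a := by
      intro a
      rw [swa_apply]
      unfold defF
      rw [map_add, map_mul, swr_map, swr_map, swr_unsw _ _ (hdeg a), hPF]
    have h3 := MvPolynomial.comp_aeval_apply (R := k) (f := defF F0 P (fun a => unsw (d - P.natDegree) (Δ' a)))
      swa E
    rw [← swa_apply, h3]
    congr 2
    exact funext h2

end swap

end Pool.Agent.VFS
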